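import Mathlib

/-!
# Division by a Hermitian-like element: `exp (a D) + exp (b D) - 2 = c D` with `c` invertible
-/

set_option autoImplicit false

open Filter Topology MeasureTheory

noncomputable section

namespace Pool.Agent.Q192.ExpUnit

section comm

variable {E : Type*} [NormedCommRing E] [NormedAlgebra ℂ E] [CompleteSpace E]

theorem continuous_exp_smul (d : E) : Continuous fun t : ℝ => NormedSpace.exp ((t : ℂ) • d) := by
  let _ : NormedAlgebra ℚ E := NormedAlgebra.restrictScalars ℚ ℂ E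
  exact NormedSpace.exp_continuous.comp (Complex.continuous_ofReal.smul continuous_const)

theorem integral_mul (d : E) (a : ℝ) :
    d * (∫ t in (0 : ℝ)..a, NormedSpace.exp ((t : ℂ) • d)) = NormedSpace.exp ((a : ℂ) • d) - 1 := by
  have h1 : ∀ t : ℝ, HasDerivAt (fun t : ℝ => NormedSpace.exp ((t : ℂ) • d))
      (d * NormedSpace.exp ((t : ℂ) • d)) t := by
    intro t
    have h2 := (hasDerivAt_exp_smul_const' (𝕂 := ℂ) d (t : ℂ)).scomp t
      (Complex.ofRealCLM.hasDerivAt (x := t))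
    rw [Complex.ofRealCLM_apply, Complex.ofReal_one, one_smul] at h2
    exact h2
  have h3 := intervalIntegral.integral_eq_sub_of_hasDerivAt (a := (0 : ℝ)) (b := a)
    (fun t _ => h1 t) ((continuous_const.mul (continuous_exp_smul d)).intervalIntegrable _ _)
  have h4 := (ContinuousLinearMap.mul ℂ E d).intervalIntegral_comp_comm
    ((continuous_exp_smul d).intervalIntegrable 0 a (μ := volume))
  have h5 : (∫ t in (0 : ℝ)..a, d * NormedSpace.exp ((t : ℂ) • d)) =
      d * ∫ t in (0 : ℝ)..a, NormedSpace.exp ((t : ℂ) • d) := h4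
  rw [← h5, h3]
  simp

/-- the divided difference `∫_0^a exp (t d) dt + ∫_0^b exp (t d) dt` -/
def cc (d : E) (a b : ℝ) : E :=
  (∫ t in (0 : ℝ)..a, NormedSpace.exp ((t : ℂ) • d)) +
    ∫ t in (0 : ℝ)..b, NormedSpace.exp ((t : ℂ) • d)

theorem mul_cc (d : E) (a b : ℝ) : d * cc d a b =
    NormedSpace.exp ((a : ℂ) • d) + NormedSpace.exp ((b : ℂ) • d) - 2 := by
  rw [cc, mul_add, integral_mul, integral_mul]
  ring

theorem char_cc (χ : WeakDual.characterSpace ℂ E) (d : E) (s : ℝ) (hs : χ d = s) (a b : ℝ) :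
    χ (cc d a b) = (((∫ t in (0 : ℝ)..a, Real.exp (t * s)) +
      ∫ t in (0 : ℝ)..b, Real.exp (t * s) : ℝ) : ℂ) := by
  let _ : NormedAlgebra ℚ E := NormedAlgebra.restrictScalars ℚ ℂ E
  have h1 : ∀ a : ℝ, χ (∫ t in (0 : ℝ)..a, NormedSpace.exp ((t : ℂ) • d)) =
      ((∫ t in (0 : ℝ)..a, Real.exp (t * s) : ℝ) : ℂ) := by
    intro a
    have h2 := (WeakDual.CharacterSpace.toCLM χ).intervalIntegral_comp_comm
      ((continuous_exp_smul d).intervalIntegrable 0 a (μ := volume))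
    have h3 : (WeakDual.CharacterSpace.toCLM χ) (∫ t in (0 : ℝ)..a, NormedSpace.exp ((t : ℂ) • d)) =
      χ (∫ t in (0 : ℝ)..a, NormedSpace.exp ((t : ℂ) • d)) := rfl
    rw [← h3, ← h2, ← intervalIntegral.integral_ofReal]
    refine intervalIntegral.integral_congr (fun t _ => ?_)
    change χ (NormedSpace.exp ((t : ℂ) • d)) = _
    have h4 : χ (NormedSpace.exp ((t : ℂ) • d)) = NormedSpace.exp (χ ((t : ℂ) • d)) :=
      NormedSpace.map_exp (WeakDual.CharacterSpace.toAlgHom χ) (map_continuous χ) _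
    rw [h4, map_smul, hs, ← Complex.exp_eq_exp_ℂ]
    push_cast
    rfl
  rw [cc, map_add, h1, h1]
  push_cast
  rfl

theorem char_real (χ : WeakDual.characterSpace ℂ E) (d : E) (M : ℝ)
    (hM : ∀ t : ℝ, ‖NormedSpace.exp (((t : ℂ) * Complex.I) • d)‖ ≤ M) :
    ∃ s : ℝ, χ d = s := by
  let _ : NormedAlgebra ℚ E := NormedAlgebra.restrictScalars ℚ ℂ E
  refine ⟨(χ d).re, ?_⟩
  have h0 : ∀ t : ℝ, Real.exp (-(t * (χ d).im)) ≤ ‖WeakDual.CharacterSpace.toCLM χ‖ * M := by
    intro t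
    have h4 : χ (NormedSpace.exp (((t : ℂ) * Complex.I) • d)) =
        NormedSpace.exp (χ (((t : ℂ) * Complex.I) • d)) :=
      NormedSpace.map_exp (WeakDual.CharacterSpace.toAlgHom χ) (map_continuous χ) _
    have h5 : ‖χ (NormedSpace.exp (((t : ℂ) * Complex.I) • d))‖ = Real.exp (-(t * (χ d).im)) := by
      rw [h4, map_smul, ← Complex.exp_eq_exp_ℂ, Complex.norm_exp]
      congr 1
      simp
    rw [← h5]
    calc ‖χ (NormedSpace.exp (((t : ℂ) * Complex.I) • d))‖
        ≤ ‖WeakDual.CharacterSpace.toCLM χ‖ * ‖NormedSpace.exp (((t : ℂ) * Complex.I) • d)‖ :=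
          (WeakDual.CharacterSpace.toCLM χ).le_opNorm _
      _ ≤ _ := by gcongr; exact hM t
  have him : (χ d).im = 0 := by
    by_contra hne
    set y := (χ d).im with hy
    obtain ⟨n, hn⟩ := exists_nat_gt (‖WeakDual.CharacterSpace.toCLM χ‖ * M)
    have h1 := h0 (-(n : ℝ) / y)
    have h2 : -(-(n : ℝ) / y * y) = n := by field_simp
    rw [h2] at h1
    have h3 := Real.add_one_le_exp (n : ℝ)
    linarith
  apply Complex.ext
  · simp
  · simp [him]

theorem isUnit_cc (d : E) (M : ℝ) (hM : ∀ t : ℝ, ‖NormedSpace.exp (((t : ℂ) * Complex.I) • d)‖ ≤ M)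
    (a b : ℝ) (ha : 0 ≤ a) (hb : 0 < b) : IsUnit (cc d a b) := by
  by_contra hu
  obtain ⟨χ, hχ⟩ := WeakDual.CharacterSpace.exists_apply_eq_zero hu
  obtain ⟨s, hs⟩ := char_real χ d M hM
  rw [char_cc χ d s hs] at hχ
  have h1 : 0 ≤ ∫ t in (0 : ℝ)..a, Real.exp (t * s) :=
    intervalIntegral.integral_nonneg ha (fun t _ => (Real.exp_pos _).le)
  have h2 : 0 < ∫ t in (0 : ℝ)..b, Real.exp (t * s) := by
    refine intervalIntegral.intervalIntegral_pos_of_pos ?_ (fun t => Real.exp_pos _) hb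
    exact (Real.continuous_exp.comp (continuous_id.mul continuous_const)).intervalIntegrable _ _
  have h3 : (∫ t in (0 : ℝ)..a, Real.exp (t * s)) + ∫ t in (0 : ℝ)..b, Real.exp (t * s) = 0 := by
    exact_mod_cast hχ
  linarith

end comm

section general

variable {E : Type*} [NormedRing E] [NormedAlgebra ℂ E] [CompleteSpace E]

/-- In a Banach algebra, if `exp (i t D)` is bounded for real `t`, then `D` is a left multiple of
`exp (a D) + exp (b D) - 2` (for `a ≥ 0`, `b > 0`). -/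
theorem exists_mul (D : E) (M : ℝ)
    (hM : ∀ t : ℝ, ‖NormedSpace.exp (((t : ℂ) * Complex.I) • D)‖ ≤ M)
    (a b : ℝ) (ha : 0 ≤ a) (hb : 0 < b) :
    ∃ u : E, u * (NormedSpace.exp ((a : ℂ) • D) + NormedSpace.exp ((b : ℂ) • D) - 2) = D := by
  let _ : NormedCommRing (Algebra.elemental ℂ D) :=
    { (inferInstance : NormedRing (Algebra.elemental ℂ D)) with
      mul_comm := mul_comm (G := Algebra.elemental ℂ D) }
  have _ : CompleteSpace (Algebra.elemental ℂ D) :=
    (Algebra.elemental.isClosed ℂ D).completeSpace_coe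
  let _ : NormedAlgebra ℚ E := NormedAlgebra.restrictScalars ℚ ℂ E
  let _ : NormedAlgebra ℚ (Algebra.elemental ℂ D) :=
    NormedAlgebra.restrictScalars ℚ ℂ (Algebra.elemental ℂ D)
  set d : Algebra.elemental ℂ D := ⟨D, Algebra.elemental.self_mem ℂ D⟩ with hd
  let ι : Algebra.elemental ℂ D →ₐ[ℂ] E := (Algebra.elemental ℂ D).val
  have hι : Continuous ι := continuous_subtype_val
  have hexp : ∀ x : Algebra.elemental ℂ D, ((NormedSpace.exp x : Algebra.elemental ℂ D) : E) =
      NormedSpace.exp (x : E) := fun x => NormedSpace.map_exp ι hι x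
  have hM' : ∀ t : ℝ, ‖NormedSpace.exp (((t : ℂ) * Complex.I) • d)‖ ≤ M := by
    intro t
    have h1 : ‖NormedSpace.exp (((t : ℂ) * Complex.I) • d)‖ =
        ‖((NormedSpace.exp (((t : ℂ) * Complex.I) • d) : Algebra.elemental ℂ D) : E)‖ := rfl
    rw [h1, hexp]
    exact hM t
  obtain ⟨c, hc⟩ := isUnit_cc d M hM' a b ha hb
  have h2 := mul_cc d a b
  refine ⟨((↑c⁻¹ : Algebra.elemental ℂ D) : E), ?_⟩
  have h3 : (↑c⁻¹ : Algebra.elemental ℂ D) *
      (NormedSpace.exp ((a : ℂ) • d) + NormedSpace.exp ((b : ℂ) • d) - 2) = d := by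
    rw [← h2, ← hc, mul_comm d, ← mul_assoc, Units.inv_mul, one_mul]
  have h4 := congrArg (fun x : Algebra.elemental ℂ D => (x : E)) h3
  have h5 : (((↑c⁻¹ : Algebra.elemental ℂ D) *
      (NormedSpace.exp ((a : ℂ) • d) + NormedSpace.exp ((b : ℂ) • d) - 2) :
        Algebra.elemental ℂ D) : E) = ((↑c⁻¹ : Algebra.elemental ℂ D) : E) *
      (((NormedSpace.exp ((a : ℂ) • d) : Algebra.elemental ℂ D) : E) +
        ((NormedSpace.exp ((b : ℂ) • d) : Algebra.elemental ℂ D) : E) - 2) := rfl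
  rw [h5, hexp, hexp] at h4
  exact h4

end general

end Pool.Agent.Q192.ExpUnit
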