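import Mathlib
import Pool.Agent.Q192.ExpUnit

/-!
# The equation `P^l W P^(1-l) + P^(1-l) W P^l = 2 W P` in a C*-algebra
-/

set_option autoImplicit false
set_option linter.unusedSectionVars false

open Filter Topology

noncomputable section

namespace Pool.Agent.Q192.AluthgeA

section banach

variable {A : Type*} [NormedRing A] [NormedAlgebra ℂ A] [CompleteSpace A]

theorem exp_clm (φ : A →L[ℂ] (A →L[ℂ] A)) (a : A) (h : ∀ n : ℕ, (φ a) ^ n = φ (a ^ n)) :
    NormedSpace.exp (φ a) = φ (NormedSpace.exp a) := by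
  rw [NormedSpace.exp_eq_tsum ℂ, NormedSpace.exp_eq_tsum ℂ]
  simp only [h, ← map_smul]
  exact (φ.map_tsum (NormedSpace.expSeries_summable' a)).symm

/-- left multiplication -/
def Lm : A →L[ℂ] (A →L[ℂ] A) := ContinuousLinearMap.mul ℂ A

/-- right multiplication -/
def Rm : A →L[ℂ] (A →L[ℂ] A) := (ContinuousLinearMap.mul ℂ A).flip

theorem Lm_apply (a x : A) : Lm a x = a * x := rfl

theorem Rm_apply (a x : A) : Rm a x = x * a := rfl

theorem Lm_pow (a : A) (n : ℕ) : (Lm a) ^ n = Lm (a ^ n) := by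
  induction n with
  | zero =>
    ext x
    rw [pow_zero, pow_zero, Lm_apply, one_mul]
    rfl
  | succ n ih =>
    ext x
    rw [pow_succ, ih, pow_succ, Lm_apply, mul_assoc]
    rfl

theorem Rm_pow (a : A) (n : ℕ) : (Rm a) ^ n = Rm (a ^ n) := by
  induction n with
  | zero =>
    ext x
    rw [pow_zero, pow_zero, Rm_apply, mul_one]
    rfl
  | succ n ih =>
    ext x
    rw [pow_succ, ih, pow_succ', Rm_apply, ← mul_assoc]
    rfl

theorem comm_LR (a b : A) : Commute (Lm a) (Rm b) := by
  ext x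
  change a * (x * b) = a * x * b
  rw [mul_assoc]

/-- the derivation `x ↦ a x - x a` -/
def ad (a : A) : A →L[ℂ] A := Lm a - Rm a

theorem exp_ad (a : A) (z : ℂ) (x : A) :
    NormedSpace.exp (z • ad a) x = NormedSpace.exp (z • a) * x * NormedSpace.exp (-(z • a)) := by
  let _ : NormedAlgebra ℚ (A →L[ℂ] A) := NormedAlgebra.restrictScalars ℚ ℂ (A →L[ℂ] A)
  have h1 : z • ad a = Lm (z • a) + Rm (-(z • a)) := by
    rw [ad, smul_sub, map_smul, map_neg, map_smul]
    abel
  rw [h1, NormedSpace.exp_add_of_commute (comm_LR _ _), exp_clm _ _ (Lm_pow _),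
    exp_clm _ _ (Rm_pow _)]
  change NormedSpace.exp (z • a) * (x * NormedSpace.exp (-(z • a))) = _
  rw [mul_assoc]

end banach

section cstar

variable {A : Type*} [CStarAlgebra A]

theorem norm_one_le : ‖(1 : A)‖ ≤ 1 := by
  rcases subsingleton_or_nontrivial A with h | h
  · rw [Subsingleton.elim (1 : A) 0, norm_zero]
    exact zero_le_one
  · rw [norm_one]

theorem norm_unitary_le {u : A} (hu : u ∈ unitary A) : ‖u‖ ≤ 1 := by
  have h1 : ‖u‖ * ‖u‖ ≤ 1 := by
    rw [← CStarRing.norm_star_mul_self, Unitary.star_mul_self_of_mem hu]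
    exact norm_one_le
  nlinarith [norm_nonneg u]

theorem exp_unitary {a : A} (ha : IsSelfAdjoint a) (t : ℝ) :
    NormedSpace.exp (((t : ℂ) * Complex.I) • a) ∈ unitary A := by
  have h1 := (selfAdjoint.expUnitary (⟨t • a, (IsSelfAdjoint.all t).smul ha⟩ : selfAdjoint A)).2
  rw [selfAdjoint.expUnitary_coe] at h1
  have h2 : Complex.I • ((⟨t • a, (IsSelfAdjoint.all t).smul ha⟩ : selfAdjoint A) : A) =
      ((t : ℂ) * Complex.I) • a := by
    change Complex.I • (t • a) = _
    rw [← Complex.coe_smul, smul_smul, mul_comm]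
  rwa [h2] at h1

theorem norm_exp_ad_le {a : A} (ha : IsSelfAdjoint a) (t : ℝ) :
    ‖NormedSpace.exp (((t : ℂ) * Complex.I) • ad a)‖ ≤ 1 := by
  refine ContinuousLinearMap.opNorm_le_bound _ zero_le_one (fun x => ?_)
  rw [exp_ad]
  have h1 := norm_unitary_le (exp_unitary ha t)
  have h2 : -((((t : ℂ) * Complex.I)) • a) = (((-t : ℝ) : ℂ) * Complex.I) • a := by
    rw [← neg_smul]
    push_cast
    ring_nf
  have h3 := norm_unitary_le (exp_unitary ha (-t))
  rw [← h2] at h3
  calc ‖NormedSpace.exp (((t : ℂ) * Complex.I) • a) * x *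
        NormedSpace.exp (-(((t : ℂ) * Complex.I) • a))‖
      ≤ ‖NormedSpace.exp (((t : ℂ) * Complex.I) • a)‖ * ‖x‖ *
        ‖NormedSpace.exp (-(((t : ℂ) * Complex.I) • a))‖ :=
        (norm_mul_le _ _).trans (by gcongr; exact norm_mul_le _ _)
    _ ≤ 1 * ‖x‖ * 1 := by gcongr
    _ = 1 * ‖x‖ := by ring

/-- If `a` is self-adjoint and `e^(l a) V e^(-l a) + e^(m a) V e^(-m a) = 2 V` with `l ≥ 0` and
`m > 0`, then `V` commutes with `a`. -/
theorem commute_of_exp {a : A} (ha : IsSelfAdjoint a) (V : A) (l m : ℝ) (hl : 0 ≤ l) (hm : 0 < m)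
    (h : NormedSpace.exp ((l : ℂ) • a) * V * NormedSpace.exp (-((l : ℂ) • a)) +
      NormedSpace.exp ((m : ℂ) • a) * V * NormedSpace.exp (-((m : ℂ) • a)) = 2 * V) :
    a * V = V * a := by
  obtain ⟨u, hu⟩ := ExpUnit.exists_mul (ad a) 1 (norm_exp_ad_le ha) l m hl hm
  have h1 : (NormedSpace.exp ((l : ℂ) • ad a) + NormedSpace.exp ((m : ℂ) • ad a) - 2) V = 0 := by
    change NormedSpace.exp ((l : ℂ) • ad a) V + NormedSpace.exp ((m : ℂ) • ad a) V -
      (2 : A →L[ℂ] A) V = 0
    rw [exp_ad, exp_ad, h]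
    have h2 : (2 : A →L[ℂ] A) V = 2 * V := by
      have : (2 : A →L[ℂ] A) = 1 + 1 := by norm_num
      rw [this]
      change V + V = 2 * V
      rw [two_mul]
    rw [h2, sub_self]
  have h3 : ad a V = 0 := by
    rw [← hu]
    change u ((NormedSpace.exp ((l : ℂ) • ad a) + NormedSpace.exp ((m : ℂ) • ad a) - 2) V) = 0
    rw [h1, map_zero]
  exact sub_eq_zero.1 h3

/-- the power `P^s` (continuous functional calculus) -/
def pw (P : A) (s : ℝ) : A := cfc (fun x : ℝ => x ^ s) P

theorem exp_log {P : A} (hP : IsSelfAdjoint P) (hpos : ∀ x ∈ spectrum ℝ P, 0 < x) (s : ℝ) :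
    NormedSpace.exp ((s : ℂ) • cfc Real.log P) = pw P s := by
  have hc : ContinuousOn Real.log (spectrum ℝ P) :=
    Real.continuousOn_log.mono (fun x hx => (hpos x hx).ne')
  have h1 : (s : ℂ) • cfc Real.log P = cfc (fun x => s * Real.log x) P := by
    rw [Complex.coe_smul, ← cfc_smul s Real.log P hc]
    rfl
  have hsa : IsSelfAdjoint (cfc (fun x => s * Real.log x) P) := cfc_predicate _ _
  rw [h1, ← CFC.real_exp_eq_normedSpace_exp hsa, ← cfc_comp' Real.exp _ P]
  refine cfc_congr (fun x hx => ?_)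
  rw [Real.rpow_def_of_pos (hpos x hx), mul_comm]

theorem pw_add {P : A} (hP : IsSelfAdjoint P) (hpos : ∀ x ∈ spectrum ℝ P, 0 < x) (s t : ℝ) :
    pw P s * pw P t = pw P (s + t) := by
  have hc : ∀ s : ℝ, ContinuousOn (fun x : ℝ => x ^ s) (spectrum ℝ P) := fun s x hx =>
    (Real.continuousAt_rpow_const x s (Or.inl (hpos x hx).ne')).continuousWithinAt
  rw [pw, pw, ← cfc_mul _ _ P (hc s) (hc t)]
  exact cfc_congr (fun x hx => (Real.rpow_add (hpos x hx) s t).symm)

theorem pw_zero {P : A} (_hP : IsSelfAdjoint P) : pw P 0 = 1 := by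
  rw [pw]
  simp only [Real.rpow_zero]
  exact cfc_const_one ℝ P

theorem pw_one {P : A} (hP : IsSelfAdjoint P) : pw P 1 = P := by
  rw [pw]
  simp only [Real.rpow_one]
  exact cfc_id' ℝ P

/-- the case of an invertible positive element -/
theorem commute_of_pos {P : A} (hP : IsSelfAdjoint P) (hpos : ∀ x ∈ spectrum ℝ P, 0 < x) (W : A)
    (l : ℝ) (hl : 0 ≤ l) (hl1 : l < 1)
    (h : pw P l * W * pw P (1 - l) + pw P (1 - l) * W * pw P l = 2 * (W * P)) :
    P * W = W * P := by
  set a := cfc Real.log P with ha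
  have hsa : IsSelfAdjoint a := cfc_predicate _ _
  have he : ∀ s : ℝ, NormedSpace.exp ((s : ℂ) • a) = pw P s := exp_log hP hpos
  have he' : ∀ s : ℝ, NormedSpace.exp (-((s : ℂ) • a)) = pw P (-s) := by
    intro s
    rw [← he, ← neg_smul]
    push_cast
    rfl
  have h1 : a * W = W * a := by
    refine commute_of_exp hsa W l (1 - l) hl (by linarith) ?_
    rw [he, he, he', he']
    have h2 := congrArg (fun y => y * pw P (-1)) h
    have e1 : pw P (1 - l) * pw P (-1) = pw P (-l) := by
      rw [pw_add hP hpos]; congr 1; ring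
    have e2 : pw P l * pw P (-1) = pw P (-(1 - l)) := by
      rw [pw_add hP hpos]; congr 1; ring
    have e3 : P * pw P (-1) = 1 := by
      have : P * pw P (-1) = pw P 1 * pw P (-1) := by rw [pw_one hP]
      rw [this, pw_add hP hpos, add_neg_cancel, pw_zero hP]
    calc pw P l * W * pw P (-l) + pw P (1 - l) * W * pw P (-(1 - l))
        = (pw P l * W * pw P (1 - l) + pw P (1 - l) * W * pw P l) * pw P (-1) := by
          rw [← e1, ← e2, add_mul]
          simp only [mul_assoc]
      _ = 2 * (W * P) * pw P (-1) := h2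
      _ = 2 * W := by rw [mul_assoc, mul_assoc, e3, mul_one]
  have h3 : P = NormedSpace.exp a := by
    have := he 1
    rw [Complex.ofReal_one, one_smul, pw_one hP] at this
    exact this.symm
  have h4 : Commute a W := h1
  let _ : NormedAlgebra ℚ A := NormedAlgebra.restrictScalars ℚ ℂ A
  have h5 : Commute W (NormedSpace.exp a) := Commute.exp_right h4.symm
  rw [← h3] at h5
  exact h5.eq.symm

theorem continuous_rpow {s : ℝ} (hs : 0 ≤ s) : Continuous fun x : ℝ => x ^ s :=
  Real.continuous_rpow_const hs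

/-- cut-off -/
def cut (ε : ℝ) (x : ℝ) : ℝ := min 1 (max 0 (x / ε - 1))

theorem continuous_cut (ε : ℝ) : Continuous (cut ε) := by
  unfold cut
  fun_prop

theorem cut_zero {ε x : ℝ} (hε : 0 < ε) (hx : x ≤ ε) : cut ε x = 0 := by
  have : x / ε ≤ 1 := (div_le_one hε).2 hx
  rw [cut, max_eq_left (by linarith)]
  exact min_eq_right zero_le_one

theorem cut_one {ε x : ℝ} (hε : 0 < ε) (hx : 2 * ε ≤ x) : cut ε x = 1 := by
  have : 2 ≤ x / ε := (le_div_iff₀ hε).2 hx
  rw [cut, max_eq_right (by linarith)]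
  exact min_eq_left (by linarith)

theorem cut_mem (ε x : ℝ) : 0 ≤ cut ε x ∧ cut ε x ≤ 1 :=
  ⟨le_min zero_le_one (le_max_left _ _), min_le_left _ _⟩

/-- localisation of the equation away from zero -/
theorem commute_cut {P : A} (hP : IsSelfAdjoint P) (hnn : ∀ x ∈ spectrum ℝ P, 0 ≤ x) (V : A)
    (l : ℝ) (hl : 0 ≤ l) (hl1 : l < 1)
    (h : pw P l * V * pw P (1 - l) + pw P (1 - l) * V * pw P l = 2 * (V * P))
    {ε : ℝ} (hε : 0 < ε) :
    P * (cfc (cut ε) P * V * cfc (cut ε) P) = cfc (cut ε) P * V * cfc (cut ε) P * P := by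
  set f := cfc (cut ε) P with hf
  set P' := cfc (fun x : ℝ => max x ε) P with hP'
  have hP's : IsSelfAdjoint P' := cfc_predicate _ _
  have hcm : Continuous fun x : ℝ => max x ε := by fun_prop
  have hspec : ∀ x ∈ spectrum ℝ P', 0 < x := by
    intro x hx
    rw [hP', cfc_map_spectrum (fun x : ℝ => max x ε) P] at hx
    obtain ⟨y, -, rfl⟩ := hx
    exact lt_of_lt_of_le hε (le_max_right _ _)
  have hpw : ∀ s : ℝ, 0 ≤ s → pw P' s * f = pw P s * f := by
    intro s hs
    have h1 : pw P' s = cfc (fun x : ℝ => (max x ε) ^ s) P := by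
      rw [pw, hP', ← cfc_comp' (fun x : ℝ => x ^ s) (fun x : ℝ => max x ε) P
        (continuous_rpow hs).continuousOn hcm.continuousOn]
    rw [h1, pw, hf, ← cfc_mul (fun x : ℝ => (max x ε) ^ s) _ P
      ((continuous_rpow hs).comp hcm).continuousOn (continuous_cut ε).continuousOn,
      ← cfc_mul _ _ P (continuous_rpow hs).continuousOn (continuous_cut ε).continuousOn]
    refine cfc_congr (fun x _ => ?_)
    rcases le_total x ε with hx | hx
    · simp only [cut_zero hε hx, mul_zero]
    · simp only [max_eq_left hx]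
  have hcomm : ∀ s : ℝ, f * pw P s = pw P s * f := by
    intro s
    exact (cfc_commute_cfc (cut ε) (fun x : ℝ => x ^ s) P).eq
  have hcomm' : ∀ s : ℝ, 0 ≤ s → f * pw P' s = pw P s * f := by
    intro s hs
    have h1 : pw P' s = cfc (fun x : ℝ => (max x ε) ^ s) P := by
      rw [pw, hP', ← cfc_comp' (fun x : ℝ => x ^ s) (fun x : ℝ => max x ε) P
        (continuous_rpow hs).continuousOn hcm.continuousOn]
    have h2 : f * pw P' s = pw P' s * f := by
      rw [h1, hf]
      exact (cfc_commute_cfc _ _ P).eq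
    rw [h2, hpw s hs]
  have hP1 : P * f = P' * f := by
    have := hpw 1 zero_le_one
    rwa [pw_one hP, pw_one hP's, eq_comm] at this
  have hP2 : f * P = f * P' := by
    have h1 := hcomm' 1 zero_le_one
    have h2 := hcomm 1
    rw [pw_one hP] at h1 h2
    rw [pw_one hP's] at h1
    rw [h1, h2]
  have key := commute_of_pos hP's hspec (f * V * f) l hl hl1 ?_
  · calc P * (f * V * f) = P' * (f * V * f) := by
          rw [← mul_assoc, ← mul_assoc, hP1, mul_assoc P', mul_assoc P']
      _ = f * V * f * P' := key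
      _ = f * V * f * P := by rw [mul_assoc, mul_assoc, ← hP2, ← mul_assoc, ← mul_assoc]
  · have e1 : ∀ s t : ℝ, 0 ≤ s → 0 ≤ t → pw P' s * (f * V * f) * pw P' t =
        f * (pw P s * V * pw P t) * f := by
      intro s t hs ht
      calc pw P' s * (f * V * f) * pw P' t = (pw P' s * f) * V * (f * pw P' t) := by
            simp only [mul_assoc]
        _ = (pw P s * f) * V * (pw P t * f) := by rw [hpw s hs, hcomm' t ht]
        _ = (f * pw P s) * V * (pw P t * f) := by rw [hcomm s]
        _ = f * (pw P s * V * pw P t) * f := by simp only [mul_assoc]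
    rw [e1 l (1 - l) hl (by linarith), e1 (1 - l) l (by linarith) hl, ← add_mul, ← mul_add, h]
    have e2 : f * (2 * (V * P)) * f = 2 * (f * V * (P * f)) := by
      rw [two_mul, two_mul, mul_add, add_mul]
      simp only [mul_assoc]
    have e3 : P * f = f * P := by
      have := hcomm 1
      rw [pw_one hP] at this
      exact this.symm
    rw [e2, e3, hP2, ← mul_assoc (f * V)]

/-- convergence of the cut-offs -/
theorem tendsto_cut {P : A} (hP : IsSelfAdjoint P) (hnn : ∀ x ∈ spectrum ℝ P, 0 ≤ x) {s : ℝ}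
    (hs : 0 < s) :
    Tendsto (fun n : ℕ => cfc (cut (1 / ((n : ℝ) + 1))) P * pw P s) atTop (𝓝 (pw P s)) := by
  rw [tendsto_iff_norm_sub_tendsto_zero]
  have hlim : Tendsto (fun n : ℕ => (2 * (1 / ((n : ℝ) + 1))) ^ s) atTop (𝓝 0) := by
    have h1 : Tendsto (fun n : ℕ => 2 * (1 / ((n : ℝ) + 1))) atTop (𝓝 0) := by
      have := (tendsto_one_div_add_atTop_nhds_zero_nat (𝕜 := ℝ)).const_mul 2
      rwa [mul_zero] at this
    have h2 := h1.rpow_const (p := s) (Or.inr hs.le)
    rwa [Real.zero_rpow hs.ne'] at h2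
  refine squeeze_zero (fun n => norm_nonneg _) (fun n => ?_) hlim
  have hε : (0 : ℝ) < 1 / ((n : ℝ) + 1) := by positivity
  set ε := 1 / ((n : ℝ) + 1) with hεd
  rw [pw, ← cfc_mul _ _ P (continuous_cut ε).continuousOn (continuous_rpow hs.le).continuousOn,
    ← cfc_sub (fun x => cut ε x * x ^ s) (fun x => x ^ s) P
      ((continuous_cut ε).mul (continuous_rpow hs.le)).continuousOn
      (continuous_rpow hs.le).continuousOn]
  refine norm_cfc_le (by positivity) (fun x hx => ?_)
  have hx0 := hnn x hx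
  rcases le_total (2 * ε) x with h | h
  · rw [cut_one hε h, one_mul, sub_self, norm_zero]
    positivity
  · have h1 := cut_mem ε x
    have h2 : cut ε x * x ^ s - x ^ s = -((1 - cut ε x) * x ^ s) := by ring
    rw [h2, norm_neg, Real.norm_of_nonneg (mul_nonneg (by linarith) (Real.rpow_nonneg hx0 s))]
    calc (1 - cut ε x) * x ^ s ≤ 1 * x ^ s := by
          gcongr
          linarith
      _ = x ^ s := one_mul _
      _ ≤ (2 * ε) ^ s := Real.rpow_le_rpow hx0 h hs.le

/-- the general case: `P V P = V P P` -/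
theorem commute_general {P : A} (hP : IsSelfAdjoint P) (hnn : ∀ x ∈ spectrum ℝ P, 0 ≤ x) (V : A)
    (l : ℝ) (hl : 0 ≤ l) (hl1 : l < 1)
    (h : pw P l * V * pw P (1 - l) + pw P (1 - l) * V * pw P l = 2 * (V * P)) :
    P * V * P = V * P * P := by
  rcases hl.eq_or_lt with rfl | hl0
  · rw [pw_zero hP, sub_zero, pw_one hP, one_mul, mul_one, two_mul] at h
    have h1 : P * V = V * P := add_left_cancel h
    rw [h1]
  set F : ℕ → A := fun n => cfc (cut (1 / ((n : ℝ) + 1))) P with hF
  have hFP : Tendsto (fun n => F n * P) atTop (𝓝 P) := by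
    have := tendsto_cut hP hnn one_pos
    rwa [pw_one hP] at this
  have hPF : Tendsto (fun n => P * F n) atTop (𝓝 P) := by
    refine hFP.congr (fun n => ?_)
    have h1 := (cfc_commute_cfc (cut (1 / ((n : ℝ) + 1))) (fun x : ℝ => x) P).eq
    rwa [cfc_id' ℝ P] at h1
  -- `F n V P → V P`
  have hFVP : Tendsto (fun n => F n * (V * P)) atTop (𝓝 (V * P)) := by
    have h1 : Tendsto (fun n => F n * (pw P l * V * pw P (1 - l) + pw P (1 - l) * V * pw P l))
        atTop (𝓝 (pw P l * V * pw P (1 - l) + pw P (1 - l) * V * pw P l)) := by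
      have e1 := ((tendsto_cut hP hnn hl0).mul_const (V * pw P (1 - l)))
      have e2 := ((tendsto_cut hP hnn (show 0 < 1 - l by linarith)).mul_const (V * pw P l))
      have e3 := e1.add e2
      have e4 : pw P l * (V * pw P (1 - l)) + pw P (1 - l) * (V * pw P l) =
          pw P l * V * pw P (1 - l) + pw P (1 - l) * V * pw P l := by simp only [mul_assoc]
      rw [e4] at e3
      refine e3.congr (fun n => ?_)
      simp only [mul_assoc, mul_add]
      rfl
    rw [h] at h1
    have h2 := h1.const_mul ((1 / 2 : ℂ) • (1 : A))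
    have e5 : ∀ y : A, ((1 / 2 : ℂ) • (1 : A)) * (2 * y) = y := by
      intro y
      rw [smul_mul_assoc, one_mul, two_mul, ← two_smul ℂ y, smul_smul]
      norm_num
    rw [e5] at h2
    refine h2.congr (fun n => ?_)
    have e6 : F n * (2 * (V * P)) = 2 * (F n * (V * P)) := by
      rw [two_mul, two_mul, mul_add]
    rw [e6, e5]
  have hcut : ∀ n, P * (F n * V * F n) = F n * V * F n * P := fun n =>
    commute_cut hP hnn V l hl hl1 h (by positivity)
  -- multiply by `P` on the right and pass to the limit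
  have hL : Tendsto (fun n => P * (F n * V * F n) * P) atTop (𝓝 (P * V * P)) := by
    have e1 := (hPF.mul_const V).mul hFP
    refine e1.congr (fun n => ?_)
    simp only [mul_assoc]
  have hR : Tendsto (fun n => F n * V * F n * P * P) atTop (𝓝 (V * P * P)) := by
    -- `F V F P P = F V P P - F V (P - F P) P`
    have e1 : Tendsto (fun n => F n * (V * P) * P) atTop (𝓝 (V * P * P)) := hFVP.mul_const P
    have e2 : Tendsto (fun n => F n * V * ((F n * P - P) * P)) atTop (𝓝 0) := by
      have e3 : Tendsto (fun n => (F n * P - P) * P) atTop (𝓝 0) := by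
        have := (hFP.sub_const P).mul_const P
        rwa [sub_self, zero_mul] at this
      refine squeeze_zero_norm (a := fun n => ‖V‖ * ‖(F n * P - P) * P‖) (fun n => ?_) ?_
      · have e4 : ‖F n‖ ≤ 1 := norm_cfc_le zero_le_one (fun x _ => by
          have := cut_mem (1 / ((n : ℝ) + 1)) x
          rw [Real.norm_of_nonneg this.1]
          exact this.2)
        calc ‖F n * V * ((F n * P - P) * P)‖ ≤ ‖F n * V‖ * ‖(F n * P - P) * P‖ := norm_mul_le _ _
          _ ≤ (‖F n‖ * ‖V‖) * ‖(F n * P - P) * P‖ := by gcongr; exact norm_mul_le _ _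
          _ ≤ (1 * ‖V‖) * ‖(F n * P - P) * P‖ := by gcongr
          _ = ‖V‖ * ‖(F n * P - P) * P‖ := by rw [one_mul]
      · have := (e3.norm).const_mul ‖V‖
        rwa [norm_zero, mul_zero] at this
    have e5 := e1.add e2
    rw [add_zero] at e5
    refine e5.congr (fun n => ?_)
    noncomm_ring
  have hLR : (fun n => P * (F n * V * F n) * P) = fun n => F n * V * F n * P * P := by
    funext n
    rw [hcut]
  rw [hLR] at hL
  exact tendsto_nhds_unique hL hR

end cstar

end Pool.Agent.Q192.AluthgeA
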