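import Mathlib
import Pool.Agent.Q192.AluthgeA

/-!
# Fixed points of the mean `λ`-Aluthge transform
-/

set_option autoImplicit false
set_option linter.unusedSectionVars false

open Filter Topology

noncomputable section

namespace Pool.Agent.Q192.AluthgeB

open Pool.Agent.Q192.AluthgeA

variable {H : Type*} [NormedAddCommGroup H] [InnerProductSpace ℂ H] [CompleteSpace H]

/-- `|T| = (T* T)^(1/2)` (continuous functional calculus) -/
def absOp (T : H →L[ℂ] H) : H →L[ℂ] H := cfc Real.sqrt (star T * T)

/-- the power `P^s` of a positive operator (continuous functional calculus) -/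
def power (P : H →L[ℂ] H) (s : ℝ) : H →L[ℂ] H := cfc (fun x : ℝ => x ^ s) P

/-- `T = V |T|` is the canonical polar decomposition: `V` is a partial isometry whose kernel is
the kernel of `T`. -/
structure IsPolar (T V : H →L[ℂ] H) : Prop where
  eq : T = V * absOp T
  partialIsometry : V * star V * V = V
  ker : ∀ x, V x = 0 ↔ T x = 0

/-- the `μ`-Aluthge transform `|T|^μ V |T|^(1-μ)` -/
def aluthge (T V : H →L[ℂ] H) (μ : ℝ) : H →L[ℂ] H :=
  power (absOp T) μ * V * power (absOp T) (1 - μ)

/-- the mean `l`-Aluthge transform -/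
def meanAluthge (T V : H →L[ℂ] H) (l : ℝ) : H →L[ℂ] H :=
  (1 / 2 : ℂ) • (aluthge T V l + aluthge T V (1 - l))

/-- `T` is quasi-normal: it commutes with `T* T`. -/
def QuasiNormal (T : H →L[ℂ] H) : Prop := T * (star T * T) = (star T * T) * T

theorem sa_abs (T : H →L[ℂ] H) : IsSelfAdjoint (absOp T) := cfc_predicate _ _

theorem spec_abs (T : H →L[ℂ] H) : ∀ x ∈ spectrum ℝ (absOp T), 0 ≤ x := by
  intro x hx
  rw [absOp, cfc_map_spectrum Real.sqrt (star T * T)] at hx
  obtain ⟨y, -, rfl⟩ := hx
  exact Real.sqrt_nonneg y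

theorem abs_mul_abs (T : H →L[ℂ] H) : absOp T * absOp T = star T * T := by
  have h1 : IsSelfAdjoint (star T * T) := IsSelfAdjoint.star_mul_self T
  rw [absOp, ← cfc_mul Real.sqrt Real.sqrt _ Real.continuous_sqrt.continuousOn
    Real.continuous_sqrt.continuousOn]
  have h2 : cfc (fun x : ℝ => Real.sqrt x * Real.sqrt x) (star T * T) =
      cfc (fun x : ℝ => x) (star T * T) := by
    refine cfc_congr (fun x hx => ?_)
    have h3 : 0 ≤ x := spectrum_nonneg_of_nonneg (star_mul_self_nonneg T) hx
    exact Real.mul_self_sqrt h3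
  rw [h2, cfc_id' ℝ (star T * T)]

/-- an operator vanishing on the range and on the kernel of a self-adjoint operator is zero -/
theorem zero_of {P Z : H →L[ℂ] H} (hP : IsSelfAdjoint P) (h1 : Z * P = 0)
    (h2 : ∀ x, P x = 0 → Z x = 0) : Z = 0 := by
  ext y
  have hc : CompleteSpace P.ker := P.isClosed_ker.completeSpace_coe
  obtain ⟨k, hk, r, hr, rfl⟩ := (P.ker).exists_add_mem_mem_orthogonal y
  rw [ContinuousLinearMap.orthogonal_ker] at hr
  have hPa : ContinuousLinearMap.adjoint P = P := hP.star_eq
  rw [hPa] at hr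
  have h3 : (P.range).topologicalClosure ≤ Z.ker := by
    refine Submodule.topologicalClosure_minimal _ ?_ Z.isClosed_ker
    rintro x ⟨z, rfl⟩
    have := congrArg (fun W : H →L[ℂ] H => W z) h1
    exact this
  have h4 : Z r = 0 := h3 hr
  have h5 : Z k = 0 := h2 k hk
  rw [map_add, h4, h5, add_zero]
  rfl

theorem star_abs (T : H →L[ℂ] H) : star T * T = absOp T * absOp T := (abs_mul_abs T).symm

theorem ker_abs {T V : H →L[ℂ] H} (h : IsPolar T V) {x : H} (hx : absOp T x = 0) : V x = 0 := by
  rw [h.ker, h.eq]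
  change V (absOp T x) = 0
  rw [hx, map_zero]

theorem comm_of {T V : H →L[ℂ] H} (h : IsPolar T V)
    (h1 : absOp T * V * absOp T = V * absOp T * absOp T) : V * absOp T = absOp T * V := by
  have h2 : V * absOp T - absOp T * V = 0 := by
    refine zero_of (sa_abs T) ?_ (fun x hx => ?_)
    · rw [sub_mul, h1, sub_self]
    · change V (absOp T x) - absOp T (V x) = 0
      rw [hx, ker_abs h hx, map_zero, map_zero, sub_zero]
  exact sub_eq_zero.1 h2

theorem pw_mul_pw {P : H →L[ℂ] H} (hP : IsSelfAdjoint P) (hnn : ∀ x ∈ spectrum ℝ P, 0 ≤ x)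
    {s t : ℝ} (hs : 0 ≤ s) (ht : 0 ≤ t) (hst : s + t = 1) : power P s * power P t = P := by
  rw [power, power, ← cfc_mul _ _ P (continuous_rpow hs).continuousOn
    (continuous_rpow ht).continuousOn]
  have h2 : cfc (fun x : ℝ => x ^ s * x ^ t) P = cfc (fun x : ℝ => x) P := by
    refine cfc_congr (fun x hx => ?_)
    rw [← Real.rpow_add_of_nonneg (hnn x hx) hs ht, hst, Real.rpow_one]
  rw [h2, cfc_id' ℝ P]

/-- **Theorem.** For `0 ≤ l < 1` the fixed points of the mean `l`-Aluthge transform are exactly
the quasi-normal operators. -/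
theorem fixed_iff {T V : H →L[ℂ] H} (h : IsPolar T V) (l : ℝ) (hl : 0 ≤ l) (hl1 : l ≤ 1) :
    meanAluthge T V l = T ↔ QuasiNormal T := by
  set P := absOp T with hP
  have hsa : IsSelfAdjoint P := sa_abs T
  have hnn := spec_abs T
  have hhalf : ∀ y : H →L[ℂ] H, (1 / 2 : ℂ) • (2 * y) = y := by
    intro y
    rw [two_mul, ← two_smul ℂ y, smul_smul]
    norm_num
  constructor
  · intro hfix
    have h1 : power P l * V * power P (1 - l) + power P (1 - l) * V * power P l =
        2 * (V * P) := by
      have h2 := congrArg (fun y => (2 : H →L[ℂ] H) * y) hfix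
      have h3 : (2 : H →L[ℂ] H) * meanAluthge T V l = aluthge T V l + aluthge T V (1 - l) := by
        rw [meanAluthge, mul_smul_comm, hhalf]
      have h4 : (2 : H →L[ℂ] H) * T = 2 * (V * P) := by rw [← h.eq]
      have h5 : aluthge T V l + aluthge T V (1 - l) = 2 * (V * P) := by
        rw [← h3, ← h4]
        exact h2
      unfold aluthge at h5
      rw [sub_sub_cancel] at h5
      exact h5
    have h6 : P * V * P = V * P * P := by
      rcases hl1.eq_or_lt with rfl | hlt
      · refine commute_general hsa hnn V 0 le_rfl one_pos ?_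
        rw [sub_self] at h1
        rw [sub_zero, add_comm]
        exact h1
      · exact commute_general hsa hnn V l hl hlt h1
    have h7 : V * P = P * V := comm_of h h6
    unfold QuasiNormal
    rw [star_abs, ← hP]
    conv_lhs => rw [h.eq]
    conv_rhs => rw [h.eq]
    rw [← hP]
    calc V * P * (P * P) = (V * P) * P * P := by simp only [mul_assoc]
      _ = P * V * P * P := by rw [h7]
      _ = P * (V * P) * P := by simp only [mul_assoc]
      _ = P * (P * V) * P := by rw [h7]
      _ = P * P * (V * P) := by simp only [mul_assoc]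
  · intro hq
    have h1 : Commute (star T * T) T := hq.symm
    have h2 : Commute P T := by
      rw [hP, absOp]
      exact h1.cfc_real _
    have h3 : P * V * P = V * P * P := by
      have h4 := h2.eq
      rw [h.eq, ← hP, ← mul_assoc] at h4
      exact h4
    have h5 : V * P = P * V := comm_of h h3
    have h6 : ∀ s : ℝ, power P s * V = V * power P s := by
      intro s
      exact ((show Commute P V from h5.symm).cfc_real _).eq
    have h7 : ∀ s : ℝ, 0 ≤ s → s ≤ 1 → aluthge T V s = T := by
      intro s hs hs1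
      rw [aluthge, ← hP, h6, mul_assoc, pw_mul_pw hsa hnn hs (by linarith) (by ring)]
      exact h.eq.symm
    rw [meanAluthge, h7 l hl hl1, h7 (1 - l) (by linarith) (by linarith), ← two_mul, hhalf]

end Pool.Agent.Q192.AluthgeB
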