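import Mathlib

/-!
# Drazin invertibility of upper triangular operator matrices: definitions
-/

set_option autoImplicit false

namespace Pool.Agent.Q192.Drazin

open ContinuousLinearMap

variable {H K : Type*} [NormedAddCommGroup H] [InnerProductSpace ℂ H]
  [NormedAddCommGroup K] [InnerProductSpace ℂ K]

/-- the kernel of an operator -/
def Nul {X : Type*} [NormedAddCommGroup X] [NormedSpace ℂ X] (T : X →L[ℂ] X) : Submodule ℂ X :=
  LinearMap.ker (T : X →ₗ[ℂ] X)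

/-- the range of an operator -/
def Ran {X : Type*} [NormedAddCommGroup X] [NormedSpace ℂ X] (T : X →L[ℂ] X) : Submodule ℂ X :=
  LinearMap.range (T : X →ₗ[ℂ] X)

/-- the ascent: the least `k` with `N(T^(k+1)) = N(T^k)`, or `∞` -/
noncomputable def asc {X : Type*} [NormedAddCommGroup X] [NormedSpace ℂ X] (T : X →L[ℂ] X) : ℕ∞ :=
  ⨅ k ∈ {k : ℕ | Nul (T ^ (k + 1)) = Nul (T ^ k)}, (k : ℕ∞)

/-- the descent: the least `k` with `R(T^(k+1)) = R(T^k)`, or `∞` -/
noncomputable def dsc {X : Type*} [NormedAddCommGroup X] [NormedSpace ℂ X] (T : X →L[ℂ] X) : ℕ∞ :=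
  ⨅ k ∈ {k : ℕ | Ran (T ^ (k + 1)) = Ran (T ^ k)}, (k : ℕ∞)

/-- left Drazin invertible: `asc T` is finite and `R(T^(asc T + 1))` is closed -/
def LeftDrazin {X : Type*} [NormedAddCommGroup X] [NormedSpace ℂ X] (T : X →L[ℂ] X) : Prop :=
  ∃ k : ℕ, asc T = k ∧ IsClosed (Ran (T ^ (k + 1)) : Set X)

/-- right Drazin invertible: `dsc T` is finite and `R(T^(dsc T))` is closed -/
def RightDrazin {X : Type*} [NormedAddCommGroup X] [NormedSpace ℂ X] (T : X →L[ℂ] X) : Prop :=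
  ∃ k : ℕ, dsc T = k ∧ IsClosed (Ran (T ^ k) : Set X)

/-- Drazin invertible: the ascent and the descent are finite -/
def DrazinInvertible {X : Type*} [NormedAddCommGroup X] [NormedSpace ℂ X] (T : X →L[ℂ] X) : Prop :=
  asc T ≠ ⊤ ∧ dsc T ≠ ⊤

/-- the dimension of a subspace, with values in `{0, 1, 2, ..., ∞}` -/
noncomputable def dimen {X : Type*} [NormedAddCommGroup X] [NormedSpace ℂ X] (V : Submodule ℂ X) :
    ℕ∞ :=
  Cardinal.toENat (Module.rank ℂ V)

/-- Condition (iii): there is `δ > 0` with `d(A - l) = n(B - l)` for `0 < |l| < δ`. -/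
def CondIII (A : H →L[ℂ] H) (B : K →L[ℂ] K) : Prop :=
  ∃ δ : ℝ, 0 < δ ∧ ∀ l : ℂ, 0 < ‖l‖ → ‖l‖ < δ →
    dimen (Ran (A - l • 1))ᗮ = dimen (Nul (B - l • 1))

/-- the subspace `S = R(A) + N(A^p)` -/
def SS (A : H →L[ℂ] H) (p : ℕ) : Submodule ℂ H := Ran A ⊔ Nul (A ^ p)

/-- the subspace `T`, the closure of `N(B) ∩ R(B^p)` -/
def TT (B : K →L[ℂ] K) (p : ℕ) : Submodule ℂ K := (Nul B ⊓ Ran (B ^ p)).topologicalClosure

/-- Condition (E): `S` is closed and `dim S^⊥ = dim T`. -/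
def CondE (A : H →L[ℂ] H) (B : K →L[ℂ] K) (p : ℕ) : Prop :=
  IsClosed (SS A p : Set H) ∧ dimen (SS A p)ᗮ = dimen (TT B p)

/-- `C` is admissible: it is an invertible operator from `T` onto `S^⊥` and is zero on `T^⊥`. -/
def Admissible (A : H →L[ℂ] H) (B : K →L[ℂ] K) (p : ℕ) (C : K →L[ℂ] H) : Prop :=
  ∃ J : TT B p ≃L[ℂ] (SS A p)ᗮ, (∀ t : TT B p, C t = J t) ∧ ∀ x ∈ (TT B p)ᗮ, C x = 0

/-- the operator matrix with rows `(A, C)` and `(0, B)` on `H ⊕ K` -/
noncomputable def MM (A : H →L[ℂ] H) (B : K →L[ℂ] K) (C : K →L[ℂ] H) : H × K →L[ℂ] H × K :=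
  (A.comp (fst ℂ H K) + C.comp (snd ℂ H K)).prod (B.comp (snd ℂ H K))

theorem MM_apply (A : H →L[ℂ] H) (B : K →L[ℂ] K) (C : K →L[ℂ] H) (x : H × K) :
    MM A B C x = (A x.1 + C x.2, B x.2) := rfl

section general

variable {X : Type*} [NormedAddCommGroup X] [NormedSpace ℂ X] (T : X →L[ℂ] X)

theorem mem_Nul {T : X →L[ℂ] X} {x : X} : x ∈ Nul T ↔ T x = 0 := LinearMap.mem_ker

theorem mem_Ran {T : X →L[ℂ] X} {x : X} : x ∈ Ran T ↔ ∃ y, T y = x := LinearMap.mem_range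

theorem pow_succ_apply (n : ℕ) (x : X) : (T ^ (n + 1)) x = T ((T ^ n) x) := by
  rw [pow_succ']
  rfl

theorem pow_succ_apply' (n : ℕ) (x : X) : (T ^ (n + 1)) x = (T ^ n) (T x) := by
  rw [pow_succ]
  rfl

theorem pow_add_apply (m n : ℕ) (x : X) : (T ^ (m + n)) x = (T ^ m) ((T ^ n) x) := by
  rw [pow_add]
  rfl

theorem Nul_mono {m n : ℕ} (h : m ≤ n) : Nul (T ^ m) ≤ Nul (T ^ n) := by
  intro x hx
  rw [mem_Nul] at hx ⊢
  obtain ⟨k, rfl⟩ := Nat.exists_eq_add_of_le h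
  rw [add_comm, pow_add_apply, hx, map_zero]

theorem Ran_anti {m n : ℕ} (h : m ≤ n) : Ran (T ^ n) ≤ Ran (T ^ m) := by
  intro x hx
  rw [mem_Ran] at hx ⊢
  obtain ⟨k, rfl⟩ := Nat.exists_eq_add_of_le h
  obtain ⟨y, rfl⟩ := hx
  exact ⟨(T ^ k) y, by rw [pow_add_apply]⟩

theorem Nul_stable {k : ℕ} (h : Nul (T ^ (k + 1)) = Nul (T ^ k)) (n : ℕ) :
    Nul (T ^ (k + n)) = Nul (T ^ k) := by
  induction n with
  | zero => rfl
  | succ n ih =>
    refine le_antisymm ?_ (Nul_mono T (by omega))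
    intro x hx
    rw [mem_Nul] at hx
    have h1 : (T ^ n) x ∈ Nul (T ^ (k + 1)) := by
      rw [mem_Nul, ← pow_add_apply]
      have : k + 1 + n = k + (n + 1) := by ring
      rwa [this]
    rw [h, mem_Nul, ← pow_add_apply] at h1
    rw [← ih, mem_Nul]
    exact h1

theorem Ran_stable {k : ℕ} (h : Ran (T ^ (k + 1)) = Ran (T ^ k)) (n : ℕ) :
    Ran (T ^ (k + n)) = Ran (T ^ k) := by
  induction n with
  | zero => rfl
  | succ n ih =>
    refine le_antisymm (Ran_anti T (by omega)) ?_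
    intro x hx
    rw [← h, mem_Ran] at hx
    obtain ⟨y, rfl⟩ := hx
    have h1 : (T ^ k) y ∈ Ran (T ^ (k + n)) := by
      rw [ih, mem_Ran]
      exact ⟨y, rfl⟩
    rw [mem_Ran] at h1
    obtain ⟨z, hz⟩ := h1
    rw [mem_Ran]
    refine ⟨z, ?_⟩
    rw [← add_assoc, pow_succ_apply, hz, pow_succ_apply]

theorem asc_le_iff {p : ℕ} : asc T ≤ p ↔ Nul (T ^ (p + 1)) = Nul (T ^ p) := by
  constructor
  · intro h
    by_contra hne
    have h1 : ((p + 1 : ℕ) : ℕ∞) ≤ asc T := by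
      refine le_iInf₂ fun k hk => ?_
      have h2 : p < k := by
        by_contra hkp
        apply hne
        obtain ⟨m, rfl⟩ := Nat.exists_eq_add_of_le (not_lt.1 hkp)
        rw [Nul_stable T hk m]
        have := Nul_stable T hk (m + 1)
        rw [← add_assoc] at this
        exact this
      exact_mod_cast h2
    have h3 := h1.trans h
    have h4 : p + 1 ≤ p := by exact_mod_cast h3
    omega
  · intro h
    exact iInf₂_le p h

theorem dsc_le_iff {p : ℕ} : dsc T ≤ p ↔ Ran (T ^ (p + 1)) = Ran (T ^ p) := by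
  constructor
  · intro h
    by_contra hne
    have h1 : ((p + 1 : ℕ) : ℕ∞) ≤ dsc T := by
      refine le_iInf₂ fun k hk => ?_
      have h2 : p < k := by
        by_contra hkp
        apply hne
        obtain ⟨m, rfl⟩ := Nat.exists_eq_add_of_le (not_lt.1 hkp)
        rw [Ran_stable T hk m]
        have := Ran_stable T hk (m + 1)
        rw [← add_assoc] at this
        exact this
      exact_mod_cast h2
    have h3 := h1.trans h
    have h4 : p + 1 ≤ p := by exact_mod_cast h3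
    omega
  · intro h
    exact iInf₂_le p h

theorem asc_ne_top_iff : asc T ≠ ⊤ ↔ ∃ p : ℕ, Nul (T ^ (p + 1)) = Nul (T ^ p) := by
  constructor
  · intro h
    obtain ⟨p, hp⟩ := ENat.ne_top_iff_exists.1 h
    exact ⟨p, (asc_le_iff T).1 hp.symm.le⟩
  · rintro ⟨p, hp⟩ h
    have := (asc_le_iff T).2 hp
    rw [h, top_le_iff] at this
    exact ENat.coe_ne_top p this

theorem dsc_ne_top_iff : dsc T ≠ ⊤ ↔ ∃ p : ℕ, Ran (T ^ (p + 1)) = Ran (T ^ p) := by
  constructor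
  · intro h
    obtain ⟨p, hp⟩ := ENat.ne_top_iff_exists.1 h
    exact ⟨p, (dsc_le_iff T).1 hp.symm.le⟩
  · rintro ⟨p, hp⟩ h
    have := (dsc_le_iff T).2 hp
    rw [h, top_le_iff] at this
    exact ENat.coe_ne_top p this

end general

end Pool.Agent.Q192.Drazin
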