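import Mathlib
import Pool.Agent.Q192.DrazinDefs

/-!
# Failure of Drazin invertibility of the completion when no range of a power of `B` is closed
-/

set_option autoImplicit false

open scoped InnerProductSpace ENNReal

noncomputable section

namespace Pool.Agent.Q192.Drazin

/-- the Hilbert space `ℓ²(ℕ × ℕ)` -/
abbrev L : Type := lp (fun _ : ℕ × ℕ => ℂ) 2

theorem two_toReal : (0 : ℝ) < (2 : ℝ≥0∞).toReal := by norm_num

theorem sum_le_aux (w : ℕ × ℕ → ℂ) (σ : ℕ × ℕ → ℕ × ℕ) (hw : ∀ s, ‖w s‖ ≤ 1)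
    (hσ : Set.InjOn σ {s | w s ≠ 0}) (x : L) (F : Finset (ℕ × ℕ)) :
    ∑ s ∈ F, ‖w s * x (σ s)‖ ^ (2 : ℝ≥0∞).toReal ≤ ‖x‖ ^ (2 : ℝ≥0∞).toReal := by
  classical
  calc ∑ s ∈ F, ‖w s * x (σ s)‖ ^ (2 : ℝ≥0∞).toReal
      = ∑ s ∈ F.filter (fun s => w s ≠ 0), ‖w s * x (σ s)‖ ^ (2 : ℝ≥0∞).toReal := by
        rw [Finset.sum_filter_of_ne]
        intro s _ hne h0
        apply hne
        rw [h0, zero_mul, norm_zero, Real.zero_rpow (by norm_num)]
    _ ≤ ∑ s ∈ F.filter (fun s => w s ≠ 0), ‖x (σ s)‖ ^ (2 : ℝ≥0∞).toReal := by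
        refine Finset.sum_le_sum fun s _ => ?_
        refine Real.rpow_le_rpow (norm_nonneg _) ?_ two_toReal.le
        rw [norm_mul]
        calc ‖w s‖ * ‖x (σ s)‖ ≤ 1 * ‖x (σ s)‖ := by gcongr; exact hw s
          _ = ‖x (σ s)‖ := one_mul _
    _ = ∑ t ∈ (F.filter (fun s => w s ≠ 0)).image σ, ‖x t‖ ^ (2 : ℝ≥0∞).toReal := by
        rw [Finset.sum_image]
        intro a ha b hb hab
        exact hσ (Finset.mem_filter.1 ha).2 (Finset.mem_filter.1 hb).2 hab
    _ ≤ ‖x‖ ^ (2 : ℝ≥0∞).toReal := lp.sum_rpow_le_norm_rpow two_toReal x _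

/-- the weighted composition operator `x ↦ w · (x ∘ σ)` -/
def wc (w : ℕ × ℕ → ℂ) (σ : ℕ × ℕ → ℕ × ℕ) (hw : ∀ s, ‖w s‖ ≤ 1)
    (hσ : Set.InjOn σ {s | w s ≠ 0}) : L →L[ℂ] L :=
  LinearMap.mkContinuous
    { toFun := fun x => ⟨fun s => w s * x (σ s),
        memℓp_gen' (C := ‖x‖ ^ (2 : ℝ≥0∞).toReal) (sum_le_aux w σ hw hσ x)⟩
      map_add' := fun x y => by
        ext s
        change w s * (x (σ s) + y (σ s)) = w s * x (σ s) + w s * y (σ s)
        ring
      map_smul' := fun c x => by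
        ext s
        change w s * (c * x (σ s)) = c * (w s * x (σ s))
        ring } 1 (fun x => by
      rw [one_mul]
      exact lp.norm_le_of_forall_sum_le two_toReal (norm_nonneg _) (sum_le_aux w σ hw hσ x))

theorem wc_apply (w : ℕ × ℕ → ℂ) (σ : ℕ × ℕ → ℕ × ℕ) (hw : ∀ s, ‖w s‖ ≤ 1)
    (hσ : Set.InjOn σ {s | w s ≠ 0}) (x : L) (s : ℕ × ℕ) : wc w σ hw hσ x s = w s * x (σ s) := rfl

/-- forward shift -/
def A : L →L[ℂ] L := wc (fun s => if s.1 = 0 then 0 else 1) (fun s => (s.1 - 1, s.2))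
  (fun s => by split_ifs <;> simp) (by
    rintro ⟨a, b⟩ ha ⟨c, d⟩ hc h
    simp only [Set.mem_ofPred_eq, ne_eq, ite_eq_left_iff, not_forall] at ha hc
    simp only [Prod.mk.injEq] at h ⊢
    obtain ⟨ha, -⟩ := ha
    obtain ⟨hc, -⟩ := hc
    exact ⟨by omega, h.2⟩)

/-- backward shift -/
def A' : L →L[ℂ] L := wc (fun _ => 1) (fun s => (s.1 + 1, s.2)) (fun _ => by simp) (by
    rintro ⟨a, b⟩ ha ⟨c, d⟩ hc h
    simp only [Prod.mk.injEq] at h ⊢
    exact ⟨by omega, h.2⟩)

/-- backward shift with small weights at the last place -/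
def B : L →L[ℂ] L := wc (fun s => if s.1 = 0 then 1 / ((s.2 : ℂ) + 1) else 1)
  (fun s => (s.1 + 1, s.2)) (fun s => by
    split_ifs
    · have h1 : ((s.2 : ℂ) + 1) = (((s.2 : ℝ) + 1 : ℝ) : ℂ) := by push_cast; rfl
      rw [h1, norm_div, norm_one, Complex.norm_real, Real.norm_of_nonneg (by positivity)]
      rw [div_le_one (by positivity)]
      have : (0 : ℝ) ≤ s.2 := Nat.cast_nonneg _
      linarith
    · simp) (by
    rintro ⟨a, b⟩ ha ⟨c, d⟩ hc h
    simp only [Prod.mk.injEq] at h ⊢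
    exact ⟨by omega, h.2⟩)

/-- the projection on the place zero -/
def C : L →L[ℂ] L := wc (fun s => if s.1 = 0 then 1 else 0) id
  (fun s => by split_ifs <;> simp) (fun _ _ _ _ h => h)

theorem A_zero (x : L) (i : ℕ) : A x (0, i) = 0 :=
  (wc_apply _ _ _ _ x (0, i)).trans (by rw [if_pos rfl, zero_mul])

theorem A_succ (x : L) (j i : ℕ) : A x (j + 1, i) = x (j, i) :=
  (wc_apply _ _ _ _ x (j + 1, i)).trans (by rw [if_neg (Nat.succ_ne_zero j), one_mul]; rfl)

theorem A'_apply (x : L) (j i : ℕ) : A' x (j, i) = x (j + 1, i) :=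
  (wc_apply _ _ _ _ x (j, i)).trans (by rw [one_mul])

theorem B_zero (x : L) (i : ℕ) : B x (0, i) = 1 / ((i : ℂ) + 1) * x (1, i) :=
  (wc_apply _ _ _ _ x (0, i)).trans (by rw [if_pos rfl])

theorem B_succ (x : L) (j i : ℕ) : B x (j + 1, i) = x (j + 2, i) :=
  (wc_apply _ _ _ _ x (j + 1, i)).trans (by rw [if_neg (Nat.succ_ne_zero j), one_mul])

theorem C_zero (x : L) (i : ℕ) : C x (0, i) = x (0, i) :=
  (wc_apply _ _ _ _ x (0, i)).trans (by rw [if_pos rfl, one_mul]; rfl)

theorem C_succ (x : L) (j i : ℕ) : C x (j + 1, i) = 0 :=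
  (wc_apply _ _ _ _ x (j + 1, i)).trans (by rw [if_neg (Nat.succ_ne_zero j), zero_mul])

theorem ext_L {x y : L} (h0 : ∀ i, x (0, i) = y (0, i)) (h1 : ∀ j i, x (j + 1, i) = y (j + 1, i)) :
    x = y := by
  ext ⟨j, i⟩
  rcases j with _ | j
  · exact h0 i
  · exact h1 j i

theorem ne_i (i : ℕ) : ((i : ℂ) + 1) ≠ 0 := by exact_mod_cast Nat.succ_ne_zero i

/-- the space of vectors living at the place zero -/
def V : Submodule ℂ L where
  carrier := {x | ∀ j i, x (j + 1, i) = 0}
  zero_mem' := fun _ _ => rfl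
  add_mem' := by
    intro x y hx hy j i
    change x (j + 1, i) + y (j + 1, i) = 0
    rw [hx, hy, add_zero]
  smul_mem' := by
    intro c x hx j i
    change c * x (j + 1, i) = 0
    rw [hx, mul_zero]

theorem mem_V {x : L} : x ∈ V ↔ ∀ j i, x (j + 1, i) = 0 := Iff.rfl

theorem Nul_B : Nul B = V := by
  ext x
  rw [mem_Nul, mem_V]
  constructor
  · intro h j i
    rcases j with _ | j
    · have h1 := congrArg (fun y : L => y (0, i)) h
      change B x (0, i) = 0 at h1
      rw [B_zero] at h1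
      rcases mul_eq_zero.1 h1 with h2 | h2
      · exact absurd h2 (one_div_ne_zero (ne_i i))
      · exact h2
    · have h1 := congrArg (fun y : L => y (j + 1, i)) h
      change B x (j + 1, i) = 0 at h1
      rwa [B_succ] at h1
  · intro h
    refine ext_L (fun i => ?_) (fun j i => ?_)
    · rw [B_zero, h 0 i, mul_zero]
      rfl
    · rw [B_succ, h (j + 1) i]
      rfl

theorem A_inj {x : L} (h : A x = 0) : x = 0 := by
  ext ⟨j, i⟩
  have h1 := congrArg (fun y : L => y (j + 1, i)) h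
  change A x (j + 1, i) = 0 at h1
  rw [A_succ] at h1
  exact h1

theorem mem_Ran_A {x : L} : x ∈ Ran A ↔ ∀ i, x (0, i) = 0 := by
  rw [mem_Ran]
  constructor
  · rintro ⟨y, rfl⟩ i
    exact A_zero y i
  · intro h
    refine ⟨A' x, ext_L (fun i => ?_) (fun j i => ?_)⟩
    · rw [A_zero, h i]
    · rw [A_succ, A'_apply]

theorem continuous_coord (s : ℕ × ℕ) : Continuous fun x : L => x s := by
  have h : LipschitzWith 1 (fun x : L => x s) := by
    refine LipschitzWith.of_dist_le_mul fun x y => ?_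
    rw [NNReal.coe_one, one_mul, dist_eq_norm, dist_eq_norm]
    exact lp.norm_apply_le_norm (by norm_num) (x - y) s
  exact h.continuous

theorem isClosed_Ran_A : IsClosed (Ran A : Set L) := by
  have h : (Ran A : Set L) = ⋂ i : ℕ, {x : L | x (0, i) = 0} := by
    ext x
    rw [SetLike.mem_coe, mem_Ran_A, Set.mem_iInter]
    rfl
  rw [h]
  exact isClosed_iInter fun i => isClosed_eq (continuous_coord _) continuous_const

theorem Nul_pow_A (n : ℕ) : Nul (A ^ n) = ⊥ := by
  rw [eq_bot_iff]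
  intro x hx
  rw [mem_Nul] at hx
  rw [Submodule.mem_bot]
  induction n with
  | zero => exact hx
  | succ n ih =>
    rw [pow_succ_apply] at hx
    exact ih (A_inj hx)

theorem asc_A : asc A = (0 : ℕ) := by
  refine le_antisymm ?_ (by simp)
  rw [asc_le_iff, Nul_pow_A, Nul_pow_A]

theorem leftDrazin_A : LeftDrazin A :=
  ⟨0, asc_A, by rw [zero_add, pow_one]; exact isClosed_Ran_A⟩

theorem SS_A : SS A 1 = Ran A := by
  rw [SS, Nul_pow_A, sup_bot_eq]

theorem inner_single (s : ℕ × ℕ) (c : ℂ) (x : L) :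
    ⟪(lp.single 2 s c : L), x⟫_ℂ = starRingEnd ℂ c * x s := by
  rw [lp.inner_single_left]
  rw [RCLike.inner_apply, mul_comm]

theorem perp_A : (Ran A)ᗮ = V := by
  ext x
  rw [Submodule.mem_orthogonal, mem_V]
  constructor
  · intro h j i
    have h1 := h (lp.single 2 (j + 1, i) 1) (mem_Ran_A.2 fun i' => by
      rw [lp.single_apply_ne]
      simp)
    rw [inner_single, map_one, one_mul] at h1
    exact h1
  · intro h u hu
    rw [mem_Ran_A] at hu
    rw [lp.inner_eq_tsum]
    refine (tsum_congr fun s => ?_).trans tsum_zero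
    obtain ⟨j, i⟩ := s
    rcases j with _ | j
    · rw [hu, inner_zero_left]
    · rw [h, inner_zero_right]

theorem single_mem (s : ℕ × ℕ) (x : L) (hx : x ∈ V) :
    (lp.single 2 s (x s) : L) ∈ Nul B ⊓ Ran (B ^ 1) := by
  obtain ⟨j, i⟩ := s
  rcases j with _ | j
  · constructor
    · rw [SetLike.mem_coe, Nul_B, mem_V]
      intro j' i'
      rw [lp.single_apply_ne]
      simp
    · rw [SetLike.mem_coe, pow_one, mem_Ran]
      refine ⟨lp.single 2 (1, i) (((i : ℂ) + 1) * x (0, i)), ext_L (fun i' => ?_) (fun j' i' => ?_)⟩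
      · rw [B_zero]
        by_cases h : i' = i
        · subst h
          rw [lp.single_apply_self, lp.single_apply_self, ← mul_assoc, one_div,
            inv_mul_cancel₀ (ne_i i'), one_mul]
        · rw [lp.single_apply_ne, lp.single_apply_ne, mul_zero]
          · simp [h]
          · simp [h]
      · rw [B_succ, lp.single_apply_ne, lp.single_apply_ne]
        · simp
        · simp
  · rw [mem_V.1 hx]
    have : (lp.single 2 (j + 1, i) (0 : ℂ) : L) = 0 := by
      exact map_zero (lp.singleAddMonoidHom (E := fun _ : ℕ × ℕ => ℂ) 2 (j + 1, i))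
    rw [this]
    exact Submodule.zero_mem _

theorem TT_B : TT B 1 = V := by
  refine le_antisymm ?_ ?_
  · refine Submodule.topologicalClosure_minimal _ ?_ ?_
    · rw [← Nul_B]
      exact inf_le_left
    · rw [← Nul_B]
      exact B.isClosed_ker
  · intro x hx
    rw [TT, ← SetLike.mem_coe, Submodule.topologicalClosure_coe]
    have h := lp.hasSum_single (p := 2) (by norm_num) x
    refine mem_closure_of_tendsto h (Filter.Eventually.of_forall fun F => ?_)
    exact Submodule.sum_mem _ fun s _ => single_mem s x hx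

theorem dsc_B : dsc B ≤ (1 : ℕ) := by
  rw [dsc_le_iff]
  refine le_antisymm (Ran_anti _ (by omega)) ?_
  intro x hx
  rw [pow_one, mem_Ran] at hx
  obtain ⟨y, rfl⟩ := hx
  rw [mem_Ran]
  refine ⟨A (y - C y), ?_⟩
  have h1 : B (A (y - C y)) = y - C y := by
    refine ext_L (fun i => ?_) (fun j i => ?_)
    · rw [B_zero, A_succ]
      change 1 / ((i : ℂ) + 1) * (y (0, i) - C y (0, i)) = y (0, i) - C y (0, i)
      rw [C_zero, sub_self, mul_zero]
    · rw [B_succ, A_succ]
  have h2 : B (C y) = 0 := by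
    rw [← mem_Nul, Nul_B, mem_V]
    exact C_succ y
  change (B ^ (1 + 1)) _ = _
  rw [pow_succ_apply, pow_one, h1, map_sub, h2, sub_zero]

theorem admissible : Admissible A B 1 C := by
  have h : TT B 1 = (SS A 1)ᗮ := by rw [TT_B, SS_A, perp_A]
  refine ⟨ContinuousLinearEquiv.ofEq _ _ h, ?_, ?_⟩
  · rintro ⟨t, ht⟩
    change C t = t
    rw [TT_B, mem_V] at ht
    refine ext_L (fun i => C_zero t i) (fun j i => ?_)
    rw [C_succ, ht]
  · intro x hx
    rw [TT_B] at hx
    refine ext_L (fun i => ?_) (fun j i => C_succ x j i)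
    rw [C_zero]
    rw [Submodule.mem_orthogonal] at hx
    have h1 := hx (lp.single 2 (0, i) 1) (mem_V.2 fun j' i' => by
      rw [lp.single_apply_ne]
      simp)
    rw [inner_single, map_one, one_mul] at h1
    exact h1

/-- an element of `ℓ²` with the coordinates `g j` at the places `(j, i)` -/
def col (i : ℕ) (g : ℕ → ℂ) (hg : Summable fun j => ‖g j‖ ^ (2 : ℝ≥0∞).toReal) : L :=
  ⟨fun s => if s.2 = i then g s.1 else 0, by
    refine memℓp_gen ?_
    have hinj : Function.Injective fun j : ℕ => (j, i) := fun a b h => (Prod.mk.inj h).1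
    rw [← hinj.summable_iff]
    · refine hg.congr fun j => ?_
      simp
    · rintro ⟨a, b⟩ hs
      have hb : b ≠ i := by
        rintro rfl
        exact hs ⟨a, rfl⟩
      change ‖(if b = i then g a else 0 : ℂ)‖ ^ (2 : ℝ≥0∞).toReal = 0
      rw [if_neg hb, norm_zero, Real.zero_rpow (by norm_num)]⟩

theorem col_apply (i : ℕ) (g : ℕ → ℂ) (hg : Summable fun j => ‖g j‖ ^ (2 : ℝ≥0∞).toReal)
    (j k : ℕ) : col i g hg (j, k) = if k = i then g j else 0 := rfl

theorem dimen_top (W : Submodule ℂ L) (v : ℕ → L) (hv : ∀ i, v i ∈ W) (j : ℕ)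
    (h1 : ∀ i, v i (j, i) ≠ 0) (h0 : ∀ i k, k ≠ i → v i (j, k) = 0) : dimen W = ⊤ := by
  have hli : LinearIndependent ℂ (fun i => (⟨v i, hv i⟩ : W)) := by
    rw [linearIndependent_iff']
    intro F g hg i hi
    have h2 := congrArg (fun y : W => ((y : L) : ∀ _ : ℕ × ℕ, ℂ) (j, i)) hg
    have h3 : ∀ G : Finset ℕ, ((((∑ k ∈ G, g k • (⟨v k, hv k⟩ : W)) : W) : L) : ∀ _ : ℕ × ℕ, ℂ) (j, i)
        = ∑ k ∈ G, g k * v k (j, i) := by
      intro G
      induction G using Finset.cons_induction with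
      | empty => rfl
      | cons a G ha ih =>
        rw [Finset.sum_cons, Finset.sum_cons, ← ih]
        rfl
    have h4 := (h3 F).symm.trans h2
    rw [Finset.sum_eq_single_of_mem i hi (fun k _ hk => by rw [h0 k i (Ne.symm hk), mul_zero])] at h4
    have h5 : g i * v i (j, i) = 0 := h4
    exact (mul_eq_zero.1 h5).resolve_right (h1 i)
  have h := hli.cardinal_lift_le_rank
  rw [dimen]
  refine Cardinal.toENat_eq_top.2 ?_
  simpa using h

theorem summable_geom {z : ℂ} (hz : ‖z‖ < 1) :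
    Summable fun j : ℕ => ‖z ^ j‖ ^ (2 : ℝ≥0∞).toReal := by
  have h : ∀ j : ℕ, ‖z ^ j‖ ^ (2 : ℝ≥0∞).toReal = (‖z‖ ^ 2) ^ j := by
    intro j
    have : (2 : ℝ≥0∞).toReal = ((2 : ℕ) : ℝ) := by norm_num
    rw [this, Real.rpow_natCast, norm_pow, ← pow_mul, ← pow_mul, mul_comm]
  simp only [h]
  refine summable_geometric_of_lt_one (by positivity) ?_
  nlinarith [norm_nonneg z]

theorem adj_A (x y : L) : ⟪A x, y⟫_ℂ = ⟪x, A' y⟫_ℂ := by
  rw [lp.inner_eq_tsum, lp.inner_eq_tsum]
  have hinj : Function.Injective fun s : ℕ × ℕ => (s.1 + 1, s.2) := by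
    rintro ⟨a, b⟩ ⟨c, d⟩ h
    simp only [Prod.mk.injEq] at h ⊢
    exact ⟨by omega, h.2⟩
  rw [← hinj.tsum_eq]
  · refine tsum_congr fun s => ?_
    obtain ⟨j, i⟩ := s
    rw [A_succ, A'_apply]
  · rintro ⟨j, i⟩ hs
    rcases j with _ | j
    · exfalso
      apply hs
      change ⟪A x (0, i), y (0, i)⟫_ℂ = 0
      rw [A_zero, inner_zero_left]
    · exact ⟨(j, i), rfl⟩

theorem dimen_A {l : ℂ} (hl : ‖l‖ < 1) : dimen (Ran (A - l • 1))ᗮ = ⊤ := by
  have hg := summable_geom (z := starRingEnd ℂ l) (by rwa [RCLike.norm_conj])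
  refine dimen_top _ (fun i => col i (fun j => (starRingEnd ℂ l) ^ j) hg) (fun i => ?_) 0
    (fun i => ?_) (fun i k hk => ?_)
  · rw [Submodule.mem_orthogonal]
    intro u hu
    obtain ⟨y, rfl⟩ := mem_Ran.1 hu
    have e1 : (A - l • 1) y = A y - l • y := rfl
    have e2 : A' (col i (fun j => (starRingEnd ℂ l) ^ j) hg) =
        (starRingEnd ℂ l) • col i (fun j => (starRingEnd ℂ l) ^ j) hg := by
      ext ⟨j, k⟩
      rw [A'_apply]
      change (col i (fun j => (starRingEnd ℂ l) ^ j) hg) (j + 1, k) =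
        (starRingEnd ℂ l) * (col i (fun j => (starRingEnd ℂ l) ^ j) hg) (j, k)
      rw [col_apply, col_apply]
      split_ifs
      · rw [pow_succ']
      · rw [mul_zero]
    rw [e1, inner_sub_left, adj_A, e2, inner_smul_left, inner_smul_right, sub_self]
  · rw [col_apply, if_pos rfl, pow_zero]
    exact one_ne_zero
  · rw [col_apply, if_neg hk]

theorem dimen_B {l : ℂ} (hl0 : 0 < ‖l‖) (hl : ‖l‖ < 1) : dimen (Nul (B - l • 1)) = ⊤ := by
  have hl' : l ≠ 0 := norm_pos_iff.1 hl0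
  have hg : ∀ i : ℕ, Summable fun j : ℕ =>
      ‖(if j = 0 then 1 / (((i : ℂ) + 1) * l) else l ^ (j - 1) : ℂ)‖ ^ (2 : ℝ≥0∞).toReal := by
    intro i
    rw [← summable_nat_add_iff 1]
    refine (summable_geom hl).congr fun j => ?_
    rw [if_neg (Nat.succ_ne_zero j), Nat.add_sub_cancel]
  refine dimen_top _ (fun i => col i _ (hg i)) (fun i => ?_) 1 (fun i => ?_) (fun i k hk => ?_)
  · rw [mem_Nul]
    have e1 : ∀ y : L, (B - l • 1) y = B y - l • y := fun y => rfl
    rw [e1, sub_eq_zero]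
    refine ext_L (fun k => ?_) (fun j k => ?_)
    · rw [B_zero]
      change 1 / ((k : ℂ) + 1) * col i _ (hg i) (1, k) = l * col i _ (hg i) (0, k)
      rw [col_apply, col_apply]
      by_cases h : k = i
      · subst h
        rw [if_pos rfl, if_pos rfl, if_neg one_ne_zero, if_pos rfl]
        have := ne_i k
        simp only [Nat.sub_self, pow_zero]
        field_simp
      · rw [if_neg h, if_neg h, mul_zero, mul_zero]
    · rw [B_succ]
      change col i _ (hg i) (j + 2, k) = l * col i _ (hg i) (j + 1, k)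
      rw [col_apply, col_apply]
      by_cases h : k = i
      · rw [if_pos h, if_pos h, if_neg (by omega), if_neg (by omega)]
        have e2 : j + 2 - 1 = j + 1 := by omega
        have e3 : j + 1 - 1 = j := by omega
        rw [e2, e3, pow_succ']
      · rw [if_neg h, if_neg h, mul_zero]
  · rw [col_apply, if_pos rfl, if_neg one_ne_zero]
    simp
  · rw [col_apply, if_neg hk]

theorem condIII : CondIII A B :=
  ⟨1, one_pos, fun l h0 h1 => by rw [dimen_A h1, dimen_B h0 h1]⟩

theorem condE : CondE A B 1 :=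
  ⟨by rw [SS_A]; exact isClosed_Ran_A, by rw [SS_A, perp_A, TT_B]⟩

theorem MM_inj {x : L × L} (h : MM A B C x = 0) : x = 0 := by
  obtain ⟨u, v⟩ := x
  rw [MM_apply] at h
  have h1 : A u + C v = 0 := congrArg Prod.fst h
  have h2 : B v = 0 := congrArg Prod.snd h
  have h3 : v ∈ V := by
    rw [← Nul_B]
    exact mem_Nul.2 h2
  have hv : v = 0 := by
    refine ext_L (fun i => ?_) (fun j i => h3 j i)
    have h4 := congrArg (fun y : L => y (0, i)) h1
    change A u (0, i) + C v (0, i) = 0 at h4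
    rw [A_zero, C_zero, zero_add] at h4
    exact h4
  rw [hv, map_zero, add_zero] at h1
  rw [A_inj h1, hv]
  rfl

/-- the vector which is not in the range -/
def bad : L := ⟨fun s => if s.1 = 0 then 1 / ((s.2 : ℂ) + 1) else 0, by
  refine memℓp_gen ?_
  have hinj : Function.Injective fun i : ℕ => (0, i) := fun a b h => (Prod.mk.inj h).2
  rw [← hinj.summable_iff]
  · have h1 : Summable fun i : ℕ => (1 : ℝ) / ((i : ℝ) + 1) ^ 2 := by
      have := (summable_nat_add_iff 1).2 (Real.summable_one_div_nat_pow.2 one_lt_two)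
      refine this.congr fun i => ?_
      push_cast
      rfl
    refine h1.congr fun i => ?_
    have h2 : (2 : ℝ≥0∞).toReal = ((2 : ℕ) : ℝ) := by norm_num
    have h3 : ((i : ℂ) + 1) = (((i : ℝ) + 1 : ℝ) : ℂ) := by push_cast; rfl
    simp only [Function.comp_apply, if_true]
    rw [h2, Real.rpow_natCast, h3, norm_div, norm_one, Complex.norm_real,
      Real.norm_of_nonneg (by positivity), div_pow, one_pow]
  · rintro ⟨a, b⟩ hs
    have hb : a ≠ 0 := by
      rintro rfl
      exact hs ⟨b, rfl⟩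
    change ‖(if a = 0 then 1 / ((b : ℂ) + 1) else 0 : ℂ)‖ ^ (2 : ℝ≥0∞).toReal = 0
    rw [if_neg hb, norm_zero, Real.zero_rpow (by norm_num)]⟩

theorem MM_not_surj : ¬ ∃ x, MM A B C x = (0, bad) := by
  rintro ⟨⟨u, v⟩, h⟩
  rw [MM_apply] at h
  have h2 : B v = bad := congrArg Prod.snd h
  have h3 : ∀ i, v (1, i) = 1 := by
    intro i
    have h4 := congrArg (fun y : L => y (0, i)) h2
    change B v (0, i) = 1 / ((i : ℂ) + 1) at h4
    rw [B_zero] at h4
    have := ne_i i
    field_simp at h4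
    exact h4
  have h5 : ∀ n : ℕ, (n : ℝ) ≤ ‖v‖ ^ (2 : ℝ≥0∞).toReal := by
    intro n
    have h6 := lp.sum_rpow_le_norm_rpow two_toReal v
      ((Finset.range n).image fun i => ((1, i) : ℕ × ℕ))
    rw [Finset.sum_image (fun a _ b _ hab => (Prod.mk.inj hab).2)] at h6
    have h7 : ∑ i ∈ Finset.range n, ‖v (1, i)‖ ^ (2 : ℝ≥0∞).toReal = n := by
      rw [Finset.sum_congr rfl (fun i _ => by rw [h3 i, norm_one, Real.one_rpow])]
      simp
    rw [← h7]
    exact h6
  obtain ⟨n, hn⟩ := exists_nat_gt (‖v‖ ^ (2 : ℝ≥0∞).toReal)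
  exact absurd (h5 n) (not_le.2 hn)

theorem not_drazin : ¬ DrazinInvertible (MM A B C) := by
  rintro ⟨-, h⟩
  obtain ⟨k, hk⟩ := (dsc_ne_top_iff _).1 h
  apply MM_not_surj
  have h1 : ∀ n, ∀ x : L × L, (MM A B C ^ n) x = 0 → x = 0 := by
    intro n
    induction n with
    | zero => exact fun x hx => hx
    | succ n ih =>
      intro x hx
      rw [pow_succ_apply] at hx
      exact ih x (MM_inj hx)
  have h2 : (MM A B C ^ k) (0, bad) ∈ Ran (MM A B C ^ (k + 1)) := by
    rw [hk]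
    exact mem_Ran.2 ⟨_, rfl⟩
  obtain ⟨y, hy⟩ := mem_Ran.1 h2
  refine ⟨y, ?_⟩
  have h3 : (MM A B C ^ k) (MM A B C y - (0, bad)) = 0 := by
    rw [map_sub, ← pow_succ_apply', hy, sub_self]
  exact sub_eq_zero.1 (h1 k _ h3)

theorem separable_L : TopologicalSpace.SeparableSpace L := by
  have h1 : (Set.range fun s : ℕ × ℕ => (lp.single 2 s (1 : ℂ) : L)).Countable :=
    Set.countable_range _
  have h2 := (h1.isSeparable.span (R := ℂ)).closure
  have h3 : closure (Submodule.span ℂ (Set.range fun s : ℕ × ℕ => (lp.single 2 s (1 : ℂ) : L)) :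
      Set L) = Set.univ := by
    rw [Set.eq_univ_iff_forall]
    intro x
    have h := lp.hasSum_single (p := 2) (by norm_num) x
    refine mem_closure_of_tendsto h (Filter.Eventually.of_forall fun F => ?_)
    refine Submodule.sum_mem _ fun s _ => ?_
    have h4 : (lp.single 2 s (x s) : L) = x s • (lp.single 2 s (1 : ℂ) : L) := by
      rw [← lp.single_smul, smul_eq_mul, mul_one]
    rw [h4]
    exact Submodule.smul_mem _ _ (Submodule.subset_span ⟨s, rfl⟩)
  rw [h3] at h2
  exact TopologicalSpace.isSeparable_univ_iff.1 h2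

theorem infinite_L : ¬ FiniteDimensional ℂ L := by
  intro h
  have h1 : dimen (Ran (A - (0 : ℂ) • 1))ᗮ = ⊤ := dimen_A (by simp)
  rw [dimen, Cardinal.toENat_eq_top] at h1
  exact absurd (Module.rank_lt_aleph0 ℂ (Ran (A - (0 : ℂ) • 1))ᗮ) (not_lt.2 h1)

end Pool.Agent.Q192.Drazin
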