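import Mathlib
import Pool.Agent.Q192.DrazinDefs

/-!
# Drazin invertibility of the completion when `B` is right Drazin invertible
-/

set_option autoImplicit false

namespace Pool.Agent.Q192.Drazin

variable {H K : Type*} [NormedAddCommGroup H] [InnerProductSpace ℂ H] [CompleteSpace H]
  [NormedAddCommGroup K] [InnerProductSpace ℂ K] [CompleteSpace K]
  {A : H →L[ℂ] H} {B : K →L[ℂ] K} {C : K →L[ℂ] H} {p : ℕ}

theorem C_mem (hC : Admissible A B p C) (x : K) : C x ∈ (SS A p)ᗮ := by
  obtain ⟨J, h1, h2⟩ := hC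
  have : CompleteSpace (TT B p) := (Submodule.isClosed_topologicalClosure _).completeSpace_coe
  obtain ⟨t, ht, t', ht', rfl⟩ := (TT B p).exists_add_mem_mem_orthogonal x
  rw [map_add, h2 t' ht', add_zero]
  have := h1 ⟨t, ht⟩
  rw [this]
  exact (J ⟨t, ht⟩).2

theorem C_inj (hC : Admissible A B p C) {x : K} (hx : x ∈ TT B p) (h : C x = 0) : x = 0 := by
  obtain ⟨J, h1, h2⟩ := hC
  have h3 := h1 ⟨x, hx⟩
  have h4 : J ⟨x, hx⟩ = 0 := by
    apply Subtype.ext
    rw [← h3]
    exact h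
  have h5 := J.injective (h4.trans (map_zero J).symm)
  exact congrArg Subtype.val h5

theorem C_perp (hC : Admissible A B p C) {x : K} (hx : x ∈ (TT B p)ᗮ) : C x = 0 := by
  obtain ⟨J, h1, h2⟩ := hC
  exact h2 x hx

theorem C_surj (hC : Admissible A B p C) {s : H} (hs : s ∈ (SS A p)ᗮ) :
    ∃ t ∈ TT B p, C t = s := by
  obtain ⟨J, h1, h2⟩ := hC
  refine ⟨J.symm ⟨s, hs⟩, (J.symm ⟨s, hs⟩).2, ?_⟩
  rw [h1, ContinuousLinearEquiv.apply_symm_apply]

theorem SS_inter {x : H} (h1 : x ∈ SS A p) (h2 : x ∈ (SS A p)ᗮ) : x = 0 := by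
  have := Submodule.inner_right_of_mem_orthogonal h1 h2
  exact inner_self_eq_zero.1 this

theorem asc_MM (hA : asc A ≤ p) (hC : Admissible A B p C) : asc (MM A B C) ≤ p := by
  rw [asc_le_iff] at hA ⊢
  refine le_antisymm ?_ (Nul_mono _ (by omega))
  rintro ⟨h, k⟩ hx
  rw [mem_Nul] at hx ⊢
  set u : ℕ → H := fun n => ((MM A B C ^ n) (h, k)).1 with hu
  set v : ℕ → K := fun n => ((MM A B C ^ n) (h, k)).2 with hv
  have hu1 : ∀ n, u (n + 1) = A (u n) + C (v n) := by
    intro n
    simp only [hu, hv]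
    rw [pow_succ_apply, MM_apply]
  have hv1 : ∀ n, v (n + 1) = B (v n) := by
    intro n
    simp only [hv]
    rw [pow_succ_apply, MM_apply]
  have hv2 : ∀ n, v n = (B ^ n) k := by
    intro n
    induction n with
    | zero => rfl
    | succ n ih => rw [hv1, ih, pow_succ_apply]
  have hup : u (p + 1) = 0 := congrArg Prod.fst hx
  have hvp : v (p + 1) = 0 := congrArg Prod.snd hx
  rw [hu1] at hup
  rw [hv1] at hvp
  have hAr : ∀ x, A x ∈ SS A p := fun x => Submodule.mem_sup_left (mem_Ran.2 ⟨x, rfl⟩)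
  have hCv : C (v p) = 0 := by
    refine SS_inter (p := p) (A := A) ?_ (C_mem hC _)
    have : C (v p) = -(A (u p)) := eq_neg_of_add_eq_zero_right hup
    rw [this]
    exact Submodule.neg_mem _ (hAr _)
  have hvT : v p ∈ TT B p := by
    refine Submodule.le_topologicalClosure _ ⟨mem_Nul.2 hvp, mem_Ran.2 ⟨k, (hv2 p).symm⟩⟩
  have hv0 : v p = 0 := C_inj hC hvT hCv
  rw [hCv, add_zero] at hup
  have key : ∀ j, j ≤ p → (A ^ (j + 1)) (u (p - j)) = 0 ∧ (A ^ j) (u (p - j)) = u p := by
    intro j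
    induction j with
    | zero => intro _; exact ⟨by simpa using hup, by simp⟩
    | succ j ih =>
      intro hj
      obtain ⟨h1, h2⟩ := ih (by omega)
      have h3 : p - j = (p - (j + 1)) + 1 := by omega
      have h4 : C (v (p - (j + 1))) = 0 := by
        refine SS_inter (p := p) (A := A) ?_ (C_mem hC _)
        have h5 : C (v (p - (j + 1))) = u (p - j) - A (u (p - (j + 1))) := by
          rw [h3, hu1]
          abel
        rw [h5]
        refine Submodule.sub_mem _ ?_ (hAr _)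
        exact Submodule.mem_sup_right (Nul_mono A (by omega) (mem_Nul.2 h1))
      have h6 : u (p - j) = A (u (p - (j + 1))) := by rw [h3, hu1, h4, add_zero]
      rw [h6, ← pow_succ_apply'] at h1 h2
      exact ⟨h1, h2⟩
  obtain ⟨h1, h2⟩ := key p le_rfl
  have h3 : u (p - p) ∈ Nul (A ^ p) := by
    rw [← hA]
    exact mem_Nul.2 h1
  rw [mem_Nul, h2] at h3
  exact Prod.ext h3 hv0

theorem dsc_MM (hp : 1 ≤ p) (hB : dsc B ≤ p) (hBc : IsClosed (Ran (B ^ p) : Set K))
    (hS : IsClosed (SS A p : Set H)) (hC : Admissible A B p C) : dsc (MM A B C) ≤ p := by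
  rw [dsc_le_iff] at hB
  have hTT : TT B p = Nul B ⊓ Ran (B ^ p) := by
    refine IsClosed.submodule_topologicalClosure_eq ?_
    refine IsClosed.inter ?_ hBc
    exact B.isClosed_ker
  have cT : CompleteSpace (TT B p) := (Submodule.isClosed_topologicalClosure _).completeSpace_coe
  have cS : CompleteSpace (SS A p) := hS.completeSpace_coe
  -- correction
  have key : ∀ x₀ : K, (B ^ p) x₀ = 0 → ∀ m, m ≤ p → ∃ w ∈ Ran (B ^ p), (B ^ p) w = 0 ∧
      ∀ j, p - m ≤ j → C ((B ^ j) (x₀ - w)) = 0 := by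
    intro x₀ hx₀ m
    induction m with
    | zero =>
      intro _
      refine ⟨0, Submodule.zero_mem _, map_zero _, fun j hj => ?_⟩
      rw [sub_zero]
      have : x₀ ∈ Nul (B ^ j) := Nul_mono B (by omega) (mem_Nul.2 hx₀)
      rw [mem_Nul.1 this, map_zero]
    | succ m ih =>
      intro hm
      obtain ⟨w, hw, hw0, hwj⟩ := ih (by omega)
      set j := p - (m + 1) with hj
      obtain ⟨t, ht, t', ht', hsum⟩ := (TT B p).exists_add_mem_mem_orthogonal ((B ^ j) (x₀ - w))
      have ht2 := ht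
      rw [hTT] at ht2
      obtain ⟨ht3, ht4⟩ := ht2
      have ht5 : t ∈ Ran (B ^ (p + j)) := by
        rw [Ran_stable B hB j]
        exact ht4
      obtain ⟨y, hy⟩ := mem_Ran.1 ht5
      rw [add_comm, pow_add_apply] at hy
      have hBt : ∀ i, j < i → (B ^ i) ((B ^ p) y) = 0 := by
        intro i hi
        obtain ⟨l, rfl⟩ := Nat.exists_eq_add_of_lt hi
        have e1 : j + l + 1 = l + (1 + j) := by ring
        rw [e1, pow_add_apply, pow_add_apply, hy, pow_one, mem_Nul.1 ht3, map_zero]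
      refine ⟨w + (B ^ p) y, Submodule.add_mem _ hw (mem_Ran.2 ⟨y, rfl⟩), ?_, ?_⟩
      · rw [map_add, hw0, zero_add]
        exact hBt p (by omega)
      · intro i hi
        have e2 : (B ^ i) (x₀ - (w + (B ^ p) y)) = (B ^ i) (x₀ - w) - (B ^ i) ((B ^ p) y) := by
          rw [← map_sub]
          congr 1
          abel
        rw [e2]
        rcases eq_or_lt_of_le hi with h | h
        · rw [← h, hy, hsum, add_sub_cancel_left]
          exact C_perp hC ht'
        · rw [hBt i h, sub_zero]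
          exact hwj i (by omega)
  have main : ∀ x : H × K, ∃ y : H × K, (MM A B C ^ p) (x - MM A B C y) = 0 := by
    rintro ⟨h, k⟩
    obtain ⟨y, hy⟩ : ∃ y, (B ^ (p + 1)) y = (B ^ p) k := by
      have : (B ^ p) k ∈ Ran (B ^ (p + 1)) := by
        rw [hB]
        exact mem_Ran.2 ⟨k, rfl⟩
      exact mem_Ran.1 this
    have hx₀ : (B ^ p) (k - B y) = 0 := by
      rw [map_sub, ← pow_succ_apply', hy, sub_self]
    obtain ⟨w, hw, hw0, hwj⟩ := key _ hx₀ p le_rfl
    obtain ⟨y', hy'⟩ : ∃ y', B y' = w := by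
      have : w ∈ Ran (B ^ 1) := Ran_anti B hp hw
      rw [pow_one] at this
      exact mem_Ran.1 this
    set v := k - B y - w with hv
    have hkv : k = B (y + y') + v := by rw [hv, map_add, hy']; abel
    obtain ⟨s, hs, s', hs', hsum⟩ := (SS A p).exists_add_mem_mem_orthogonal (h - C (y + y'))
    obtain ⟨a, ha, n, hn, rfl⟩ := Submodule.mem_sup.1 hs
    obtain ⟨h₁, rfl⟩ := mem_Ran.1 ha
    obtain ⟨t, ht, rfl⟩ := C_surj hC hs'
    have ht2 := ht
    rw [hTT] at ht2
    have hBt : B t = 0 := mem_Nul.1 ht2.1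
    refine ⟨(h₁, y + y' + t), ?_⟩
    have e1 : ((h, k) : H × K) - MM A B C (h₁, y + y' + t) = (n, v) := by
      rw [MM_apply]
      refine Prod.ext ?_ ?_
      · change h - (A h₁ + C (y + y' + t)) = n
        rw [map_add C (y + y') t]
        have : h = (A h₁ + n + C t) + C (y + y') := by rw [← hsum]; abel
        rw [this]
        abel
      · change k - B (y + y' + t) = v
        rw [map_add B (y + y') t, hBt, hkv]
        abel
    rw [e1]
    have e2 : ∀ i, i ≤ p → (MM A B C ^ i) (n, v) = ((A ^ i) n, (B ^ i) v) := by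
      intro i
      induction i with
      | zero => intro _; rfl
      | succ i ih =>
        intro hi
        rw [pow_succ_apply, ih (by omega), MM_apply, pow_succ_apply, pow_succ_apply]
        have : C ((B ^ i) v) = 0 := hwj i (by omega)
        simp only [this, add_zero]
    rw [e2 p le_rfl, mem_Nul.1 hn]
    have e3 : (B ^ p) v = 0 := by rw [hv, map_sub, hx₀, hw0, sub_zero]
    rw [e3]
    rfl
  rw [dsc_le_iff]
  refine le_antisymm (Ran_anti _ (by omega)) ?_
  intro x hx
  obtain ⟨z, rfl⟩ := mem_Ran.1 hx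
  obtain ⟨y, hy⟩ := main z
  rw [map_sub, sub_eq_zero] at hy
  rw [mem_Ran]
  exact ⟨y, by rw [pow_succ_apply', hy]⟩

/-- **Theorem.** -/
theorem drazin (hp : 1 ≤ p) (hA : asc A ≤ p) (hBp : dsc B ≤ p) (hB : RightDrazin B)
    (hS : IsClosed (SS A p : Set H)) (hC : Admissible A B p C) :
    asc (MM A B C) ≤ p ∧ dsc (MM A B C) ≤ p := by
  refine ⟨asc_MM hA hC, dsc_MM hp hBp ?_ hS hC⟩
  obtain ⟨k, hk, hc⟩ := hB
  have hkp : k ≤ p := by
    have := hk ▸ hBp
    exact_mod_cast this
  obtain ⟨m, rfl⟩ := Nat.exists_eq_add_of_le hkp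
  rw [Ran_stable B ((dsc_le_iff B).1 hk.le) m]
  exact hc

end Pool.Agent.Q192.Drazin
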