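import Mathlib

/-!
# Fréchet modules over Fréchet algebras; the algebra `z ℂ⟦z⟧` has no non-zero injective module
-/

set_option autoImplicit false

open Filter Topology

noncomputable section

namespace Pool.Agent.Q192.Frechet

universe u

/-- `X` is a (complex) Fréchet space: a topological vector space whose topology is generated by
seminorms (that is, it is locally convex), metrizable and complete. -/
structure IsFrechet (X : Type*) [AddCommGroup X] [Module ℂ X] [TopologicalSpace X] : Prop where
  polynormable : PolynormableSpace ℂ X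
  metrizable : TopologicalSpace.MetrizableSpace X
  complete : ∀ s : ℕ → X, (∀ U ∈ 𝓝 (0 : X), ∃ N, ∀ m ≥ N, ∀ n ≥ N, s m - s n ∈ U) →
    ∃ x, Tendsto s atTop (𝓝 x)

/-- A (bundled) Fréchet space. -/
structure FSpace : Type (u + 1) where
  carrier : Type u
  [group : AddCommGroup carrier]
  [module : Module ℂ carrier]
  [top : TopologicalSpace carrier]
  frechet : IsFrechet carrier

attribute [instance] FSpace.group FSpace.module FSpace.top

/-- continuous linear maps between Fréchet spaces -/
abbrev Lin (X Y : FSpace.{u}) : Type u := X.carrier →L[ℂ] Y.carrier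

/-- the value of a continuous linear map at a point -/
abbrev app {X Y : FSpace.{u}} (f : Lin X Y) (x : X.carrier) : Y.carrier := f x

/-- continuity of a bilinear map on the product of two Fréchet spaces -/
def JointlyContinuous {X : FSpace.{0}} {Y Z : FSpace.{u}}
    (b : X.carrier →ₗ[ℂ] Y.carrier →ₗ[ℂ] Z.carrier) : Prop :=
  Continuous fun p : X.carrier × Y.carrier => b p.1 p.2

/-- A Fréchet algebra (associative, complex, not necessarily unital): a Fréchet space with
a jointly continuous bilinear associative product. -/
structure FAlg : Type 1 where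
  space : FSpace.{0}
  mul : space.carrier →ₗ[ℂ] space.carrier →ₗ[ℂ] space.carrier
  assoc : ∀ a b c, mul (mul a b) c = mul a (mul b c)
  continuous_mul : JointlyContinuous mul

/-- A Fréchet (left) `A`-module: a Fréchet space with a bilinear, jointly continuous, associative
left action of `A`. -/
structure FMod (A : FAlg) : Type (u + 1) where
  space : FSpace.{u}
  act : A.space.carrier →ₗ[ℂ] space.carrier →ₗ[ℂ] space.carrier
  mul_act : ∀ a b x, act (A.mul a b) x = act a (act b x)
  continuous_act : JointlyContinuous act

section Modules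

variable {A : FAlg}

/-- the Fréchet module `X` is the zero module -/
def IsZero (X : FMod.{u} A) : Prop := ∀ x : X.space.carrier, x = 0

/-- A continuous linear map between Fréchet `A`-modules is `A`-linear. -/
def IsALinear {X Y : FMod.{u} A} (f : Lin X.space Y.space) : Prop :=
  ∀ a x, app f (X.act a x) = Y.act a (app f x)

/-- `ψ` is a left inverse of `φ`. -/
def LeftInverse {X Y : FSpace.{u}} (ψ : Lin Y X) (φ : Lin X Y) : Prop :=
  ∀ x, app ψ (app φ x) = x

/-- A Fréchet `A`-module `J` is injective: every morphism `φ : J → Y` of Fréchet `A`-modules which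
has a continuous linear left inverse has a continuous `A`-linear left inverse. -/
def Injective (J : FMod.{u} A) : Prop :=
  ∀ (Y : FMod.{u} A) (φ : Lin J.space Y.space), IsALinear φ →
    (∃ ψ : Lin Y.space J.space, LeftInverse ψ φ) →
    ∃ ψ : Lin Y.space J.space, IsALinear ψ ∧ LeftInverse ψ φ

/-- An injective coresolution of `X`: a complex `0 → X → J 0 → J 1 → ⋯` of Fréchet `A`-modules
and morphisms, with all `J k` injective, which is admissible, i.e. has a contracting homotopy
`s, h 0, h 1, ...` consisting of continuous linear maps. -/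
structure InjectiveCoresolution (X : FMod.{u} A) where
  J : ℕ → FMod.{u} A
  injective : ∀ k, Injective (J k)
  ε : Lin X.space (J 0).space
  d : ∀ k, Lin (J k).space (J (k + 1)).space
  s : Lin (J 0).space X.space
  h : ∀ k, Lin (J (k + 1)).space (J k).space
  ε_linear : IsALinear ε
  d_linear : ∀ k, IsALinear (d k)
  d_ε : ∀ x, app (d 0) (app ε x) = 0
  d_d : ∀ k x, app (d (k + 1)) (app (d k) x) = 0
  s_ε : ∀ x, app s (app ε x) = x
  ε_s : ∀ x, app ε (app s x) + app (h 0) (app (d 0) x) = x
  homotopy : ∀ k x, app (d k) (app (h k) x) + app (h (k + 1)) (app (d (k + 1)) x) = x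

end Modules

/-! ## The algebra `z ℂ⟦z⟧` -/

/-- the maximal ideal `z ℂ⟦z⟧` of the algebra of formal power series; the sequence `a` stands
for the series `∑ a n z ^ (n + 1)`. -/
def PS : Type := ℕ → ℂ

instance : AddCommGroup PS := inferInstanceAs (AddCommGroup (ℕ → ℂ))
instance : Module ℂ PS := inferInstanceAs (Module ℂ (ℕ → ℂ))
instance : TopologicalSpace PS := inferInstanceAs (TopologicalSpace (ℕ → ℂ))

open PowerSeries in
/-- `a / z` as a power series -/
def ser (a : PS) : PowerSeries ℂ := PowerSeries.mk a

theorem coeff_ser (n : ℕ) (a : PS) : PowerSeries.coeff n (ser a) = a n :=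
  PowerSeries.coeff_mk n a

theorem ser_inj {a b : PS} (h : ser a = ser b) : a = b := by
  funext n
  have := congrArg (PowerSeries.coeff n) h
  rwa [coeff_ser, coeff_ser] at this

instance : Mul PS := ⟨fun a b n => PowerSeries.coeff n (PowerSeries.X * ser a * ser b)⟩

theorem ser_mul (a b : PS) : ser (a * b) = PowerSeries.X * ser a * ser b := by
  ext n
  rw [coeff_ser]
  rfl

theorem ser_add (a b : PS) : ser (a + b) = ser a + ser b := by
  ext n
  rw [map_add, coeff_ser, coeff_ser, coeff_ser]
  rfl

theorem ser_zero : ser 0 = 0 := by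
  ext n
  rw [coeff_ser, map_zero]
  rfl

theorem ser_smul (c : ℂ) (a : PS) : ser (c • a) = c • ser a := by
  ext n
  rw [map_smul, coeff_ser, coeff_ser]
  rfl

instance : NonUnitalCommRing PS :=
  { (inferInstance : AddCommGroup PS), (inferInstance : Mul PS) with
    left_distrib := fun a b c => ser_inj (by simp only [ser_mul, ser_add]; ring)
    right_distrib := fun a b c => ser_inj (by simp only [ser_mul, ser_add]; ring)
    zero_mul := fun a => ser_inj (by simp only [ser_mul, ser_zero]; ring)
    mul_zero := fun a => ser_inj (by simp only [ser_mul, ser_zero]; ring)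
    mul_assoc := fun a b c => ser_inj (by simp only [ser_mul]; ring)
    mul_comm := fun a b => ser_inj (by simp only [ser_mul]; ring) }

instance : IsScalarTower ℂ PS PS :=
  ⟨fun c a b => ser_inj (by
    simp only [smul_eq_mul, ser_mul, ser_smul, mul_smul_comm, smul_mul_assoc])⟩

instance : SMulCommClass ℂ PS PS :=
  ⟨fun c a b => ser_inj (by
    simp only [smul_eq_mul, ser_mul, ser_smul, mul_smul_comm])⟩

theorem continuous_mul_PS : Continuous fun p : PS × PS => p.1 * p.2 := by
  refine continuous_pi fun n => ?_
  have h : (fun p : PS × PS => (p.1 * p.2) n) = fun p : PS × PS =>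
      PowerSeries.coeff n (PowerSeries.X * (ser p.1 * ser p.2)) := by
    funext p
    rw [← mul_assoc]
    rfl
  change Continuous (fun p : PS × PS => (p.1 * p.2) n)
  rw [h]
  rcases n with _ | n
  · simp only [PowerSeries.coeff_zero_X_mul]
    exact continuous_const
  · have h2 : (fun p : PS × PS => PowerSeries.coeff (n + 1)
        (PowerSeries.X * (ser p.1 * ser p.2))) =
        fun p : PS × PS => ∑ i ∈ Finset.HasAntidiagonal.antidiagonal n, p.1 i.1 * p.2 i.2 := by
      funext p
      rw [PowerSeries.coeff_succ_X_mul, PowerSeries.coeff_mul]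
      refine Finset.sum_congr rfl fun i _ => ?_
      rw [coeff_ser, coeff_ser]
    rw [h2]
    refine continuous_finsetSum _ fun i _ => ?_
    exact ((continuous_apply (A := fun _ : ℕ => ℂ) i.1).comp continuous_fst).mul
      ((continuous_apply (A := fun _ : ℕ => ℂ) i.2).comp continuous_snd)

theorem frechet_PS : IsFrechet PS where
  polynormable := inferInstanceAs (PolynormableSpace ℂ (ℕ → ℂ))
  metrizable := inferInstanceAs (TopologicalSpace.MetrizableSpace (ℕ → ℂ))
  complete := by
    intro s hs
    have h : ∀ n, ∃ y : ℂ, Tendsto (fun k => s k n) atTop (𝓝 y) := by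
      intro n
      refine cauchySeq_tendsto_of_complete ?_
      rw [Metric.cauchySeq_iff]
      intro r hr
      obtain ⟨N, hN⟩ := hs {a : PS | a n ∈ Metric.ball (0 : ℂ) r} (by
        have hc : Continuous (fun a : PS => a n) := continuous_apply (A := fun _ : ℕ => ℂ) n
        exact hc.continuousAt.preimage_mem_nhds (by
          change Metric.ball (0 : ℂ) r ∈ 𝓝 (0 : ℂ)
          exact Metric.ball_mem_nhds _ hr))
      refine ⟨N, fun m hm k hk => ?_⟩
      have := hN m hm k hk
      rw [Set.mem_ofPred_eq, Metric.mem_ball, dist_zero_right] at this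
      rw [dist_eq_norm]
      exact this
    choose y hy using h
    exact ⟨y, tendsto_pi_nhds.2 hy⟩

/-- the Fréchet algebra `z ℂ⟦z⟧` -/
def PSalg : FAlg where
  space := ⟨PS, frechet_PS⟩
  mul := LinearMap.mul ℂ PS
  assoc := mul_assoc (G := PS)
  continuous_mul := continuous_mul_PS

/-- the element `z ^ (n + 1)` -/
def zpow (n : ℕ) : PS := fun k => if k = n then 1 else 0

/-- the series `(a - a₀ z) / z` -/
def shift : PS →ₗ[ℂ] PS where
  toFun a := fun n => a (n + 1)
  map_add' _ _ := rfl
  map_smul' _ _ := rfl

theorem continuous_shift : Continuous shift :=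
  continuous_pi fun n => continuous_apply (A := fun _ : ℕ => ℂ) (n + 1)

/-- the coefficient of `z` -/
def lead : PS →ₗ[ℂ] ℂ where
  toFun a := a 0
  map_add' _ _ := rfl
  map_smul' _ _ := rfl

theorem continuous_lead : Continuous lead := continuous_apply (A := fun _ : ℕ => ℂ) 0

theorem lead_mul (a b : PS) : lead (a * b) = 0 := by
  change PowerSeries.coeff 0 (PowerSeries.X * ser a * ser b) = 0
  rw [mul_assoc, PowerSeries.coeff_zero_X_mul]

theorem shift_mul (a b : PS) : shift (a * b) = lead b • a + a * shift b := by
  apply ser_inj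
  have h1 : ser b = PowerSeries.C (lead b) + PowerSeries.X * ser (shift b) := by
    ext n
    rcases n with _ | n
    · rw [map_add, PowerSeries.coeff_zero_X_mul, add_zero, PowerSeries.coeff_zero_C, coeff_ser]
      rfl
    · rw [map_add, PowerSeries.coeff_succ_X_mul, PowerSeries.coeff_succ_C, zero_add, coeff_ser,
        coeff_ser]
      rfl
  have h2 : ser (shift (a * b)) = ser a * ser b := by
    ext n
    have h3 : PowerSeries.coeff n (ser (shift (a * b))) =
        PowerSeries.coeff (n + 1) (PowerSeries.X * ser a * ser b) := by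
      rw [coeff_ser]
      rfl
    rw [h3, mul_assoc, PowerSeries.coeff_succ_X_mul]
  rw [h2, ser_add, ser_smul, ser_mul, PowerSeries.smul_eq_C_mul]
  conv_lhs => rw [h1]
  ring

theorem lead_zpow_zero : lead (zpow 0) = 1 := by
  change zpow 0 0 = 1
  simp [zpow]

theorem shift_zpow_zero : shift (zpow 0) = 0 := by
  funext n
  change zpow 0 (n + 1) = 0
  simp [zpow]

theorem zpow_succ (n : ℕ) : zpow 0 * zpow n = zpow (n + 1) := by
  apply ser_inj
  have h : ∀ n, ser (zpow n) = PowerSeries.X ^ n := by
    intro n
    ext k
    rw [coeff_ser, PowerSeries.coeff_X_pow]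
    rfl
  rw [ser_mul, h, h, h]
  ring

/-! ## The unital algebra `ℂ⟦z⟧` -/

/-- the algebra `ℂ⟦z⟧` of formal power series; the sequence `a` stands for the series
`∑ a n z ^ n`. -/
def PU : Type := ℕ → ℂ

instance : AddCommGroup PU := inferInstanceAs (AddCommGroup (ℕ → ℂ))
instance : Module ℂ PU := inferInstanceAs (Module ℂ (ℕ → ℂ))
instance : TopologicalSpace PU := inferInstanceAs (TopologicalSpace (ℕ → ℂ))

/-- the power series with coefficients `a` -/
def serU (a : PU) : PowerSeries ℂ := PowerSeries.mk a

theorem coeff_serU (n : ℕ) (a : PU) : PowerSeries.coeff n (serU a) = a n :=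
  PowerSeries.coeff_mk n a

theorem serU_inj {a b : PU} (h : serU a = serU b) : a = b := by
  funext n
  have := congrArg (PowerSeries.coeff n) h
  rwa [coeff_serU, coeff_serU] at this

instance : Mul PU := ⟨fun a b n => PowerSeries.coeff n (serU a * serU b)⟩

theorem serU_mul (a b : PU) : serU (a * b) = serU a * serU b := by
  ext n
  rw [coeff_serU]
  rfl

theorem serU_add (a b : PU) : serU (a + b) = serU a + serU b := by
  ext n
  rw [map_add, coeff_serU, coeff_serU, coeff_serU]
  rfl

theorem serU_zero : serU 0 = 0 := by
  ext n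
  rw [coeff_serU, map_zero]
  rfl

theorem serU_smul (c : ℂ) (a : PU) : serU (c • a) = c • serU a := by
  ext n
  rw [map_smul, coeff_serU, coeff_serU]
  rfl

instance : NonUnitalCommRing PU :=
  { (inferInstance : AddCommGroup PU), (inferInstance : Mul PU) with
    left_distrib := fun a b c => serU_inj (by simp only [serU_mul, serU_add]; ring)
    right_distrib := fun a b c => serU_inj (by simp only [serU_mul, serU_add]; ring)
    zero_mul := fun a => serU_inj (by simp only [serU_mul, serU_zero]; ring)
    mul_zero := fun a => serU_inj (by simp only [serU_mul, serU_zero]; ring)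
    mul_assoc := fun a b c => serU_inj (by simp only [serU_mul]; ring)
    mul_comm := fun a b => serU_inj (by simp only [serU_mul]; ring) }

instance : IsScalarTower ℂ PU PU :=
  ⟨fun c a b => serU_inj (by
    simp only [smul_eq_mul, serU_mul, serU_smul, smul_mul_assoc])⟩

instance : SMulCommClass ℂ PU PU :=
  ⟨fun c a b => serU_inj (by
    simp only [smul_eq_mul, serU_mul, serU_smul, mul_smul_comm])⟩

theorem continuous_mul_PU : Continuous fun p : PU × PU => p.1 * p.2 := by
  refine continuous_pi fun n => ?_
  have h2 : (fun p : PU × PU => (p.1 * p.2) n) =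
      fun p : PU × PU => ∑ i ∈ Finset.HasAntidiagonal.antidiagonal n, p.1 i.1 * p.2 i.2 := by
    funext p
    change PowerSeries.coeff n (serU p.1 * serU p.2) = _
    rw [PowerSeries.coeff_mul]
    refine Finset.sum_congr rfl fun i _ => ?_
    rw [coeff_serU, coeff_serU]
  change Continuous (fun p : PU × PU => (p.1 * p.2) n)
  rw [h2]
  refine continuous_finsetSum _ fun i _ => ?_
  exact ((continuous_apply (A := fun _ : ℕ => ℂ) i.1).comp continuous_fst).mul
    ((continuous_apply (A := fun _ : ℕ => ℂ) i.2).comp continuous_snd)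

/-- the Fréchet algebra `ℂ⟦z⟧` -/
def PUalg : FAlg where
  space := ⟨PU, ⟨frechet_PS.polynormable, frechet_PS.metrizable, frechet_PS.complete⟩⟩
  mul := LinearMap.mul ℂ PU
  assoc := mul_assoc (G := PU)
  continuous_mul := continuous_mul_PU

/-- the unit of `ℂ⟦z⟧` -/
def one : PU := fun n => if n = 0 then 1 else 0

theorem serU_one : serU one = 1 := by
  ext n
  rw [coeff_serU, PowerSeries.coeff_one]
  rfl

theorem one_mul' (a : PU) : one * a = a := serU_inj (by rw [serU_mul, serU_one, one_mul])

theorem mul_one' (a : PU) : a * one = a := serU_inj (by rw [serU_mul, serU_one, mul_one])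

/-- the inclusion `z ℂ⟦z⟧ → ℂ⟦z⟧` -/
def emb : PS →ₗ[ℂ] PU where
  toFun a := fun n => PowerSeries.coeff n (PowerSeries.X * ser a)
  map_add' a b := by
    funext n
    change _ = PowerSeries.coeff n (PowerSeries.X * ser a) +
      PowerSeries.coeff n (PowerSeries.X * ser b)
    rw [ser_add, mul_add, map_add]
  map_smul' c a := by
    funext n
    change _ = c • PowerSeries.coeff n (PowerSeries.X * ser a)
    rw [ser_smul, mul_smul_comm, map_smul]

theorem serU_emb (a : PS) : serU (emb a) = PowerSeries.X * ser a := by
  ext n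
  rw [coeff_serU]
  rfl

theorem emb_mul (a b : PS) : emb (a * b) = emb a * emb b :=
  serU_inj (by rw [serU_mul, serU_emb, serU_emb, serU_emb, ser_mul]; ring)

theorem continuous_emb : Continuous emb := by
  refine continuous_pi fun n => ?_
  change Continuous (fun a : PS => PowerSeries.coeff n (PowerSeries.X * ser a))
  rcases n with _ | n
  · simp only [PowerSeries.coeff_zero_X_mul]
    exact continuous_const
  · have : (fun a : PS => PowerSeries.coeff (n + 1) (PowerSeries.X * ser a)) = fun a => a n := by
      funext a
      rw [PowerSeries.coeff_succ_X_mul, coeff_ser]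
    rw [this]
    exact continuous_apply (A := fun _ : ℕ => ℂ) n

/-- `a ↦ a - a 0` -/
def rest : PU →ₗ[ℂ] PS where
  toFun a := fun n => a (n + 1)
  map_add' _ _ := rfl
  map_smul' _ _ := rfl

theorem continuous_rest : Continuous rest :=
  continuous_pi fun n => continuous_apply (A := fun _ : ℕ => ℂ) (n + 1)

/-- the constant coefficient -/
def cst : PU →ₗ[ℂ] ℂ where
  toFun a := a 0
  map_add' _ _ := rfl
  map_smul' _ _ := rfl

theorem continuous_cst : Continuous cst := continuous_apply (A := fun _ : ℕ => ℂ) 0

theorem serU_eq (a : PU) :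
    serU a = PowerSeries.C (cst a) + PowerSeries.X * ser (rest a) := by
  ext n
  rcases n with _ | n
  · rw [map_add, PowerSeries.coeff_zero_X_mul, add_zero, PowerSeries.coeff_zero_C, coeff_serU]
    rfl
  · rw [map_add, PowerSeries.coeff_succ_X_mul, PowerSeries.coeff_succ_C, zero_add, coeff_serU,
      coeff_ser]
    rfl

theorem PU_eq (a : PU) : a = cst a • one + emb (rest a) :=
  serU_inj (by rw [serU_add, serU_smul, serU_one, serU_emb, PowerSeries.smul_eq_C_mul, mul_one,
    serU_eq])

theorem cst_mul (a b : PU) : cst (a * b) = cst a * cst b := by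
  change PowerSeries.coeff 0 (serU a * serU b) = a 0 * b 0
  rw [PowerSeries.coeff_zero_eq_constantCoeff_apply, map_mul,
    ← PowerSeries.coeff_zero_eq_constantCoeff_apply, ← PowerSeries.coeff_zero_eq_constantCoeff_apply,
    coeff_serU, coeff_serU]

theorem rest_mul (a b : PU) :
    rest (a * b) = cst a • rest b + cst b • rest a + rest a * rest b := by
  apply ser_inj
  have h : PowerSeries.X * ser (rest (a * b)) = PowerSeries.X *
      ser (cst a • rest b + cst b • rest a + rest a * rest b) := by
    have h1 := serU_eq (a * b)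
    rw [serU_mul, serU_eq a, serU_eq b, cst_mul] at h1
    rw [ser_add, ser_add, ser_smul, ser_smul, ser_mul, PowerSeries.smul_eq_C_mul,
      PowerSeries.smul_eq_C_mul]
    rw [map_mul] at h1
    linear_combination -h1
  exact mul_left_cancel₀ PowerSeries.X_ne_zero h

theorem cst_emb (a : PS) : cst (emb a) = 0 := by
  change PowerSeries.coeff 0 (PowerSeries.X * ser a) = 0
  rw [PowerSeries.coeff_zero_X_mul]

theorem rest_emb (a : PS) : rest (emb a) = a := by
  funext n
  change PowerSeries.coeff (n + 1) (PowerSeries.X * ser a) = a n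
  rw [PowerSeries.coeff_succ_X_mul, coeff_ser]

theorem cst_one : cst one = 1 := rfl

theorem rest_one : rest one = 0 := by
  funext n
  change one (n + 1) = 0
  simp [one]

/-! ## The extension of `J` by `ℂ` -/

theorem frechet_prod {X : Type u} [AddCommGroup X] [Module ℂ X] [TopologicalSpace X]
    (hX : IsFrechet X) : IsFrechet (X × ℂ) where
  polynormable := by
    have := hX.polynormable
    infer_instance
  metrizable := by
    have := hX.metrizable
    infer_instance
  complete := by
    intro s hs
    obtain ⟨x, hx⟩ := hX.complete (fun n => (s n).1) (by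
      intro U hU
      obtain ⟨N, hN⟩ := hs (Prod.fst ⁻¹' U) (continuous_fst.continuousAt.preimage_mem_nhds hU)
      exact ⟨N, fun m hm n hn => hN m hm n hn⟩)
    have : ∃ y, Tendsto (fun n => (s n).2) atTop (𝓝 y) := by
      refine cauchySeq_tendsto_of_complete ?_
      rw [Metric.cauchySeq_iff]
      intro r hr
      obtain ⟨N, hN⟩ := hs (Prod.snd ⁻¹' Metric.ball (0 : ℂ) r)
        (continuous_snd.continuousAt.preimage_mem_nhds (Metric.ball_mem_nhds _ hr))
      refine ⟨N, fun m hm k hk => ?_⟩
      have := hN m hm k hk
      rw [Set.mem_preimage, Metric.mem_ball, dist_zero_right] at this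
      rw [dist_eq_norm]
      exact this
    obtain ⟨y, hy⟩ := this
    exact ⟨(x, y), hx.prodMk_nhds hy⟩

variable (J : FMod.{u} PSalg)

/-- the action of `J` with explicit types -/
def ac : PS →ₗ[ℂ] J.space.carrier →ₗ[ℂ] J.space.carrier := J.act

theorem ac_mul (a b : PS) (x : J.space.carrier) : ac J (a * b) x = ac J a (ac J b x) :=
  J.mul_act a b x

theorem continuous_ac : Continuous fun p : PS × J.space.carrier => ac J p.1 p.2 :=
  J.continuous_act

/-- `T a = (a / z) · t` -/
def T (t : J.space.carrier) : PS →ₗ[ℂ] J.space.carrier :=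
  lead.smulRight t + ((ac J).flip t).comp shift

theorem T_apply (t : J.space.carrier) (a : PS) : T J t a = lead a • t + ac J (shift a) t := rfl

theorem T_mul (t : J.space.carrier) (a b : PS) : T J t (a * b) = ac J a (T J t b) := by
  rw [T_apply, T_apply, lead_mul, shift_mul, map_add, map_add, map_smul, map_smul,
    LinearMap.add_apply, LinearMap.smul_apply, zero_smul, zero_add, ac_mul]

/-- the action on `J ⊕ ℂ` -/
def extAct (t : J.space.carrier) :
    PS →ₗ[ℂ] (J.space.carrier × ℂ) →ₗ[ℂ] (J.space.carrier × ℂ) :=
  LinearMap.mk₂ ℂ (fun a p => ((ac J a p.1 + p.2 • T J t a, (0 : ℂ)) : J.space.carrier × ℂ))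
    (by intro a b p; ext <;> simp [smul_add]; abel)
    (by intro c a p; ext <;> simp [smul_add, smul_comm c])
    (by intro a p q; ext <;> simp [add_smul]; abel)
    (by intro c a p; ext <;> simp [smul_add, mul_smul])

theorem extAct_apply (t : J.space.carrier) (a : PS) (p : J.space.carrier × ℂ) :
    extAct J t a p = (ac J a p.1 + p.2 • T J t a, (0 : ℂ)) := rfl

/-- the module `J ⊕ ℂ` with `a · (x, c) = (a x + c (a / z) t, 0)` -/
def ext (t : J.space.carrier) : FMod.{u} PSalg where
  space := ⟨J.space.carrier × ℂ, frechet_prod J.space.frechet⟩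
  act := extAct J t
  mul_act := by
    have h : ∀ (a b : PS) (x : J.space.carrier × ℂ),
        extAct J t (a * b) x = extAct J t a (extAct J t b x) := by
      intro a b p
      simp only [extAct_apply]
      rw [ac_mul, T_mul, map_add, map_smul, zero_smul, add_zero]
    exact h
  continuous_act := by
    have := J.space.frechet.polynormable
    have h1 := (PolynormableSpace.withSeminorms ℂ J.space.carrier).topologicalAddGroup
    have h2 := (PolynormableSpace.withSeminorms ℂ J.space.carrier).continuousSMul
    have hT : Continuous (T J t) := by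
      have : (T J t : PS → J.space.carrier) = fun a => lead a • t + ac J (shift a) t := rfl
      rw [this]
      exact (continuous_lead.smul continuous_const).add
        ((continuous_ac J).comp (continuous_shift.prodMk continuous_const))
    have h3 : Continuous fun p : PS × (J.space.carrier × ℂ) =>
        ((ac J p.1 p.2.1 + p.2.2 • T J t p.1, (0 : ℂ)) : J.space.carrier × ℂ) := by
      refine Continuous.prodMk ?_ continuous_const
      refine Continuous.add ?_ ?_
      · exact (continuous_ac J).comp (continuous_fst.prodMk (continuous_fst.comp continuous_snd))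
      · exact (continuous_snd.comp continuous_snd).smul (hT.comp continuous_fst)
    exact h3

theorem divisible (hJ : Injective J) (t : J.space.carrier) : ∃ x, ac J (zpow 0) x = t := by
  have hp := J.space.frechet.polynormable
  have h1 := (PolynormableSpace.withSeminorms ℂ J.space.carrier).topologicalAddGroup
  have h2 := (PolynormableSpace.withSeminorms ℂ J.space.carrier).continuousSMul
  have hlin : ∀ (a : PS) (x : J.space.carrier),
      ((ac J a x, (0 : ℂ)) : J.space.carrier × ℂ) = extAct J t a (x, 0) := by
    intro a x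
    rw [extAct_apply, zero_smul, add_zero]
  obtain ⟨ψ, hψ, hψ'⟩ := hJ (ext J t) (ContinuousLinearMap.inl ℂ J.space.carrier ℂ) hlin
    ⟨ContinuousLinearMap.fst ℂ J.space.carrier ℂ, fun x => rfl⟩
  let ψ' : (J.space.carrier × ℂ) →L[ℂ] J.space.carrier := ψ
  have hψ1 : ∀ (a : PS) (p : J.space.carrier × ℂ), ψ' (extAct J t a p) = ac J a (ψ' p) := hψ
  have hψ2 : ∀ x : J.space.carrier, ψ' (x, 0) = x := hψ'
  refine ⟨ψ' (0, 1), ?_⟩
  rw [← hψ1, extAct_apply, map_zero, zero_add, one_smul, T_apply, lead_zpow_zero,
    shift_zpow_zero, one_smul, map_zero, LinearMap.zero_apply, add_zero, hψ2]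

theorem divisible_pow (hJ : Injective J) (n : ℕ) (t : J.space.carrier) :
    ∃ x, ac J (zpow n) x = t := by
  induction n generalizing t with
  | zero => exact divisible J hJ t
  | succ n ih =>
    obtain ⟨y, hy⟩ := divisible J hJ t
    obtain ⟨x, hx⟩ := ih y
    exact ⟨x, by rw [← zpow_succ, ac_mul, hx, hy]⟩

/-- **Theorem.** `z ℂ⟦z⟧` has no non-zero injective Fréchet module. -/
theorem zero_of_injective (hJ : Injective J) : IsZero J := by
  have hp := J.space.frechet.polynormable
  have hm := J.space.frechet.metrizable
  have h1 := (PolynormableSpace.withSeminorms ℂ J.space.carrier).topologicalAddGroup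
  have h2 := (PolynormableSpace.withSeminorms ℂ J.space.carrier).continuousSMul
  intro x
  by_contra hx
  have hU : ({x}ᶜ : Set J.space.carrier) ∈ 𝓝 (0 : J.space.carrier) :=
    isOpen_compl_singleton.mem_nhds (fun h => hx (Set.mem_singleton_iff.1 h).symm)
  have hc := (continuous_ac J).continuousAt (x := ((0 : PS), (0 : J.space.carrier)))
  have h0 : ac J ((0 : PS), (0 : J.space.carrier)).1 ((0 : PS), (0 : J.space.carrier)).2 = 0 := by
    simp
  have hpre := hc.preimage_mem_nhds (by rw [h0]; exact hU)
  rw [nhds_prod_eq, Filter.mem_prod_iff] at hpre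
  obtain ⟨V, hV, W, hW, hVW⟩ := hpre
  -- a neighbourhood of zero contains all multiples of a high power of `z`
  obtain ⟨n, hn⟩ : ∃ n, ∀ c : ℂ, c • zpow n ∈ V := by
    have hV' : (V : Set (ℕ → ℂ)) ∈ Filter.pi (fun i : ℕ => 𝓝 ((0 : ℕ → ℂ) i)) := by
      rw [← nhds_pi]
      exact hV
    obtain ⟨I, hI, t, ht, hIt⟩ := Filter.mem_pi.1 hV'
    obtain ⟨n, hn⟩ := hI.bddAbove
    refine ⟨n + 1, fun c => hIt ?_⟩
    intro i hi
    have : (c • zpow (n + 1)) i = (0 : ℂ) := by
      have h3 : i ≤ n := hn hi
      have h4 : zpow (n + 1) i = 0 := by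
        simp only [zpow]
        rw [if_neg (by omega)]
      change c • zpow (n + 1) i = 0
      rw [h4, smul_zero]
    change (c • zpow (n + 1)) i ∈ t i
    rw [this]
    exact mem_of_mem_nhds (ht i)
  obtain ⟨y, hy⟩ := divisible_pow J hJ n x
  -- a small multiple of `y` lies in `W`
  obtain ⟨ε, hε0, hε⟩ : ∃ ε : ℂ, ε ≠ 0 ∧ ε • y ∈ W := by
    have hcont : Tendsto (fun ε : ℂ => ε • y) (𝓝 0) (𝓝 0) := by
      have : Tendsto (fun ε : ℂ => ε • y) (𝓝 0) (𝓝 ((0 : ℂ) • y)) :=
        (continuous_id.smul continuous_const).tendsto 0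
      rwa [zero_smul] at this
    have h5 : ∀ᶠ ε : ℂ in 𝓝[≠] 0, ε • y ∈ W := (hcont.mono_left nhdsWithin_le_nhds) hW
    obtain ⟨ε, h6, h7⟩ := (h5.and self_mem_nhdsWithin).exists
    exact ⟨ε, h7, h6⟩
  have hmem : ((ε⁻¹ • zpow n, ε • y) : PS × J.space.carrier) ∈ V ×ˢ W := ⟨hn _, hε⟩
  have h8 := hVW hmem
  apply h8
  change ac J (ε⁻¹ • zpow n) (ε • y) = x
  rw [map_smul, map_smul, LinearMap.smul_apply, smul_smul, mul_inv_cancel₀ hε0, one_smul, hy]

/-! ## Unital modules -/

section Unital

variable {A : FAlg}

/-- `e` is a unit element of `A`. -/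
def IsUnitElement (e : A.space.carrier) : Prop := ∀ a, A.mul e a = a ∧ A.mul a e = a

/-- the module `X` is unital (with respect to the unit element `e` of `A`). -/
def IsUnital (e : A.space.carrier) (X : FMod.{u} A) : Prop := ∀ x, X.act e x = x

/-- The unital Fréchet module `J` is injective in the category of unital Fréchet modules. -/
def InjectiveAmongUnital (e : A.space.carrier) (J : FMod.{u} A) : Prop :=
  IsUnital e J ∧ ∀ (Y : FMod.{u} A), IsUnital e Y → ∀ (φ : Lin J.space Y.space),
    IsALinear φ → (∃ ψ : Lin Y.space J.space, LeftInverse ψ φ) →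
    ∃ ψ : Lin Y.space J.space, IsALinear ψ ∧ LeftInverse ψ φ

end Unital

/-- the action of a module over `ℂ⟦z⟧` with explicit types -/
def acU (J : FMod.{u} PUalg) : PU →ₗ[ℂ] J.space.carrier →ₗ[ℂ] J.space.carrier := J.act

theorem acU_mul (J : FMod.{u} PUalg) (a b : PU) (x : J.space.carrier) :
    acU J (a * b) x = acU J a (acU J b x) := J.mul_act a b x

theorem continuous_acU (J : FMod.{u} PUalg) :
    Continuous fun p : PU × J.space.carrier => acU J p.1 p.2 := J.continuous_act

/-- a unital module over `ℂ⟦z⟧` seen as a module over `z ℂ⟦z⟧` -/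
def restrict (J : FMod.{u} PUalg) : FMod.{u} PSalg where
  space := J.space
  act := (acU J).comp emb
  mul_act := by
    have h : ∀ (a b : PS) (x : J.space.carrier),
        acU J (emb (a * b)) x = acU J (emb a) (acU J (emb b) x) := by
      intro a b x
      rw [emb_mul, acU_mul]
    exact h
  continuous_act := (continuous_acU J).comp
    ((continuous_emb.comp continuous_fst).prodMk continuous_snd)

/-- the action of `ℂ⟦z⟧` on a module over `z ℂ⟦z⟧` -/
def extendAct (Y : FMod.{u} PSalg) : PU →ₗ[ℂ] Y.space.carrier →ₗ[ℂ] Y.space.carrier :=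
  (LinearMap.lsmul ℂ Y.space.carrier).comp cst + (ac Y).comp rest

theorem extendAct_apply (Y : FMod.{u} PSalg) (a : PU) (x : Y.space.carrier) :
    extendAct Y a x = cst a • x + ac Y (rest a) x := rfl

/-- a module over `z ℂ⟦z⟧` seen as a unital module over `ℂ⟦z⟧` -/
def extend (Y : FMod.{u} PSalg) : FMod.{u} PUalg where
  space := Y.space
  act := extendAct Y
  mul_act := by
    have h : ∀ (a b : PU) (x : Y.space.carrier),
        extendAct Y (a * b) x = extendAct Y a (extendAct Y b x) := by
      intro a b x
      simp only [extendAct_apply]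
      rw [cst_mul, rest_mul, map_add, map_add, map_smul, map_smul, LinearMap.add_apply,
        LinearMap.add_apply, LinearMap.smul_apply, LinearMap.smul_apply, ac_mul, map_add,
        map_smul, smul_add, smul_smul]
      abel
    exact h
  continuous_act := by
    have hp := Y.space.frechet.polynormable
    have h1 := (PolynormableSpace.withSeminorms ℂ Y.space.carrier).topologicalAddGroup
    have h2 := (PolynormableSpace.withSeminorms ℂ Y.space.carrier).continuousSMul
    have h3 : Continuous fun p : PU × Y.space.carrier =>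
        cst p.1 • p.2 + ac Y (rest p.1) p.2 := by
      refine Continuous.add ?_ ?_
      · exact (continuous_cst.comp continuous_fst).smul continuous_snd
      · exact (continuous_ac Y).comp ((continuous_rest.comp continuous_fst).prodMk continuous_snd)
    exact h3

theorem extend_unital (Y : FMod.{u} PSalg) : IsUnital (A := PUalg) one (extend Y) := by
  have h : ∀ x : Y.space.carrier, cst one • x + ac Y (rest one) x = x := by
    intro x
    rw [cst_one, rest_one, one_smul, map_zero, LinearMap.zero_apply, add_zero]
  exact h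

theorem injective_restrict (J : FMod.{u} PUalg)
    (hJ : InjectiveAmongUnital (A := PUalg) one J) : Injective (restrict J) := by
  intro Y (φ : J.space.carrier →L[ℂ] Y.space.carrier) hφ hψ
  have h5 : ∀ (a : PU) (x : J.space.carrier), φ (acU J a x) = extendAct Y a (φ x) := by
    intro a x
    have h3 : φ (acU J (emb (rest a)) x) = ac Y (rest a) (φ x) := hφ (rest a) x
    have h4 : acU J one x = x := hJ.1 x
    conv_lhs => rw [PU_eq a]
    rw [extendAct_apply, map_add, map_smul, LinearMap.add_apply, LinearMap.smul_apply, h4,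
      map_add, map_smul, h3]
  obtain ⟨ψ, h1, h2⟩ := hJ.2 (extend Y) (extend_unital Y) φ h5 hψ
  refine ⟨ψ, ?_, h2⟩
  let ψ' : Y.space.carrier →L[ℂ] J.space.carrier := ψ
  have h6 : ∀ (a : PS) (y : Y.space.carrier), ψ' (ac Y a y) = acU J (emb a) (ψ' y) := by
    intro a y
    have h4 : ψ' (extendAct Y (emb a) y) = acU J (emb a) (ψ' y) := h1 (emb a) y
    rw [extendAct_apply, cst_emb, rest_emb, zero_smul, zero_add] at h4
    exact h4
  exact h6

/-- **Theorem.** `ℂ⟦z⟧` has no non-zero injective unital Fréchet module. -/
theorem zero_of_injectiveAmongUnital (J : FMod.{u} PUalg)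
    (hJ : InjectiveAmongUnital (A := PUalg) one J) : IsZero J :=
  zero_of_injective (restrict J) (injective_restrict J hJ)

theorem frechet_C : IsFrechet ℂ where
  polynormable := inferInstance
  metrizable := inferInstance
  complete := by
    intro s hs
    refine cauchySeq_tendsto_of_complete ?_
    rw [Metric.cauchySeq_iff]
    intro r hr
    obtain ⟨N, hN⟩ := hs (Metric.ball (0 : ℂ) r) (Metric.ball_mem_nhds _ hr)
    refine ⟨N, fun m hm k hk => ?_⟩
    have := hN m hm k hk
    rw [Metric.mem_ball, dist_zero_right] at this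
    rw [dist_eq_norm]
    exact this

/-- the zero action on `ℂ` -/
def trivialModule : FMod.{0} PSalg where
  space := ⟨ℂ, frechet_C⟩
  act := 0
  mul_act := by intro a b x; rfl
  continuous_act := continuous_const

end Pool.Agent.Q192.Frechet
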