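import Mathlib

/-!
# Weighted composition operators on `ℓ²(ι)`
-/

set_option autoImplicit false

open scoped InnerProductSpace ENNReal

noncomputable section

namespace Pool.Agent.Q192.LpOps

variable {ι : Type*}

/-- the Hilbert space `ℓ²(ι)` -/
abbrev L (ι : Type*) : Type _ := lp (fun _ : ι => ℂ) 2

theorem two_toReal : (0 : ℝ) < (2 : ℝ≥0∞).toReal := by norm_num

theorem sum_le_aux (w : ι → ℂ) (σ : ι → ι) (C : ℝ) (hC : 0 ≤ C) (hw : ∀ s, ‖w s‖ ≤ C)
    (hσ : Set.InjOn σ {s | w s ≠ 0}) (x : L ι) (F : Finset ι) :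
    ∑ s ∈ F, ‖w s * x (σ s)‖ ^ (2 : ℝ≥0∞).toReal ≤ (C * ‖x‖) ^ (2 : ℝ≥0∞).toReal := by
  classical
  have h2 : (2 : ℝ≥0∞).toReal = ((2 : ℕ) : ℝ) := by norm_num
  calc ∑ s ∈ F, ‖w s * x (σ s)‖ ^ (2 : ℝ≥0∞).toReal
      = ∑ s ∈ F.filter (fun s => w s ≠ 0), ‖w s * x (σ s)‖ ^ (2 : ℝ≥0∞).toReal := by
        rw [Finset.sum_filter_of_ne]
        intro s _ hne h0
        apply hne
        rw [h0, zero_mul, norm_zero, Real.zero_rpow (by norm_num)]
    _ ≤ ∑ s ∈ F.filter (fun s => w s ≠ 0), C ^ 2 * ‖x (σ s)‖ ^ (2 : ℝ≥0∞).toReal := by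
        refine Finset.sum_le_sum fun s _ => ?_
        rw [h2, Real.rpow_natCast, Real.rpow_natCast, norm_mul, mul_pow]
        gcongr
        exact hw s
    _ = C ^ 2 * ∑ t ∈ (F.filter (fun s => w s ≠ 0)).image σ, ‖x t‖ ^ (2 : ℝ≥0∞).toReal := by
        rw [Finset.sum_image, Finset.mul_sum]
        intro a ha b hb hab
        exact hσ (Finset.mem_filter.1 ha).2 (Finset.mem_filter.1 hb).2 hab
    _ ≤ C ^ 2 * ‖x‖ ^ (2 : ℝ≥0∞).toReal := by
        gcongr
        exact lp.sum_rpow_le_norm_rpow two_toReal x _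
    _ = (C * ‖x‖) ^ (2 : ℝ≥0∞).toReal := by
        rw [h2, Real.rpow_natCast, Real.rpow_natCast, mul_pow]

/-- the weighted composition operator `x ↦ w · (x ∘ σ)` -/
def wc (w : ι → ℂ) (σ : ι → ι) (C : ℝ) (hC : 0 ≤ C) (hw : ∀ s, ‖w s‖ ≤ C)
    (hσ : Set.InjOn σ {s | w s ≠ 0}) : L ι →L[ℂ] L ι :=
  LinearMap.mkContinuous
    { toFun := fun x => ⟨fun s => w s * x (σ s),
        memℓp_gen' (C := (C * ‖x‖) ^ (2 : ℝ≥0∞).toReal) (sum_le_aux w σ C hC hw hσ x)⟩
      map_add' := fun x y => by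
        ext s
        change w s * (x (σ s) + y (σ s)) = w s * x (σ s) + w s * y (σ s)
        ring
      map_smul' := fun c x => by
        ext s
        change w s * (c * x (σ s)) = c * (w s * x (σ s))
        ring } C (fun x => lp.norm_le_of_forall_sum_le two_toReal (by positivity)
          (sum_le_aux w σ C hC hw hσ x))

theorem wc_apply (w : ι → ℂ) (σ : ι → ι) (C : ℝ) (hC : 0 ≤ C) (hw : ∀ s, ‖w s‖ ≤ C)
    (hσ : Set.InjOn σ {s | w s ≠ 0}) (x : L ι) (s : ι) :
    wc w σ C hC hw hσ x s = w s * x (σ s) := rfl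

theorem lipschitz_coord (s : ι) : LipschitzWith 1 (fun x : L ι => x s) := by
  refine LipschitzWith.of_dist_le_mul fun x y => ?_
  rw [NNReal.coe_one, one_mul, dist_eq_norm, dist_eq_norm]
  exact lp.norm_apply_le_norm (by norm_num) (x - y) s

theorem continuous_coord (s : ι) : Continuous fun x : L ι => x s := (lipschitz_coord s).continuous

/-- the coordinate functional -/
def coord (s : ι) : L ι →L[ℂ] ℂ where
  toFun x := x s
  map_add' _ _ := rfl
  map_smul' _ _ := rfl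
  cont := continuous_coord s

theorem coord_apply (s : ι) (x : L ι) : coord s x = x s := rfl

/-- the forward shift on `ℓ²(ℕ)` -/
def fshift : L ℕ →L[ℂ] L ℕ := wc (fun n => if n = 0 then 0 else 1) (fun n => n - 1) 1 zero_le_one
  (fun n => by split_ifs <;> simp) (by
    intro a ha b hb h
    simp only [Set.mem_ofPred_eq, ne_eq, ite_eq_left_iff, not_forall] at ha hb
    obtain ⟨ha, -⟩ := ha
    obtain ⟨hb, -⟩ := hb
    change a - 1 = b - 1 at h
    omega)

theorem fshift_zero (x : L ℕ) : fshift x 0 = 0 :=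
  (wc_apply _ _ _ _ _ _ x 0).trans (by rw [if_pos rfl, zero_mul])

theorem fshift_succ (x : L ℕ) (n : ℕ) : fshift x (n + 1) = x n :=
  (wc_apply _ _ _ _ _ _ x (n + 1)).trans (by rw [if_neg (Nat.succ_ne_zero n), one_mul]; rfl)

/-- the backward shift on `ℓ²(ℕ)` -/
def bshift : L ℕ →L[ℂ] L ℕ := wc (fun _ => 1) (fun n => n + 1) 1 zero_le_one
  (fun n => by simp) (by
    intro a ha b hb h
    change a + 1 = b + 1 at h
    omega)

theorem bshift_apply (x : L ℕ) (n : ℕ) : bshift x n = x (n + 1) :=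
  (wc_apply _ _ _ _ _ _ x n).trans (by rw [one_mul])

theorem fshift_inj {x : L ℕ} (h : fshift x = 0) : x = 0 := by
  ext n
  have h1 := congrArg (fun y : L ℕ => y (n + 1)) h
  change fshift x (n + 1) = 0 at h1
  rw [fshift_succ] at h1
  exact h1

theorem mem_range_fshift {x : L ℕ} : (∃ y, fshift y = x) ↔ x 0 = 0 := by
  constructor
  · rintro ⟨y, rfl⟩
    exact fshift_zero y
  · intro h
    refine ⟨bshift x, ?_⟩
    ext n
    rcases n with _ | n
    · rw [fshift_zero, h]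
    · rw [fshift_succ, bshift_apply]

end Pool.Agent.Q192.LpOps
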