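import Mathlib

/-!
# Riesz theory for operators `1 + C`, `C` compact, on a Hilbert space
-/

set_option autoImplicit false
set_option linter.unusedSectionVars false

open Filter Topology Polynomial
open scoped InnerProductSpace

namespace Pool.Agent.Q192.Riesz

variable {H : Type*} [NormedAddCommGroup H] [InnerProductSpace ℂ H] [CompleteSpace H]

/-- kernel -/
abbrev kr (T : H →L[ℂ] H) : Submodule ℂ H := LinearMap.ker (T : H →ₗ[ℂ] H)

/-- range -/
abbrev rg (T : H →L[ℂ] H) : Submodule ℂ H := LinearMap.range (T : H →ₗ[ℂ] H)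

theorem mem_kr {T : H →L[ℂ] H} {x : H} : x ∈ kr T ↔ T x = 0 := LinearMap.mem_ker

theorem mem_rg {T : H →L[ℂ] H} {x : H} : x ∈ rg T ↔ ∃ y, T y = x := LinearMap.mem_range

theorem cpt_mul_right {C : H →L[ℂ] H} (hC : IsCompactOperator C) (X : H →L[ℂ] H) :
    IsCompactOperator (C * X : H →L[ℂ] H) := hC.comp_clm X

theorem cpt_mul_left {C : H →L[ℂ] H} (hC : IsCompactOperator C) (X : H →L[ℂ] H) :
    IsCompactOperator (X * C : H →L[ℂ] H) := hC.clm_comp X

theorem cpt_add {C D : H →L[ℂ] H} (hC : IsCompactOperator C) (hD : IsCompactOperator D) :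
    IsCompactOperator (C + D : H →L[ℂ] H) := hC.add hD

theorem cpt_sub {C D : H →L[ℂ] H} (hC : IsCompactOperator C) (hD : IsCompactOperator D) :
    IsCompactOperator (C - D : H →L[ℂ] H) := hC.sub hD

theorem cpt_neg {C : H →L[ℂ] H} (hC : IsCompactOperator C) :
    IsCompactOperator (-C : H →L[ℂ] H) := hC.neg

theorem pow_succ_apply (T : H →L[ℂ] H) (n : ℕ) (x : H) : (T ^ (n + 1)) x = T ((T ^ n) x) := by
  rw [pow_succ']
  rfl

theorem pow_succ_apply' (T : H →L[ℂ] H) (n : ℕ) (x : H) : (T ^ (n + 1)) x = (T ^ n) (T x) := by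
  rw [pow_succ]
  rfl

theorem pow_add_apply (T : H →L[ℂ] H) (m n : ℕ) (x : H) :
    (T ^ (m + n)) x = (T ^ m) ((T ^ n) x) := by
  rw [pow_add]
  rfl

theorem isClosed_kr (T : H →L[ℂ] H) : IsClosed (kr T : Set H) := T.isClosed_ker

theorem finite_kr {C : H →L[ℂ] H} (hC : IsCompactOperator C) :
    FiniteDimensional ℂ (kr (1 + C)) := by
  have hcl := isClosed_kr (1 + C)
  have : CompleteSpace (kr (1 + C)) := hcl.completeSpace_coe
  refine FiniteDimensional.of_isCompactOperator_id (𝕜 := ℂ) ?_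
  have h1 : IsCompactOperator (fun x : kr (1 + C) => (-C) (x : H)) :=
    (cpt_neg hC).comp_clm (kr (1 + C)).subtypeL
  have h2 : ∀ x : kr (1 + C), (-C) (x : H) ∈ kr (1 + C) := by
    intro x
    have h3 : (1 + C) (x : H) = 0 := mem_kr.1 x.2
    have h4 : (-C) (x : H) = x := by
      have : (x : H) + C x = 0 := h3
      change -(C x) = x
      rw [← add_eq_zero_iff_eq_neg.1 this]
    rw [h4]
    exact x.2
  have h5 := h1.codRestrict h2 hcl
  have h6 : Set.codRestrict (fun x : kr (1 + C) => (-C) (x : H)) (kr (1 + C)) h2 = id := by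
    funext x
    apply Subtype.ext
    have h3 : (1 + C) (x : H) = 0 := mem_kr.1 x.2
    have : (x : H) + C x = 0 := h3
    change -(C x) = x
    rw [← add_eq_zero_iff_eq_neg.1 this]
  rwa [h6] at h5

theorem pow_form (C : H →L[ℂ] H) (n : ℕ) : ∃ X : H →L[ℂ] H, (1 + C) ^ n = 1 + C * X := by
  induction n with
  | zero => exact ⟨0, by simp⟩
  | succ n ih =>
    obtain ⟨X, hX⟩ := ih
    refine ⟨X + 1 + C * X, ?_⟩
    rw [pow_succ', hX]
    noncomm_ring

/-- finite ascent -/
theorem ascent {C : H →L[ℂ] H} (hC : IsCompactOperator C) :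
    ∃ m, kr ((1 + C) ^ (m + 1)) ≤ kr ((1 + C) ^ m) := by
  by_contra hcon
  push Not at hcon
  have hmono : ∀ m n, m ≤ n → kr ((1 + C) ^ m) ≤ kr ((1 + C) ^ n) := by
    intro m n h x hx
    obtain ⟨k, rfl⟩ := Nat.exists_eq_add_of_le h
    rw [mem_kr] at hx ⊢
    rw [Nat.add_comm m k, pow_add_apply, hx, map_zero]
  have hex : ∀ m, ∃ x : H, (1 + C) x ∈ kr ((1 + C) ^ m) ∧ (∀ y ∈ kr ((1 + C) ^ m), ⟪y, x⟫_ℂ = 0) ∧
      ‖x‖ = 1 ∧ x ∈ kr ((1 + C) ^ (m + 1)) := by
    intro m
    obtain ⟨y, hy1, hy2⟩ := SetLike.not_le_iff_exists.1 (hcon m)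
    have : CompleteSpace (kr ((1 + C) ^ m)) := (isClosed_kr _).completeSpace_coe
    obtain ⟨u, hu, v, hv, huv⟩ := (kr ((1 + C) ^ m)).exists_add_mem_mem_orthogonal y
    have hv0 : v ≠ 0 := by
      rintro rfl
      apply hy2
      rw [huv, add_zero]
      exact hu
    have hv1 : v ∈ kr ((1 + C) ^ (m + 1)) := by
      have : v = y - u := by rw [huv]; abel
      rw [this]
      exact Submodule.sub_mem _ hy1 (hmono m (m + 1) (by omega) hu)
    have hn : ‖((‖v‖⁻¹ : ℝ) : ℂ) • v‖ = 1 := by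
      rw [norm_smul, Complex.norm_real, norm_inv, norm_norm, inv_mul_cancel₀ (norm_ne_zero_iff.2 hv0)]
    refine ⟨((‖v‖⁻¹ : ℝ) : ℂ) • v, ?_, ?_, hn, Submodule.smul_mem _ _ hv1⟩
    · rw [map_smul]
      refine Submodule.smul_mem _ _ ?_
      rw [mem_kr, ← pow_succ_apply']
      exact mem_kr.1 hv1
    · intro w hw
      rw [inner_smul_right, (Submodule.mem_orthogonal _ _).1 hv w hw, mul_zero]
  choose x hx1 hx2 hx3 hx4 using hex
  have hsep : ∀ m n, m < n → 1 ≤ ‖C (x n) - C (x m)‖ := by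
    intro m n hmn
    set u : H := (1 + C) (x n) - (1 + C) (x m) + x m with hu
    have hu1 : u ∈ kr ((1 + C) ^ n) := by
      refine Submodule.add_mem _ (Submodule.sub_mem _ (hx1 n) ?_) (hmono _ _ hmn (hx4 m))
      exact hmono m n hmn.le (hx1 m)
    have hu2 : C (x n) - C (x m) = u - x n := by
      rw [hu]
      change C (x n) - C (x m) = (x n + C (x n)) - (x m + C (x m)) + x m - x n
      abel
    rw [hu2]
    have h3 : ⟪u, x n⟫_ℂ = 0 := hx2 n u hu1
    have h4 : ‖u - x n‖ ^ 2 = ‖u‖ ^ 2 + 1 := by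
      rw [@norm_sub_sq ℂ, h3, hx3]
      simp
    have h5 : 1 ≤ ‖u - x n‖ ^ 2 := by rw [h4]; nlinarith [sq_nonneg ‖u‖]
    by_contra hlt
    rw [not_le] at hlt
    nlinarith [norm_nonneg (u - x n)]
  obtain ⟨K, hK, hK'⟩ := hC.image_closedBall_subset_compact 1
  obtain ⟨y, -, ψ, hψ, hψy⟩ := hK.tendsto_subseq (fun n ↦ hK' ⟨x n, by simp [hx3], rfl⟩)
  replace hψy := hψy.cauchySeq
  rw [Metric.cauchySeq_iff'] at hψy
  obtain ⟨N, hN⟩ := hψy 1 one_pos
  have h1 := hN (N + 1) (by omega)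
  rw [dist_eq_norm] at h1
  exact absurd (hsep _ _ (hψ (Nat.lt_succ_self N))) (not_le.2 h1)

theorem kr_stable {T : H →L[ℂ] H} {m : ℕ} (h : kr (T ^ (m + 1)) ≤ kr (T ^ m)) (k : ℕ) :
    kr (T ^ (m + k)) ≤ kr (T ^ m) := by
  induction k with
  | zero => exact le_rfl
  | succ k ih =>
    intro x hx
    have h1 : (T ^ k) x ∈ kr (T ^ (m + 1)) := by
      rw [mem_kr, ← pow_add_apply]
      have : m + 1 + k = m + (k + 1) := by ring
      rw [this]
      exact mem_kr.1 hx
    have h2 := h h1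
    rw [mem_kr, ← pow_add_apply] at h2
    exact ih (mem_kr.2 h2)

/-- the Fredholm alternative, first half -/
theorem unit_of_inj {C : H →L[ℂ] H} (hC : IsCompactOperator C)
    (h : ∀ x, (1 + C) x = 0 → x = 0) : IsUnit (1 + C) := by
  have h1 := hC.hasEigenvalue_or_mem_resolventSet (μ := (-1 : ℂ)) (by norm_num)
  rcases h1 with h1 | h1
  · obtain ⟨v, hv⟩ := h1.exists_hasEigenvector
    exfalso
    apply hv.2
    apply h
    have h2 := hv.apply_eq_smul
    change v + C v = 0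
    have h3 : C v = (-1 : ℂ) • v := h2
    rw [h3, neg_one_smul]
    abel
  · have h2 : IsUnit (algebraMap ℂ (H →L[ℂ] H) (-1) - C) := h1
    have h3 : algebraMap ℂ (H →L[ℂ] H) (-1) - C = -(1 + C) := by
      rw [map_neg, map_one]
      abel
    rw [h3, IsUnit.neg_iff] at h2
    exact h2

theorem unit_apply {T : H →L[ℂ] H} (h : IsUnit T) : Function.Bijective T :=
  ContinuousLinearMap.isUnit_iff_bijective.1 h

/-- the Fredholm alternative, second half -/
theorem inj_of_surj {C : H →L[ℂ] H} (hC : IsCompactOperator C)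
    (h : ∀ y, ∃ x, (1 + C) x = y) : ∀ x, (1 + C) x = 0 → x = 0 := by
  intro x hx
  obtain ⟨m, hm⟩ := ascent hC
  have hs : ∀ n : ℕ, ∀ y : H, ∃ x : H, ((1 + C : H →L[ℂ] H) ^ n) x = y := by
    intro n
    induction n with
    | zero => exact fun y => ⟨y, rfl⟩
    | succ n ih =>
      intro y
      obtain ⟨z, hz⟩ := h y
      obtain ⟨w, hw⟩ := ih z
      exact ⟨w, by rw [pow_succ_apply, hw, hz]⟩
  obtain ⟨z, hz⟩ := hs m x
  have h1 : z ∈ kr ((1 + C) ^ (m + 1)) := by
    rw [mem_kr, pow_succ_apply, hz, hx]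
  have h2 := mem_kr.1 (hm h1)
  rw [hz] at h2
  exact h2

/-- the orthogonal projection on a finite-dimensional subspace, as an operator on `H` -/
noncomputable def pr (V : Submodule ℂ H) [FiniteDimensional ℂ V] : H →L[ℂ] H :=
  V.subtypeL ∘L V.orthogonalProjectionOnto

theorem pr_mem (V : Submodule ℂ H) [FiniteDimensional ℂ V] (x : H) : pr V x ∈ V :=
  (V.orthogonalProjectionOnto x).2

theorem pr_of_mem (V : Submodule ℂ H) [FiniteDimensional ℂ V] {x : H} (hx : x ∈ V) :
    pr V x = x := by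
  have := Submodule.orthogonalProjectionOnto_mem_subspace_eq_self (K := V) ⟨x, hx⟩
  change ((V.orthogonalProjectionOnto x : V) : H) = x
  rw [this]

theorem pr_sub (V : Submodule ℂ H) [FiniteDimensional ℂ V] (x : H) : pr V (x - pr V x) = 0 := by
  rw [map_sub, pr_of_mem V (pr_mem V x), sub_self]

theorem cpt_of_finite {V : Submodule ℂ H} [FiniteDimensional ℂ V] (f : V →ₗ[ℂ] H) :
    IsCompactOperator (f.toContinuousLinearMap ∘L V.orthogonalProjectionOnto : H →L[ℂ] H) := by
  have h1 : IsCompactOperator (id : V → V) :=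
    (isCompactOperator_id_iff_finiteDimensional (𝕜 := ℂ)).2 inferInstance
  exact (h1.clm_comp f.toContinuousLinearMap).comp_clm V.orthogonalProjectionOnto

theorem cpt_pr (V : Submodule ℂ H) [FiniteDimensional ℂ V] : IsCompactOperator (pr V) := by
  have h1 : IsCompactOperator (id : V → V) :=
    (isCompactOperator_id_iff_finiteDimensional (𝕜 := ℂ)).2 inferInstance
  exact (h1.clm_comp V.subtypeL).comp_clm V.orthogonalProjectionOnto

/-- Fitting decomposition: a compact operator `E` with values in the kernel of `F^m`, such that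
`1 - E` has values in the range of `F^m` -/
theorem fitting {C : H →L[ℂ] H} (hC : IsCompactOperator C) :
    ∃ (m : ℕ) (E : H →L[ℂ] H), 1 ≤ m ∧ IsCompactOperator E ∧ (∀ x, ((1 + C) ^ m) (E x) = 0) ∧
      (∀ x, ∃ y, ((1 + C) ^ m) y = x - E x) ∧
      (∀ x, ((1 + C) ^ m) (((1 + C) ^ m) x) = 0 → ((1 + C) ^ m) x = 0) := by
  obtain ⟨m₀, hm₀⟩ := ascent hC
  set m := m₀ + 1 with hm
  have hst : kr ((1 + C) ^ (m + 1)) ≤ kr ((1 + C) ^ m) := by
    intro x hx
    have h1 : x ∈ kr ((1 + C) ^ (m₀ + 2)) := hx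
    have h2 := kr_stable hm₀ 2 h1
    rw [mem_kr] at h2 ⊢
    rw [hm, pow_succ_apply, h2, map_zero]
  obtain ⟨X, hX⟩ := pow_form C m
  have hCX : IsCompactOperator (C * X : H →L[ℂ] H) := cpt_mul_right hC X
  have hfin : FiniteDimensional ℂ (kr ((1 + C) ^ m)) := by
    rw [hX]
    exact finite_kr hCX
  have h3 : ∀ x, ((1 + C) ^ m) (((1 + C) ^ m) x) = 0 → ((1 + C) ^ m) x = 0 := by
    intro x hx
    rw [← pow_add_apply] at hx
    exact mem_kr.1 (kr_stable hst m (mem_kr.2 hx))
  set P := pr (kr ((1 + C) ^ m)) with hP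
  have hG : (1 + C) ^ m + P = 1 + (C * X + P) := by rw [hX]; abel
  have hGu : IsUnit ((1 + C) ^ m + P) := by
    rw [hG]
    refine unit_of_inj (cpt_add hCX (cpt_pr _)) (fun x hx => ?_)
    rw [← hG] at hx
    have h4 : ((1 + C) ^ m) x + P x = 0 := hx
    have h5 : ((1 + C) ^ m) (P x) = 0 := mem_kr.1 (pr_mem _ x)
    have h6 : ((1 + C) ^ m) (((1 + C) ^ m) x) = 0 := by
      rw [eq_neg_of_add_eq_zero_left h4, map_neg, h5, neg_zero]
    have h7 := h3 x h6
    rw [h7, zero_add] at h4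
    have h8 : P x = x := pr_of_mem _ (mem_kr.2 h7)
    rw [← h8, h4]
  obtain ⟨G, hG'⟩ := hGu
  refine ⟨m, P * (↑G⁻¹ : H →L[ℂ] H), by omega, cpt_mul_right (cpt_pr _) _, ?_, ?_, h3⟩
  · intro x
    exact mem_kr.1 (pr_mem _ _)
  · intro x
    refine ⟨(↑G⁻¹ : H →L[ℂ] H) x, ?_⟩
    have h9 : ((G : H →L[ℂ] H) * ↑G⁻¹) x = x := by rw [Units.mul_inv]; rfl
    rw [hG'] at h9
    have h10 : ((1 + C) ^ m) ((↑G⁻¹ : H →L[ℂ] H) x) + P ((↑G⁻¹ : H →L[ℂ] H) x) = x := h9
    exact eq_sub_of_add_eq h10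

theorem finite_coker {C : H →L[ℂ] H} (hC : IsCompactOperator C) :
    FiniteDimensional ℂ (H ⧸ rg (1 + C)) := by
  obtain ⟨m, E, hm, hE, h1, h2, h3⟩ := fitting hC
  obtain ⟨X, hX⟩ := pow_form C m
  have hfin : FiniteDimensional ℂ (kr ((1 + C) ^ m)) := by
    rw [hX]
    exact finite_kr (cpt_mul_right hC X)
  refine Module.Finite.of_surjective
    ((rg (1 + C)).mkQ.comp (kr ((1 + C) ^ m)).subtype) ?_
  intro q
  obtain ⟨x, rfl⟩ := Submodule.mkQ_surjective _ q
  refine ⟨⟨E x, mem_kr.2 (h1 x)⟩, ?_⟩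
  change (rg (1 + C)).mkQ (E x) = (rg (1 + C)).mkQ x
  rw [← sub_eq_zero, ← map_sub, Submodule.mkQ_apply, Submodule.Quotient.mk_eq_zero]
  obtain ⟨y, hy⟩ := h2 x
  obtain ⟨n, rfl⟩ := Nat.exists_eq_add_of_le hm
  rw [Nat.add_comm 1 n, pow_succ_apply] at hy
  rw [mem_rg]
  refine ⟨-((1 + C) ^ n) y, ?_⟩
  rw [map_neg, hy]
  abel

/-- index zero -/
theorem index_zero {C : H →L[ℂ] H} (hC : IsCompactOperator C) :
    Module.finrank ℂ (kr (1 + C)) = Module.finrank ℂ (H ⧸ rg (1 + C)) := by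
  have i1 := finite_kr hC
  have i2 := finite_coker hC
  set W := H ⧸ rg (1 + C) with hW
  obtain ⟨l, hl⟩ := (rg (1 + C)).mkQ.exists_rightInverse_of_surjective
    (LinearMap.range_eq_top.2 (Submodule.mkQ_surjective _))
  have hl' : ∀ w : W, (rg (1 + C)).mkQ (l w) = w := fun w => LinearMap.congr_fun hl w
  have hmk : ∀ x, (rg (1 + C)).mkQ ((1 + C) x) = 0 := by
    intro x
    rw [Submodule.mkQ_apply, Submodule.Quotient.mk_eq_zero]
    exact mem_rg.2 ⟨x, rfl⟩
  -- the key claim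
  have key : ∀ g : kr (1 + C) →ₗ[ℂ] W, (Function.Injective g → Function.Surjective g) ∧
      (Function.Surjective g → Function.Injective g) := by
    intro g
    set D : H →L[ℂ] H := (l.comp g).toContinuousLinearMap ∘L
      (kr (1 + C)).orthogonalProjectionOnto with hD
    have hDc : IsCompactOperator D := cpt_of_finite (l.comp g)
    have hDx : ∀ x, D x = l (g ((kr (1 + C)).orthogonalProjectionOnto x)) := fun x => rfl
    have hDk : ∀ k : kr (1 + C), D (k : H) = l (g k) := by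
      intro k
      rw [hDx, Submodule.orthogonalProjectionOnto_mem_subspace_eq_self]
    have hG : ∀ x, (1 + (C + D)) x = (1 + C) x + D x := by
      intro x
      change x + (C x + D x) = x + C x + D x
      abel
    constructor
    · intro hg w
      have hu : IsUnit (1 + (C + D)) := by
        refine unit_of_inj (cpt_add hC hDc) (fun x hx => ?_)
        rw [hG] at hx
        have h1 := congrArg (rg (1 + C)).mkQ hx
        rw [map_add, hmk, zero_add, hDx, hl', map_zero] at h1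
        have h2 : (kr (1 + C)).orthogonalProjectionOnto x = 0 := hg (h1.trans (map_zero g).symm)
        rw [hDx, h2, map_zero, map_zero, add_zero] at hx
        have h3 := Submodule.orthogonalProjectionOnto_mem_subspace_eq_self
          (K := kr (1 + C)) ⟨x, mem_kr.2 hx⟩
        change (kr (1 + C)).orthogonalProjectionOnto x = _ at h3
        rw [h2] at h3
        exact (congrArg Subtype.val h3).symm
      obtain ⟨x, hx⟩ := (unit_apply hu).2 (l w)
      refine ⟨(kr (1 + C)).orthogonalProjectionOnto x, ?_⟩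
      rw [hG] at hx
      have h1 := congrArg (rg (1 + C)).mkQ hx
      rwa [map_add, hmk, zero_add, hDx, hl', hl'] at h1
    · intro hg
      have hsur : ∀ y, ∃ x, (1 + (C + D)) x = y := by
        intro y
        obtain ⟨k, hk⟩ := hg ((rg (1 + C)).mkQ y)
        have h1 : y - D k ∈ rg (1 + C) := by
          rw [← Submodule.Quotient.mk_eq_zero, ← Submodule.mkQ_apply, map_sub, hDk, hl', hk,
            sub_self]
        obtain ⟨x, hx⟩ := mem_rg.1 h1
        set q := (kr (1 + C)).orthogonalProjectionOnto x with hq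
        refine ⟨x - q + k, ?_⟩
        have h2 : (1 + C) (x - q + k) = y - D k := by
          rw [map_add, map_sub, hx, mem_kr.1 q.2, mem_kr.1 k.2, sub_zero, add_zero]
        have h3 : D (x - q + k) = D k := by
          rw [map_add, map_sub, hDk q, hDx x, ← hq, sub_self, zero_add]
        rw [hG, h2, h3, sub_add_cancel]
      have hinj := inj_of_surj (cpt_add hC hDc) hsur
      rw [← LinearMap.ker_eq_bot, LinearMap.ker_eq_bot']
      intro k hk
      have h4 := hinj k (by rw [hG, mem_kr.1 k.2, hDk, hk, map_zero, add_zero])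
      exact Subtype.ext h4
  rcases le_total (Module.finrank ℂ (kr (1 + C))) (Module.finrank ℂ W) with h | h
  · obtain ⟨g, hg⟩ := finrank_le_iff_exists_linearMap.1 h
    exact (LinearEquiv.ofBijective g ⟨hg, (key g).1 hg⟩).finrank_eq
  · obtain ⟨f, hf⟩ := finrank_le_iff_exists_linearMap.1 h
    obtain ⟨g, hg⟩ := f.exists_leftInverse_of_injective (LinearMap.ker_eq_bot.2 hf)
    have hgs : Function.Surjective g := fun w => ⟨f w, LinearMap.congr_fun hg w⟩
    exact (LinearEquiv.ofBijective g ⟨(key g).2 hgs, hgs⟩).finrank_eq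

theorem exists_poly {V : Type*} [AddCommGroup V] [Module ℂ V] [FiniteDimensional ℂ V]
    (f : V →ₗ[ℂ] V) (hf : Function.Injective f) : ∃ q : ℂ[X], q.coeff 0 = 1 ∧ aeval f q = 0 := by
  have h1 : LinearMap.det f ≠ 0 := by
    have : IsUnit f := (LinearMap.isUnit_iff_ker_eq_bot f).2 (LinearMap.ker_eq_bot.2 hf)
    exact (LinearMap.isUnit_det f this).ne_zero
  have h2 := LinearMap.det_eq_sign_charpoly_coeff f
  have h3 : f.charpoly.coeff 0 ≠ 0 := by
    intro h
    rw [h, mul_zero] at h2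
    exact h1 h2
  refine ⟨C (f.charpoly.coeff 0)⁻¹ * f.charpoly, ?_, ?_⟩
  · rw [coeff_C_mul, inv_mul_cancel₀ h3]
  · rw [map_mul, LinearMap.aeval_self_charpoly, mul_zero]

end Pool.Agent.Q192.Riesz
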