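import Mathlib
import Pool.Agent.Q192.Riesz

/-!
# Commuting compact perturbations of the pair `(T, T)`
-/

set_option autoImplicit false
set_option linter.unusedSectionVars false

open Filter Topology Polynomial
open scoped InnerProductSpace

namespace Pool.Agent.Q192.PairTT

open Pool.Agent.Q192.Riesz

variable {H : Type*} [NormedAddCommGroup H] [InnerProductSpace ℂ H]

/-- `T` is a Fredholm operator: closed range, finite-dimensional kernel and cokernel. -/
structure IsFredholmOp (T : H →L[ℂ] H) : Prop where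
  closed : IsClosed (Set.range T)
  ker : FiniteDimensional ℂ (LinearMap.ker (T : H →ₗ[ℂ] H))
  coker : FiniteDimensional ℂ (H ⧸ LinearMap.range (T : H →ₗ[ℂ] H))

/-- the Fredholm index -/
noncomputable def index (T : H →L[ℂ] H) : ℤ :=
  (Module.finrank ℂ (LinearMap.ker (T : H →ₗ[ℂ] H)) : ℤ) -
    Module.finrank ℂ (H ⧸ LinearMap.range (T : H →ₗ[ℂ] H))

/-- The pair `(S₁, S₂)` is commuting and invertible in the sense of Taylor (its Koszul complex
is exact). -/
structure InvertiblePair (S₁ S₂ : H →L[ℂ] H) : Prop where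
  comm : S₁ * S₂ = S₂ * S₁
  ker : ∀ x, S₁ x = 0 → S₂ x = 0 → x = 0
  middle : ∀ x y, S₁ y = S₂ x → ∃ z, x = S₁ z ∧ y = S₂ z
  range : ∀ z, ∃ x y, S₁ x + S₂ y = z

variable [CompleteSpace H]

theorem parametrix {T : H →L[ℂ] H} (hT : IsFredholmOp T) :
    ∃ S : H →L[ℂ] H, IsCompactOperator (S * T - 1 : H →L[ℂ] H) ∧
      IsCompactOperator (T * S - 1 : H →L[ℂ] H) := by
  have i1 := hT.ker
  have i2 := hT.coker
  have hcl : IsClosed (rg T : Set H) := hT.closed
  have c1 : CompleteSpace (rg T) := hcl.completeSpace_coe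
  have c2 : CompleteSpace (kr T)ᗮ := (kr T).isClosed_orthogonal.completeSpace_coe
  set T₁ : (kr T)ᗮ →L[ℂ] rg T := (T ∘L (kr T)ᗮ.subtypeL).codRestrict (rg T)
    (fun x => mem_rg.2 ⟨_, rfl⟩) with hT₁
  have hT₁x : ∀ x : (kr T)ᗮ, ((T₁ x : rg T) : H) = T x := fun x => rfl
  have hker : LinearMap.ker (T₁ : (kr T)ᗮ →ₗ[ℂ] rg T) = ⊥ := by
    rw [LinearMap.ker_eq_bot']
    intro x hx
    have h1 : T (x : H) = 0 := by
      rw [← hT₁x]
      exact congrArg Subtype.val hx
    have h2 : (x : H) ∈ kr T := mem_kr.2 h1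
    have h3 := Submodule.inner_right_of_mem_orthogonal h2 x.2
    exact Subtype.ext (inner_self_eq_zero.1 h3)
  have hran : LinearMap.range (T₁ : (kr T)ᗮ →ₗ[ℂ] rg T) = ⊤ := by
    rw [LinearMap.range_eq_top]
    rintro ⟨y, hy⟩
    obtain ⟨x, rfl⟩ := mem_rg.1 hy
    obtain ⟨u, hu, v, hv, huv⟩ := (kr T).exists_add_mem_mem_orthogonal x
    refine ⟨⟨v, hv⟩, Subtype.ext ?_⟩
    change T v = T x
    rw [huv, map_add, mem_kr.1 hu, zero_add]
  set e := ContinuousLinearEquiv.ofBijective T₁ hker hran with he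
  have hex : ∀ x, e x = T₁ x := fun x => rfl
  set S : H →L[ℂ] H := (kr T)ᗮ.subtypeL ∘L (e.symm : rg T →L[ℂ] (kr T)ᗮ) ∘L
    (rg T).orthogonalProjectionOnto with hS
  refine ⟨S, ?_, ?_⟩
  · have h1 : S * T - 1 = -(pr (kr T)) := by
      ext x
      obtain ⟨u, hu, v, hv, huv⟩ := (kr T).exists_add_mem_mem_orthogonal x
      have h2 : S (T x) = v := by
        have h3 : T x = ((T₁ ⟨v, hv⟩ : rg T) : H) := by
          rw [hT₁x, huv, map_add, mem_kr.1 hu, zero_add]
        rw [h3]
        change ((e.symm ((rg T).orthogonalProjectionOnto ((T₁ ⟨v, hv⟩ : rg T) : H)) :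
          (kr T)ᗮ) : H) = v
        rw [Submodule.orthogonalProjectionOnto_mem_subspace_eq_self, ← hex, e.symm_apply_apply]
      have h4 : pr (kr T) x = u := by
        rw [huv, map_add, pr_of_mem _ hu]
        have : pr (kr T) v = 0 := by
          change (((kr T).orthogonalProjectionOnto v : kr T) : H) = 0
          rw [Submodule.orthogonalProjectionOnto_eq_zero_iff.2 hv]
          rfl
        rw [this, add_zero]
      change S (T x) - x = -(pr (kr T) x)
      rw [h2, h4, huv]
      abel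
    rw [h1]
    exact cpt_neg (cpt_pr _)
  · -- the orthogonal complement of the range is finite-dimensional
    have i3 : FiniteDimensional ℂ (rg T)ᗮ := by
      refine Module.Finite.of_injective ((rg T).mkQ.comp (rg T)ᗮ.subtype) ?_
      rw [← LinearMap.ker_eq_bot, LinearMap.ker_eq_bot']
      intro x hx
      have h1 : (rg T).mkQ (x : H) = 0 := hx
      rw [Submodule.mkQ_apply, Submodule.Quotient.mk_eq_zero] at h1
      have h3 := Submodule.inner_right_of_mem_orthogonal h1 x.2
      exact Subtype.ext (inner_self_eq_zero.1 h3)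
    have h1 : T * S - 1 = -(pr (rg T)ᗮ) := by
      ext x
      obtain ⟨u, hu, v, hv, huv⟩ := (rg T).exists_add_mem_mem_orthogonal x
      have h2 : T (S x) = u := by
        have h3 : T (S x) = ((T₁ (e.symm ((rg T).orthogonalProjectionOnto x)) : rg T) : H) := rfl
        rw [h3, ← hex, e.apply_symm_apply, huv, map_add]
        rw [Submodule.orthogonalProjectionOnto_eq_zero_iff.2 hv, add_zero]
        have := Submodule.orthogonalProjectionOnto_mem_subspace_eq_self (K := rg T) ⟨u, hu⟩
        change (rg T).orthogonalProjectionOnto u = _ at this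
        rw [this]
      have h4 : pr (rg T)ᗮ x = v := by
        rw [huv, map_add, pr_of_mem _ hv]
        have : pr (rg T)ᗮ u = 0 := by
          change (((rg T)ᗮ.orthogonalProjectionOnto u : (rg T)ᗮ) : H) = 0
          rw [Submodule.orthogonalProjectionOnto_eq_zero_iff.2 ((rg T).le_orthogonal_orthogonal hu)]
          rfl
        rw [this, zero_add]
      change T (S x) - x = -(pr (rg T)ᗮ x)
      rw [h2, h4, huv]
      abel
    rw [h1]
    exact cpt_neg (cpt_pr _)

theorem fred_pert {T K : H →L[ℂ] H} (hT : IsFredholmOp T) (hK : IsCompactOperator K) :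
    FiniteDimensional ℂ (kr (T + K)) ∧ FiniteDimensional ℂ (H ⧸ rg (T + K)) := by
  obtain ⟨S, h1, h2⟩ := parametrix hT
  constructor
  · have h3 : S * (T + K) = 1 + ((S * T - 1) + S * K) := by noncomm_ring
    have h4 := finite_kr (cpt_add h1 (cpt_mul_left hK S))
    rw [← h3] at h4
    refine Submodule.finiteDimensional_of_le (S₂ := kr (S * (T + K))) ?_
    intro x hx
    rw [mem_kr] at hx ⊢
    change S ((T + K) x) = 0
    rw [hx, map_zero]
  · have h3 : (T + K) * S = 1 + ((T * S - 1) + K * S) := by noncomm_ring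
    have h4 := finite_coker (cpt_add h2 (cpt_mul_right hK S))
    rw [← h3] at h4
    have hle : rg ((T + K) * S) ≤ rg (T + K) := by
      intro x hx
      obtain ⟨y, rfl⟩ := mem_rg.1 hx
      exact mem_rg.2 ⟨S y, rfl⟩
    exact Module.Finite.of_surjective (Submodule.factor hle) (Submodule.factor_surjective hle)

theorem aeval_commute (K A : H →L[ℂ] H) (h : K * A = A * K) (q : ℂ[X]) :
    aeval K q * A = A * aeval K q := by
  induction q using Polynomial.induction_on' with
  | add p q hp hq => rw [map_add, add_mul, mul_add, hp, hq]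
  | monomial n a =>
    have h1 : Commute (K ^ n) A := (show Commute K A from h).pow_left n
    rw [aeval_monomial, ← Algebra.smul_def, smul_mul_assoc, h1.eq, mul_smul_comm]

/-- main lemma: `A` is a compact perturbation of an invertible operator -/
theorem exists_inv {A K : H →L[ℂ] H} (hK : IsCompactOperator K) (hKA : K * A = A * K)
    (f1 : FiniteDimensional ℂ (kr A)) (f2 : FiniteDimensional ℂ (H ⧸ rg A))
    (hker : ∀ x, A x = 0 → K x = 0 → x = 0) (hran : ∀ z, ∃ x y, K x + A y = z) :
    ∃ B D : H →L[ℂ] H, IsUnit B ∧ IsCompactOperator D ∧ A = B + D := by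
  have hKA' : ∀ x, K (A x) = A (K x) := fun x => by
    change (K * A) x = (A * K) x
    rw [hKA]
  -- polynomial on the kernel
  have hinv1 : ∀ x ∈ kr A, (K : H →ₗ[ℂ] H) x ∈ kr A := by
    intro x hx
    rw [mem_kr] at hx ⊢
    change A (K x) = 0
    rw [← hKA', hx, map_zero]
  set k1 : kr A →ₗ[ℂ] kr A := (K : H →ₗ[ℂ] H).restrict hinv1 with hk1
  have hk1i : Function.Injective k1 := by
    rw [← LinearMap.ker_eq_bot, LinearMap.ker_eq_bot']
    intro x hx
    exact Subtype.ext (hker x (mem_kr.1 x.2) (congrArg Subtype.val hx))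
  obtain ⟨q1, hq1, hq1'⟩ := exists_poly k1 hk1i
  have e1 : ∀ (q : ℂ[X]) (x : kr A), ((aeval k1 q x : kr A) : H) = aeval K q (x : H) := by
    intro q
    induction q using Polynomial.induction_on' with
    | add p q hp hq =>
      intro x
      rw [map_add, map_add]
      change ((aeval k1 p x : kr A) : H) + ((aeval k1 q x : kr A) : H) = _
      rw [hp, hq]
      rfl
    | monomial n a =>
      intro x
      rw [aeval_monomial, aeval_monomial]
      have h1 : ∀ n : ℕ, (((k1 ^ n) x : kr A) : H) = (K ^ n) (x : H) := by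
        intro n
        induction n with
        | zero => rfl
        | succ n ih =>
          rw [pow_succ', pow_succ_apply, ← ih]
          rfl
      rw [← Algebra.smul_def, ← Algebra.smul_def]
      change a • (((k1 ^ n) x : kr A) : H) = a • (K ^ n) (x : H)
      rw [h1]
  -- polynomial on the cokernel
  have hinv2 : rg A ≤ (rg A).comap (K : H →ₗ[ℂ] H) := by
    intro x hx
    obtain ⟨y, rfl⟩ := mem_rg.1 hx
    exact mem_rg.2 ⟨K y, (hKA' y).symm⟩
  set k2 : (H ⧸ rg A) →ₗ[ℂ] (H ⧸ rg A) := (rg A).mapQ (rg A) (K : H →ₗ[ℂ] H) hinv2 with hk2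
  have hk2x : ∀ x : H, k2 ((rg A).mkQ x) = (rg A).mkQ (K x) := fun x => rfl
  have hk2s : Function.Surjective k2 := by
    intro w
    obtain ⟨z, rfl⟩ := Submodule.mkQ_surjective _ w
    obtain ⟨x, y, rfl⟩ := hran z
    refine ⟨(rg A).mkQ x, ?_⟩
    rw [hk2x, map_add]
    have : (rg A).mkQ (A y) = 0 := by
      rw [Submodule.mkQ_apply, Submodule.Quotient.mk_eq_zero]
      exact mem_rg.2 ⟨y, rfl⟩
    rw [this, add_zero]
  have hk2i : Function.Injective k2 := LinearMap.injective_iff_surjective.2 hk2s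
  obtain ⟨q2, hq2, hq2'⟩ := exists_poly k2 hk2i
  have e2 : ∀ (q : ℂ[X]) (x : H), aeval k2 q ((rg A).mkQ x) = (rg A).mkQ (aeval K q x) := by
    intro q
    induction q using Polynomial.induction_on' with
    | add p q hp hq =>
      intro x
      rw [map_add, map_add]
      change aeval k2 p ((rg A).mkQ x) + aeval k2 q ((rg A).mkQ x) = _
      rw [hp, hq, ← map_add]
      rfl
    | monomial n a =>
      intro x
      rw [aeval_monomial, aeval_monomial]
      have h1 : ∀ n : ℕ, (k2 ^ n) ((rg A).mkQ x) = (rg A).mkQ ((K ^ n) x) := by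
        intro n
        induction n with
        | zero => rfl
        | succ n ih =>
          rw [pow_succ', pow_succ_apply, ← hk2x, ← ih]
          rfl
      rw [← Algebra.smul_def, ← Algebra.smul_def]
      change a • (k2 ^ n) ((rg A).mkQ x) = (rg A).mkQ (a • (K ^ n) x)
      rw [h1, map_smul]
  -- the operator `F = q(K)`
  set q := q1 * q2 with hq
  have hq0 : q.coeff 0 = 1 := by rw [hq, mul_coeff_zero, hq1, hq2, mul_one]
  set Y : H →L[ℂ] H := K * aeval K (divX q) with hY
  have hYc : IsCompactOperator Y := cpt_mul_right hK _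
  have hF : aeval K q = 1 + Y := by
    conv_lhs => rw [← divX_mul_X_add q]
    rw [hq0, map_add, map_mul, aeval_X, aeval_C, map_one, hY, add_comm]
    congr 1
    exact aeval_commute K K rfl (divX q)
  have hF1 : ∀ x, A x = 0 → (1 + Y) x = 0 := by
    intro x hx
    rw [← hF, hq, mul_comm, map_mul]
    change aeval K q2 (aeval K q1 x) = 0
    have h1 := e1 q1 ⟨x, mem_kr.2 hx⟩
    rw [hq1'] at h1
    have h2 : aeval K q1 x = 0 := h1.symm
    rw [h2, map_zero]
  have hF2 : ∀ x, ∃ y, (1 + Y) x = A y := by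
    intro x
    have h1 := e2 q2 x
    rw [hq2'] at h1
    have h2 : (rg A).mkQ (aeval K q2 x) = 0 := h1.symm
    rw [Submodule.mkQ_apply, Submodule.Quotient.mk_eq_zero] at h2
    obtain ⟨y, hy⟩ := mem_rg.1 h2
    refine ⟨aeval K q1 y, ?_⟩
    rw [← hF, hq, map_mul]
    change aeval K q1 (aeval K q2 x) = A (aeval K q1 y)
    rw [← hy]
    change (aeval K q1 * A) y = (A * aeval K q1) y
    rw [aeval_commute K A hKA]
  have hFA : (1 + Y) * A = A * (1 + Y) := by
    rw [← hF]
    exact aeval_commute K A hKA q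
  have hFAn : ∀ (n : ℕ) (x : H), ((1 + Y) ^ n) (A x) = A (((1 + Y) ^ n) x) := by
    intro n x
    change ((1 + Y) ^ n * A) x = (A * (1 + Y) ^ n) x
    rw [((show Commute (1 + Y) A from hFA).pow_left n).eq]
  obtain ⟨m, E, hm, hE, g1, g2, g3⟩ := fitting hYc
  set F := (1 + Y) ^ m with hFm
  -- facts on the decomposition
  have hEN : ∀ x, E (F x) = 0 := by
    intro x
    obtain ⟨y, hy⟩ := g2 (F x)
    have h1 : E (F x) = F (x - y) := by rw [map_sub, hy]; abel
    rw [h1]
    apply g3
    rw [← h1]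
    exact g1 _
  have hER : ∀ x, F x = 0 → E x = x := by
    intro x hx
    obtain ⟨y, hy⟩ := g2 x
    have h1 : F (F y) = 0 := by rw [hy, map_sub, hx, g1, sub_zero]
    have h2 := g3 y h1
    rw [hy] at h2
    exact (sub_eq_zero.1 h2).symm
  obtain ⟨n, hmn⟩ : ∃ n, m = n + 1 := ⟨m - 1, by omega⟩
  have hinjN : ∀ x, A (F x) = 0 → F x = 0 := by
    intro x hx
    have h1 := hF1 _ hx
    apply g3
    have h2 : F (F x) = ((1 + Y) ^ n) ((1 + Y) (F x)) := by
      rw [← pow_succ_apply', ← hmn]
    rw [h2, h1, map_zero]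
  have hsurN : ∀ x, ∃ z, A (F z) = F x := by
    intro x
    obtain ⟨y, hy⟩ := g2 x
    have h1 : F x = F (F y) := by rw [hy, map_sub, g1, sub_zero]
    have h2 : F y = (1 + Y) (((1 + Y) ^ n) y) := by rw [← pow_succ_apply, ← hmn]
    obtain ⟨w, hw⟩ := hF2 (((1 + Y) ^ n) y)
    refine ⟨w, ?_⟩
    rw [h1, h2, hw, hFAn]
  refine ⟨A * (1 - E) + E, A * E - E, ?_, ?_, ?_⟩
  · rw [ContinuousLinearMap.isUnit_iff_bijective]
    have hB : ∀ x, (A * (1 - E) + E) x = A (x - E x) + E x := fun x => rfl
    constructor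
    · rw [injective_iff_map_eq_zero]
      intro x hx
      rw [hB] at hx
      obtain ⟨y, hy⟩ := g2 x
      rw [← hy, ← hFAn] at hx
      have h1 := congrArg E hx
      rw [map_add, hEN, zero_add, hER _ (g1 x), map_zero] at h1
      rw [h1, add_zero, hFAn] at hx
      have h2 := hinjN y hx
      rw [hy, h1, sub_zero] at h2
      exact h2
    · intro y
      obtain ⟨z, hz⟩ := g2 y
      obtain ⟨w, hw⟩ := hsurN z
      refine ⟨F w + E y, ?_⟩
      rw [hB, map_add, hEN, zero_add, hER _ (g1 y), add_sub_cancel_right, hw, hz]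
      abel
  · exact cpt_sub (cpt_mul_left hE A) hE
  · noncomm_ring

/-- **Theorem.** If the pair `(T, T)` has commuting compact perturbations forming an invertible
pair, then the index of `T` is zero. -/
theorem index_eq_zero {T K₁ K₂ : H →L[ℂ] H} (hT : IsFredholmOp T) (h1 : IsCompactOperator K₁)
    (h2 : IsCompactOperator K₂) (h : InvertiblePair (T + K₁) (T + K₂)) : index T = 0 := by
  obtain ⟨f1, f2⟩ := fred_pert hT h2
  have hKx : ∀ x, (K₁ - K₂) x = (T + K₁) x - (T + K₂) x := by
    intro x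
    change K₁ x - K₂ x = (T x + K₁ x) - (T x + K₂ x)
    abel
  obtain ⟨B, D, hB, hD, hBD⟩ := exists_inv (A := T + K₂) (K := K₁ - K₂) (cpt_sub h1 h2)
    (by
      have h3 := h.comm
      have h4 : K₁ - K₂ = (T + K₁) - (T + K₂) := by abel
      rw [h4, sub_mul, mul_sub, h3])
    f1 f2 (fun x hx hKx' => by
      rw [hKx, hx, sub_zero] at hKx'
      exact h.ker x hKx' hx)
    (fun z => by
      obtain ⟨x, y, hxy⟩ := h.range z
      refine ⟨x, x + y, ?_⟩
      rw [hKx, map_add, ← hxy]
      abel)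
  obtain ⟨b, rfl⟩ := hB
  set C : H →L[ℂ] H := (↑b⁻¹ : H →L[ℂ] H) * (D - K₂) with hC
  have hCc : IsCompactOperator C := cpt_mul_left (cpt_sub hD h2) _
  have hTe : T = (b : H →L[ℂ] H) * (1 + C) := by
    rw [hC, mul_add, mul_one, ← mul_assoc, Units.mul_inv, one_mul]
    have : T = (T + K₂) - K₂ := by abel
    rw [this, hBD]
    abel
  have hbi : Function.Bijective (b : H →L[ℂ] H) := unit_apply b.isUnit
  have hTx : ∀ x, T x = (b : H →L[ℂ] H) ((1 + C) x) := by
    intro x
    rw [hTe]
    rfl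
  have hk : kr T = kr (1 + C) := by
    ext x
    rw [mem_kr, mem_kr, hTx]
    constructor
    · intro hx
      exact hbi.1 (hx.trans (map_zero (b : H →L[ℂ] H)).symm)
    · intro hx
      rw [hx, map_zero]
  have hr : Module.finrank ℂ (H ⧸ rg (1 + C)) = Module.finrank ℂ (H ⧸ rg T) := by
    refine LinearEquiv.finrank_eq (Submodule.Quotient.equiv _ _
      (LinearEquiv.ofBijective ((b : H →L[ℂ] H) : H →ₗ[ℂ] H) hbi) ?_)
    ext y
    rw [Submodule.mem_map, mem_rg]
    constructor
    · rintro ⟨x, hx, rfl⟩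
      obtain ⟨z, rfl⟩ := mem_rg.1 hx
      exact ⟨z, hTx z⟩
    · rintro ⟨z, rfl⟩
      exact ⟨(1 + C) z, mem_rg.2 ⟨z, rfl⟩, (hTx z).symm⟩
  have h5 := index_zero hCc
  unfold index
  change (Module.finrank ℂ (kr T) : ℤ) - Module.finrank ℂ (H ⧸ rg T) = 0
  rw [hk, h5, hr, sub_self]

end Pool.Agent.Q192.PairTT
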