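import Mathlib

/-!
# Exponential monotonicity of positive sequences from a transport inequality
-/

set_option autoImplicit false

open Finset

namespace Pool.Agent.Q192.PerSh

/-- `U` increases exponentially on the half-line `n ≥ 0`. -/
def IncRight (U : ℤ → ℝ) : Prop :=
  ∃ C θ : ℝ, 0 < C ∧ 0 < θ ∧ θ < 1 ∧ ∀ m n : ℤ, 0 ≤ m → m ≤ n → U m ≤ C * θ ^ (n - m).toNat * U n

/-- `U` decreases exponentially on the half-line `n ≥ 0`. -/
def DecRight (U : ℤ → ℝ) : Prop :=
  ∃ C θ : ℝ, 0 < C ∧ 0 < θ ∧ θ < 1 ∧ ∀ m n : ℤ, 0 ≤ m → m ≤ n → U n ≤ C * θ ^ (n - m).toNat * U m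

/-- The partial sums. -/
noncomputable def S (U : ℤ → ℝ) (a n : ℤ) : ℝ := ∑ k ∈ Finset.Ico a n, U k

lemma S_self (U : ℤ → ℝ) (a : ℤ) : S U a a = 0 := by simp [S]

lemma S_empty (U : ℤ → ℝ) {a n : ℤ} (h : n ≤ a) : S U a n = 0 := by
  simp [S, Finset.Ico_eq_empty_of_le h]

lemma S_succ (U : ℤ → ℝ) {a n : ℤ} (h : a ≤ n) : S U a (n + 1) = S U a n + U n := by
  unfold S
  have : Finset.Ico a (n + 1) = insert n (Finset.Ico a n) := by
    ext k; simp only [Finset.mem_Ico, Finset.mem_insert]; omega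
  rw [this, Finset.sum_insert (by simp)]
  ring

lemma S_head (U : ℤ → ℝ) {a n : ℤ} (h : a < n) : S U a n = U a + S U (a + 1) n := by
  unfold S
  have : Finset.Ico a n = insert a (Finset.Ico (a + 1) n) := by
    ext k; simp only [Finset.mem_Ico, Finset.mem_insert]; omega
  rw [this, Finset.sum_insert (by simp)]

lemma S_nonneg (U : ℤ → ℝ) (hU : ∀ n, 0 < U n) (a n : ℤ) : 0 ≤ S U a n :=
  Finset.sum_nonneg fun k _ => (hU k).le

lemma S_mono (U : ℤ → ℝ) (hU : ∀ n, 0 < U n) {a a' n n' : ℤ} (h : a' ≤ a) (h' : n ≤ n') :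
    S U a n ≤ S U a' n' := by
  apply Finset.sum_le_sum_of_subset_of_nonneg
  · exact Finset.Ico_subset_Ico h h'
  · intro i _ _; exact (hU i).le

lemma le_S (U : ℤ → ℝ) (hU : ∀ n, 0 < U n) {a n k : ℤ} (h : a ≤ k) (h' : k < n) :
    U k ≤ S U a n :=
  Finset.single_le_sum (f := U) (fun i _ => (hU i).le) (Finset.mem_Ico.2 ⟨h, h'⟩)

/-- bounded ratios -/
lemma ratio (U : ℤ → ℝ) (hU : ∀ n, 0 < U n) {M : ℝ} (hM : 1 ≤ M) (h1 : ∀ n, U (n + 1) ≤ M * U n)
    (h2 : ∀ n, U n ≤ M * U (n + 1)) (m : ℤ) (k : ℕ) :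
    U (m + k) ≤ M ^ k * U m ∧ U m ≤ M ^ k * U (m + k) := by
  have hM0 : 0 ≤ M := by linarith
  induction k with
  | zero => simp
  | succ k ih =>
    have e : m + ((k + 1 : ℕ) : ℤ) = (m + k) + 1 := by push_cast; ring
    rw [e]
    constructor
    · calc U (m + k + 1) ≤ M * U (m + k) := h1 _
        _ ≤ M * (M ^ k * U m) := mul_le_mul_of_nonneg_left ih.1 hM0
        _ = M ^ (k + 1) * U m := by ring
    · calc U m ≤ M ^ k * U (m + k) := ih.2
        _ ≤ M ^ k * (M * U (m + k + 1)) := mul_le_mul_of_nonneg_left (h2 _) (by positivity)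
        _ = M ^ (k + 1) * U (m + k + 1) := by ring

lemma ratio_le (U : ℤ → ℝ) (hU : ∀ n, 0 < U n) {M : ℝ} (hM : 1 ≤ M)
    (h1 : ∀ n, U (n + 1) ≤ M * U n)
    (h2 : ∀ n, U n ≤ M * U (n + 1)) {m n : ℤ} (h : m ≤ n) {N : ℕ} (hN : (n - m).toNat ≤ N) :
    U n ≤ M ^ N * U m ∧ U m ≤ M ^ N * U n := by
  obtain ⟨r1, r2⟩ := ratio U hU hM h1 h2 m (n - m).toNat
  have e : m + ((n - m).toNat : ℤ) = n := by omega
  rw [e] at r1 r2
  have hp : M ^ (n - m).toNat ≤ M ^ N := pow_le_pow_right₀ hM hN
  exact ⟨r1.trans (mul_le_mul_of_nonneg_right hp (hU m).le),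
    r2.trans (mul_le_mul_of_nonneg_right hp (hU n).le)⟩

/-- growth from a lower-sum bound -/
lemma incRight_of (U : ℤ → ℝ) (hU : ∀ n, 0 < U n) {M : ℝ} (hM : 1 ≤ M)
    (h1 : ∀ n, U (n + 1) ≤ M * U n) (h2 : ∀ n, U n ≤ M * U (n + 1)) {K : ℝ} (hK : 1 ≤ K)
    (b : ℕ) (h : ∀ n : ℤ, (b : ℤ) ≤ n → S U 0 n ≤ K * U n) : IncRight U := by
  have hK0 : 0 < K := by linarith
  set r : ℝ := 1 + 1 / K with hr
  have hr1 : 1 < r := by rw [hr]; linarith [div_pos one_pos hK0]
  have hr0 : 0 < r := by linarith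
  -- growth of the sums
  have grow : ∀ (m : ℤ) (k : ℕ), (b : ℤ) ≤ m → r ^ k * S U 0 m ≤ S U 0 (m + k) := by
    intro m k hm
    induction k with
    | zero => simp
    | succ k ih =>
      have e : m + ((k + 1 : ℕ) : ℤ) = (m + k) + 1 := by push_cast; ring
      rw [e, S_succ U (by omega : (0 : ℤ) ≤ m + k)]
      have hh := h (m + k) (by omega)
      have : S U 0 (m + k) / K ≤ U (m + k) := by rw [div_le_iff₀ hK0]; linarith
      calc r ^ (k + 1) * S U 0 m = r * (r ^ k * S U 0 m) := by ring
        _ ≤ r * S U 0 (m + k) := mul_le_mul_of_nonneg_left ih hr0.le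
        _ = S U 0 (m + k) + S U 0 (m + k) / K := by rw [hr]; ring
        _ ≤ _ := by linarith
  have main : ∀ m n : ℤ, (b : ℤ) ≤ m → m ≤ n → U m ≤ (K * r) * (r⁻¹) ^ (n - m).toNat * U n := by
    intro m n hm hmn
    rcases hmn.eq_or_lt with rfl | hlt
    · simp only [sub_self, Int.toNat_zero, pow_zero, mul_one]
      have : 1 * U m ≤ (K * r) * U m := by
        apply mul_le_mul_of_nonneg_right _ (hU m).le
        nlinarith
      linarith
    · obtain ⟨k, hk⟩ : ∃ k : ℕ, n = (m + 1) + k := ⟨(n - m - 1).toNat, by omega⟩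
      have hk' : (n - m).toNat = k + 1 := by omega
      have g := grow (m + 1) k (by omega)
      rw [← hk] at g
      have hs : U m ≤ S U 0 (m + 1) := le_S U hU (by omega) (by omega)
      have hn := h n (by omega)
      rw [hk']
      have h3 : r ^ k * U m ≤ K * U n := by
        calc r ^ k * U m ≤ r ^ k * S U 0 (m + 1) := mul_le_mul_of_nonneg_left hs (by positivity)
          _ ≤ _ := g
          _ ≤ _ := hn
      calc U m = (r⁻¹) ^ k * (r ^ k * U m) := by
            rw [← mul_assoc, ← mul_pow, inv_mul_cancel₀ hr0.ne', one_pow, one_mul]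
        _ ≤ (r⁻¹) ^ k * (K * U n) := mul_le_mul_of_nonneg_left h3 (by positivity)
        _ = (K * r) * (r⁻¹) ^ (k + 1) * U n := by
            rw [pow_succ]
            field_simp
  -- extend to `m ≥ 0`
  set θ : ℝ := r⁻¹ with hθ
  have hθ0 : 0 < θ := by positivity
  have hθ1 : θ < 1 := inv_lt_one_of_one_lt₀ hr1
  have hC1 : 1 ≤ K * r := by nlinarith
  refine ⟨(K * r) * M ^ b * (θ⁻¹) ^ b, θ, by positivity, hθ0, hθ1, ?_⟩
  intro m n hm hmn
  have hinv : 1 ≤ (θ⁻¹) := (one_lt_inv₀ hθ0).2 hθ1 |>.le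
  have hMb : 1 ≤ M ^ b := one_le_pow₀ hM
  have hTb : 1 ≤ (θ⁻¹) ^ b := one_le_pow₀ hinv
  by_cases hmb : (b : ℤ) ≤ m
  · refine (main m n hmb hmn).trans ?_
    apply mul_le_mul_of_nonneg_right _ (hU n).le
    apply mul_le_mul_of_nonneg_right _ (by positivity)
    calc K * r = (K * r) * 1 * 1 := by ring
      _ ≤ (K * r) * M ^ b * (θ⁻¹) ^ b := by gcongr
  · push Not at hmb
    by_cases hnb : n ≤ b
    · have := (ratio_le U hU hM h1 h2 hmn (N := b) (by omega)).2
      refine this.trans ?_
      apply mul_le_mul_of_nonneg_right _ (hU n).le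
      have hle : (n - m).toNat ≤ b := by omega
      have : 1 ≤ (θ⁻¹) ^ b * θ ^ (n - m).toNat := by
        have : (θ⁻¹) ^ b * θ ^ b ≤ (θ⁻¹) ^ b * θ ^ (n - m).toNat := by
          apply mul_le_mul_of_nonneg_left _ (by positivity)
          exact pow_le_pow_of_le_one hθ0.le hθ1.le hle
        rwa [← mul_pow, inv_mul_cancel₀ hθ0.ne', one_pow] at this
      calc M ^ b = 1 * M ^ b * 1 := by ring
        _ ≤ (K * r) * M ^ b * ((θ⁻¹) ^ b * θ ^ (n - m).toNat) := by gcongr
        _ = _ := by ring
    · push Not at hnb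
      have a1 := (ratio_le U hU hM h1 h2 (m := m) (n := b) (by omega) (N := b) (by omega)).2
      have a2 := main b n le_rfl hnb.le
      have hexp : θ ^ (n - (b : ℤ)).toNat ≤ (θ⁻¹) ^ b * θ ^ (n - m).toNat := by
        have hle : (n - m).toNat ≤ b + (n - (b : ℤ)).toNat := by omega
        calc θ ^ (n - (b : ℤ)).toNat = (θ⁻¹) ^ b * θ ^ (b + (n - (b : ℤ)).toNat) := by
              rw [pow_add, ← mul_assoc, ← mul_pow, inv_mul_cancel₀ hθ0.ne', one_pow, one_mul]
          _ ≤ _ := by
              apply mul_le_mul_of_nonneg_left _ (by positivity)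
              exact pow_le_pow_of_le_one hθ0.le hθ1.le hle
      calc U m ≤ M ^ b * U b := a1
        _ ≤ M ^ b * ((K * r) * θ ^ (n - (b : ℤ)).toNat * U n) :=
            mul_le_mul_of_nonneg_left a2 (by positivity)
        _ ≤ M ^ b * ((K * r) * ((θ⁻¹) ^ b * θ ^ (n - m).toNat) * U n) := by
            apply mul_le_mul_of_nonneg_left _ (by positivity)
            apply mul_le_mul_of_nonneg_right _ (hU n).le
            exact mul_le_mul_of_nonneg_left hexp (by positivity)
        _ = _ := by ring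

/-- decay from an upper-sum bound -/
lemma decRight_of (U : ℤ → ℝ) (hU : ∀ n, 0 < U n) {M : ℝ} (hM : 1 ≤ M)
    (h1 : ∀ n, U (n + 1) ≤ M * U n) (h2 : ∀ n, U n ≤ M * U (n + 1)) {K : ℝ} (hK : 1 < K)
    (b : ℕ) (h : ∀ n c : ℤ, (b : ℤ) ≤ n → S U n c ≤ K * U n) : DecRight U := by
  have hK0 : 0 < K := by linarith
  set θ : ℝ := 1 - 1 / K with hθ
  have hi : 0 < 1 / K := by positivity
  have hi1 : 1 / K < 1 := by rw [div_lt_one hK0]; exact hK
  have hθ0 : 0 < θ := by rw [hθ]; linarith
  have hθ1 : θ < 1 := by rw [hθ]; linarith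
  have dec : ∀ (c m : ℤ) (k : ℕ), (b : ℤ) ≤ m → m + k ≤ c → S U (m + k) c ≤ θ ^ k * S U m c := by
    intro c m k hm
    induction k with
    | zero => simp
    | succ k ih =>
      intro hc
      have e : m + ((k + 1 : ℕ) : ℤ) = (m + k) + 1 := by push_cast; ring
      rw [e]
      have hh := h (m + k) c (by omega)
      have hs := S_head U (a := m + k) (n := c) (by omega)
      have : S U (m + k) c / K ≤ U (m + k) := by rw [div_le_iff₀ hK0]; linarith
      have ih' := ih (by omega)
      calc S U (m + k + 1) c = S U (m + k) c - U (m + k) := by linarith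
        _ ≤ S U (m + k) c - S U (m + k) c / K := by linarith
        _ = θ * S U (m + k) c := by rw [hθ]; ring
        _ ≤ θ * (θ ^ k * S U m c) := mul_le_mul_of_nonneg_left ih' hθ0.le
        _ = _ := by ring
  have main : ∀ m n : ℤ, (b : ℤ) ≤ m → m ≤ n → U n ≤ K * θ ^ (n - m).toNat * U m := by
    intro m n hm hmn
    obtain ⟨k, hk⟩ : ∃ k : ℕ, n = m + k := ⟨(n - m).toNat, by omega⟩
    have hk' : (n - m).toNat = k := by omega
    have g := dec (n + 1) m k hm (by omega)
    rw [← hk] at g
    have hs : U n ≤ S U n (n + 1) := le_S U hU le_rfl (by omega)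
    have hmc := h m (n + 1) hm
    rw [hk']
    calc U n ≤ _ := hs
      _ ≤ _ := g
      _ ≤ θ ^ k * (K * U m) := mul_le_mul_of_nonneg_left hmc (by positivity)
      _ = _ := by ring
  refine ⟨K * M ^ b * (θ⁻¹) ^ b, θ, by positivity, hθ0, hθ1, ?_⟩
  intro m n hm hmn
  have hinv : 1 ≤ (θ⁻¹) := (one_lt_inv₀ hθ0).2 hθ1 |>.le
  have hMb : 1 ≤ M ^ b := one_le_pow₀ hM
  have hTb : 1 ≤ (θ⁻¹) ^ b := one_le_pow₀ hinv
  by_cases hmb : (b : ℤ) ≤ m
  · refine (main m n hmb hmn).trans ?_
    apply mul_le_mul_of_nonneg_right _ (hU m).le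
    apply mul_le_mul_of_nonneg_right _ (by positivity)
    calc K = K * 1 * 1 := by ring
      _ ≤ K * M ^ b * (θ⁻¹) ^ b := by gcongr
  · push Not at hmb
    by_cases hnb : n ≤ b
    · have := (ratio_le U hU hM h1 h2 hmn (N := b) (by omega)).1
      refine this.trans ?_
      apply mul_le_mul_of_nonneg_right _ (hU m).le
      have hle : (n - m).toNat ≤ b := by omega
      have : 1 ≤ (θ⁻¹) ^ b * θ ^ (n - m).toNat := by
        have : (θ⁻¹) ^ b * θ ^ b ≤ (θ⁻¹) ^ b * θ ^ (n - m).toNat := by
          apply mul_le_mul_of_nonneg_left _ (by positivity)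
          exact pow_le_pow_of_le_one hθ0.le hθ1.le hle
        rwa [← mul_pow, inv_mul_cancel₀ hθ0.ne', one_pow] at this
      calc M ^ b = 1 * M ^ b * 1 := by ring
        _ ≤ K * M ^ b * ((θ⁻¹) ^ b * θ ^ (n - m).toNat) := by gcongr
        _ = _ := by ring
    · push Not at hnb
      have a1 := (ratio_le U hU hM h1 h2 (m := m) (n := b) (by omega) (N := b) (by omega)).1
      have a2 := main b n le_rfl hnb.le
      have hexp : θ ^ (n - (b : ℤ)).toNat ≤ (θ⁻¹) ^ b * θ ^ (n - m).toNat := by
        have hle : (n - m).toNat ≤ b + (n - (b : ℤ)).toNat := by omega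
        calc θ ^ (n - (b : ℤ)).toNat = (θ⁻¹) ^ b * θ ^ (b + (n - (b : ℤ)).toNat) := by
              rw [pow_add, ← mul_assoc, ← mul_pow, inv_mul_cancel₀ hθ0.ne', one_pow, one_mul]
          _ ≤ _ := by
              apply mul_le_mul_of_nonneg_left _ (by positivity)
              exact pow_le_pow_of_le_one hθ0.le hθ1.le hle
      calc U n ≤ K * θ ^ (n - (b : ℤ)).toNat * U b := a2
        _ ≤ K * ((θ⁻¹) ^ b * θ ^ (n - m).toNat) * (M ^ b * U m) := by
            gcongr
            exact (hU _).le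
        _ = _ := by ring

/-- The transport inequality. -/
def Transport (U : ℤ → ℝ) (K : ℝ) : Prop :=
  ∀ a n b m : ℤ, a ≤ n → n ≤ b → (m < a ∨ b < m) → min (S U a n) (S U n b) ≤ K * (U n + U m)

lemma right_dichotomy (U : ℤ → ℝ) (hU : ∀ n, 0 < U n) {M : ℝ} (hM : 1 ≤ M)
    (h1 : ∀ n, U (n + 1) ≤ M * U n) (h2 : ∀ n, U n ≤ M * U (n + 1)) {K : ℝ} (hK : 1 < K)
    (hT : Transport U K) : IncRight U ∨ DecRight U := by
  have hK0 : 0 < K := by linarith
  by_cases hinf : ∀ η > 0, ∀ N : ℤ, ∃ m : ℤ, N < |m| ∧ U m < η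
  · -- `U` tends to zero along a sequence
    have key : ∀ a n b : ℤ, a ≤ n → n ≤ b → min (S U a n) (S U n b) ≤ K * U n := by
      intro a n b han hnb
      apply le_of_forall_pos_le_add
      intro ε hε
      obtain ⟨m, hm, hmU⟩ := hinf (ε / K) (by positivity) (max |a| |b|)
      have hm' : m < a ∨ b < m := by
        rcases le_total 0 m with h0 | h0
        · right
          rw [abs_of_nonneg h0] at hm
          exact lt_of_le_of_lt ((le_abs_self b).trans (le_max_right _ _)) hm
        · left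
          rw [abs_of_nonpos h0] at hm
          have := (neg_abs_le a)
          have h3 : |a| ≤ max |a| |b| := le_max_left _ _
          omega
      have := hT a n b m han hnb hm'
      have h4 : K * U m ≤ ε := by
        have := mul_le_mul_of_nonneg_left hmU.le hK0.le
        rwa [mul_div_cancel₀ _ hK0.ne'] at this
      linarith
    have alt : ∀ n : ℤ, (∀ a, S U a n ≤ K * U n) ∨ (∀ b, S U n b ≤ K * U n) := by
      intro n
      by_cases h : ∀ a, S U a n ≤ K * U n
      · exact Or.inl h
      · right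
        push Not at h
        obtain ⟨a, ha⟩ := h
        intro b
        rcases le_total n b with hnb | hbn
        · have han : a ≤ n := by
            by_contra hcon
            push Not at hcon
            rw [S_empty U hcon.le] at ha
            have := mul_pos hK0 (hU n)
            linarith
          have := key a n b han hnb
          rcases min_le_iff.1 this with h5 | h5
          · linarith
          · exact h5
        · rw [S_empty U hbn]; exact (mul_pos hK0 (hU n)).le
    by_cases hR : ∃ n0 : ℕ, ∀ n : ℤ, (n0 : ℤ) ≤ n → ∀ b, S U n b ≤ K * U n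
    · obtain ⟨n0, hn0⟩ := hR
      exact Or.inr (decRight_of U hU hM h1 h2 hK n0 fun n c hn => hn0 n hn c)
    · left
      push Not at hR
      apply incRight_of U hU hM h1 h2 hK.le 0
      intro n hn
      -- `L(n)` holds for all `n`
      have hL : ∀ a, S U a n ≤ K * U n := by
        rcases alt n with h | h
        · exact h
        · exfalso
          -- sums to the right of `n` are bounded, so `U` is small somewhere far
          obtain ⟨N, hN⟩ := exists_nat_gt (K * U n / (U n / K))
          -- there is no `n' ≥ n + 1` with `U ≥ U n / K` for too many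
          have hlarge : ∀ n' : ℤ, n < n' → (∃ b, K * U n' < S U n' b) → U n / K ≤ U n' := by
            intro n' hn' ⟨b, hb⟩
            rcases alt n' with h6 | h6
            · have := h6 n
              have h7 : U n ≤ S U n n' := le_S U hU le_rfl hn'
              rw [div_le_iff₀ hK0]; linarith
            · exact absurd (h6 b) (not_le.2 hb)
          -- build `N` many such points
          have build : ∀ k : ℕ, ∃ c : ℤ, n ≤ c ∧ (k : ℝ) * (U n / K) ≤ S U n c := by
            intro k
            induction k with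
            | zero => exact ⟨n, le_rfl, by simp [S_self]⟩
            | succ k ih =>
              obtain ⟨c, hc, hck⟩ := ih
              obtain ⟨n', hn', b, hb⟩ := hR (c.toNat + 1)
              have hn'c : c < n' := by omega
              have h8 := hlarge n' (by omega) ⟨b, hb⟩
              refine ⟨n' + 1, by omega, ?_⟩
              rw [S_succ U (by omega)]
              have h9 : S U n c ≤ S U n n' := S_mono U hU le_rfl hn'c.le
              push_cast
              linarith
          obtain ⟨c, hc, hcN⟩ := build N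
          have h10 := h c
          have hpos : 0 < U n / K := div_pos (hU n) hK0
          rw [div_lt_iff₀ hpos] at hN
          linarith
      exact hL 0
  · -- `U` is bounded below outside a finite set
    left
    push Not at hinf
    obtain ⟨η, hη, N, hN⟩ := hinf
    -- sums diverge in both directions
    have divR : ∀ R : ℝ, ∃ b0 : ℕ, ∀ b : ℤ, (b0 : ℤ) ≤ b → R ≤ S U 0 b := by
      intro R
      obtain ⟨k, hk⟩ := exists_nat_gt (R / η)
      refine ⟨N.toNat + 1 + k, ?_⟩
      have step : ∀ k : ℕ, (k : ℝ) * η ≤ S U 0 ((N.toNat + 1 + k : ℕ) : ℤ) := by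
        intro k
        induction k with
        | zero => simpa using S_nonneg U hU _ _
        | succ k ih =>
          have e : ((N.toNat + 1 + (k + 1) : ℕ) : ℤ) = ((N.toNat + 1 + k : ℕ) : ℤ) + 1 := by
            push_cast; ring
          rw [e, S_succ U (by positivity)]
          have := hN ((N.toNat + 1 + k : ℕ) : ℤ) (by
            rw [abs_of_nonneg (by positivity)]; push_cast; omega)
          push_cast at this ih ⊢
          linarith
      intro b hb
      rw [div_lt_iff₀ hη] at hk
      exact hk.le.trans ((step k).trans (S_mono U hU le_rfl hb))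
    have divL : ∀ R : ℝ, ∃ a : ℤ, a ≤ 0 ∧ R ≤ S U a 0 := by
      intro R
      obtain ⟨k, hk⟩ := exists_nat_gt (R / η)
      have step : ∀ k : ℕ, (k : ℝ) * η ≤ S U (-((N.toNat + 1 + k : ℕ) : ℤ)) 0 := by
        intro k
        induction k with
        | zero => simpa using S_nonneg U hU _ _
        | succ k ih =>
          rw [S_head U (a := -((N.toNat + 1 + (k + 1) : ℕ) : ℤ)) (by omega)]
          have e : -((N.toNat + 1 + (k + 1) : ℕ) : ℤ) + 1 = -((N.toNat + 1 + k : ℕ) : ℤ) := by
            push_cast; ring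
          rw [e]
          have := hN (-((N.toNat + 1 + (k + 1) : ℕ) : ℤ)) (by
            rw [abs_neg, abs_of_nonneg (by positivity)]; push_cast; omega)
          push_cast at this ih ⊢
          linarith
      refine ⟨-((N.toNat + 1 + k : ℕ) : ℤ), by omega, ?_⟩
      rw [div_lt_iff₀ hη] at hk
      exact hk.le.trans (step k)
    obtain ⟨b0, hb0⟩ := divR (2 * K * U 0)
    apply incRight_of U hU hM h1 h2 (K := 2 * K * M) (by nlinarith) b0
    intro n hn
    obtain ⟨a, ha0, ha⟩ := divL (S U 0 n)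
    have hn0 : 0 ≤ n := by omega
    have := hT a 0 n (n + 1) ha0 hn0 (Or.inr (by omega))
    rw [min_eq_right ha] at this
    have h3 := hb0 n hn
    have h4 := h1 n
    nlinarith

end Pool.Agent.Q192.PerSh
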