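import Pool.Agent.Q192.PerShA

/-!
# Periodic shadowing of weighted shifts: definitions, and the necessary transport inequality
-/

set_option autoImplicit false

open Filter Topology Finset

noncomputable section

namespace Pool.Agent.Q192.PerSh

/-- The periodic shadowing property of an invertible bounded operator: for every `ε > 0` there is
`δ > 0` such that every periodic two-sided `δ`-pseudotrajectory is `ε`-shadowed by the orbit of a
periodic point. -/
def PeriodicShadowing {𝕜 : Type*} [RCLike 𝕜] {X : Type*} [NormedAddCommGroup X] [NormedSpace 𝕜 X]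
    (T : X ≃L[𝕜] X) : Prop :=
  ∀ ε : ℝ, 0 < ε → ∃ δ : ℝ, 0 < δ ∧ ∀ x : ℤ → X, (∃ q : ℕ, 0 < q ∧ ∀ j : ℤ, x (j + q) = x j) →
    (∀ j : ℤ, ‖T (x j) - x (j + 1)‖ < δ) →
    ∃ p : X, (∃ r : ℕ, 0 < r ∧ (T ^ r) p = p) ∧ ∀ j : ℤ, ‖x j - (T ^ j) p‖ < ε

/-- A space of sequences indexed by `ℤ` on which weighted translations act. -/
structure SeqSpace (𝕜 X : Type*) [RCLike 𝕜] [NormedAddCommGroup X] [NormedSpace 𝕜 X] where
  c : ℤ → X →L[𝕜] 𝕜
  ext' : ∀ x y : X, (∀ n, c n x = c n y) → x = y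
  e : ℤ → 𝕜 → X
  bd : ∀ n x, ‖c n x‖ ≤ ‖x‖
  ce : ∀ n a m, c m (e n a) = if m = n then a else 0
  ne : ∀ n a, ‖e n a‖ ≤ ‖a‖
  op : ∀ (u : ℤ → 𝕜) (k : ℤ) (M : ℝ), (∀ n, ‖u n‖ ≤ M) →
    ∃ A : X →L[𝕜] X, (∀ x, ‖A x‖ ≤ M * ‖x‖) ∧ ∀ x n, c n (A x) = u n * c (n + k) x

variable {𝕜 : Type*} [RCLike 𝕜] {X : Type*} [NormedAddCommGroup X] [NormedSpace 𝕜 X]

lemma zpow_succ_apply (T : X ≃L[𝕜] X) (p : X) (j : ℤ) : (T ^ (j + 1)) p = T ((T ^ j) p) := by
  rw [add_comm, zpow_add, zpow_one]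
  rfl

lemma transport_of_psp (Q : SeqSpace 𝕜 X) (w ω : ℤ → 𝕜) (hω : ∀ n, ω (n + 1) = w (n + 1) * ω n)
    (hω0 : ∀ n, ω n ≠ 0) (T : X ≃L[𝕜] X) (hT : ∀ x n, Q.c n (T x) = w (n + 1) * Q.c (n + 1) x)
    (h : PeriodicShadowing T) : ∃ K : ℝ, 1 < K ∧ Transport (fun n => ‖ω n‖) K := by
  obtain ⟨δ, hδ, H⟩ := h 1 one_pos
  refine ⟨max 2 (2 / δ), lt_of_lt_of_le one_lt_two (le_max_left _ _), ?_⟩
  intro a n b m han hnb hm
  set U : ℤ → ℝ := fun n => ‖ω n‖ with hUdef
  have hU : ∀ n, 0 < U n := fun n => norm_pos_iff.2 (hω0 n)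
  obtain ⟨d, hd⟩ : ∃ d : ℤ → ℝ, ∀ n, d n = min (S U a n) (S U n b) := ⟨_, fun n => rfl⟩
  have hda : d a = 0 := by
    rw [hd, S_self]; exact min_eq_left (S_nonneg U hU _ _)
  have hdb : d b = 0 := by
    rw [hd, S_self]; exact min_eq_right (S_nonneg U hU _ _)
  have hstep : ∀ n, a ≤ n → n < b → |d (n + 1) - d n| ≤ U n := by
    intro n h1 h2
    have e1 := S_succ U (a := a) (n := n) h1
    have e2 := S_head U (a := n) (n := b) h2
    have hn := hU n
    rw [hd, hd, abs_le]
    rcases min_choice (S U a (n + 1)) (S U (n + 1) b) with h3 | h3 <;>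
    rcases min_choice (S U a n) (S U n b) with h4 | h4 <;>
    · have h5 := min_le_left (S U a (n + 1)) (S U (n + 1) b)
      have h6 := min_le_right (S U a (n + 1)) (S U (n + 1) b)
      have h7 := min_le_left (S U a n) (S U n b)
      have h8 := min_le_right (S U a n) (S U n b)
      rw [h3] at h5 h6 ⊢
      rw [h4] at h7 h8 ⊢
      constructor <;> linarith
  obtain ⟨q, hq⟩ : ∃ q : ℕ, (q : ℤ) = b - a + 1 := ⟨(b - a + 1).toNat, by omega⟩
  have hq0 : 0 < q := by omega
  have hqz : (0 : ℤ) < q := by omega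
  obtain ⟨ν, hν⟩ : ∃ ν : ℤ → ℤ, ∀ j, ν j = b - j % q := ⟨_, fun j => rfl⟩
  obtain ⟨x, hx⟩ : ∃ x : ℤ → X, ∀ j, x j = Q.e (ν j) (((δ / 2 * d (ν j) : ℝ) : 𝕜) / ω (ν j)) :=
    ⟨_, fun j => rfl⟩
  have hper : ∀ j : ℤ, x (j + q) = x j := by
    intro j
    have : ν (j + q) = ν j := by rw [hν, hν, Int.add_emod_right]
    rw [hx, hx, this]
  have hrange : ∀ j, a ≤ ν j ∧ ν j ≤ b := by
    intro j
    have h1 := Int.emod_nonneg j hqz.ne'
    have h2 := Int.emod_lt_of_pos j hqz
    rw [hν]; omega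
  have hz0 : ∀ n, Q.e n 0 = 0 := by
    intro n
    apply Q.ext'
    intro m
    rw [Q.ce, map_zero]; simp
  have hpseudo : ∀ j : ℤ, ‖T (x j) - x (j + 1)‖ < δ := by
    intro j
    have h1 := Int.emod_nonneg j hqz.ne'
    have h2 := Int.emod_lt_of_pos j hqz
    by_cases hc : j % q + 1 < q
    · have hj : (j + 1) % q = j % q + 1 := by
        rw [Int.add_emod]
        by_cases hq1 : q = 1
        · subst hq1; omega
        · rw [Int.emod_eq_of_lt (a := 1) (by omega) (by omega)]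
          exact Int.emod_eq_of_lt (by omega) hc
      obtain ⟨l, hl⟩ : ∃ l, l = ν (j + 1) := ⟨_, rfl⟩
      have hl2 : ν j = l + 1 := by rw [hl, hν, hν, hj]; ring
      have e1 : T (x j) - x (j + 1)
          = Q.e l (((δ / 2 * d (l + 1) : ℝ) : 𝕜) / ω l - ((δ / 2 * d l : ℝ) : 𝕜) / ω l) := by
        apply Q.ext'
        intro m
        rw [map_sub, hT, hx, hx, hl2, ← hl, Q.ce, Q.ce, Q.ce]
        by_cases hml : m = l
        · subst hml
          simp only [if_true]
          congr 1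
          rw [hω m]
          have hw : w (m + 1) ≠ 0 := by
            intro h0
            apply hω0 (m + 1)
            rw [hω, h0, zero_mul]
          have := hω0 m
          field_simp
        · rw [if_neg hml, if_neg hml, if_neg (by omega)]; simp
      rw [e1]
      refine (Q.ne _ _).trans_lt ?_
      rw [← sub_div, ← RCLike.ofReal_sub, norm_div, RCLike.norm_ofReal]
      rw [div_lt_iff₀ (hU l)]
      have h3 := hstep l (by have := hrange (j + 1); omega) (by have := hrange j; omega)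
      have h4 : δ / 2 * d (l + 1) - δ / 2 * d l = δ / 2 * (d (l + 1) - d l) := by ring
      rw [h4, abs_mul, abs_of_pos (half_pos hδ)]
      have := hU l
      nlinarith
    · have hj : j % q = q - 1 := by omega
      have hj1 : (j + 1) % q = 0 := by
        rw [Int.add_emod, hj]
        by_cases hq1 : q = 1
        · subst hq1; simp
        · rw [Int.emod_eq_of_lt (a := 1) (by omega) (by omega)]
          have : (q : ℤ) - 1 + 1 = q := by ring
          rw [this, Int.emod_self]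
      have e1 : ν j = a := by rw [hν, hj, hq]; ring
      have e2 : ν (j + 1) = b := by rw [hν, hj1]; ring
      rw [hx, hx, e1, e2, hda, hdb]
      simp only [mul_zero, RCLike.ofReal_zero, zero_div, hz0, map_zero, sub_zero, norm_zero]
      exact hδ
  obtain ⟨p, -, hp⟩ := H x ⟨q, hq0, hper⟩ hpseudo
  obtain ⟨F, hF⟩ : ∃ F : ℤ → 𝕜, ∀ m, F m = ω m * Q.c m p := ⟨_, fun m => rfl⟩
  -- the orbit in transported coordinates
  have horb : ∀ (j n : ℤ), ω n * Q.c n ((T ^ j) p) = F (n + j) := by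
    intro j
    induction j using Int.induction_on with
    | zero => intro n; rw [zpow_zero, hF, add_zero]; rfl
    | succ k ih =>
      intro n
      rw [zpow_succ_apply, hT, ← mul_assoc, mul_comm (ω n), ← hω, ih]
      congr 1; ring
    | pred k ih =>
      intro n
      have e1 := zpow_succ_apply T p (-(k : ℤ) - 1)
      rw [sub_add_cancel] at e1
      have e2 := ih (n - 1)
      rw [e1, hT, ← mul_assoc, mul_comm (ω (n - 1)), ← hω, sub_add_cancel] at e2
      rw [e2]; congr 1; ring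
  have hsh : ∀ j n : ℤ, ‖ω n * Q.c n (x j) - F (n + j)‖ < U n := by
    intro j n
    rw [← horb, ← mul_sub, ← map_sub, norm_mul]
    have := (Q.bd n (x j - (T ^ j) p)).trans_lt (hp j)
    have hn := hU n
    calc ‖ω n‖ * ‖Q.c n (x j - (T ^ j) p)‖ < ‖ω n‖ * 1 := mul_lt_mul_of_pos_left this hn
      _ = U n := by rw [mul_one]
  -- at the point `n`
  have hA : ‖((δ / 2 * d n : ℝ) : 𝕜) - F b‖ < U n := by
    have h1 := hsh (b - n) n
    have h2 : ν (b - n) = n := by
      rw [hν, Int.emod_eq_of_lt (by omega) (by omega)]; ring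
    rw [hx, h2, Q.ce, if_pos rfl, mul_div_cancel₀ _ (hω0 n)] at h1
    have h3 : n + (b - n) = b := by ring
    rwa [h3] at h1
  have hB : ‖F b‖ < U m := by
    have h1 := hsh (b - m) m
    have h2 : m ≠ ν (b - m) := by
      have := hrange (b - m); omega
    rw [hx, Q.ce, if_neg h2, mul_zero, zero_sub, norm_neg] at h1
    have h3 : m + (b - m) = b := by ring
    rwa [h3] at h1
  have hd0 : 0 ≤ d n := by rw [hd]; exact le_min (S_nonneg U hU _ _) (S_nonneg U hU _ _)
  have h5 : δ / 2 * d n ≤ U n + U m := by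
    have h6 : ‖((δ / 2 * d n : ℝ) : 𝕜)‖ = δ / 2 * d n := by
      rw [RCLike.norm_ofReal, abs_of_nonneg (by positivity)]
    have h7 := norm_sub_norm_le ((δ / 2 * d n : ℝ) : 𝕜) (F b)
    linarith
  have h8 : d n ≤ 2 / δ * (U n + U m) := by
    rw [div_mul_eq_mul_div, le_div_iff₀ hδ]; linarith
  rw [← hd]
  refine h8.trans ?_
  exact mul_le_mul_of_nonneg_right (le_max_right _ _) (add_pos (hU n) (hU m)).le

/-- the reflected transport inequality -/
lemma transport_neg (U : ℤ → ℝ) {M : ℝ}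
    (h1 : ∀ n, U (n + 1) ≤ M * U n) {K : ℝ} (hK : 1 < K) (h : Transport U K) :
    Transport (fun k => U (-k)) (K * M) := by
  intro a n b m han hnb hm
  have hS : ∀ s t : ℤ, S (fun k => U (-k)) s t = S U (1 - t) (1 - s) := by
    intro s t
    unfold S
    apply Finset.sum_nbij' (fun k => -k) (fun k => -k)
    · intro k hk; simp only [Finset.mem_Ico] at hk ⊢; omega
    · intro k hk; simp only [Finset.mem_Ico] at hk ⊢; omega
    · intro k _; ring
    · intro k _; ring
    · intro k _; rfl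
  rw [hS, hS, min_comm]
  have := h (1 - b) (1 - n) (1 - a) (1 - m) (by omega) (by omega) (by omega)
  refine this.trans ?_
  have e1 : U (1 - n) ≤ M * U (-n) := by
    have := h1 (-n); rwa [neg_add_eq_sub] at this
  have e2 : U (1 - m) ≤ M * U (-m) := by
    have := h1 (-m); rwa [neg_add_eq_sub] at this
  have hK0 : 0 < K := by linarith
  calc K * (U (1 - n) + U (1 - m)) ≤ K * (M * U (-n) + M * U (-m)) := by
        gcongr
    _ = _ := by ring

end Pool.Agent.Q192.PerSh
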