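import Pool.Agent.Q192.PerShB

/-!
# Periodic shadowing from exponential monotonicity
-/

set_option autoImplicit false

open Filter Topology Finset

noncomputable section

namespace Pool.Agent.Q192.PerSh

variable {𝕜 : Type*} [RCLike 𝕜] {X : Type*} [NormedAddCommGroup X] [NormedSpace 𝕜 X]

/-- expansion of a pseudotrajectory, forward -/
lemma forward_formula (Q : SeqSpace 𝕜 X) (w ω : ℤ → 𝕜) (hω : ∀ n, ω (n + 1) = w (n + 1) * ω n)
    (hω0 : ∀ n, ω n ≠ 0) (T : X ≃L[𝕜] X) (hT : ∀ x n, Q.c n (T x) = w (n + 1) * Q.c (n + 1) x)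
    (x y : ℤ → X) (hxy : ∀ j, x (j + 1) = T (x j) + y j) (k : ℕ) (j n : ℤ) :
    Q.c n (x j) = ω (n + k) / ω n * Q.c (n + k) (x (j - k)) +
      ∑ i ∈ range k, ω (n + i) / ω n * Q.c (n + i) (y (j - 1 - i)) := by
  induction k with
  | zero => simp [div_self (hω0 n)]
  | succ k ih =>
    rw [ih, sum_range_succ]
    have e1 : x (j - k) = T (x (j - (k + 1 : ℕ))) + y (j - 1 - k) := by
      have := hxy (j - (k + 1 : ℕ))
      have e2 : j - ((k + 1 : ℕ) : ℤ) + 1 = j - k := by push_cast; ring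
      have e3 : j - ((k + 1 : ℕ) : ℤ) = j - 1 - k := by push_cast; ring
      rw [e2] at this
      rw [this]
      congr 2
    rw [e1, map_add, hT]
    have e4 : n + (k : ℤ) + 1 = n + ((k + 1 : ℕ) : ℤ) := by push_cast; ring
    have e5 := hω (n + k)
    rw [e4] at e5 ⊢
    rw [e5]
    ring

/-- expansion of a pseudotrajectory, backward -/
lemma backward_formula (Q : SeqSpace 𝕜 X) (w ω : ℤ → 𝕜) (hω : ∀ n, ω (n + 1) = w (n + 1) * ω n)
    (hω0 : ∀ n, ω n ≠ 0) (T : X ≃L[𝕜] X) (hT : ∀ x n, Q.c n (T x) = w (n + 1) * Q.c (n + 1) x)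
    (x y : ℤ → X) (hxy : ∀ j, x (j + 1) = T (x j) + y j) (k : ℕ) (j n : ℤ) :
    Q.c n (x j) = ω (n - k) / ω n * Q.c (n - k) (x (j + k)) -
      ∑ i ∈ range k, ω (n - (i + 1 : ℕ)) / ω n * Q.c (n - (i + 1 : ℕ)) (y (j + i)) := by
  induction k with
  | zero => simp [div_self (hω0 n)]
  | succ k ih =>
    rw [ih, sum_range_succ]
    have e1 : x (j + (k + 1 : ℕ)) = T (x (j + k)) + y (j + k) := by
      have := hxy (j + k)
      have e2 : j + (k : ℤ) + 1 = j + ((k + 1 : ℕ) : ℤ) := by push_cast; ring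
      rwa [e2] at this
    rw [e1, map_add, hT]
    have e4 : n - ((k + 1 : ℕ) : ℤ) + 1 = n - k := by push_cast; ring
    have e5 := hω (n - (k + 1 : ℕ))
    rw [e4] at e5 ⊢
    rw [e5]
    ring

/-- bounded periodic sequences -/
lemma bounded_of_periodic (x : ℤ → X) {q : ℕ} (hq : 0 < q) (h : ∀ j : ℤ, x (j + q) = x j) :
    ∃ R : ℝ, 0 ≤ R ∧ ∀ j, ‖x j‖ ≤ R := by
  have hz : ∀ (k : ℕ) (j : ℤ), x (j + k * q) = x j := by
    intro k
    induction k with
    | zero => intro j; simp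
    | succ k ih =>
      intro j
      have : j + ((k + 1 : ℕ) : ℤ) * q = (j + k * q) + q := by push_cast; ring
      rw [this, h, ih]
  have hz' : ∀ (k : ℤ) (j : ℤ), x (j + k * q) = x j := by
    intro k j
    rcases le_total 0 k with h0 | h0
    · lift k to ℕ using h0
      exact hz k j
    · obtain ⟨l, rfl⟩ : ∃ l : ℕ, k = -(l : ℤ) := ⟨(-k).toNat, by omega⟩
      have := hz l (j + -(l : ℤ) * q)
      rw [← this]; congr 1; ring
  refine ⟨∑ i ∈ range q, ‖x i‖, Finset.sum_nonneg fun _ _ => norm_nonneg _, fun j => ?_⟩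
  have hqz : (0 : ℤ) < q := by exact_mod_cast hq
  have h1 := Int.emod_nonneg j hqz.ne'
  have h2 := Int.emod_lt_of_pos j hqz
  have h3 : x j = x ((j % q).toNat : ℤ) := by
    have e : j = ((j % q).toNat : ℤ) + (j / q) * q := by
      have := Int.emod_add_mul_ediv j q
      rw [Int.toNat_of_nonneg h1]; linarith
    conv_lhs => rw [e]
    rw [hz']
  rw [h3]
  exact Finset.single_le_sum (f := fun i : ℕ => ‖x i‖) (fun _ _ => norm_nonneg _)
    (Finset.mem_range.2 (by omega))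

lemma geom_le {θ : ℝ} (h0 : 0 < θ) (h1 : θ < 1) (k : ℕ) : ∑ i ∈ range k, θ ^ i ≤ 1 / (1 - θ) := by
  have h := geom_sum_mul_neg θ k
  have h2 : 0 < 1 - θ := by linarith
  rw [le_div_iff₀ h2, h]
  have := pow_pos h0 k
  linarith

/-- if `a ≤ C θ^k R + B` for all `k` then `a ≤ B` -/
lemma le_of_forall_pow {a B C θ R : ℝ} (h0 : 0 < θ) (h1 : θ < 1)
    (h : ∀ k : ℕ, a ≤ C * θ ^ k * R + B) : a ≤ B := by
  have ht : Tendsto (fun k : ℕ => C * θ ^ k * R + B) atTop (𝓝 (C * 0 * R + B)) :=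
    (((tendsto_pow_atTop_nhds_zero_of_lt_one h0.le h1).const_mul C).mul_const R).add_const B
  have := ge_of_tendsto' ht h
  simpa using this

open Classical in
/-- the forward estimate on a set `S` of coordinates -/
lemma forward_bound (Q : SeqSpace 𝕜 X) (w ω : ℤ → 𝕜) (hω : ∀ n, ω (n + 1) = w (n + 1) * ω n)
    (hω0 : ∀ n, ω n ≠ 0) (T : X ≃L[𝕜] X) (hT : ∀ x n, Q.c n (T x) = w (n + 1) * Q.c (n + 1) x)
    (x y : ℤ → X) (hxy : ∀ j, x (j + 1) = T (x j) + y j) {R δ C θ : ℝ}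
    (hR : ∀ j, ‖x j‖ ≤ R) (hy : ∀ j, ‖y j‖ ≤ δ) (hC : 0 < C) (hθ0 : 0 < θ) (hθ1 : θ < 1)
    (A : Set ℤ) (hA : ∀ n ∈ A, ∀ k : ℕ, ‖ω (n + k)‖ ≤ C * θ ^ k * ‖ω n‖)
    (P : X →L[𝕜] X) (hP : ∀ x n, Q.c n (P x) = if n ∈ A then Q.c n x else 0) (j : ℤ) :
    ‖P (x j)‖ ≤ C * (1 / (1 - θ)) * δ := by
  have hδ : 0 ≤ δ := (norm_nonneg _).trans (hy 0)
  have hu : ∀ k : ℕ, ∀ n, ‖(if n ∈ A then ω (n + k) / ω n else 0 : 𝕜)‖ ≤ C * θ ^ k := by
    intro k n
    split_ifs with h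
    · rw [norm_div, div_le_iff₀ (norm_pos_iff.2 (hω0 n))]
      exact hA n h k
    · rw [norm_zero]; positivity
  choose B hB1 hB2 using fun k : ℕ => Q.op (fun n => if n ∈ A then ω (n + k) / ω n else 0) k
    (C * θ ^ k) (hu k)
  apply le_of_forall_pow (C := C) (R := R) hθ0 hθ1
  intro k
  have e : P (x j) = B k (x (j - k)) + ∑ i ∈ range k, B i (y (j - 1 - i)) := by
    apply Q.ext'
    intro n
    rw [hP, map_add, map_sum, hB2]
    simp only [hB2]
    split_ifs with h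
    · exact forward_formula Q w ω hω hω0 T hT x y hxy k j n
    · simp
  rw [e]
  refine (norm_add_le _ _).trans ?_
  have h1 : ‖B k (x (j - k))‖ ≤ C * θ ^ k * R :=
    (hB1 k _).trans (mul_le_mul_of_nonneg_left (hR _) (by positivity))
  have h2 : ‖∑ i ∈ range k, B i (y (j - 1 - i))‖ ≤ C * (1 / (1 - θ)) * δ := by
    refine (norm_sum_le _ _).trans ?_
    calc ∑ i ∈ range k, ‖B i (y (j - 1 - i))‖ ≤ ∑ i ∈ range k, C * θ ^ i * δ := by
          apply Finset.sum_le_sum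
          intro i _
          exact (hB1 i _).trans (mul_le_mul_of_nonneg_left (hy _) (by positivity))
      _ = C * (∑ i ∈ range k, θ ^ i) * δ := by rw [← Finset.sum_mul, ← Finset.mul_sum]
      _ ≤ _ := by
        gcongr
        exact geom_le hθ0 hθ1 k
  linarith

open Classical in
/-- the backward estimate on a set `S` of coordinates -/
lemma backward_bound (Q : SeqSpace 𝕜 X) (w ω : ℤ → 𝕜) (hω : ∀ n, ω (n + 1) = w (n + 1) * ω n)
    (hω0 : ∀ n, ω n ≠ 0) (T : X ≃L[𝕜] X) (hT : ∀ x n, Q.c n (T x) = w (n + 1) * Q.c (n + 1) x)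
    (x y : ℤ → X) (hxy : ∀ j, x (j + 1) = T (x j) + y j) {R δ C θ : ℝ}
    (hR : ∀ j, ‖x j‖ ≤ R) (hy : ∀ j, ‖y j‖ ≤ δ) (hC : 0 < C) (hθ0 : 0 < θ) (hθ1 : θ < 1)
    (A : Set ℤ) (hA : ∀ n ∈ A, ∀ k : ℕ, ‖ω (n - k)‖ ≤ C * θ ^ k * ‖ω n‖)
    (P : X →L[𝕜] X) (hP : ∀ x n, Q.c n (P x) = if n ∈ A then Q.c n x else 0) (j : ℤ) :
    ‖P (x j)‖ ≤ C * (1 / (1 - θ)) * δ := by
  have hδ : 0 ≤ δ := (norm_nonneg _).trans (hy 0)
  have hu : ∀ k : ℕ, ∀ n, ‖(if n ∈ A then ω (n - k) / ω n else 0 : 𝕜)‖ ≤ C * θ ^ k := by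
    intro k n
    split_ifs with h
    · rw [norm_div, div_le_iff₀ (norm_pos_iff.2 (hω0 n))]
      exact hA n h k
    · rw [norm_zero]; positivity
  choose B hB1 hB2 using fun k : ℕ => Q.op (fun n => if n ∈ A then ω (n - k) / ω n else 0) (-k)
    (C * θ ^ k) (hu k)
  apply le_of_forall_pow (C := C) (R := R) hθ0 hθ1
  intro k
  have e : P (x j) = B k (x (j + k)) - ∑ i ∈ range k, B (i + 1) (y (j + i)) := by
    apply Q.ext'
    intro n
    rw [hP, map_sub, map_sum, hB2]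
    simp only [hB2]
    split_ifs with h
    · exact backward_formula Q w ω hω hω0 T hT x y hxy k j n
    · simp
  rw [e]
  refine (norm_sub_le _ _).trans ?_
  have h1 : ‖B k (x (j + k))‖ ≤ C * θ ^ k * R :=
    (hB1 k _).trans (mul_le_mul_of_nonneg_left (hR _) (by positivity))
  have h2 : ‖∑ i ∈ range k, B (i + 1) (y (j + i))‖ ≤ C * (1 / (1 - θ)) * δ := by
    refine (norm_sum_le _ _).trans ?_
    calc ∑ i ∈ range k, ‖B (i + 1) (y (j + i))‖ ≤ ∑ i ∈ range k, C * θ ^ i * δ := by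
          apply Finset.sum_le_sum
          intro i _
          refine (hB1 (i + 1) _).trans (mul_le_mul ?_ (hy _) (norm_nonneg _) (by positivity))
          apply mul_le_mul_of_nonneg_left _ hC.le
          exact pow_le_pow_of_le_one hθ0.le hθ1.le (Nat.le_succ i)
      _ = C * (∑ i ∈ range k, θ ^ i) * δ := by rw [← Finset.sum_mul, ← Finset.mul_sum]
      _ ≤ _ := by
        gcongr
        exact geom_le hθ0 hθ1 k
  linarith

/-- shadowing by zero -/
lemma psp_of_bound (T : X ≃L[𝕜] X) {K : ℝ} (hK : 0 < K)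
    (h : ∀ (x y : ℤ → X) (δ : ℝ), (∀ j, x (j + 1) = T (x j) + y j) → (∃ R, ∀ j, ‖x j‖ ≤ R) →
      (∀ j, ‖y j‖ ≤ δ) → ∀ j, ‖x j‖ ≤ K * δ) : PeriodicShadowing T := by
  intro ε hε
  refine ⟨ε / (2 * K), by positivity, ?_⟩
  intro x ⟨q, hq, hx⟩ hpse
  obtain ⟨R, -, hR⟩ := bounded_of_periodic x hq hx
  refine ⟨0, ⟨1, one_pos, by simp⟩, fun j => ?_⟩
  have := h x (fun j => x (j + 1) - T (x j)) (ε / (2 * K)) (fun j => by abel) ⟨R, hR⟩
    (fun j => by rw [norm_sub_rev]; exact (hpse j).le) j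
  rw [map_zero, sub_zero]
  have h2 : K * (ε / (2 * K)) = ε / 2 := by field_simp
  rw [h2] at this
  linarith

end Pool.Agent.Q192.PerSh
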