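import Pool.Agent.Q192.PerShC

/-!
# Periodic shadowing: the criterion
-/

set_option autoImplicit false

open Filter Topology Finset

noncomputable section

namespace Pool.Agent.Q192.PerSh

variable {𝕜 : Type*} [RCLike 𝕜] {X : Type*} [NormedAddCommGroup X] [NormedSpace 𝕜 X]

lemma psp_of_green [CompleteSpace X] (Q : SeqSpace 𝕜 X) (w ω : ℤ → 𝕜)
    (hω : ∀ n, ω (n + 1) = w (n + 1) * ω n)
    (hω0 : ∀ n, ω n ≠ 0) (T : X ≃L[𝕜] X) (hT : ∀ x n, Q.c n (T x) = w (n + 1) * Q.c (n + 1) x)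
    {C θ : ℝ} (hC : 0 < C) (hθ0 : 0 < θ) (hθ1 : θ < 1)
    (hL : ∀ (n : ℤ) (k : ℕ), n + k ≤ 0 → ‖ω (n + k)‖ ≤ C * θ ^ k * ‖ω n‖)
    (hR : ∀ (n : ℤ) (k : ℕ), 1 ≤ n - k → ‖ω (n - k)‖ ≤ C * θ ^ k * ‖ω n‖) :
    PeriodicShadowing T := by
  have hw : ∀ n, w n ≠ 0 := by
    intro n h0
    apply hω0 n
    have := hω (n - 1)
    rw [sub_add_cancel, h0, zero_mul] at this
    exact this
  have hu : ∀ k : ℕ, ∀ n : ℤ, ‖(if n + k ≤ 0 then ω (n + k) / ω n else 0 : 𝕜)‖ ≤ C * θ ^ k := by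
    intro k n
    split_ifs with h
    · rw [norm_div, div_le_iff₀ (norm_pos_iff.2 (hω0 n))]
      exact hL n k h
    · rw [norm_zero]; positivity
  have hv : ∀ k : ℕ, ∀ n : ℤ, ‖(if 1 ≤ n - k then ω (n - k) / ω n else 0 : 𝕜)‖ ≤ C * θ ^ k := by
    intro k n
    split_ifs with h
    · rw [norm_div, div_le_iff₀ (norm_pos_iff.2 (hω0 n))]
      exact hR n k h
    · rw [norm_zero]; positivity
  choose a ha1 ha2 using fun k : ℕ => Q.op (fun n => if n + k ≤ 0 then ω (n + k) / ω n else 0) k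
    (C * θ ^ k) (hu k)
  choose b hb1 hb2 using fun k : ℕ => Q.op (fun n => if 1 ≤ n - k then ω (n - k) / ω n else 0) (-k)
    (C * θ ^ k) (hv k)
  have hTa : ∀ k y, T (a k y) = a (k + 1) y := by
    intro k y
    apply Q.ext'
    intro n
    rw [hT, ha2, ha2]
    have e : n + 1 + (k : ℤ) = n + ((k + 1 : ℕ) : ℤ) := by push_cast; ring
    rw [e]
    by_cases h : n + ((k + 1 : ℕ) : ℤ) ≤ 0
    · rw [if_pos h, if_pos h, hω n, ← mul_assoc]
      congr 1
      have := hω0 n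
      have := hw (n + 1)
      field_simp
    · rw [if_neg h, if_neg h]; ring
  have hTb : ∀ k y, T (b (k + 1) y) = b k y := by
    intro k y
    apply Q.ext'
    intro n
    rw [hT, hb2, hb2]
    have e : n + 1 - ((k + 1 : ℕ) : ℤ) = n - k := by push_cast; ring
    have e' : n + 1 + -((k + 1 : ℕ) : ℤ) = n + -k := by push_cast; ring
    rw [e, e']
    by_cases h : 1 ≤ n - (k : ℤ)
    · rw [if_pos h, if_pos h, hω n, ← mul_assoc]
      congr 1
      have := hω0 n
      have := hw (n + 1)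
      field_simp
    · rw [if_neg h, if_neg h]; ring
  have hab : ∀ y, a 0 y + b 0 y = y := by
    intro y
    apply Q.ext'
    intro n
    rw [map_add, ha2, hb2]
    simp only [Nat.cast_zero, add_zero, sub_zero, neg_zero, div_self (hω0 n)]
    by_cases h : n ≤ 0
    · rw [if_pos h, if_neg (by omega)]; ring
    · rw [if_neg h, if_pos (by omega)]; ring
  intro ε hε
  have h1θ : 0 < 1 - θ := by linarith
  set K : ℝ := C * (1 - θ)⁻¹ with hK
  have hK0 : 0 < K := by positivity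
  refine ⟨ε / (4 * K), by positivity, ?_⟩
  intro x ⟨q, hq, hx⟩ hpse
  set δ : ℝ := ε / (4 * K) with hδ
  have hδ0 : 0 < δ := by positivity
  obtain ⟨y, hy⟩ : ∃ y : ℤ → X, ∀ j, y j = x (j + 1) - T (x j) := ⟨_, fun j => rfl⟩
  have hyδ : ∀ j, ‖y j‖ ≤ δ := fun j => by rw [hy, norm_sub_rev]; exact (hpse j).le
  have hyq : ∀ j : ℤ, y (j + q) = y j := by
    intro j
    rw [hy, hy, hx]
    have : j + (q : ℤ) + 1 = (j + 1) + q := by ring
    rw [this, hx]
  have hgeo : HasSum (fun k : ℕ => C * θ ^ k * δ) (K * δ) :=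
    ((hasSum_geometric_of_lt_one hθ0.le hθ1).mul_left C).mul_right δ
  have hna : ∀ (k : ℕ) (j : ℤ), ‖a k (y j)‖ ≤ C * θ ^ k * δ := fun k j =>
    (ha1 k _).trans (mul_le_mul_of_nonneg_left (hyδ j) (by positivity))
  have hnb : ∀ (k : ℕ) (j : ℤ), ‖b k (y j)‖ ≤ C * θ ^ k * δ := fun k j =>
    (hb1 k _).trans (mul_le_mul_of_nonneg_left (hyδ j) (by positivity))
  have hnb' : ∀ (k : ℕ) (j : ℤ), ‖b (k + 1) (y j)‖ ≤ C * θ ^ k * δ := by
    intro k j
    refine (hnb (k + 1) j).trans ?_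
    apply mul_le_mul_of_nonneg_right _ hδ0.le
    apply mul_le_mul_of_nonneg_left _ hC.le
    exact pow_le_pow_of_le_one hθ0.le hθ1.le (Nat.le_succ k)
  have hsa : ∀ f : ℕ → ℤ, Summable fun k : ℕ => a k (y (f k)) := fun f =>
    Summable.of_norm_bounded hgeo.summable fun k => hna k _
  have hsb : ∀ f : ℕ → ℤ, Summable fun k : ℕ => b k (y (f k)) := fun f =>
    Summable.of_norm_bounded hgeo.summable fun k => hnb k _
  have hsb' : ∀ f : ℕ → ℤ, Summable fun k : ℕ => b (k + 1) (y (f k)) := fun f =>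
    Summable.of_norm_bounded hgeo.summable fun k => hnb' k _
  obtain ⟨E, hE⟩ : ∃ E : ℤ → X, ∀ j, E j = ∑' k : ℕ, a k (y (j - 1 - k))
      - ∑' k : ℕ, b (k + 1) (y (j + k)) := ⟨_, fun j => rfl⟩
  have hEnorm : ∀ j, ‖E j‖ ≤ 2 * (K * δ) := by
    intro j
    rw [hE]
    refine (norm_sub_le _ _).trans ?_
    have h1 := tsum_of_norm_bounded hgeo fun k => hna k (j - 1 - k)
    have h2 := tsum_of_norm_bounded hgeo fun k => hnb' k (j + k)
    linarith
  have hEper : ∀ j : ℤ, E (j + q) = E j := by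
    intro j
    rw [hE, hE]
    congr 1
    · congr 1
      funext k
      have : j + (q : ℤ) - 1 - k = (j - 1 - k) + q := by ring
      rw [this, hyq]
    · congr 1
      funext k
      have : j + (q : ℤ) + k = (j + k) + q := by ring
      rw [this, hyq]
  have hEstep : ∀ j : ℤ, E (j + 1) = T (E j) + y j := by
    intro j
    rw [hE, hE, map_sub, T.map_tsum, T.map_tsum]
    simp only [hTa, hTb]
    rw [(hsa fun k => j + 1 - 1 - (k : ℤ)).tsum_eq_zero_add,
      (hsb fun k => j + (k : ℤ)).tsum_eq_zero_add]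
    have e1 : ∀ k : ℕ, j + 1 - 1 - ((k + 1 : ℕ) : ℤ) = j - 1 - k := by intro k; push_cast; ring
    have e2 : ∀ k : ℕ, j + ((k + 1 : ℕ) : ℤ) = j + 1 + k := by intro k; push_cast; ring
    simp only [e1, e2]
    have e3 : j + 1 - 1 - ((0 : ℕ) : ℤ) = j := by simp
    have e4 : j + ((0 : ℕ) : ℤ) = j := by simp
    rw [e3, e4]
    have e5 := hab (y j)
    generalize (∑' k : ℕ, a (k + 1) (y (j - 1 - k))) = A1
    generalize (∑' k : ℕ, b (k + 1) (y (j + 1 + k))) = B1
    have e6 : a 0 (y j) + A1 - B1 = A1 - (b 0 (y j) + B1) + (a 0 (y j) + b 0 (y j)) := by abel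
    rw [e6, e5]
  obtain ⟨z, hz⟩ : ∃ z : ℤ → X, ∀ j, z j = x j - E j := ⟨_, fun j => rfl⟩
  have hzstep : ∀ j, z (j + 1) = T (z j) := by
    intro j
    rw [hz, hz, hEstep, hy, map_sub]
    abel
  have hzT : ∀ j : ℤ, (T ^ j) (z 0) = z j := by
    intro j
    induction j using Int.induction_on with
    | zero => rw [zpow_zero]; rfl
    | succ k ih => rw [zpow_succ_apply, ih, hzstep]
    | pred k ih =>
      have e1 := zpow_succ_apply T (z 0) (-(k : ℤ) - 1)
      have e2 := hzstep (-(k : ℤ) - 1)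
      rw [sub_add_cancel] at e1 e2
      rw [ih] at e1
      rw [e2] at e1
      exact (T.injective e1).symm
  refine ⟨z 0, ⟨q, hq, ?_⟩, fun j => ?_⟩
  · have := hzT q
    rw [zpow_natCast] at this
    rw [this, hz, hz]
    have e1 := hx 0
    have e2 := hEper 0
    rw [zero_add] at e1 e2
    rw [e1, e2]
  · rw [hzT, hz, sub_sub_cancel]
    refine (hEnorm j).trans_lt ?_
    have : 2 * (K * δ) = ε / 2 := by rw [hδ]; field_simp; ring
    rw [this]; linarith

/-- common constants -/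
lemma inc_nat {U : ℤ → ℝ} (hU : ∀ n, 0 < U n) {C θ C' θ' : ℝ} (hC : C ≤ C') (hC' : 0 < C')
    (hθ0 : 0 < θ) (hθ : θ ≤ θ')
    (h : ∀ m n : ℤ, 0 ≤ m → m ≤ n → U m ≤ C * θ ^ (n - m).toNat * U n) (m : ℤ) (k : ℕ)
    (hm : 0 ≤ m) : U m ≤ C' * θ' ^ k * U (m + k) := by
  refine (h m (m + k) hm (by omega)).trans ?_
  have : (m + (k : ℤ) - m).toNat = k := by omega
  rw [this]
  apply mul_le_mul_of_nonneg_right _ (hU _).le
  gcongr

lemma dec_nat {U : ℤ → ℝ} (hU : ∀ n, 0 < U n) {C θ C' θ' : ℝ} (hC : C ≤ C') (hC' : 0 < C')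
    (hθ0 : 0 < θ) (hθ : θ ≤ θ')
    (h : ∀ m n : ℤ, 0 ≤ m → m ≤ n → U n ≤ C * θ ^ (n - m).toNat * U m) (m : ℤ) (k : ℕ)
    (hm : 0 ≤ m) : U (m + k) ≤ C' * θ' ^ k * U m := by
  refine (h m (m + k) hm (by omega)).trans ?_
  have : (m + (k : ℤ) - m).toNat = k := by omega
  rw [this]
  apply mul_le_mul_of_nonneg_right _ (hU _).le
  gcongr

open Classical in
theorem psp_of_mono [CompleteSpace X] (Q : SeqSpace 𝕜 X) (w ω : ℤ → 𝕜)
    (hω : ∀ n, ω (n + 1) = w (n + 1) * ω n)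
    (hω0 : ∀ n, ω n ≠ 0) (T : X ≃L[𝕜] X) (hT : ∀ x n, Q.c n (T x) = w (n + 1) * Q.c (n + 1) x)
    (h1 : IncRight (fun n => ‖ω n‖) ∨ DecRight (fun n => ‖ω n‖))
    (h2 : IncRight (fun n => ‖ω (-n)‖) ∨ DecRight (fun n => ‖ω (-n)‖)) :
    PeriodicShadowing T := by
  have hU : ∀ n, 0 < ‖ω n‖ := fun n => norm_pos_iff.2 (hω0 n)
  have hU' : ∀ n, 0 < ‖ω (-n)‖ := fun n => norm_pos_iff.2 (hω0 _)
  obtain ⟨P1, hP1n, hP1⟩ := Q.op (fun n => if 0 ≤ n then 1 else 0) 0 1
    (fun n => by split_ifs <;> simp)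
  obtain ⟨P2, hP2n, hP2⟩ := Q.op (fun n => if n < 0 then 1 else 0) 0 1
    (fun n => by split_ifs <;> simp)
  have hP12 : ∀ x, x = P1 x + P2 x := by
    intro x
    apply Q.ext'
    intro n
    rw [map_add, hP1, hP2, add_zero]
    by_cases h : 0 ≤ n
    · rw [if_pos h, if_neg (by omega)]; ring
    · rw [if_neg h, if_pos (by omega)]; ring
  rcases h1 with ⟨C1, θ1, hC1, hθ1, hθ1', g1⟩ | ⟨C1, θ1, hC1, hθ1, hθ1', g1⟩ <;>
  rcases h2 with ⟨C2, θ2, hC2, hθ2, hθ2', g2⟩ | ⟨C2, θ2, hC2, hθ2, hθ2', g2⟩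
  all_goals
    obtain ⟨C, hC⟩ : ∃ C, C = max 1 (max C1 C2) := ⟨_, rfl⟩
    obtain ⟨θ, hθ⟩ : ∃ θ, θ = max θ1 θ2 := ⟨_, rfl⟩
    have hC1' : C1 ≤ C := by rw [hC]; exact (le_max_left _ _).trans (le_max_right _ _)
    have hC2' : C2 ≤ C := by rw [hC]; exact (le_max_right _ _).trans (le_max_right _ _)
    have hCone : 1 ≤ C := by rw [hC]; exact le_max_left _ _
    have hC0 : 0 < C := by linarith
    have ht1 : θ1 ≤ θ := by rw [hθ]; exact le_max_left _ _
    have ht2 : θ2 ≤ θ := by rw [hθ]; exact le_max_right _ _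
    have ht0 : 0 < θ := lt_of_lt_of_le hθ1 ht1
    have htone : θ < 1 := by rw [hθ]; exact max_lt hθ1' hθ2'
    have hCC : C ≤ C * C := by nlinarith
  · -- increasing on both sides
    have f1 := inc_nat hU hC1' hC0 hθ1 ht1 g1
    have f2 := inc_nat hU' hC2' hC0 hθ2 ht2 g2
    refine psp_of_green Q w ω hω hω0 T hT hC0 ht0 htone ?_ ?_
    · intro n k hnk
      have := f2 (-(n + k)) k (by omega)
      simp only [neg_neg, neg_add_rev] at this
      have e : -(k : ℤ) + (n + k) = n := by ring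
      have e' : -(-(n + (k : ℤ)) + k) = n := by ring
      simpa [e, e', add_comm] using this
    · intro n k hnk
      have := f1 (n - k) k (by omega)
      rwa [sub_add_cancel] at this
  · -- increasing on `ℤ`
    have f1 := inc_nat hU hC1' hC0 hθ1 ht1 g1
    have f2 := dec_nat hU' hC2' hC0 hθ2 ht2 g2
    have key : ∀ n ∈ (Set.univ : Set ℤ), ∀ k : ℕ, ‖ω (n - k)‖ ≤ C * C * θ ^ k * ‖ω n‖ := by
      intro n _ k
      have hp : 0 ≤ θ ^ k * ‖ω n‖ := by positivity
      by_cases h0 : n ≤ 0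
      · have h3 := f2 (-n) k (by omega)
        have e : -(-n + (k : ℤ)) = n - k := by ring
        rw [e, neg_neg] at h3
        refine h3.trans ?_
        rw [mul_assoc, mul_assoc]
        exact mul_le_mul_of_nonneg_right hCC hp
      · by_cases h1 : 0 ≤ n - k
        · have h3 := f1 (n - k) k h1
          rw [sub_add_cancel] at h3
          refine h3.trans ?_
          rw [mul_assoc, mul_assoc]
          exact mul_le_mul_of_nonneg_right hCC hp
        · obtain ⟨s, hs⟩ : ∃ s : ℕ, (s : ℤ) = n := ⟨n.toNat, by omega⟩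
          obtain ⟨t, ht⟩ : ∃ t : ℕ, (t : ℤ) = k - n := ⟨(k - n).toNat, by omega⟩
          have h3 := f2 0 t le_rfl
          have h4 := f1 0 s le_rfl
          have e : -(0 + (t : ℤ)) = n - k := by rw [ht]; ring
          rw [e, neg_zero] at h3
          rw [zero_add, hs] at h4
          have hk : k = t + s := by omega
          calc ‖ω (n - k)‖ ≤ C * θ ^ t * ‖ω 0‖ := h3
            _ ≤ C * θ ^ t * (C * θ ^ s * ‖ω n‖) := mul_le_mul_of_nonneg_left h4 (by positivity)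
            _ = C * C * θ ^ k * ‖ω n‖ := by rw [hk, pow_add]; ring
    refine psp_of_bound T (K := C * C * (1 / (1 - θ))) (by
      have : 0 < 1 - θ := by linarith
      positivity) ?_
    intro x y δ hxy ⟨R, hR⟩ hy j
    exact backward_bound Q w ω hω hω0 T hT x y hxy hR hy (by positivity) ht0 htone Set.univ key
      (ContinuousLinearMap.id 𝕜 X) (fun x n => by simp) j
  · -- decreasing on `ℤ`
    have f1 := dec_nat hU hC1' hC0 hθ1 ht1 g1
    have f2 := inc_nat hU' hC2' hC0 hθ2 ht2 g2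
    have key : ∀ n ∈ (Set.univ : Set ℤ), ∀ k : ℕ, ‖ω (n + k)‖ ≤ C * C * θ ^ k * ‖ω n‖ := by
      intro n _ k
      have hp : 0 ≤ θ ^ k * ‖ω n‖ := by positivity
      by_cases h0 : 0 ≤ n
      · refine (f1 n k h0).trans ?_
        rw [mul_assoc, mul_assoc]
        exact mul_le_mul_of_nonneg_right hCC hp
      · by_cases h1 : n + k ≤ 0
        · have h3 := f2 (-(n + k)) k (by omega)
          have e' : -(-(n + (k : ℤ)) + k) = n := by ring
          rw [e', neg_neg] at h3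
          refine h3.trans ?_
          rw [mul_assoc, mul_assoc]
          exact mul_le_mul_of_nonneg_right hCC hp
        · obtain ⟨s, hs⟩ : ∃ s : ℕ, (s : ℤ) = -n := ⟨(-n).toNat, by omega⟩
          obtain ⟨t, ht⟩ : ∃ t : ℕ, (t : ℤ) = n + k := ⟨(n + k).toNat, by omega⟩
          have h3 := f1 0 t le_rfl
          have h4 := f2 0 s le_rfl
          have e : -(0 + (s : ℤ)) = n := by rw [hs]; ring
          rw [e, neg_zero] at h4
          rw [zero_add, ht] at h3
          have hk : k = t + s := by omega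
          calc ‖ω (n + k)‖ ≤ C * θ ^ t * ‖ω 0‖ := h3
            _ ≤ C * θ ^ t * (C * θ ^ s * ‖ω n‖) := mul_le_mul_of_nonneg_left h4 (by positivity)
            _ = C * C * θ ^ k * ‖ω n‖ := by rw [hk, pow_add]; ring
    refine psp_of_bound T (K := C * C * (1 / (1 - θ))) (by
      have : 0 < 1 - θ := by linarith
      positivity) ?_
    intro x y δ hxy ⟨R, hR⟩ hy j
    exact forward_bound Q w ω hω hω0 T hT x y hxy hR hy (by positivity) ht0 htone Set.univ key
      (ContinuousLinearMap.id 𝕜 X) (fun x n => by simp) j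
  · -- decreasing on both sides
    have f1 := dec_nat hU hC1' hC0 hθ1 ht1 g1
    have f2 := dec_nat hU' hC2' hC0 hθ2 ht2 g2
    refine psp_of_bound T (K := 2 * (C * (1 / (1 - θ)))) (by
      have : 0 < 1 - θ := by linarith
      positivity) ?_
    intro x y δ hxy ⟨R, hR⟩ hy j
    have b1 := forward_bound Q w ω hω hω0 T hT x y hxy hR hy hC0 ht0 htone {n : ℤ | 0 ≤ n}
      (fun n hn k => f1 n k hn) P1 (fun x n => by
        rw [hP1, add_zero]
        simp only [Set.mem_ofPred_eq]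
        split_ifs <;> simp) j
    have b2 := backward_bound Q w ω hω hω0 T hT x y hxy hR hy hC0 ht0 htone {n : ℤ | n < 0}
      (fun n hn k => by
        have hn' : n < 0 := hn
        have h3 := f2 (-n) k (by omega)
        have e : -(-n + (k : ℤ)) = n - k := by ring
        rwa [e, neg_neg] at h3) P2 (fun x n => by
        rw [hP2, add_zero]
        simp only [Set.mem_ofPred_eq]
        split_ifs <;> simp) j
    rw [hP12 (x j)]
    refine (norm_add_le _ _).trans ?_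
    linarith

/-- the criterion -/
theorem psp_iff [CompleteSpace X] (Q : SeqSpace 𝕜 X) (w ω : ℤ → 𝕜) {M : ℝ} (hM : 1 ≤ M)
    (hw1 : ∀ n, ‖w n‖ ≤ M) (hw2 : ∀ n, 1 ≤ M * ‖w n‖)
    (hω : ∀ n, ω (n + 1) = w (n + 1) * ω n)
    (hω0 : ∀ n, ω n ≠ 0) (T : X ≃L[𝕜] X) (hT : ∀ x n, Q.c n (T x) = w (n + 1) * Q.c (n + 1) x) :
    PeriodicShadowing T ↔ (IncRight (fun n => ‖ω n‖) ∨ DecRight (fun n => ‖ω n‖)) ∧
      (IncRight (fun n => ‖ω (-n)‖) ∨ DecRight (fun n => ‖ω (-n)‖)) := by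
  have hU : ∀ n, 0 < ‖ω n‖ := fun n => norm_pos_iff.2 (hω0 n)
  have hU' : ∀ n, 0 < ‖ω (-n)‖ := fun n => norm_pos_iff.2 (hω0 _)
  have r1 : ∀ n, ‖ω (n + 1)‖ ≤ M * ‖ω n‖ := by
    intro n
    rw [hω, norm_mul]
    exact mul_le_mul_of_nonneg_right (hw1 _) (norm_nonneg _)
  have r2 : ∀ n, ‖ω n‖ ≤ M * ‖ω (n + 1)‖ := by
    intro n
    rw [hω, norm_mul, ← mul_assoc]
    have := mul_le_mul_of_nonneg_right (hw2 (n + 1)) (norm_nonneg (ω n))
    linarith
  constructor
  · intro h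
    obtain ⟨K, hK, hT1⟩ := transport_of_psp Q w ω hω hω0 T hT h
    have hT2 := transport_neg _ r1 hK hT1
    have hKM : 1 < K * M := by nlinarith
    refine ⟨right_dichotomy _ hU hM r1 r2 hK hT1, right_dichotomy _ hU' hM ?_ ?_ hKM hT2⟩
    · intro n
      have := r2 (-(n + 1))
      have e : -(n + 1) + 1 = -n := by ring
      rwa [e] at this
    · intro n
      have := r1 (-(n + 1))
      have e : -(n + 1) + 1 = -n := by ring
      rwa [e] at this
  · rintro ⟨h1, h2⟩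
    exact psp_of_mono Q w ω hω hω0 T hT h1 h2

/-- existence of the transported weights -/
lemma exists_omega (w : ℤ → 𝕜) (hw : ∀ n, w n ≠ 0) :
    ∃ ω : ℤ → 𝕜, (∀ n, ω (n + 1) = w (n + 1) * ω n) ∧ ∀ n, ω n ≠ 0 := by
  refine ⟨fun n => if 0 ≤ n then ∏ i ∈ range n.toNat, w (i + 1)
    else (∏ i ∈ range (-n).toNat, w (-i))⁻¹, ?_, ?_⟩
  · intro n
    by_cases h : 0 ≤ n
    · simp only [if_pos h, if_pos (by omega : 0 ≤ n + 1)]
      have e : (n + 1).toNat = n.toNat + 1 := by omega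
      rw [e, prod_range_succ]
      have : ((n.toNat : ℕ) : ℤ) + 1 = n + 1 := by omega
      rw [this, mul_comm]
    · by_cases h1 : n + 1 = 0
      · have : n = -1 := by omega
        subst this
        simp [hw 0]
      · simp only [if_neg h, if_neg (by omega : ¬ 0 ≤ n + 1)]
        have e : (-n).toNat = (-(n + 1)).toNat + 1 := by omega
        rw [e, prod_range_succ]
        have : -(((-(n + 1)).toNat : ℕ) : ℤ) = n + 1 := by omega
        rw [this, mul_inv]
        have := hw (n + 1)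
        field_simp
  · intro n
    dsimp only
    split_ifs
    · exact prod_ne_zero_iff.2 fun i _ => hw _
    · exact inv_ne_zero (prod_ne_zero_iff.2 fun i _ => hw _)

end Pool.Agent.Q192.PerSh
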