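import Pool.Agent.Q192.PerShD

/-!
# The sequence spaces `ℓ_p(ℤ)` and `c_0(ℤ)`
-/

set_option autoImplicit false

open Filter Topology Finset
open scoped ENNReal ZeroAtInfty

noncomputable section

namespace Pool.Agent.Q192.PerSh

variable {𝕜 : Type*} [RCLike 𝕜]

section lpspace

variable {p : ℝ≥0∞} [Fact (1 ≤ p)]

lemma toReal_pos' (hp : p ≠ ∞) : 0 < p.toReal :=
  ENNReal.toReal_pos (lt_of_lt_of_le one_pos (Fact.out : 1 ≤ p)).ne' hp

lemma lp_op_sum (hp : p ≠ ∞) (u : ℤ → 𝕜) (k : ℤ) (M : ℝ) (hM : ∀ n, ‖u n‖ ≤ M)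
    (x : lp (fun _ : ℤ => 𝕜) p) (F : Finset ℤ) :
    ∑ s ∈ F, ‖u s * x (s + k)‖ ^ p.toReal ≤ (M * ‖x‖) ^ p.toReal := by
  have hp0 := toReal_pos' (p := p) hp
  have hM0 : 0 ≤ M := (norm_nonneg _).trans (hM 0)
  calc ∑ s ∈ F, ‖u s * x (s + k)‖ ^ p.toReal
      ≤ ∑ s ∈ F, M ^ p.toReal * ‖x (s + k)‖ ^ p.toReal := by
        refine Finset.sum_le_sum fun s _ => ?_
        rw [norm_mul, Real.mul_rpow (norm_nonneg _) (norm_nonneg _)]
        apply mul_le_mul_of_nonneg_right _ (Real.rpow_nonneg (norm_nonneg _) _)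
        exact Real.rpow_le_rpow (norm_nonneg _) (hM s) hp0.le
    _ = M ^ p.toReal * ∑ t ∈ F.image (fun s => s + k), ‖x t‖ ^ p.toReal := by
        rw [Finset.sum_image, Finset.mul_sum]
        intro a _ b _ hab
        exact add_right_cancel hab
    _ ≤ M ^ p.toReal * ‖x‖ ^ p.toReal := by
        apply mul_le_mul_of_nonneg_left _ (Real.rpow_nonneg hM0 _)
        exact lp.sum_rpow_le_norm_rpow hp0 x _
    _ = (M * ‖x‖) ^ p.toReal := by
        rw [Real.mul_rpow hM0 (norm_nonneg _)]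

/-- weighted translation on `ℓ_p(ℤ)` -/
def lpOp (hp : p ≠ ∞) (u : ℤ → 𝕜) (k : ℤ) (M : ℝ) (hM : ∀ n, ‖u n‖ ≤ M) :
    lp (fun _ : ℤ => 𝕜) p →L[𝕜] lp (fun _ : ℤ => 𝕜) p :=
  LinearMap.mkContinuous
    { toFun := fun x => ⟨fun s => u s * x (s + k),
        memℓp_gen' (C := (M * ‖x‖) ^ p.toReal) (lp_op_sum hp u k M hM x)⟩
      map_add' := fun x y => by
        ext s
        change u s * (x (s + k) + y (s + k)) = u s * x (s + k) + u s * y (s + k)
        ring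
      map_smul' := fun c x => by
        ext s
        change u s * (c * x (s + k)) = c * (u s * x (s + k))
        ring } M (fun x => lp.norm_le_of_forall_sum_le (toReal_pos' hp)
          (mul_nonneg ((norm_nonneg _).trans (hM 0)) (norm_nonneg _)) (lp_op_sum hp u k M hM x))

lemma lpOp_apply (hp : p ≠ ∞) (u : ℤ → 𝕜) (k : ℤ) (M : ℝ) (hM : ∀ n, ‖u n‖ ≤ M)
    (x : lp (fun _ : ℤ => 𝕜) p) (n : ℤ) : lpOp hp u k M hM x n = u n * x (n + k) := rfl

lemma lpOp_norm (hp : p ≠ ∞) (u : ℤ → 𝕜) (k : ℤ) (M : ℝ) (hM : ∀ n, ‖u n‖ ≤ M)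
    (x : lp (fun _ : ℤ => 𝕜) p) : ‖lpOp hp u k M hM x‖ ≤ M * ‖x‖ :=
  lp.norm_le_of_forall_sum_le (toReal_pos' hp)
    (mul_nonneg ((norm_nonneg _).trans (hM 0)) (norm_nonneg _)) (lp_op_sum hp u k M hM x)

/-- the coordinate functional -/
def lpCoord (p : ℝ≥0∞) [Fact (1 ≤ p)] (n : ℤ) : lp (fun _ : ℤ => 𝕜) p →L[𝕜] 𝕜 :=
  LinearMap.mkContinuous
    { toFun := fun x => x n
      map_add' := fun _ _ => rfl
      map_smul' := fun _ _ => rfl } 1 (fun x => by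
        rw [one_mul]
        exact lp.norm_apply_le_norm (lt_of_lt_of_le one_pos (Fact.out : 1 ≤ p)).ne' x n)

lemma lpCoord_apply (n : ℤ) (x : lp (fun _ : ℤ => 𝕜) p) : lpCoord p n x = x n := rfl

lemma lp_single_coord (p : ℝ≥0∞) [Fact (1 ≤ p)] (n : ℤ) (a : 𝕜) (m : ℤ) :
    (lp.single (E := fun _ : ℤ => 𝕜) p n a) m = if m = n then a else 0 := by
  by_cases h : m = n
  · subst h
    rw [if_pos rfl]
    exact lp.single_apply_self (E := fun _ : ℤ => 𝕜) p m a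
  · rw [if_neg h]
    exact lp.single_apply_ne (E := fun _ : ℤ => 𝕜) p n a h

lemma lp_single_norm (p : ℝ≥0∞) [Fact (1 ≤ p)] (n : ℤ) (a : 𝕜) :
    ‖lp.single (E := fun _ : ℤ => 𝕜) p n a‖ ≤ ‖a‖ := by
  have h : 0 < p := lt_of_lt_of_le one_pos (Fact.out : 1 ≤ p)
  exact (lp.norm_single (E := fun _ : ℤ => 𝕜) h n a).le

/-- `ℓ_p(ℤ)` as a sequence space -/
def lpSeq (𝕜 : Type*) [RCLike 𝕜] (p : ℝ≥0∞) [Fact (1 ≤ p)] (hp : p ≠ ∞) :
    SeqSpace 𝕜 (lp (fun _ : ℤ => 𝕜) p) where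
  c := lpCoord p
  ext' x y h := by
    ext n
    exact h n
  e n a := lp.single p n a
  bd n x := lp.norm_apply_le_norm (lt_of_lt_of_le one_pos (Fact.out : 1 ≤ p)).ne' x n
  ce n a m := by
    exact lp_single_coord p n a m
  ne n a := lp_single_norm p n a
  op u k M hM := ⟨lpOp hp u k M hM, lpOp_norm hp u k M hM, fun x n => rfl⟩

end lpspace

section c0space

lemma c0_norm_apply_le (x : C₀(ℤ, 𝕜)) (n : ℤ) : ‖x n‖ ≤ ‖x‖ := by
  rw [← ZeroAtInftyContinuousMap.norm_toBCF_eq_norm]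
  exact x.toBCF.norm_coe_le_norm n

lemma c0_norm_le_of (x : C₀(ℤ, 𝕜)) {C : ℝ} (hC : 0 ≤ C) (h : ∀ n, ‖x n‖ ≤ C) : ‖x‖ ≤ C := by
  rw [← ZeroAtInftyContinuousMap.norm_toBCF_eq_norm]
  exact (BoundedContinuousFunction.norm_le hC).2 h

/-- weighted translation on `c_0(ℤ)` -/
def c0Fun (u : ℤ → 𝕜) (k : ℤ) (M : ℝ) (hM : ∀ n, ‖u n‖ ≤ M) (x : C₀(ℤ, 𝕜)) : C₀(ℤ, 𝕜) where
  toFun n := u n * x (n + k)
  continuous_toFun := continuous_of_discreteTopology
  zero_at_infty' := by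
    have h1 : Tendsto (fun n : ℤ => x (n + k)) (cocompact ℤ) (𝓝 0) :=
      (zero_at_infty x).comp (Homeomorph.addRight k).isClosedEmbedding.tendsto_cocompact
    have h2 : Tendsto (fun n : ℤ => M * ‖x (n + k)‖) (cocompact ℤ) (𝓝 0) := by
      have := (h1.norm).const_mul M
      simpa using this
    refine squeeze_zero_norm (fun n => ?_) h2
    rw [norm_mul]
    exact mul_le_mul_of_nonneg_right (hM n) (norm_nonneg _)

lemma c0Fun_apply (u : ℤ → 𝕜) (k : ℤ) (M : ℝ) (hM : ∀ n, ‖u n‖ ≤ M) (x : C₀(ℤ, 𝕜)) (n : ℤ) :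
    c0Fun u k M hM x n = u n * x (n + k) := rfl

lemma c0Fun_norm (u : ℤ → 𝕜) (k : ℤ) (M : ℝ) (hM : ∀ n, ‖u n‖ ≤ M) (x : C₀(ℤ, 𝕜)) :
    ‖c0Fun u k M hM x‖ ≤ M * ‖x‖ := by
  have hM0 : 0 ≤ M := (norm_nonneg _).trans (hM 0)
  refine c0_norm_le_of _ (mul_nonneg hM0 (norm_nonneg _)) fun n => ?_
  rw [c0Fun_apply, norm_mul]
  exact mul_le_mul (hM n) (c0_norm_apply_le x _) (norm_nonneg _) hM0

/-- weighted translation on `c_0(ℤ)`, as an operator -/
def c0Op (u : ℤ → 𝕜) (k : ℤ) (M : ℝ) (hM : ∀ n, ‖u n‖ ≤ M) : C₀(ℤ, 𝕜) →L[𝕜] C₀(ℤ, 𝕜) :=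
  LinearMap.mkContinuous
    { toFun := c0Fun u k M hM
      map_add' := fun x y => by
        ext s
        change u s * (x (s + k) + y (s + k)) = u s * x (s + k) + u s * y (s + k)
        ring
      map_smul' := fun c x => by
        ext s
        change u s * (c * x (s + k)) = c * (u s * x (s + k))
        ring } M (c0Fun_norm u k M hM)

/-- the coordinate functional -/
def c0Coord (n : ℤ) : C₀(ℤ, 𝕜) →L[𝕜] 𝕜 :=
  LinearMap.mkContinuous
    { toFun := fun x => x n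
      map_add' := fun _ _ => rfl
      map_smul' := fun _ _ => rfl } 1 (fun x => by
        rw [one_mul]
        exact c0_norm_apply_le x n)

/-- the sequence with one entry -/
def c0Single (n : ℤ) (a : 𝕜) : C₀(ℤ, 𝕜) where
  toFun m := if m = n then a else 0
  continuous_toFun := continuous_of_discreteTopology
  zero_at_infty' := by
    rw [Filter.cocompact_eq_cofinite]
    apply tendsto_nhds_of_eventually_eq
    have : {n}ᶜ ∈ (cofinite : Filter ℤ) := (Set.finite_singleton n).compl_mem_cofinite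
    filter_upwards [this] with m hm
    have hm' : m ≠ n := hm
    rw [if_neg hm']

/-- `c_0(ℤ)` as a sequence space -/
def c0Seq (𝕜 : Type*) [RCLike 𝕜] : SeqSpace 𝕜 C₀(ℤ, 𝕜) where
  c := c0Coord
  ext' x y h := by
    ext n
    exact h n
  e := c0Single
  bd n x := c0_norm_apply_le x n
  ce n a m := rfl
  ne n a := by
    refine c0_norm_le_of _ (norm_nonneg _) fun m => ?_
    change ‖(if m = n then a else 0 : 𝕜)‖ ≤ ‖a‖
    split_ifs
    · exact le_rfl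
    · rw [norm_zero]; exact norm_nonneg _
  op u k M hM := ⟨c0Op u k M hM, c0Fun_norm u k M hM, fun x n => rfl⟩

end c0space

/-- the weighted backward shift exists on a sequence space -/
lemma exists_shift {X : Type*} [NormedAddCommGroup X] [NormedSpace 𝕜 X] (Q : SeqSpace 𝕜 X)
    (w : ℤ → 𝕜) {M : ℝ} (hw1 : ∀ n, ‖w n‖ ≤ M) (hw2 : ∀ n, 1 ≤ M * ‖w n‖) :
    ∃ T : X ≃L[𝕜] X, ∀ x n, Q.c n (T x) = w (n + 1) * Q.c (n + 1) x := by
  have hw : ∀ n, w n ≠ 0 := by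
    intro n h
    have := hw2 n
    rw [h, norm_zero, mul_zero] at this
    linarith
  obtain ⟨A, -, hA⟩ := Q.op (fun n => w (n + 1)) 1 M (fun n => hw1 _)
  obtain ⟨B, -, hB⟩ := Q.op (fun n => (w n)⁻¹) (-1) M (fun n => by
    rw [norm_inv, inv_le_iff_one_le_mul₀ (norm_pos_iff.2 (hw n))]
    exact hw2 n)
  refine ⟨ContinuousLinearEquiv.equivOfInverse A B ?_ ?_, fun x n => hA x n⟩
  · intro x
    apply Q.ext'
    intro n
    rw [hB, hA]
    have e : n + -1 + 1 = n := by ring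
    rw [e, ← mul_assoc, inv_mul_cancel₀ (hw n), one_mul]
  · intro x
    apply Q.ext'
    intro n
    rw [hA, hB]
    have e : n + 1 + -1 = n := by ring
    rw [e, ← mul_assoc, mul_inv_cancel₀ (hw _), one_mul]

end Pool.Agent.Q192.PerSh
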