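import Mathlib

/-!
# A weighted shift on `c₀(ℤ)`: weights

`ell k` is large near the multiples of `64 ^ q`, `q` large.
-/

set_option autoImplicit false

open Filter Topology
open scoped ZeroAtInfty

noncomputable section

namespace Pool.Agent.Q192.PropA

/-- the period `64 ^ q` -/
def a (q : ℕ) : ℕ := 64 ^ q

theorem a_pos (q : ℕ) : 0 < a q := by unfold a; positivity

theorem three_mul_lt (q : ℕ) : 3 * q < a q := by
  unfold a
  induction q with
  | zero => norm_num
  | succ n ih => rw [pow_succ]; omega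

/-- `k` is at height at least `p` -/
def P (k p : ℕ) : Prop := ∃ q, a q ≤ k + q ∧ (k + q) % a q + p ≤ 2 * q

theorem P_le {k p : ℕ} (h : P k p) : p ≤ k := by
  obtain ⟨q, h1, h2⟩ := h
  have := three_mul_lt q
  omega

theorem P_mono {k p p' : ℕ} (h : P k p) (hp : p' ≤ p) : P k p' := by
  obtain ⟨q, h1, h2⟩ := h
  exact ⟨q, h1, by omega⟩

theorem P_succ {k p : ℕ} (h : P k (p + 1)) : P (k + 1) p := by
  obtain ⟨q, h1, h2⟩ := h
  refine ⟨q, by omega, ?_⟩
  have h3 : (k + 1 + q) % a q ≤ (k + q) % a q + 1 := by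
    have e : k + 1 + q = (k + q) + 1 := by omega
    rw [e, Nat.add_mod]
    refine (Nat.mod_le _ _).trans ?_
    have := Nat.mod_le 1 (a q)
    omega
  omega

open Classical in
/-- the height of `k` -/
def ell (k : ℕ) : ℕ := Nat.findGreatest (P k) k

theorem le_ell {k p : ℕ} (h : P k p) : p ≤ ell k := by
  classical
  exact Nat.le_findGreatest (P_le h) h

theorem P_of_lt_ell {k p : ℕ} (h : p < ell k) : P k p := by
  classical
  have h1 : ell k ≠ 0 := by omega
  have h2 : P k (ell k) := Nat.findGreatest_of_ne_zero rfl h1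
  exact P_mono h2 h.le

theorem ell_le (k : ℕ) : ell k ≤ k := by
  classical
  exact Nat.findGreatest_le k

theorem ell_le_succ (k : ℕ) : ell k ≤ ell (k + 1) + 1 := by
  classical
  rcases Nat.eq_zero_or_pos (ell k) with h | h
  · omega
  · obtain ⟨p, hp⟩ : ∃ p, ell k = p + 1 := ⟨ell k - 1, by omega⟩
    have h2 : P k (ell k) := Nat.findGreatest_of_ne_zero rfl (by omega)
    rw [hp] at h2
    have := le_ell (P_succ h2)
    omega

/-- minus the logarithm of the weight -/
def L (n : ℤ) : ℕ := if 0 ≤ n then n.toNat else ell (-n).toNat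

theorem L_succ_le (n : ℤ) : L (n + 1) ≤ L n + 1 := by
  unfold L
  by_cases h : 0 ≤ n
  · rw [if_pos h, if_pos (by omega)]
    omega
  · rw [if_neg h]
    by_cases h' : 0 ≤ n + 1
    · rw [if_pos h']
      omega
    · rw [if_neg h']
      have e : (-n).toNat = (-(n + 1)).toNat + 1 := by omega
      rw [e]
      exact ell_le_succ _

theorem L_le_natAbs (n : ℤ) : L n ≤ n.natAbs := by
  unfold L
  split_ifs with h
  · omega
  · refine (ell_le _).trans ?_
    omega

/-- the weight -/
def v (n : ℤ) : ℝ := (1 / 2) ^ L n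

theorem v_pos (n : ℤ) : 0 < v n := by unfold v; positivity

theorem v_le_one (n : ℤ) : v n ≤ 1 := by
  unfold v
  exact pow_le_one₀ (by norm_num) (by norm_num)

theorem v_ratio (n : ℤ) : v n / v (n + 1) ≤ 2 := by
  rw [div_le_iff₀ (v_pos _)]
  unfold v
  have h : ((1 : ℝ) / 2) ^ (L n + 1) ≤ (1 / 2) ^ L (n + 1) :=
    pow_le_pow_of_le_one (by norm_num) (by norm_num) (L_succ_le n)
  rw [pow_succ] at h
  linarith

/-- the space `c₀(ℤ)` -/
abbrev X : Type := C₀(ℤ, ℂ)

theorem norm_apply_le (u : X) (n : ℤ) : ‖u n‖ ≤ ‖u‖ := by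
  rw [← ZeroAtInftyContinuousMap.norm_toBCF_eq_norm]
  exact u.toBCF.norm_coe_le_norm n

theorem norm_le_of (u : X) {C : ℝ} (hC : 0 ≤ C) (h : ∀ n, ‖u n‖ ≤ C) : ‖u‖ ≤ C := by
  rw [← ZeroAtInftyContinuousMap.norm_toBCF_eq_norm]
  exact (BoundedContinuousFunction.norm_le hC).2 h

/-- the weighted backward shift, as a map -/
def Tfun (u : X) : X where
  toFun n := ((v n / v (n + 1) : ℝ) : ℂ) * u (n + 1)
  continuous_toFun := continuous_of_discreteTopology
  zero_at_infty' := by
    have h1 : Tendsto (fun n : ℤ => u (n + 1)) (cocompact ℤ) (𝓝 0) :=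
      (zero_at_infty u).comp (Homeomorph.addRight (1 : ℤ)).isClosedEmbedding.tendsto_cocompact
    have h2 : Tendsto (fun n : ℤ => 2 * ‖u (n + 1)‖) (cocompact ℤ) (𝓝 0) := by
      have := (h1.norm).const_mul 2
      simpa using this
    refine squeeze_zero_norm (fun n => ?_) h2
    rw [norm_mul, Complex.norm_real, Real.norm_eq_abs,
      abs_of_pos (div_pos (v_pos _) (v_pos _))]
    exact mul_le_mul_of_nonneg_right (v_ratio n) (norm_nonneg _)

theorem Tfun_apply (u : X) (n : ℤ) : Tfun u n = ((v n / v (n + 1) : ℝ) : ℂ) * u (n + 1) := rfl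

/-- the weighted backward shift -/
def T : X →L[ℂ] X :=
  LinearMap.mkContinuous
    { toFun := Tfun
      map_add' := fun f g => by
        ext n
        simp only [Tfun_apply, ZeroAtInftyContinuousMap.add_apply]
        ring
      map_smul' := fun c f => by
        ext n
        simp only [Tfun_apply, ZeroAtInftyContinuousMap.smul_apply, RingHom.id_apply, smul_eq_mul]
        ring } 2
    (fun u => by
      refine norm_le_of _ (by positivity) fun n => ?_
      change ‖((v n / v (n + 1) : ℝ) : ℂ) * u (n + 1)‖ ≤ _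
      rw [norm_mul, Complex.norm_real, Real.norm_eq_abs,
        abs_of_pos (div_pos (v_pos _) (v_pos _))]
      exact mul_le_mul (v_ratio n) (norm_apply_le u _) (norm_nonneg _) (by norm_num))

theorem T_apply (u : X) (n : ℤ) : T u n = ((v n / v (n + 1) : ℝ) : ℂ) * u (n + 1) := rfl

theorem T_pow_apply (k : ℕ) (u : X) (n : ℤ) :
    (T ^ k) u n = ((v n / v (n + k) : ℝ) : ℂ) * u (n + k) := by
  induction k generalizing u n with
  | zero =>
    simp [div_self (v_pos n).ne']
  | succ k ih =>
    rw [pow_succ, mul_apply_eq_comp, ih, T_apply, ← mul_assoc, ← Complex.ofReal_mul]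
    have e : n + ((k + 1 : ℕ) : ℤ) = n + k + 1 := by push_cast; ring
    rw [e]
    congr 2
    have := (v_pos (n + k)).ne'
    have := (v_pos (n + k + 1)).ne'
    field_simp

/-- the weight at the negative coordinates near the multiples of `a q` -/
theorem v_near (q J : ℕ) (hq : J ≤ q) (j s : ℕ) (hj : 1 ≤ j) (hs : s ≤ 2 * J) (n : ℤ)
    (hn : n + J = -((a q : ℤ) * j) + s) (hn0 : n < 0) : v n ≤ (1 / 2) ^ (q - J) := by
  unfold v
  refine pow_le_pow_of_le_one (by norm_num) (by norm_num) ?_
  unfold L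
  rw [if_neg (by omega)]
  refine le_ell ⟨q, ?_, ?_⟩
  · have h1 : (a q : ℤ) ≤ (a q : ℤ) * j := by
      have : (1 : ℤ) ≤ j := by exact_mod_cast hj
      have h2 : (0 : ℤ) ≤ a q := by positivity
      nlinarith
    zify
    rw [Int.toNat_of_nonneg (by omega)]
    omega
  · have e : (-n).toNat + q = (q + J - s) + a q * j := by
      zify [show s ≤ q + J by omega]
      rw [Int.toNat_of_nonneg (by omega)]
      omega
    rw [e, Nat.add_mul_mod_self_left]
    have h3 := three_mul_lt q
    rw [Nat.mod_eq_of_lt (by omega)]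
    omega

theorem v_pos_side (n : ℤ) (m : ℕ) (h : (m : ℤ) ≤ n) : v n ≤ (1 / 2) ^ m := by
  unfold v L
  rw [if_pos (by omega)]
  exact pow_le_pow_of_le_one (by norm_num) (by norm_num) (by omega)

theorem v_ge (n : ℤ) (J : ℕ) (h : n.natAbs ≤ J) : (1 / 2 : ℝ) ^ J ≤ v n := by
  unfold v
  exact pow_le_pow_of_le_one (by norm_num) (by norm_num) ((L_le_natAbs n).trans h)

end Pool.Agent.Q192.PropA
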