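import Mathlib

/-!
# Recurrence notions for operators on Banach spaces
-/

set_option autoImplicit false

open Filter Topology

noncomputable section

namespace Pool.Agent.Q192.PropA

/-- The upper density of a set of natural numbers: the limsup of `|A ∩ {1, …, N}| / N`. -/
def upperDensity (A : Set ℕ) : ℝ :=
  limsup (fun N : ℕ => ((A ∩ Set.Icc 1 N).ncard : ℝ) / N) atTop

variable {E : Type*} [NormedAddCommGroup E] [NormedSpace ℂ E]

/-- Property `𝒜`: every non-empty open set is visited with positive upper density by the orbit of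
some vector. -/
def PropertyA (T : E →L[ℂ] E) : Prop :=
  ∀ U : Set E, IsOpen U → U.Nonempty → ∃ x : E, 0 < upperDensity {n : ℕ | (T ^ n) x ∈ U}

/-- `x` is a U-frequently recurrent vector of `T`. -/
def IsUFreqRecurrentVector (T : E →L[ℂ] E) (x : E) : Prop :=
  ∀ V : Set E, IsOpen V → x ∈ V → 0 < upperDensity {n : ℕ | (T ^ n) x ∈ V}

/-- `T` is U-frequently recurrent: its U-frequently recurrent vectors are dense. -/
def IsUFreqRecurrent (T : E →L[ℂ] E) : Prop :=
  Dense {x : E | IsUFreqRecurrentVector T x}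

theorem ncard_le (A : Set ℕ) (N : ℕ) : (A ∩ Set.Icc 1 N).ncard ≤ N := by
  calc (A ∩ Set.Icc 1 N).ncard ≤ (Set.Icc 1 N).ncard :=
        Set.ncard_le_ncard Set.inter_subset_right (Set.finite_Icc 1 N)
    _ = N := by
        rw [← Finset.coe_Icc, Set.ncard_coe_finset]; simp

theorem ratio_le_one (A : Set ℕ) (N : ℕ) : ((A ∩ Set.Icc 1 N).ncard : ℝ) / N ≤ 1 := by
  refine div_le_one_of_le₀ ?_ (by positivity)
  exact_mod_cast ncard_le A N

theorem bdd (A : Set ℕ) :
    IsBoundedUnder (· ≤ ·) atTop (fun N : ℕ => ((A ∩ Set.Icc 1 N).ncard : ℝ) / N) :=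
  isBoundedUnder_of ⟨1, ratio_le_one A⟩

theorem cobdd (A : Set ℕ) :
    IsCoboundedUnder (· ≤ ·) atTop (fun N : ℕ => ((A ∩ Set.Icc 1 N).ncard : ℝ) / N) :=
  (isBoundedUnder_of ⟨0, fun N => by positivity⟩ : IsBoundedUnder (· ≥ ·) atTop
    (fun N : ℕ => ((A ∩ Set.Icc 1 N).ncard : ℝ) / N)).isCoboundedUnder_le

/-- a set with positive upper density -/
theorem frequently_of_pos {A : Set ℕ} (h : 0 < upperDensity A) :
    ∃ ρ : ℝ, 0 < ρ ∧ ∃ᶠ N : ℕ in atTop, ρ * N ≤ ((A ∩ Set.Icc 1 N).ncard : ℝ) := by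
  refine ⟨upperDensity A / 2, by positivity, ?_⟩
  have h1 : ∃ᶠ N : ℕ in atTop, upperDensity A / 2 < ((A ∩ Set.Icc 1 N).ncard : ℝ) / N :=
    frequently_lt_of_lt_limsup (cobdd A) (by change _ < upperDensity A; linarith)
  refine (h1.and_eventually (eventually_gt_atTop 0)).mono ?_
  rintro N ⟨h2, h3⟩
  have h4 : (0 : ℝ) < N := by exact_mod_cast h3
  rw [lt_div_iff₀ h4] at h2
  exact h2.le

theorem pos_of_frequently {A : Set ℕ} {ρ : ℝ} (hρ : 0 < ρ)
    (h : ∃ᶠ N : ℕ in atTop, ρ * N ≤ ((A ∩ Set.Icc 1 N).ncard : ℝ)) : 0 < upperDensity A := by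
  refine lt_of_lt_of_le hρ ?_
  refine le_limsup_of_frequently_le ?_ (bdd A)
  refine (h.and_eventually (eventually_gt_atTop 0)).mono ?_
  rintro N ⟨h2, h3⟩
  have h4 : (0 : ℝ) < N := by exact_mod_cast h3
  rwa [le_div_iff₀ h4]

/-- a set which contains the multiples of `a` has positive upper density -/
theorem pos_of_multiples {A : Set ℕ} (a : ℕ) (ha : 0 < a) (h : ∀ m, a * m ∈ A) :
    0 < upperDensity A := by
  refine pos_of_frequently (ρ := 1 / a) (by positivity) ?_
  rw [frequently_atTop]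
  intro b
  refine ⟨a * (b + 1), ?_, ?_⟩
  · nlinarith
  · have h1 : ((Finset.Icc 1 (b + 1)).image (fun m => a * m) : Set ℕ) ⊆
        A ∩ Set.Icc 1 (a * (b + 1)) := by
      intro x hx
      simp only [Finset.coe_image, Set.mem_image, Finset.coe_Icc, Set.mem_Icc] at hx
      obtain ⟨m, ⟨hm1, hm2⟩, rfl⟩ := hx
      refine ⟨h m, ?_, ?_⟩
      · nlinarith
      · exact Nat.mul_le_mul_left _ hm2
    have h2 := Set.ncard_le_ncard h1 (Set.Finite.inter_of_right (Set.finite_Icc _ _) _)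
    rw [Set.ncard_coe_finset, Finset.card_image_of_injective _
      (fun x y hxy => Nat.eq_of_mul_eq_mul_left ha hxy)] at h2
    simp only [Nat.card_Icc, add_tsub_cancel_right] at h2
    have h3 : (1 / (a : ℝ)) * ((a * (b + 1) : ℕ) : ℝ) = ((b + 1 : ℕ) : ℝ) := by
      have : (a : ℝ) ≠ 0 := by positivity
      push_cast
      field_simp
    rw [h3]
    exact_mod_cast h2

end Pool.Agent.Q192.PropA
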