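import Pool.Agent.Q192.PropA
import Pool.Agent.Q192.PropADefs

/-!
# Counting the high levels of the weight
-/

set_option autoImplicit false

open Filter Topology Finset

noncomputable section

namespace Pool.Agent.Q192.PropA

theorem count1 (a b t N : ℕ) (ha : 0 < a) :
    ((range N).filter (fun i => (t + i) % a ≤ b)).card ≤ (N / a + 2) * (b + 1) := by
  have h := Finset.card_le_card_of_injOn (s := (range N).filter (fun i => (t + i) % a ≤ b))
    (t := range (N / a + 2) ×ˢ range (b + 1)) (fun i => ((t + i) / a - t / a, (t + i) % a)) ?_ ?_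
  · rwa [card_product, card_range, card_range] at h
  · intro i hi
    simp only [coe_filter, mem_range, Set.mem_ofPred_eq] at hi
    simp only [coe_product, coe_range, Set.mem_prod, Set.mem_Iio]
    refine ⟨?_, by omega⟩
    have h1 : (t + i) / a ≤ t / a + N / a + 1 := by
      have h2 : (t + i) / a ≤ (t + N) / a := Nat.div_le_div_right (by omega)
      refine h2.trans ?_
      rw [Nat.add_div ha]
      split_ifs <;> omega
    have h3 : 0 ≤ N / a := Nat.zero_le _
    have h4 : 0 ≤ t / a := Nat.zero_le _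
    rcases Nat.lt_or_ge ((t + i) / a) (t / a) with h5 | h5
    · rw [Nat.sub_eq_zero_of_le h5.le]; omega
    · rw [Nat.sub_lt_iff_lt_add h5]
      linarith
  · intro i hi j hj hij
    simp only [Prod.mk.injEq] at hij
    obtain ⟨h1, h2⟩ := hij
    have h3 : t / a ≤ (t + i) / a := Nat.div_le_div_right (by omega)
    have h4 : t / a ≤ (t + j) / a := Nat.div_le_div_right (by omega)
    have h5 : (t + i) / a = (t + j) / a := by omega
    have h6 := Nat.div_add_mod (t + i) a
    have h7 := Nat.div_add_mod (t + j) a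
    rw [h5, h2] at h6
    omega

theorem count2 (a b c K : ℕ) (ha : 0 < a) :
    ((range K).filter (fun t => a ≤ t + c ∧ (t + c) % a ≤ b)).card ≤ ((K + c) / a) * (b + 1) := by
  have h := Finset.card_le_card_of_injOn
    (s := (range K).filter (fun t => a ≤ t + c ∧ (t + c) % a ≤ b))
    (t := range ((K + c) / a) ×ˢ range (b + 1)) (fun t => ((t + c) / a - 1, (t + c) % a)) ?_ ?_
  · rwa [card_product, card_range, card_range] at h
  · intro i hi
    simp only [coe_filter, mem_range, Set.mem_ofPred_eq] at hi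
    simp only [coe_product, coe_range, Set.mem_prod, Set.mem_Iio]
    refine ⟨?_, by omega⟩
    have h1 : 1 ≤ (i + c) / a := (Nat.one_le_div_iff ha).2 hi.2.1
    have h2 : (i + c) / a ≤ (K + c) / a := Nat.div_le_div_right (by omega)
    omega
  · intro i hi j hj hij
    simp only [coe_filter, mem_range, Set.mem_ofPred_eq] at hi hj
    simp only [Prod.mk.injEq] at hij
    obtain ⟨h1, h2⟩ := hij
    have h3 : 1 ≤ (i + c) / a := (Nat.one_le_div_iff ha).2 hi.2.1
    have h4 : 1 ≤ (j + c) / a := (Nat.one_le_div_iff ha).2 hj.2.1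
    have h5 : (i + c) / a = (j + c) / a := by omega
    have h6 := Nat.div_add_mod (i + c) a
    have h7 := Nat.div_add_mod (j + c) a
    rw [h5, h2] at h6
    omega

theorem two_mul_add_one_le (q : ℕ) : 2 * q + 1 ≤ 4 ^ q := by
  induction q with
  | zero => norm_num
  | succ n ih => rw [pow_succ]; omega

theorem add_le_mul_two_pow (q M : ℕ) (hM : 1 ≤ M) : M + q ≤ M * 2 ^ q := by
  have h : q + 1 ≤ 2 ^ q := Nat.lt_two_pow_self
  calc M + q ≤ M * (q + 1) := by nlinarith
    _ ≤ M * 2 ^ q := Nat.mul_le_mul_left _ h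

/-- the interval `[t, t + N)` meets a cluster of a large period -/
def D (Q N t : ℕ) : Prop := ∃ q, Q ≤ q ∧ ∃ i < N, a q ≤ t + i + q ∧ (t + i + q) % a q ≤ 2 * q

open Classical in
theorem cluster (s Q t N : ℕ) (h : ¬ D Q N t) :
    ((((range N).filter (fun i => P (t + i) (2 * s))).card : ℕ) : ℝ)
      ≤ 2 * N * (1 / 16) ^ s + 2 * (Q : ℝ) ^ 2 := by
  have h1 : (range N).filter (fun i => P (t + i) (2 * s)) ⊆
      (Ico s Q).biUnion (fun q => (range N).filter (fun i => ((t + q) + i) % a q ≤ 2 * q)) := by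
    intro i hi
    simp only [mem_filter, mem_range] at hi
    obtain ⟨hi, q, hq1, hq2⟩ := hi
    simp only [mem_biUnion, mem_Ico, mem_filter, mem_range]
    have hmod : (t + i + q) % a q ≤ 2 * q := by omega
    refine ⟨q, ⟨by omega, ?_⟩, hi, ?_⟩
    · by_contra hcon
      exact h ⟨q, by omega, i, hi, hq1, hmod⟩
    · have e : t + q + i = t + i + q := by omega
      rw [e]; exact hmod
  have h2 := (card_le_card h1).trans card_biUnion_le
  have h3 : ∀ q ∈ Ico s Q,
      ((((range N).filter (fun i => ((t + q) + i) % a q ≤ 2 * q)).card : ℕ) : ℝ)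
        ≤ N * (1 / 16) ^ q + 2 * (2 * q + 1) := by
    intro q _
    have h4 := count1 (a q) (2 * q) (t + q) N (a_pos q)
    have h5 : ((((range N).filter (fun i => ((t + q) + i) % a q ≤ 2 * q)).card : ℕ) : ℝ)
        ≤ (((N / a q : ℕ) : ℝ) + 2) * (2 * q + 1) := by exact_mod_cast h4
    refine h5.trans ?_
    have h6 : ((N / a q : ℕ) : ℝ) ≤ N / (64 : ℝ) ^ q := by
      have := @Nat.cast_div_le ℝ _ _ _ N (a q)
      unfold a at this ⊢
      push_cast at this
      exact this
    have h7 : ((2 * q + 1 : ℕ) : ℝ) ≤ (4 : ℝ) ^ q := by exact_mod_cast two_mul_add_one_le q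
    push_cast at h7
    have h8 : (N / (64 : ℝ) ^ q) * (2 * q + 1) ≤ N * (1 / 16) ^ q := by
      calc (N / (64 : ℝ) ^ q) * (2 * q + 1) ≤ (N / (64 : ℝ) ^ q) * 4 ^ q :=
            mul_le_mul_of_nonneg_left h7 (by positivity)
        _ = N * (1 / 16) ^ q := by
            rw [show (64 : ℝ) = 16 * 4 by norm_num, mul_pow, one_div, inv_pow]
            field_simp
    nlinarith [mul_le_mul_of_nonneg_right h6 (show (0 : ℝ) ≤ 2 * q + 1 by positivity)]
  have h4 : ∑ q ∈ Ico s Q, (1 / 16 : ℝ) ^ q ≤ 2 * (1 / 16) ^ s := by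
    refine (geom_sum_Ico_le_of_lt_one (by norm_num) (by norm_num)).trans ?_
    have : (0 : ℝ) < (1 / 16) ^ s := by positivity
    rw [div_le_iff₀ (by norm_num)]
    nlinarith
  have h5 : ∑ q ∈ Ico s Q, (2 * (q : ℝ) + 1) ≤ (Q : ℝ) ^ 2 := by
    have h6 : ∑ q ∈ Ico s Q, (2 * (q : ℝ) + 1) ≤ ∑ q ∈ range Q, (2 * (q : ℝ) + 1) := by
      refine sum_le_sum_of_subset_of_nonneg ?_ (fun q _ _ => by positivity)
      intro q hq
      simp only [mem_Ico] at hq
      simp only [mem_range]
      omega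
    refine h6.trans (le_of_eq ?_)
    clear h h1 h2 h3 h4 h6
    induction Q with
    | zero => simp
    | succ n ih => rw [sum_range_succ, ih]; push_cast; ring
  calc ((((range N).filter (fun i => P (t + i) (2 * s))).card : ℕ) : ℝ)
      ≤ ∑ q ∈ Ico s Q, ((((range N).filter (fun i => ((t + q) + i) % a q ≤ 2 * q)).card : ℕ) : ℝ) := by
        exact_mod_cast h2
    _ ≤ ∑ q ∈ Ico s Q, (N * (1 / 16) ^ q + 2 * (2 * (q : ℝ) + 1)) := sum_le_sum h3
    _ = N * ∑ q ∈ Ico s Q, (1 / 16 : ℝ) ^ q + 2 * ∑ q ∈ Ico s Q, (2 * (q : ℝ) + 1) := by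
        rw [sum_add_distrib, ← mul_sum, ← mul_sum]
    _ ≤ N * (2 * (1 / 16) ^ s) + 2 * (Q : ℝ) ^ 2 := by
        refine add_le_add (mul_le_mul_of_nonneg_left h4 (by positivity)) ?_
        linarith
    _ = 2 * N * (1 / 16) ^ s + 2 * (Q : ℝ) ^ 2 := by ring

open Classical in
theorem density (Q N K : ℕ) :
    ((((range K).filter (fun t => D Q N t)).card : ℕ) : ℝ)
      ≤ 2 * (N + 1) * (K + N) * (1 / 8) ^ Q := by
  have h1 : (range K).filter (fun t => D Q N t) ⊆
      (Ico Q (K + N)).biUnion (fun q => (range K).filter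
        (fun t => a q ≤ t + (q + N) ∧ (t + (q + N)) % a q ≤ 2 * q + N)) := by
    intro t ht
    simp only [mem_filter, mem_range] at ht
    obtain ⟨ht, q, hq, i, hi, h2, h3⟩ := ht
    have h4 := three_mul_lt q
    simp only [mem_biUnion, mem_Ico, mem_filter, mem_range]
    refine ⟨q, ⟨hq, by omega⟩, ht, by omega, ?_⟩
    have e : t + (q + N) = (t + i + q) + (N - i) := by omega
    rw [e, Nat.add_mod]
    refine (Nat.mod_le _ _).trans ?_
    have := Nat.mod_le (N - i) (a q)
    omega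
  have h2 := (card_le_card h1).trans card_biUnion_le
  have h3 : ∀ q ∈ Ico Q (K + N),
      ((((range K).filter
        (fun t => a q ≤ t + (q + N) ∧ (t + (q + N)) % a q ≤ 2 * q + N)).card : ℕ) : ℝ)
        ≤ (N + 1) * (K + N) * (1 / 8) ^ q := by
    intro q hq
    simp only [mem_Ico] at hq
    have h4 := count2 (a q) (2 * q + N) (q + N) K (a_pos q)
    have h5 : ((((range K).filter
        (fun t => a q ≤ t + (q + N) ∧ (t + (q + N)) % a q ≤ 2 * q + N)).card : ℕ) : ℝ)
        ≤ (((K + (q + N)) / a q : ℕ) : ℝ) * (2 * q + N + 1) := by exact_mod_cast h4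
    refine h5.trans ?_
    have h6 : (((K + (q + N)) / a q : ℕ) : ℝ) ≤ ((K + (q + N) : ℕ) : ℝ) / (64 : ℝ) ^ q := by
      have := @Nat.cast_div_le ℝ _ _ _ (K + (q + N)) (a q)
      unfold a at this ⊢
      push_cast at this ⊢
      exact this
    have h7 : (((K + N) + q : ℕ) : ℝ) ≤ ((K + N : ℕ) : ℝ) * 2 ^ q := by
      exact_mod_cast add_le_mul_two_pow q (K + N) (by omega)
    have h8 : ((2 * q + N + 1 : ℕ) : ℝ) ≤ (N + 1) * 4 ^ q := by
      have h9 : 2 * q + N + 1 ≤ (N + 1) * 4 ^ q := by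
        calc 2 * q + N + 1 ≤ (N + 1) * (2 * q + 1) := by nlinarith
          _ ≤ (N + 1) * 4 ^ q := Nat.mul_le_mul_left _ (two_mul_add_one_le q)
      exact_mod_cast h9
    push_cast at h6 h7 h8
    calc (((K + (q + N)) / a q : ℕ) : ℝ) * (2 * q + N + 1)
        ≤ (((K : ℝ) + (q + N)) / (64 : ℝ) ^ q) * (2 * q + N + 1) :=
          mul_le_mul_of_nonneg_right h6 (by positivity)
      _ ≤ ((((K : ℝ) + N) * 2 ^ q) / (64 : ℝ) ^ q) * ((N + 1) * 4 ^ q) := by
          refine mul_le_mul ?_ h8 (by positivity) (by positivity)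
          refine div_le_div_of_nonneg_right ?_ (by positivity)
          linarith
      _ = (N + 1) * (K + N) * (1 / 8) ^ q := by
          rw [show (64 : ℝ) = 2 * 4 * 8 by norm_num, mul_pow, mul_pow, one_div, inv_pow]
          field_simp
  have h4 : ∑ q ∈ Ico Q (K + N), (1 / 8 : ℝ) ^ q ≤ 2 * (1 / 8) ^ Q := by
    refine (geom_sum_Ico_le_of_lt_one (by norm_num) (by norm_num)).trans ?_
    have : (0 : ℝ) < (1 / 8) ^ Q := by positivity
    rw [div_le_iff₀ (by norm_num)]
    nlinarith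
  calc ((((range K).filter (fun t => D Q N t)).card : ℕ) : ℝ)
      ≤ ∑ q ∈ Ico Q (K + N), ((((range K).filter
        (fun t => a q ≤ t + (q + N) ∧ (t + (q + N)) % a q ≤ 2 * q + N)).card : ℕ) : ℝ) := by
        exact_mod_cast h2
    _ ≤ ∑ q ∈ Ico Q (K + N), ((N + 1) * (K + N) * (1 / 8 : ℝ) ^ q) := sum_le_sum h3
    _ = (N + 1) * (K + N) * ∑ q ∈ Ico Q (K + N), (1 / 8 : ℝ) ^ q := by rw [mul_sum]
    _ ≤ (N + 1) * (K + N) * (2 * (1 / 8) ^ Q) := mul_le_mul_of_nonneg_left h4 (by positivity)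
    _ = 2 * (N + 1) * (K + N) * (1 / 8) ^ Q := by ring

end Pool.Agent.Q192.PropA
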