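import Pool.Agent.Q192.PropA
import Pool.Agent.Q192.PropADefs

/-!
# The weighted shift has property `𝒜`
-/

set_option autoImplicit false

open Filter Topology
open scoped ZeroAtInfty

noncomputable section

namespace Pool.Agent.Q192.PropA

/-- the residue of `n` in `[-J, a - J)` -/
def res (q J : ℕ) (n : ℤ) : ℤ := (n + J) % (a q : ℤ) - J

theorem res_add (q J : ℕ) (n : ℤ) (N : ℕ) : res q J (n + ((a q * N : ℕ) : ℤ)) = res q J n := by
  unfold res
  have e : n + ((a q * N : ℕ) : ℤ) + J = (n + J) + (a q : ℤ) * N := by push_cast; ring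
  rw [e, Int.add_mul_emod_self_left]

open Classical in
/-- the periodic continuation to the right of `y` -/
def xfun (q J : ℕ) (y : X) (n : ℤ) : ℂ :=
  if 0 ≤ n + J ∧ res q J n ≤ J then
    ((v n / v (res q J n) : ℝ) : ℂ) * y (res q J n) else 0

theorem res_ge (q J : ℕ) (n : ℤ) : -(J : ℤ) ≤ res q J n := by
  unfold res
  have : 0 ≤ (n + J) % (a q : ℤ) := Int.emod_nonneg _ (by exact_mod_cast (a_pos q).ne')
  omega

theorem xfun_norm_le (q J : ℕ) (y : X) (n : ℤ) : ‖xfun q J y n‖ ≤ v n * (2 ^ J * ‖y‖) := by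
  unfold xfun
  split_ifs with h
  · rw [norm_mul, Complex.norm_real, Real.norm_eq_abs, abs_of_pos (div_pos (v_pos _) (v_pos _)),
      div_eq_mul_inv, mul_assoc]
    refine mul_le_mul_of_nonneg_left ?_ (v_pos n).le
    refine mul_le_mul ?_ (norm_apply_le y _) (norm_nonneg _) (by positivity)
    have h1 : (1 / 2 : ℝ) ^ J ≤ v (res q J n) := by
      refine v_ge _ J ?_
      have := res_ge q J n
      omega
    calc (v (res q J n))⁻¹ ≤ ((1 / 2 : ℝ) ^ J)⁻¹ := inv_anti₀ (by positivity) h1
      _ = 2 ^ J := by rw [one_div, inv_pow, inv_inv]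
  · simp only [norm_zero]
    have := v_pos n
    positivity

/-- the vector -/
def xvec (q J : ℕ) (y : X) : X where
  toFun := xfun q J y
  continuous_toFun := continuous_of_discreteTopology
  zero_at_infty' := by
    rw [Filter.cocompact_eq_cofinite, Int.cofinite_eq, tendsto_sup]
    constructor
    · refine tendsto_const_nhds.congr' ?_
      filter_upwards [eventually_lt_atBot (-(J : ℤ))] with n hn
      unfold xfun
      rw [if_neg]
      rintro ⟨h1, -⟩
      omega
    · have h1 : Tendsto (fun n : ℤ => v n * (2 ^ J * ‖y‖)) atTop (𝓝 0) := by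
        have h2 : Tendsto (fun n : ℤ => ((1 : ℝ) / 2) ^ n.toNat) atTop (𝓝 0) := by
          refine (tendsto_pow_atTop_nhds_zero_of_lt_one (by norm_num) (by norm_num)).comp ?_
          rw [tendsto_atTop]
          intro b
          filter_upwards [eventually_ge_atTop (b : ℤ)] with n hn
          omega
        have h3 : Tendsto v atTop (𝓝 0) := by
          refine squeeze_zero' (Eventually.of_forall fun n => (v_pos n).le) ?_ h2
          filter_upwards [eventually_ge_atTop (0 : ℤ)] with n hn
          exact v_pos_side n _ (by omega)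
        simpa using h3.mul_const (2 ^ J * ‖y‖)
      exact squeeze_zero_norm (fun n => xfun_norm_le q J y n) h1

theorem xvec_apply (q J : ℕ) (y : X) (n : ℤ) : xvec q J y n = xfun q J y n := rfl

theorem T_pow_xvec (q J : ℕ) (y : X) (N : ℕ) (n : ℤ) :
    (T ^ (a q * N)) (xvec q J y) n =
      if 0 ≤ n + ((a q * N : ℕ) : ℤ) + J ∧ res q J n ≤ J then
        ((v n / v (res q J n) : ℝ) : ℂ) * y (res q J n) else 0 := by
  classical
  rw [T_pow_apply, xvec_apply]
  unfold xfun
  rw [res_add]
  split_ifs with h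
  · rw [← mul_assoc, ← Complex.ofReal_mul]
    congr 2
    have := (v_pos (n + ((a q * N : ℕ) : ℤ))).ne'
    have := (v_pos (res q J n)).ne'
    field_simp
  · rw [mul_zero]

/-- the main estimate -/
theorem T_pow_xvec_sub (q J : ℕ) (hq : 2 * J ≤ q) (y : X) (ε : ℝ) (hε : 0 ≤ ε)
    (hy : ∀ n : ℤ, J < n.natAbs → ‖y n‖ ≤ ε) (hε2 : (1 / 2 : ℝ) ^ (q - J) * (2 ^ J * ‖y‖) ≤ ε)
    (N : ℕ) : ‖(T ^ (a q * N)) (xvec q J y) - y‖ ≤ 2 * ε := by
  have h3 := three_mul_lt q
  refine norm_le_of _ (by positivity) fun n => ?_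
  rw [ZeroAtInftyContinuousMap.sub_apply, T_pow_xvec]
  by_cases hn : n.natAbs ≤ J
  · have hr : res q J n = n := by
      unfold res
      rw [Int.emod_eq_of_lt (by omega) (by omega)]
      ring
    rw [hr, if_pos ⟨by omega, by omega⟩, div_self (v_pos n).ne']
    simp only [Complex.ofReal_one, one_mul, sub_self, norm_zero]
    positivity
  · have h1 := hy n (by omega)
    refine (norm_sub_le _ _).trans ?_
    have h2 : ‖(if 0 ≤ n + ((a q * N : ℕ) : ℤ) + J ∧ res q J n ≤ J then
        ((v n / v (res q J n) : ℝ) : ℂ) * y (res q J n) else 0 : ℂ)‖ ≤ ε := by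
      split_ifs with h
      · refine le_trans ?_ hε2
        have h4 : ‖((v n / v (res q J n) : ℝ) : ℂ) * y (res q J n)‖ ≤ v n * (2 ^ J * ‖y‖) := by
          rw [norm_mul, Complex.norm_real, Real.norm_eq_abs,
            abs_of_pos (div_pos (v_pos _) (v_pos _)), div_eq_mul_inv, mul_assoc]
          refine mul_le_mul_of_nonneg_left ?_ (v_pos n).le
          refine mul_le_mul ?_ (norm_apply_le y _) (norm_nonneg _) (by positivity)
          have h1 : (1 / 2 : ℝ) ^ J ≤ v (res q J n) := by
            refine v_ge _ J ?_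
            have := res_ge q J n
            omega
          calc (v (res q J n))⁻¹ ≤ ((1 / 2 : ℝ) ^ J)⁻¹ := inv_anti₀ (by positivity) h1
            _ = 2 ^ J := by rw [one_div, inv_pow, inv_inv]
        refine h4.trans (mul_le_mul_of_nonneg_right ?_ (by positivity))
        obtain ⟨-, hres⟩ := h
        have hap : (0 : ℤ) < a q := by exact_mod_cast a_pos q
        have hd : (a q : ℤ) * ((n + J) / (a q : ℤ)) + (n + J) % (a q : ℤ) = n + J :=
          Int.mul_ediv_add_emod _ _
        have hs0 : 0 ≤ (n + J) % (a q : ℤ) := Int.emod_nonneg _ hap.ne'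
        unfold res at hres
        rcases lt_or_ge n 0 with hneg | hpos
        · -- negative side
          have hneg2 : n + J < 0 := by omega
          have hdneg : (n + J) / (a q : ℤ) < 0 := Int.ediv_neg_of_neg_of_pos hneg2 hap
          refine v_near q J (by omega) (-((n + J) / (a q : ℤ))).toNat ((n + J) % (a q : ℤ)).toNat
            (by omega) (by omega) n ?_ hneg
          rw [Int.toNat_of_nonneg (by omega), Int.toNat_of_nonneg hs0]
          linarith
        · have hdpos : 1 ≤ (n + J) / (a q : ℤ) := by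
            by_contra hcon
            have h0 : (n + J) / (a q : ℤ) = 0 := by
              have : 0 ≤ (n + J) / (a q : ℤ) := Int.ediv_nonneg (by omega) hap.le
              omega
            rw [h0] at hd
            omega
          refine v_pos_side n _ ?_
          have : (a q : ℤ) ≤ (a q : ℤ) * ((n + J) / (a q : ℤ)) := by nlinarith
          omega
      · simpa using hε
    linarith

theorem propertyA_T : PropertyA T := by
  intro U hU hne
  obtain ⟨y, hy⟩ := hne
  obtain ⟨ε, hε, hball⟩ := Metric.isOpen_iff.1 hU y hy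
  have h1 : Tendsto y (cocompact ℤ) (𝓝 0) := zero_at_infty y
  have h2 : ∀ᶠ n : ℤ in cofinite, ‖y n‖ < ε / 4 := by
    rw [Filter.cocompact_eq_cofinite] at h1
    have := (tendsto_zero_iff_norm_tendsto_zero.1 h1).eventually (gt_mem_nhds (show (0 : ℝ) < ε / 4 by
      positivity))
    exact this
  obtain ⟨J, hJ⟩ : ∃ J : ℕ, ∀ n : ℤ, J < n.natAbs → ‖y n‖ ≤ ε / 4 := by
    rw [Filter.eventually_cofinite] at h2
    obtain ⟨J, hJ⟩ := (h2.image Int.natAbs).bddAbove
    refine ⟨J, fun n hn => ?_⟩
    by_contra hcon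
    have h3 : n ∈ {x : ℤ | ¬ ‖y x‖ < ε / 4} := by
      simp only [Set.mem_setOf_eq, not_lt]
      linarith [not_le.1 hcon]
    have := hJ ⟨n, h3, rfl⟩
    omega
  have h4 : Tendsto (fun q : ℕ => (1 / 2 : ℝ) ^ (q - J) * (2 ^ J * ‖y‖)) atTop (𝓝 0) := by
    have h5 : Tendsto (fun q : ℕ => (1 / 2 : ℝ) ^ (q - J)) atTop (𝓝 0) :=
      (tendsto_pow_atTop_nhds_zero_of_lt_one (by norm_num) (by norm_num)).comp
        (tendsto_sub_atTop_nat J)
    simpa using h5.mul_const (2 ^ J * ‖y‖)
  obtain ⟨q, hq1, hq2⟩ := ((h4.eventually (gt_mem_nhds (show (0 : ℝ) < ε / 4 by positivity))).and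
    (eventually_ge_atTop (2 * J))).exists
  refine ⟨xvec q J y, pos_of_multiples (a q) (a_pos q) fun N => ?_⟩
  refine hball ?_
  rw [Metric.mem_ball, dist_eq_norm]
  have := T_pow_xvec_sub q J hq2 y (ε / 4) (by positivity) hJ hq1.le N
  linarith

end Pool.Agent.Q192.PropA
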