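import Pool.Agent.Q192.PropACount
import Pool.Agent.Q192.PropAPos

/-!
# The weighted shift has no non-zero U-frequently recurrent vector
-/

set_option autoImplicit false

open Filter Topology Finset
open scoped ZeroAtInfty

noncomputable section

namespace Pool.Agent.Q192.PropA

open Classical in
/-- the combinatorial part: two sets of positive upper density whose large differences all lie (up
to a translation) in the set of the points of height at least `2 s`, `s` large -/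
theorem comb (R : Set ℕ) (ρ : ℝ) (hρ : 0 < ρ)
    (hR : ∃ᶠ N : ℕ in atTop, ρ * N ≤ ((R ∩ Set.Icc 1 N).ncard : ℝ))
    (s : ℕ) (hs : 2 * (1 / 16 : ℝ) ^ s ≤ ρ / 4)
    (R' : Set ℕ) (j : ℤ) (M : ℕ)
    (h : ∀ n ∈ R', ∀ m ∈ R, ∀ k : ℕ, M ≤ k → (k : ℤ) = n - m - j → P k (2 * s))
    (hR' : 0 < upperDensity R') : False := by
  obtain ⟨δ, hδ, hfreq⟩ := frequently_of_pos hR'
  -- choice of `N`
  have ev1 : ∀ᶠ Q : ℕ in atTop, 2 * (1 / 4 : ℝ) ^ Q < δ / 2 := by
    have := (tendsto_pow_atTop_nhds_zero_of_lt_one (show (0 : ℝ) ≤ 1 / 4 by norm_num)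
      (by norm_num)).const_mul 2
    rw [mul_zero] at this
    exact this.eventually (gt_mem_nhds (by positivity))
  have ev2 : ∀ᶠ Q : ℕ in atTop, (Q : ℝ) ^ 2 * (1 / 2) ^ Q < ρ / 16 := by
    have := tendsto_pow_const_mul_const_pow_of_abs_lt_one 2
      (show |(1 / 2 : ℝ)| < 1 by rw [abs_of_pos] <;> norm_num)
    exact this.eventually (gt_mem_nhds (by positivity))
  obtain ⟨Q0, hQ0⟩ := eventually_atTop.1 (ev1.and ev2)
  obtain ⟨N, hN, hNlarge⟩ := (hR.and_eventually (eventually_ge_atTop (2 ^ Q0))).exists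
  have hNpos : N ≠ 0 := by
    have : 0 < 2 ^ Q0 := by positivity
    omega
  set Q := Nat.log 2 N + 1 with hQdef
  have hQ1 : Q0 ≤ Q := by
    have : Q0 ≤ Nat.log 2 N := Nat.le_log_of_pow_le (by norm_num) hNlarge
    omega
  obtain ⟨hQ2, hQ3⟩ := hQ0 Q hQ1
  have hNQ : N < 2 ^ Q := Nat.lt_pow_succ_log_self (by norm_num) N
  have hNQ2 : 2 ^ Q ≤ 2 * N := by
    rw [hQdef, pow_succ]
    have := Nat.pow_log_le_self 2 hNpos
    omega
  have hNr : (0 : ℝ) < N := by positivity
  have hbad : ∀ t : ℕ, ¬ D Q N t →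
      ((((range N).filter (fun i => P (t + i) (2 * s))).card : ℕ) : ℝ) < ρ * N := by
    intro t ht
    refine (cluster s Q t N ht).trans_lt ?_
    have h1 : 2 * (N : ℝ) * (1 / 16) ^ s ≤ ρ / 4 * N := by nlinarith
    have h2 : 2 * (Q : ℝ) ^ 2 < ρ / 4 * N := by
      have h3 : (2 : ℝ) ^ Q ≤ 2 * N := by exact_mod_cast hNQ2
      have h4 : (Q : ℝ) ^ 2 < ρ / 16 * 2 ^ Q := by
        have h5 : (Q : ℝ) ^ 2 * (1 / 2) ^ Q * 2 ^ Q < ρ / 16 * 2 ^ Q :=
          mul_lt_mul_of_pos_right hQ3 (by positivity)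
        rw [mul_assoc, ← mul_pow] at h5
        norm_num at h5
        linarith
      nlinarith
    nlinarith
  -- the elements of `R'` beyond `n0`
  set n0 := N + M + j.natAbs with hn0
  have hD : ∀ n ∈ R', n0 ≤ n → D Q N ((n : ℤ) - j - N).toNat := by
    intro n hn hnn
    by_contra hcon
    refine absurd hN (not_le.2 (lt_of_le_of_lt ?_ (hbad _ hcon)))
    have e0 : R ∩ Set.Icc 1 N = ((Icc 1 N).filter (fun m => m ∈ R) : Set ℕ) := by
      ext m
      simp only [Set.mem_inter_iff, Set.mem_Icc, coe_filter, mem_Icc, Set.mem_ofPred_eq]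
      tauto
    rw [e0, Set.ncard_coe_finset]
    norm_cast
    refine card_le_card_of_injOn (fun m => N - m) ?_ ?_
    · intro m hm
      simp only [coe_filter, mem_Icc, Set.mem_ofPred_eq] at hm
      simp only [coe_filter, mem_range, Set.mem_ofPred_eq]
      refine ⟨by omega, h n hn m hm.2 _ ?_ ?_⟩
      · zify
        push_cast [hm.1.2]
        rw [Int.toNat_of_nonneg (by omega)]
        omega
      · push_cast [hm.1.2]
        rw [Int.toNat_of_nonneg (by omega)]
        ring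
    · intro m hm m' hm' hmm
      simp only [coe_filter, mem_Icc, Set.mem_ofPred_eq] at hm hm'
      simp only at hmm
      omega
  -- counting
  have hcount : ∀ K : ℕ, ((R' ∩ Set.Icc 1 K).ncard : ℝ) ≤
      n0 + 2 * (N + 1) * ((K + j.natAbs + 1 : ℕ) + N) * (1 / 8) ^ Q := by
    intro K
    have h1 : R' ∩ Set.Icc 1 K ⊆ ((range n0 ∪ (Icc n0 K).filter (fun n => n ∈ R') : Finset ℕ) :
        Set ℕ) := by
      intro n hn
      simp only [coe_union, coe_range, coe_filter, mem_Icc, Set.mem_union, Set.mem_Iio,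
        Set.mem_ofPred_eq]
      have := hn.2.2
      by_cases h3 : n < n0
      · exact Or.inl h3
      · exact Or.inr ⟨⟨by omega, this⟩, hn.1⟩
    have h2 := Set.ncard_le_ncard h1 (Finset.finite_toSet _)
    rw [Set.ncard_coe_finset] at h2
    have h3 := h2.trans (card_union_le _ _)
    rw [card_range] at h3
    have h4 : ((Icc n0 K).filter (fun n => n ∈ R')).card ≤
        ((range (K + j.natAbs + 1)).filter (fun t => D Q N t)).card := by
      refine card_le_card_of_injOn (fun n => ((n : ℤ) - j - N).toNat) ?_ ?_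
      · intro n hn
        simp only [coe_filter, mem_Icc, Set.mem_ofPred_eq] at hn
        simp only [coe_filter, mem_range, Set.mem_ofPred_eq]
        exact ⟨by omega, hD n hn.2 hn.1.1⟩
      · intro n hn n' hn' hnn
        simp only [coe_filter, mem_Icc, Set.mem_ofPred_eq] at hn hn'
        simp only at hnn
        omega
    have h5 := density Q N (K + j.natAbs + 1)
    have h6 : ((R' ∩ Set.Icc 1 K).ncard : ℝ) ≤ (n0 : ℝ) +
        ((((range (K + j.natAbs + 1)).filter (fun t => D Q N t)).card : ℕ) : ℝ) := by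
      exact_mod_cast h3.trans (Nat.add_le_add_left h4 _)
    linarith
  -- contradiction
  have hq8 : 2 * ((N : ℝ) + 1) * (1 / 8) ^ Q < δ / 2 := by
    have h1 : (N : ℝ) + 1 ≤ 2 ^ Q := by exact_mod_cast hNQ
    calc 2 * ((N : ℝ) + 1) * (1 / 8) ^ Q ≤ 2 * 2 ^ Q * (1 / 8) ^ Q := by gcongr
      _ = 2 * (1 / 4) ^ Q := by
          rw [mul_assoc, ← mul_pow]; norm_num
      _ < δ / 2 := hQ2
  set c : ℝ := 2 * ((N : ℝ) + 1) * (1 / 8) ^ Q with hc
  have hc0 : 0 ≤ c := by positivity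
  obtain ⟨K0, hK0⟩ := exists_nat_gt ((n0 + c * (j.natAbs + 1 + N)) / (δ / 2))
  obtain ⟨K, hK1, hK2⟩ := (hfreq.and_eventually (eventually_ge_atTop K0)).exists
  have h1 := hK1.trans (hcount K)
  have h2 : (n0 + c * (j.natAbs + 1 + N)) < δ / 2 * K := by
    rw [div_lt_iff₀ (by positivity)] at hK0
    have : (K0 : ℝ) ≤ K := by exact_mod_cast hK2
    nlinarith
  have h3 : δ * K ≤ n0 + c * (j.natAbs + 1 + N) + c * K := by
    refine h1.trans (le_of_eq ?_)
    push_cast
    rw [hc]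
    ring
  have h4 : c * K ≤ δ / 2 * K := mul_le_mul_of_nonneg_right hq8.le (by positivity)
  linarith

theorem not_rec (z : X) (hz : z ≠ 0) : ¬ IsUFreqRecurrentVector T z := by
  intro hrec
  obtain ⟨j, hj⟩ : ∃ j, z j ≠ 0 := by
    by_contra hcon
    push Not at hcon
    exact hz (by ext n; simpa using hcon n)
  have hc : 0 < ‖z j‖ := norm_pos_iff.2 hj
  set c := ‖z j‖ with hcdef
  have h1 := hrec (Metric.ball z (c / 2)) Metric.isOpen_ball (Metric.mem_ball_self (by positivity))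
  obtain ⟨ρ, hρ, hR⟩ := frequently_of_pos h1
  obtain ⟨s, hs⟩ : ∃ s : ℕ, 2 * (1 / 16 : ℝ) ^ s ≤ ρ / 4 := by
    have := (tendsto_pow_atTop_nhds_zero_of_lt_one (show (0 : ℝ) ≤ 1 / 16 by norm_num)
      (by norm_num)).const_mul 2
    rw [mul_zero] at this
    obtain ⟨s, hs⟩ := (this.eventually (gt_mem_nhds (show (0 : ℝ) < ρ / 4 by positivity))).exists
    exact ⟨s, hs.le⟩
  set ε : ℝ := c * (1 / 2) ^ (2 * s) / (4 * v j) with hε
  have hvj := v_pos j
  have hεpos : 0 < ε := by positivity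
  have h2 := hrec (Metric.ball z ε) Metric.isOpen_ball (Metric.mem_ball_self hεpos)
  -- the tail of `z`
  obtain ⟨M, hM⟩ : ∃ M : ℕ, ∀ n : ℤ, M < n.natAbs → ‖z n‖ < ε := by
    have h1 : Tendsto z (cocompact ℤ) (𝓝 0) := zero_at_infty z
    rw [Filter.cocompact_eq_cofinite] at h1
    have h2 := (tendsto_zero_iff_norm_tendsto_zero.1 h1).eventually (gt_mem_nhds hεpos)
    rw [Filter.eventually_cofinite] at h2
    obtain ⟨J, hJ⟩ := (h2.image Int.natAbs).bddAbove
    refine ⟨J, fun n hn => ?_⟩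
    by_contra hcon
    have := hJ ⟨n, hcon, rfl⟩
    omega
  refine comb _ ρ hρ hR s hs _ j (M + 1) ?_ h2
  intro n hn m hm k hk hkn
  simp only [Set.mem_ofPred_eq, Metric.mem_ball, dist_eq_norm] at hn hm
  -- `m`
  have hm1 : c / 2 ≤ v j / v (j + m) * ‖z (j + m)‖ := by
    have h3 := (norm_apply_le ((T ^ m) z - z) j).trans_lt hm
    rw [ZeroAtInftyContinuousMap.sub_apply, T_pow_apply] at h3
    have h4 : ‖((v j / v (j + m) : ℝ) : ℂ) * z (j + m)‖ = v j / v (j + m) * ‖z (j + m)‖ := by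
      rw [norm_mul, Complex.norm_real, Real.norm_eq_abs, abs_of_pos (div_pos (v_pos _) (v_pos _))]
    rw [← h4]
    have h5 : ‖z j‖ ≤ ‖((v j / v (j + m) : ℝ) : ℂ) * z (j + m)‖ +
        ‖((v j / v (j + m) : ℝ) : ℂ) * z (j + m) - z j‖ := by
      rw [norm_sub_rev]
      have := norm_add_le (((v j / v (j + m) : ℝ) : ℂ) * z (j + m))
        (z j - ((v j / v (j + m) : ℝ) : ℂ) * z (j + m))
      rwa [add_sub_cancel] at this
    rw [← hcdef] at h5
    linarith
  -- `n`
  have hi : -(k : ℤ) + n = j + m := by omega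
  have hn1 : v (-(k : ℤ)) / v (j + m) * ‖z (j + m)‖ < 2 * ε := by
    have h3 := (norm_apply_le ((T ^ n) z - z) (-(k : ℤ))).trans_lt hn
    rw [ZeroAtInftyContinuousMap.sub_apply, T_pow_apply, hi] at h3
    have h4 : ‖((v (-(k : ℤ)) / v (j + m) : ℝ) : ℂ) * z (j + m)‖ =
        v (-(k : ℤ)) / v (j + m) * ‖z (j + m)‖ := by
      rw [norm_mul, Complex.norm_real, Real.norm_eq_abs, abs_of_pos (div_pos (v_pos _) (v_pos _))]
    rw [← h4]
    have h5 := norm_le_norm_sub_add (((v (-(k : ℤ)) / v (j + m) : ℝ) : ℂ) * z (j + m))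
      (z (-(k : ℤ)))
    have h6 := hM (-(k : ℤ)) (by omega)
    linarith
  have hlt : v (-(k : ℤ)) < (1 / 2) ^ (2 * s) := by
    have hvjm := v_pos (j + m)
    have h3 : v (-(k : ℤ)) * (c / 2) ≤ v j * (v (-(k : ℤ)) / v (j + m) * ‖z (j + m)‖) := by
      have h4 := mul_le_mul_of_nonneg_left hm1 (v_pos (-(k : ℤ))).le
      refine h4.trans (le_of_eq ?_)
      field_simp
    have h5 : v (-(k : ℤ)) * (c / 2) < v j * (2 * ε) :=
      h3.trans_lt (mul_lt_mul_of_pos_left hn1 hvj)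
    have h6 : v j * (2 * ε) = (1 / 2) ^ (2 * s) * (c / 2) := by
      rw [hε]; field_simp; ring
    rw [h6] at h5
    exact lt_of_mul_lt_mul_right h5 (by positivity)
  have hkpos : 1 ≤ k := by omega
  have hL : 2 * s < L (-(k : ℤ)) := by
    unfold v at hlt
    by_contra hcon
    have := pow_le_pow_of_le_one (show (0 : ℝ) ≤ 1 / 2 by norm_num) (by norm_num)
      (not_lt.1 hcon)
    linarith
  have hL2 : L (-(k : ℤ)) = ell k := by
    unfold L
    rw [if_neg (by omega)]
    congr 1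
    omega
  rw [hL2] at hL
  exact P_of_lt_ell hL

end Pool.Agent.Q192.PropA
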