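import Mathlib

/-!
# A contraction semigroup on a subspace of `L²(ℝ)`: weighted right translations

`(T t f)(s) = √((s - t) / s) f (s - t)` for `s > t`, and `0` otherwise, on the functions that vanish
on `(-∞, 0]`. (Unitarily equivalent to the multiplications by `exp (- t z)` on the Bergman space of
the half-plane.)
-/

set_option autoImplicit false

open MeasureTheory Filter Set
open scoped ENNReal Topology InnerProductSpace

noncomputable section

namespace Pool.Agent.Q192.Sg

/-- `L²(ℝ)` -/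
abbrev K : Type := Lp ℂ 2 (volume : Measure ℝ)

theorem mul_mem (φ : ℝ → ℝ) (hφ : Measurable φ) (hb : ∀ s, |φ s| ≤ 1) (f : K) :
    MemLp (fun s => (φ s : ℂ) * f s) 2 (volume : Measure ℝ) := by
  refine MemLp.of_le (Lp.memLp f) ?_ (Eventually.of_forall fun s => ?_)
  · exact (Complex.measurable_ofReal.comp hφ).aestronglyMeasurable.mul (Lp.aestronglyMeasurable f)
  · rw [norm_mul, Complex.norm_real, Real.norm_eq_abs]
    calc |φ s| * ‖f s‖ ≤ 1 * ‖f s‖ := mul_le_mul_of_nonneg_right (hb s) (norm_nonneg _)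
      _ = ‖f s‖ := one_mul _

/-- multiplication by a measurable function bounded by one -/
def M (φ : ℝ → ℝ) (hφ : Measurable φ) (hb : ∀ s, |φ s| ≤ 1) : K →L[ℂ] K :=
  LinearMap.mkContinuous
    { toFun := fun f => (mul_mem φ hφ hb f).toLp _
      map_add' := fun f g => by
        ext1
        filter_upwards [(mul_mem φ hφ hb (f + g)).coeFn_toLp, (mul_mem φ hφ hb f).coeFn_toLp,
          (mul_mem φ hφ hb g).coeFn_toLp, Lp.coeFn_add f g,
          Lp.coeFn_add ((mul_mem φ hφ hb f).toLp _) ((mul_mem φ hφ hb g).toLp _)]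
          with s h1 h2 h3 h4 h5
        rw [h1, h5, Pi.add_apply, h2, h3, h4, Pi.add_apply, mul_add]
      map_smul' := fun c f => by
        ext1
        filter_upwards [(mul_mem φ hφ hb (c • f)).coeFn_toLp, (mul_mem φ hφ hb f).coeFn_toLp,
          Lp.coeFn_smul c f, Lp.coeFn_smul c ((mul_mem φ hφ hb f).toLp _)]
          with s h1 h2 h4 h5
        rw [RingHom.id_apply, h1, h5, Pi.smul_apply, h2, h4, Pi.smul_apply, smul_eq_mul,
          smul_eq_mul]
        ring } 1
    (fun f => by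
      rw [one_mul]
      change ‖(mul_mem φ hφ hb f).toLp _‖ ≤ ‖f‖
      refine Lp.norm_le_norm_of_ae_le ?_
      filter_upwards [(mul_mem φ hφ hb f).coeFn_toLp] with s h1
      rw [h1, norm_mul, Complex.norm_real, Real.norm_eq_abs]
      calc |φ s| * ‖f s‖ ≤ 1 * ‖f s‖ := mul_le_mul_of_nonneg_right (hb s) (norm_nonneg _)
        _ = ‖f s‖ := one_mul _)

theorem M_ae (φ : ℝ → ℝ) (hφ : Measurable φ) (hb : ∀ s, |φ s| ≤ 1) (f : K) :
    ∀ᵐ s : ℝ, M φ hφ hb f s = (φ s : ℂ) * f s :=
  (mul_mem φ hφ hb f).coeFn_toLp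

theorem M_norm (φ : ℝ → ℝ) (hφ : Measurable φ) (hb : ∀ s, |φ s| ≤ 1) : ‖M φ hφ hb‖ ≤ 1 :=
  LinearMap.mkContinuous_norm_le _ zero_le_one _

theorem M_le (φ : ℝ → ℝ) (hφ : Measurable φ) (hb : ∀ s, |φ s| ≤ 1) (f : K) :
    ‖M φ hφ hb f‖ ≤ ‖f‖ := by
  simpa using (M φ hφ hb).le_of_opNorm_le (M_norm φ hφ hb) f

/-- translation -/
def S (t : ℝ) : K →L[ℂ] K :=
  (Lp.compMeasurePreservingₗᵢ ℂ (fun s : ℝ => s - t)
    (measurePreserving_sub_right volume t)).toContinuousLinearMap

theorem S_ae (t : ℝ) (f : K) : ∀ᵐ s : ℝ, S t f s = f (s - t) :=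
  Lp.coeFn_compMeasurePreserving f (measurePreserving_sub_right volume t)

theorem S_norm (t : ℝ) (f : K) : ‖S t f‖ = ‖f‖ :=
  (Lp.compMeasurePreservingₗᵢ ℂ (fun s : ℝ => s - t)
    (measurePreserving_sub_right volume t)).norm_map f

theorem S_tendsto (f : K) : Tendsto (fun t : ℝ => S t f) (𝓝 0) (𝓝 f) := by
  have h := Filter.Tendsto.compMeasurePreservingLp (E := ℂ) (p := 2) (μ := (volume : Measure ℝ))
    (ν := (volume : Measure ℝ)) (l := 𝓝 (0 : ℝ)) (f := fun _ : ℝ => f) (f₀ := f)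
    (g := fun t : ℝ => (⟨fun s => s - t, by fun_prop⟩ : C(ℝ, ℝ)))
    (g₀ := (⟨fun s => s - 0, by fun_prop⟩ : C(ℝ, ℝ))) tendsto_const_nhds ?_
    (fun t => measurePreserving_sub_right volume t) (measurePreserving_sub_right volume 0)
    (by norm_num)
  · have h0 : Lp.compMeasurePreserving (⟨fun s => s - 0, by fun_prop⟩ : C(ℝ, ℝ))
        (measurePreserving_sub_right volume 0) f = f := by
      ext1
      filter_upwards [Lp.coeFn_compMeasurePreserving f (measurePreserving_sub_right volume 0)]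
        with s hs
      refine hs.trans ?_
      simp
    rw [h0] at h
    exact h
  · have : Continuous fun t : ℝ => (⟨fun s => s - t, by fun_prop⟩ : C(ℝ, ℝ)) := by
      refine ContinuousMap.continuous_of_continuous_uncurry _ ?_
      simp only [Function.uncurry_def, ContinuousMap.coe_mk]
      fun_prop
    exact this.tendsto 0

/-- the weight -/
def φ (t s : ℝ) : ℝ := if t < s then Real.sqrt ((s - t) / s) else 0

theorem φ_meas (t : ℝ) : Measurable (φ t) := by
  unfold φ
  refine Measurable.ite measurableSet_Ioi ?_ measurable_const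
  fun_prop

theorem φ_nonneg (t s : ℝ) : 0 ≤ φ t s := by
  unfold φ
  split_ifs
  · exact Real.sqrt_nonneg _
  · exact le_rfl

theorem φ_le (t : ℝ) (ht : 0 ≤ t) (s : ℝ) : |φ t s| ≤ 1 := by
  rw [abs_of_nonneg (φ_nonneg t s)]
  unfold φ
  split_ifs with h
  · rw [Real.sqrt_le_iff]
    refine ⟨zero_le_one, ?_⟩
    rw [div_le_iff₀ (by linarith)]
    linarith
  · exact zero_le_one

theorem φ_sq (t s : ℝ) (ht : 0 ≤ t) (hs : t < s) : φ t s ^ 2 = (s - t) / s := by
  unfold φ
  rw [if_pos hs, Real.sq_sqrt]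
  exact div_nonneg (by linarith) (by linarith)

theorem φ_mul (s t r : ℝ) (hs : 0 ≤ s) (ht : 0 ≤ t) : φ s r * φ t (r - s) = φ (s + t) r := by
  unfold φ
  by_cases h : s + t < r
  · rw [if_pos (by linarith), if_pos (by linarith), if_pos h, ← Real.sqrt_mul]
    · congr 1
      have h1 : r ≠ 0 := by linarith
      have h2 : r - s ≠ 0 := by
        intro h'
        linarith
      field_simp
      ring
    · exact div_nonneg (by linarith) (by linarith)
  · rw [if_neg h]
    by_cases h' : s < r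
    · rw [if_neg (show ¬ t < r - s by intro h''; apply h; linarith), mul_zero]
    · rw [if_neg h', zero_mul]

/-- the operators on `L²(ℝ)` -/
def T (t : ℝ) (ht : 0 ≤ t) : K →L[ℂ] K := (M (φ t) (φ_meas t) (φ_le t ht)).comp (S t)

theorem T_ae (t : ℝ) (ht : 0 ≤ t) (f : K) : ∀ᵐ s : ℝ, T t ht f s = (φ t s : ℂ) * f (s - t) := by
  filter_upwards [M_ae (φ t) (φ_meas t) (φ_le t ht) (S t f), S_ae t f] with s h1 h2
  change M (φ t) (φ_meas t) (φ_le t ht) (S t f) s = _
  rw [h1, h2]

theorem T_le (t : ℝ) (ht : 0 ≤ t) (f : K) : ‖T t ht f‖ ≤ ‖f‖ :=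
  (M_le (φ t) (φ_meas t) (φ_le t ht) (S t f)).trans (S_norm t f).le

theorem T_norm (t : ℝ) (ht : 0 ≤ t) : ‖T t ht‖ ≤ 1 :=
  ContinuousLinearMap.opNorm_le_bound _ zero_le_one fun f => by
    rw [one_mul]; exact T_le t ht f

theorem T_add (s t : ℝ) (hs : 0 ≤ s) (ht : 0 ≤ t) (f : K) :
    T (s + t) (add_nonneg hs ht) f = T s hs (T t ht f) := by
  ext1
  have h3 : ∀ᵐ r : ℝ, T t ht f (r - s) = (φ t (r - s) : ℂ) * f (r - s - t) :=
    (measurePreserving_sub_right volume s).quasiMeasurePreserving.ae (T_ae t ht f)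
  filter_upwards [T_ae (s + t) (add_nonneg hs ht) f, T_ae s hs (T t ht f), h3] with r h1 h2 h4
  rw [h1, h2, h4, ← φ_mul s t r hs ht, ← sub_sub]
  push_cast
  ring

/-- the functions that vanish on `(-∞, 0]` -/
def H : Submodule ℂ K :=
  LinearMap.ker (M (indicator (Iic (0 : ℝ)) fun _ => (1 : ℝ))
    (measurable_const.indicator measurableSet_Iic) (fun s => by
      by_cases h : s ∈ Iic (0 : ℝ) <;> simp [indicator, h]) : K →ₗ[ℂ] K)

theorem mem_H (f : K) : f ∈ H ↔ ∀ᵐ s : ℝ, s ≤ 0 → f s = 0 := by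
  unfold H
  rw [LinearMap.mem_ker]
  constructor
  · intro h
    have h' : (M (indicator (Iic (0 : ℝ)) fun _ => (1 : ℝ))
      (measurable_const.indicator measurableSet_Iic) (fun s => by
        by_cases h : s ∈ Iic (0 : ℝ) <;> simp [indicator, h])) f = 0 := h
    have h1 := M_ae (indicator (Iic (0 : ℝ)) fun _ => (1 : ℝ))
      (measurable_const.indicator measurableSet_Iic) (fun s => by
        by_cases h : s ∈ Iic (0 : ℝ) <;> simp [indicator, h]) f
    rw [h'] at h1
    filter_upwards [h1, Lp.coeFn_zero ℂ 2 (volume : Measure ℝ)] with s h2 h3 hs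
    rw [h3] at h2
    simp only [Pi.zero_apply, indicator, mem_Iic, hs, if_true] at h2
    simpa using h2.symm
  · intro h
    change (M (indicator (Iic (0 : ℝ)) fun _ => (1 : ℝ))
      (measurable_const.indicator measurableSet_Iic) (fun s => by
        by_cases h : s ∈ Iic (0 : ℝ) <;> simp [indicator, h])) f = 0
    ext1
    filter_upwards [M_ae (indicator (Iic (0 : ℝ)) fun _ => (1 : ℝ))
      (measurable_const.indicator measurableSet_Iic) (fun s => by
        by_cases h : s ∈ Iic (0 : ℝ) <;> simp [indicator, h]) f, h,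
      Lp.coeFn_zero ℂ 2 (volume : Measure ℝ)] with s h1 h2 h3
    rw [h1, h3]
    by_cases hs : s ≤ 0
    · rw [h2 hs, mul_zero]
      rfl
    · simp [indicator, hs]

theorem H_closed : IsClosed (H : Set K) := by
  unfold H
  exact ContinuousLinearMap.isClosed_ker (M (indicator (Iic (0 : ℝ)) fun _ => (1 : ℝ))
    (measurable_const.indicator measurableSet_Iic) (fun s => by
      by_cases h : s ∈ Iic (0 : ℝ) <;> simp [indicator, h]))

instance : CompleteSpace H := H_closed.completeSpace_coe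

theorem T_mem (t : ℝ) (ht : 0 ≤ t) (f : K) : T t ht f ∈ H := by
  rw [mem_H]
  filter_upwards [T_ae t ht f] with s h1 hs
  rw [h1]
  have : φ t s = 0 := by
    unfold φ
    rw [if_neg (by linarith)]
  rw [this]
  simp

theorem T_zero (f : K) (hf : f ∈ H) : T 0 le_rfl f = f := by
  rw [mem_H] at hf
  ext1
  filter_upwards [T_ae 0 le_rfl f, hf] with s h1 h2
  rw [h1]
  by_cases hs : s ≤ 0
  · rw [sub_zero, h2 hs, mul_zero]
  · have : φ 0 s = 1 := by
      unfold φ
      rw [if_pos (not_le.1 hs), sub_zero, div_self (by linarith [not_le.1 hs]), Real.sqrt_one]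
    rw [this, sub_zero]
    simp

end Pool.Agent.Q192.Sg
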