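import Mathlib
import Pool.Agent.Q192.SgA

/-!
# The quadratic form of the weighted translations, and the lower bound for the resolvent
-/

set_option autoImplicit false

open MeasureTheory Filter Set
open scoped ENNReal Topology InnerProductSpace

noncomputable section

namespace Pool.Agent.Q192.Sg

theorem sq_int (f : K) : Integrable (fun s => ‖f s‖ ^ 2) (volume : Measure ℝ) := by
  have h : MemLp f ((2 : ℕ) : ℝ≥0∞) (volume : Measure ℝ) := by exact_mod_cast Lp.memLp f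
  exact h.integrable_norm_pow two_ne_zero

theorem int_mul (g : ℝ → ℝ) (hg : Measurable g) (hb : ∀ s, |g s| ≤ 1) (f : K) :
    Integrable (fun s => g s * ‖f s‖ ^ 2) (volume : Measure ℝ) := by
  refine (sq_int f).bdd_mul (c := 1) hg.aestronglyMeasurable (Eventually.of_forall fun s => ?_)
  rw [Real.norm_eq_abs]
  exact hb s

theorem q_eq (ψ : ℝ → ℝ) (hψ : Measurable ψ) (hb : ∀ s, |ψ s| ≤ 1) (f : K) :
    (⟪M ψ hψ hb f, f⟫_ℂ).re = ∫ s, ψ s * ‖f s‖ ^ 2 := by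
  rw [L2.inner_def]
  have h : ∫ a, ⟪M ψ hψ hb f a, f a⟫_ℂ = ∫ a, ((ψ a * ‖f a‖ ^ 2 : ℝ) : ℂ) := by
    refine integral_congr_ae ?_
    filter_upwards [M_ae ψ hψ hb f] with s hs
    rw [hs, RCLike.inner_apply, map_mul, Complex.conj_ofReal, Complex.ofReal_mul]
    rw [mul_left_comm, Complex.mul_conj, Complex.normSq_eq_norm_sq]
  rw [h, integral_complex_ofReal, Complex.ofReal_re]

theorem nsq (f : K) : ‖f‖ ^ 2 = ∫ s, ‖f s‖ ^ 2 := by
  have h := L2.inner_def (𝕜 := ℂ) f f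
  have h2 : ∫ a, ⟪f a, f a⟫_ℂ = ∫ a, ((‖f a‖ ^ 2 : ℝ) : ℂ) := by
    refine integral_congr_ae (Eventually.of_forall fun s => ?_)
    change ⟪f s, f s⟫_ℂ = _
    rw [inner_self_eq_norm_sq_to_K]
    push_cast
    rfl
  rw [h2, integral_complex_ofReal, inner_self_eq_norm_sq_to_K] at h
  have h3 : ((‖f‖ ^ 2 : ℝ) : ℂ) = ((∫ s, ‖f s‖ ^ 2 : ℝ) : ℂ) := by
    rw [← h]
    push_cast
    rfl
  exact Complex.ofReal_injective h3

theorem q_T (ψ : ℝ → ℝ) (hψ : Measurable ψ) (hb : ∀ s, |ψ s| ≤ 1) (t : ℝ) (ht : 0 ≤ t) (f : K) :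
    (⟪M ψ hψ hb (T t ht f), T t ht f⟫_ℂ).re =
      ∫ s, ψ (s + t) * φ t (s + t) ^ 2 * ‖f s‖ ^ 2 := by
  rw [q_eq]
  rw [← integral_sub_right_eq_self (fun s => ψ (s + t) * φ t (s + t) ^ 2 * ‖f s‖ ^ 2) t]
  refine integral_congr_ae ?_
  filter_upwards [T_ae t ht f] with s hs
  rw [hs, norm_mul, Complex.norm_real, Real.norm_eq_abs, mul_pow, sq_abs, sub_add_cancel]
  ring

theorem alg (p τ : ℝ) (hp : 0 < p) (h0 : 0 ≤ τ) (h1 : τ ≤ 1 / 4) :
    τ / 4 ≤ (p + τ - 1) / (p + τ + 1) * (p / (p + τ)) - (p - 1) / (p + 1) +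
      τ * ((p - 1) / (p + 1)) := by
  have hpt : 0 < p + τ := by linarith
  have key : (p + τ - 1) / (p + τ + 1) * (p / (p + τ)) - (p - 1) / (p + 1) +
      τ * ((p - 1) / (p + 1)) - τ / 4 =
      τ * ((3 / 4) * (p * (p - 1) ^ 2) + 1 + τ * (3 / 2 * p ^ 2 - 11 / 4 * p - 1 / 4) +
        τ ^ 2 * (3 / 4 * p - 5 / 4)) / ((p + τ) * (p + τ + 1) * (p + 1)) := by
    field_simp
    ring
  have h2 : 0 ≤ (3 / 4) * (p * (p - 1) ^ 2) + 1 + τ * (3 / 2 * p ^ 2 - 11 / 4 * p - 1 / 4) +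
        τ ^ 2 * (3 / 4 * p - 5 / 4) := by
    have e1 : -(1511 / 1000 : ℝ) ≤ 3 / 2 * p ^ 2 - 11 / 4 * p - 1 / 4 := by
      nlinarith [sq_nonneg (p - 11 / 12)]
    have e2 : τ * (-(1511 / 1000)) ≤ τ * (3 / 2 * p ^ 2 - 11 / 4 * p - 1 / 4) :=
      mul_le_mul_of_nonneg_left e1 h0
    have e3 : τ ^ 2 * (-(5 / 4)) ≤ τ ^ 2 * (3 / 4 * p - 5 / 4) :=
      mul_le_mul_of_nonneg_left (by linarith) (sq_nonneg _)
    have e4 : 0 ≤ (3 / 4) * (p * (p - 1) ^ 2) := by positivity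
    have e5 : τ ^ 2 ≤ 1 / 4 * (1 / 4) := by nlinarith
    nlinarith
  have h3 : 0 ≤ τ * ((3 / 4) * (p * (p - 1) ^ 2) + 1 + τ * (3 / 2 * p ^ 2 - 11 / 4 * p - 1 / 4) +
        τ ^ 2 * (3 / 4 * p - 5 / 4)) / ((p + τ) * (p + τ + 1) * (p + 1)) := by
    apply div_nonneg (mul_nonneg h0 h2)
    positivity
  linarith

/-- the multiplier -/
def ψ (a s : ℝ) : ℝ := (2 * a * max s 0 - 1) / (2 * a * max s 0 + 1)

theorem ψ_meas (a : ℝ) : Measurable (ψ a) := by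
  unfold ψ
  fun_prop

theorem ψ_le (a : ℝ) (ha : 0 < a) (s : ℝ) : |ψ a s| ≤ 1 := by
  unfold ψ
  have h : 0 ≤ 2 * a * max s 0 := by positivity
  rw [abs_le]
  constructor
  · rw [le_div_iff₀ (by linarith)]
    linarith
  · rw [div_le_iff₀ (by linarith)]
    linarith

theorem key (a : ℝ) (ha : 0 < a) (t : ℝ) (ht : 0 ≤ t) (hat : 2 * a * t ≤ 1 / 4) (f : K)
    (hf : f ∈ H) :
    a * t / 2 * ‖f‖ ^ 2 ≤ (⟪M (ψ a) (ψ_meas a) (ψ_le a ha) (T t ht f), T t ht f⟫_ℂ).re -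
      (⟪M (ψ a) (ψ_meas a) (ψ_le a ha) f, f⟫_ℂ).re +
      2 * a * t * (⟪M (ψ a) (ψ_meas a) (ψ_le a ha) f, f⟫_ℂ).re := by
  rw [mem_H] at hf
  rw [q_T, q_eq, nsq]
  have i1 := int_mul (fun s => ψ a (s + t) * φ t (s + t) ^ 2)
    (((ψ_meas a).comp (measurable_id.add_const t)).mul
      (((φ_meas t).comp (measurable_id.add_const t)).pow_const 2)) (fun s => by
        rw [abs_mul, abs_pow]
        calc |ψ a (s + t)| * |φ t (s + t)| ^ 2 ≤ 1 * 1 := by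
              refine mul_le_mul (ψ_le a ha _) ?_ (by positivity) zero_le_one
              exact pow_le_one₀ (abs_nonneg _) (φ_le t ht _)
          _ = 1 := one_mul 1) f
  have i2 := int_mul (ψ a) (ψ_meas a) (ψ_le a ha) f
  have i3 : Integrable (fun s => ψ a (s + t) * φ t (s + t) ^ 2 * ‖f s‖ ^ 2 -
      ψ a s * ‖f s‖ ^ 2) (volume : Measure ℝ) := i1.sub i2
  have i4 : Integrable (fun s => 2 * a * t * (ψ a s * ‖f s‖ ^ 2)) (volume : Measure ℝ) :=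
    i2.const_mul _
  rw [← integral_const_mul, ← integral_const_mul, ← integral_sub i1 i2, ← integral_add i3 i4]
  refine integral_mono_ae ((sq_int f).const_mul _) (i3.add i4) ?_
  filter_upwards [hf] with s hs
  by_cases h : s ≤ 0
  · simp [hs h]
  · push Not at h
    have hp : 0 < 2 * a * s := by positivity
    have h1 := alg (2 * a * s) (2 * a * t) hp (by positivity) hat
    have h2 : φ t (s + t) ^ 2 = 2 * a * s / (2 * a * s + 2 * a * t) := by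
      rw [φ_sq t (s + t) ht (by linarith)]
      have : s + t ≠ 0 := by linarith
      field_simp
      ring
    have h3 : ψ a (s + t) = (2 * a * s + 2 * a * t - 1) / (2 * a * s + 2 * a * t + 1) := by
      unfold ψ
      rw [max_eq_left (by linarith)]
      ring_nf
    have h4 : ψ a s = (2 * a * s - 1) / (2 * a * s + 1) := by
      unfold ψ
      rw [max_eq_left h.le]
    change a * t / 2 * ‖f s‖ ^ 2 ≤ ψ a (s + t) * φ t (s + t) ^ 2 * ‖f s‖ ^ 2 - ψ a s * ‖f s‖ ^ 2 +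
      2 * a * t * (ψ a s * ‖f s‖ ^ 2)
    rw [h2, h3, h4]
    have h5 := mul_le_mul_of_nonneg_right h1 (sq_nonneg ‖f s‖)
    linarith

theorem abs_bound {E : Type*} [NormedAddCommGroup E] [InnerProductSpace ℂ E] (Ψ : E →L[ℂ] E)
    (hΨ : ‖Ψ‖ ≤ 1) (u : ℝ → E) (x y : E) (μ : ℂ) (a : ℝ) (hμ : μ.re = -a)
    (hlim : Tendsto (fun h : ℝ => ((h : ℂ)⁻¹) • (u h - x)) (𝓝[>] 0) (𝓝 y))
    (hineq : ∀ᶠ h in 𝓝[>] (0 : ℝ), a * h / 2 * ‖x‖ ^ 2 ≤ (⟪Ψ (u h), u h⟫_ℂ).re -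
      (⟪Ψ x, x⟫_ℂ).re + 2 * a * h * (⟪Ψ x, x⟫_ℂ).re) :
    a / 4 * ‖x‖ ≤ ‖μ • x - y‖ := by
  set D : ℝ → E := fun h => ((h : ℂ)⁻¹) • (u h - x) with hD
  have h1 : ∀ᶠ h in 𝓝[>] (0 : ℝ), a / 2 * ‖x‖ ^ 2 ≤ (⟪Ψ x, D h⟫_ℂ).re + (⟪Ψ (D h), x⟫_ℂ).re +
      h * (⟪Ψ (D h), D h⟫_ℂ).re + 2 * a * (⟪Ψ x, x⟫_ℂ).re := by
    filter_upwards [hineq, self_mem_nhdsWithin] with h h2 h3
    have h3 : (0 : ℝ) < h := h3
    have h4 : u h = x + (h : ℂ) • D h := by
      rw [hD]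
      simp only
      rw [smul_smul, mul_inv_cancel₀ (by exact_mod_cast h3.ne'), one_smul]
      abel
    obtain ⟨d, hd⟩ : ∃ d, d = D h := ⟨_, rfl⟩
    rw [← hd] at h4 ⊢
    rw [h4, map_add, map_smul, inner_add_left, inner_add_right, inner_add_right, inner_smul_left,
      inner_smul_left, inner_smul_right, inner_smul_right, Complex.conj_ofReal] at h2
    simp only [Complex.add_re, Complex.re_ofReal_mul] at h2
    have h5 : h * (a / 2 * ‖x‖ ^ 2) ≤ h * ((⟪Ψ x, d⟫_ℂ).re + (⟪Ψ d, x⟫_ℂ).re +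
      h * (⟪Ψ d, d⟫_ℂ).re + 2 * a * (⟪Ψ x, x⟫_ℂ).re) := by linarith
    exact le_of_mul_le_mul_left h5 h3
  have h2 : Tendsto (fun h : ℝ => (⟪Ψ x, D h⟫_ℂ).re + (⟪Ψ (D h), x⟫_ℂ).re +
      h * (⟪Ψ (D h), D h⟫_ℂ).re + 2 * a * (⟪Ψ x, x⟫_ℂ).re) (𝓝[>] 0)
      (𝓝 ((⟪Ψ x, y⟫_ℂ).re + (⟪Ψ y, x⟫_ℂ).re + 0 * (⟪Ψ y, y⟫_ℂ).re +
        2 * a * (⟪Ψ x, x⟫_ℂ).re)) := by
    have hΨlim : Tendsto (fun h => Ψ (D h)) (𝓝[>] 0) (𝓝 (Ψ y)) :=
      (Ψ.continuous.tendsto y).comp hlim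
    have hid : Tendsto (fun h : ℝ => h) (𝓝[>] 0) (𝓝 0) := tendsto_nhdsWithin_of_tendsto_nhds
      tendsto_id
    exact (((Complex.continuous_re.tendsto _).comp (tendsto_const_nhds.inner hlim)).add
      ((Complex.continuous_re.tendsto _).comp (hΨlim.inner tendsto_const_nhds))).add
      (hid.mul ((Complex.continuous_re.tendsto _).comp (hΨlim.inner hlim))) |>.add
      tendsto_const_nhds
  have h3 : a / 2 * ‖x‖ ^ 2 ≤ (⟪Ψ x, y⟫_ℂ).re + (⟪Ψ y, x⟫_ℂ).re + 0 * (⟪Ψ y, y⟫_ℂ).re +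
        2 * a * (⟪Ψ x, x⟫_ℂ).re := ge_of_tendsto h2 h1
  set v : E := μ • x - y with hv
  have hy : y = μ • x - v := by rw [hv]; abel
  have h4 : (⟪Ψ x, y⟫_ℂ).re + (⟪Ψ y, x⟫_ℂ).re = -2 * a * (⟪Ψ x, x⟫_ℂ).re -
      (⟪Ψ x, v⟫_ℂ).re - (⟪Ψ v, x⟫_ℂ).re := by
    rw [hy, map_sub, map_smul, inner_sub_left, inner_sub_right, inner_smul_left, inner_smul_right]
    simp only [Complex.sub_re, Complex.mul_re, Complex.conj_re, Complex.conj_im, hμ]
    ring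
  have h5 : |(⟪Ψ x, v⟫_ℂ).re| ≤ ‖x‖ * ‖v‖ := by
    refine (Complex.abs_re_le_norm _).trans ((norm_inner_le_norm _ _).trans ?_)
    refine mul_le_mul_of_nonneg_right ?_ (norm_nonneg _)
    simpa using Ψ.le_of_opNorm_le hΨ x
  have h6 : |(⟪Ψ v, x⟫_ℂ).re| ≤ ‖v‖ * ‖x‖ := by
    refine (Complex.abs_re_le_norm _).trans ((norm_inner_le_norm _ _).trans ?_)
    refine mul_le_mul_of_nonneg_right ?_ (norm_nonneg _)
    simpa using Ψ.le_of_opNorm_le hΨ v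
  have h7 : a / 2 * ‖x‖ ^ 2 ≤ 2 * (‖x‖ * ‖v‖) := by
    have := (abs_le.1 h5).1
    have := (abs_le.1 h6).1
    nlinarith
  rcases (norm_nonneg x).eq_or_lt with h0 | h0
  · rw [← h0, mul_zero]
    exact norm_nonneg _
  · have h8 : ‖x‖ * (a / 4 * ‖x‖) ≤ ‖x‖ * ‖v‖ := by nlinarith
    exact le_of_mul_le_mul_left h8 h0

theorem T_tendsto (f : K) (hf : f ∈ H) :
    Tendsto (fun t : ℝ => ‖T (max t 0) (le_max_right _ _) f - f‖) (𝓝 0) (𝓝 0) := by
  rw [mem_H] at hf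
  have hmax : Tendsto (fun t : ℝ => max t 0) (𝓝 0) (𝓝 0) := by
    have : Continuous fun t : ℝ => max t 0 := by fun_prop
    simpa using this.tendsto 0
  have h1 : Tendsto (fun t : ℝ => ‖S (max t 0) f - f‖) (𝓝 0) (𝓝 0) := by
    have h := ((S_tendsto f).comp hmax).sub (tendsto_const_nhds (x := f))
    rw [sub_self] at h
    simpa using h.norm
  have h2 : Tendsto (fun t : ℝ => ‖M (φ (max t 0)) (φ_meas _) (φ_le _ (le_max_right _ _)) f - f‖ ^ 2)
      (𝓝 0) (𝓝 0) := by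
    have e : ∀ t : ℝ, ‖M (φ (max t 0)) (φ_meas _) (φ_le _ (le_max_right _ _)) f - f‖ ^ 2 =
        ∫ s, (φ (max t 0) s - 1) ^ 2 * ‖f s‖ ^ 2 := by
      intro t
      rw [nsq]
      refine integral_congr_ae ?_
      filter_upwards [M_ae (φ (max t 0)) (φ_meas _) (φ_le _ (le_max_right _ _)) f,
        Lp.coeFn_sub (M (φ (max t 0)) (φ_meas _) (φ_le _ (le_max_right _ _)) f) f] with s h3 h4
      rw [h4, Pi.sub_apply, h3]
      have : (φ (max t 0) s : ℂ) * f s - f s = ((φ (max t 0) s - 1 : ℝ) : ℂ) * f s := by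
        push_cast
        ring
      rw [this, norm_mul, Complex.norm_real, Real.norm_eq_abs, mul_pow, sq_abs]
    simp only [e]
    suffices hs : Tendsto (fun t : ℝ => ∫ s, (φ (max t 0) s - 1) ^ 2 * ‖f s‖ ^ 2) (𝓝 0)
        (𝓝 (∫ s : ℝ, (0 : ℝ))) by simpa using hs
    refine tendsto_integral_filter_of_dominated_convergence (fun s => ‖f s‖ ^ 2) ?_ ?_
      (sq_int f) ?_
    · refine Eventually.of_forall fun t => ?_
      exact (((φ_meas _).sub_const 1).pow_const 2).aestronglyMeasurable.mul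
        (sq_int f).aestronglyMeasurable
    · refine Eventually.of_forall fun t => Eventually.of_forall fun s => ?_
      have h5 := φ_nonneg (max t 0) s
      have h6 := (abs_le.1 (φ_le (max t 0) (le_max_right _ _) s)).2
      rw [norm_mul, norm_pow, norm_pow, norm_norm, Real.norm_eq_abs, sq_abs]
      calc (φ (max t 0) s - 1) ^ 2 * ‖f s‖ ^ 2 ≤ 1 * ‖f s‖ ^ 2 := by
            refine mul_le_mul_of_nonneg_right ?_ (sq_nonneg _)
            nlinarith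
        _ = ‖f s‖ ^ 2 := one_mul _
    · filter_upwards [hf] with s hs
      by_cases h : s ≤ 0
      · simp [hs h]
      · push Not at h
        have h7 : Tendsto (fun t : ℝ => φ (max t 0) s) (𝓝 0) (𝓝 1) := by
          have h8 : Tendsto (fun t : ℝ => Real.sqrt ((s - max t 0) / s)) (𝓝 0) (𝓝 1) := by
            have h9 : Continuous fun t : ℝ => Real.sqrt ((s - max t 0) / s) := by fun_prop
            have h10 := h9.tendsto 0
            simpa [div_self h.ne'] using h10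
          refine h8.congr' ?_
          filter_upwards [Iio_mem_nhds h] with t ht
          unfold φ
          rw [if_pos (max_lt ht h)]
        have h11 := ((h7.sub_const 1).pow 2).mul_const (‖f s‖ ^ 2)
        simpa using h11
  have h3 : Tendsto (fun t : ℝ => ‖M (φ (max t 0)) (φ_meas _) (φ_le _ (le_max_right _ _)) f - f‖)
      (𝓝 0) (𝓝 0) := by
    have h4 := (Real.continuous_sqrt.tendsto 0).comp h2
    rw [Real.sqrt_zero] at h4
    refine h4.congr fun t => ?_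
    simp only [Function.comp]
    rw [Real.sqrt_sq (norm_nonneg _)]
  refine squeeze_zero (fun t => norm_nonneg _) (fun t => ?_) (by simpa using h1.add h3)
  have h4 : T (max t 0) (le_max_right _ _) f - f =
      M (φ (max t 0)) (φ_meas _) (φ_le _ (le_max_right _ _)) (S (max t 0) f - f) +
      (M (φ (max t 0)) (φ_meas _) (φ_le _ (le_max_right _ _)) f - f) := by
    rw [map_sub]
    change M (φ (max t 0)) (φ_meas _) (φ_le _ (le_max_right _ _)) (S (max t 0) f) - f = _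
    abel
  rw [h4]
  exact (norm_add_le _ _).trans (add_le_add_left (M_le _ _ _ _) _)

end Pool.Agent.Q192.Sg
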