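import Mathlib

/-!
# Log-convex operator sequences with geometric boundary values

Auxiliary file for `MP_20dafb_an`.
-/

set_option autoImplicit false
set_option linter.unusedSectionVars false

open scoped InnerProductSpace
open Filter Topology

noncomputable section

namespace Pool.Agent.Q192.SphA

variable {H : Type*} [NormedAddCommGroup H] [InnerProductSpace ℂ H] [CompleteSpace H]

theorem re_symm (x y : H) : (⟪x, y⟫_ℂ).re = (⟪y, x⟫_ℂ).re := by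
  rw [← inner_conj_symm, Complex.conj_re]

/-- the real quadratic form of an operator -/
def qf (A : H →L[ℂ] H) (x : H) : ℝ := (⟪A x, x⟫_ℂ).re

theorem qf_sub (A B : H →L[ℂ] H) (x : H) : qf (A - B) x = qf A x - qf B x := by
  simp [qf, inner_sub_left]

theorem qf_smul (r : ℝ) (A : H →L[ℂ] H) (x : H) : qf (r • A) x = r * qf A x := by
  simp [qf, ← Complex.coe_smul, mul_comm]

theorem qf_one (x : H) : qf (1 : H →L[ℂ] H) x = ‖x‖ ^ 2 := by
  simp [qf, ← Complex.ofReal_pow]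

theorem qf_le_norm (A : H →L[ℂ] H) (x : H) : |qf A x| ≤ ‖A‖ * ‖x‖ ^ 2 := by
  calc |qf A x| ≤ ‖⟪A x, x⟫_ℂ‖ := Complex.abs_re_le_norm _
    _ ≤ ‖A x‖ * ‖x‖ := norm_inner_le_norm _ _
    _ ≤ ‖A‖ * ‖x‖ * ‖x‖ := by gcongr; exact A.le_opNorm x
    _ = _ := by ring

/-- Lyapunov's lemma. -/
theorem lyapunov {G P : H →L[ℂ] H} (hG : IsSelfAdjoint G) (hP : IsSelfAdjoint P) {ε : ℝ}
    (hε : 0 < ε) (hPε : ∀ x, ε * ‖x‖ ^ 2 ≤ qf P x) (h : ∀ y, 0 ≤ (⟪G (P y), y⟫_ℂ).re) :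
    ∀ x, 0 ≤ qf G x := by
  -- choose a small `t`
  obtain ⟨t, ht0, ht1, ht2⟩ : ∃ t : ℝ, 0 < t ∧ t * ‖P‖ < 1 ∧ t * ‖P‖ ^ 2 < 2 * ε := by
    refine ⟨min (1 / (2 * (‖P‖ + 1))) (ε / (‖P‖ ^ 2 + 1)), ?_, ?_, ?_⟩
    · positivity
    · have h1 : min (1 / (2 * (‖P‖ + 1))) (ε / (‖P‖ ^ 2 + 1)) ≤ 1 / (2 * (‖P‖ + 1)) :=
        min_le_left _ _
      calc _ ≤ 1 / (2 * (‖P‖ + 1)) * ‖P‖ := by gcongr
        _ < 1 := by
          rw [div_mul_eq_mul_div, div_lt_one (by positivity)]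
          nlinarith [norm_nonneg P]
    · have h1 : min (1 / (2 * (‖P‖ + 1))) (ε / (‖P‖ ^ 2 + 1)) ≤ ε / (‖P‖ ^ 2 + 1) :=
        min_le_right _ _
      calc _ ≤ ε / (‖P‖ ^ 2 + 1) * ‖P‖ ^ 2 := by gcongr
        _ < 2 * ε := by
          rw [div_mul_eq_mul_div, div_lt_iff₀ (by positivity)]
          nlinarith [norm_nonneg P, sq_nonneg ‖P‖]
  have hunit : IsUnit (1 + (t : ℂ) • P) := by
    have : ‖-((t : ℂ) • P)‖ < 1 := by
      rw [norm_neg, norm_smul, Complex.norm_real, Real.norm_eq_abs, abs_of_pos ht0]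
      exact ht1
    have h2 := (Units.oneSub (-((t : ℂ) • P)) this).isUnit
    simpa [sub_neg_eq_add] using h2
  have hsurj : ∀ y : H, ∃ x : H, x + (t : ℂ) • P x = y := by
    intro y
    obtain ⟨u, hu⟩ := hunit
    refine ⟨(↑(u⁻¹) : H →L[ℂ] H) y, ?_⟩
    have h3 : ((1 + (t : ℂ) • P) * (↑(u⁻¹) : H →L[ℂ] H)) y = y := by
      rw [← hu, Units.mul_inv]; rfl
    simpa using h3
  set θ : ℝ := (1 + t ^ 2 * ‖P‖ ^ 2) / (1 + t * ε) ^ 2 with hθ
  have hθ1 : θ < 1 := by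
    rw [hθ, div_lt_one (by positivity)]
    nlinarith [sq_nonneg (t * ε), mul_lt_mul_of_pos_left ht2 ht0]
  have hθ0 : 0 ≤ θ := by positivity
  have hnorm : ∀ x : H, (1 + t * ε) ^ 2 * ‖x‖ ^ 2 ≤ ‖x + (t : ℂ) • P x‖ ^ 2 := by
    intro x
    have e1 : ‖x + (t : ℂ) • P x‖ ^ 2 = ‖x‖ ^ 2 + 2 * (t * qf P x) + t ^ 2 * ‖P x‖ ^ 2 := by
      rw [@norm_add_sq ℂ]
      congr 1
      · congr 1
        congr 1
        rw [inner_smul_right]
        change ((t : ℂ) * ⟪x, P x⟫_ℂ).re = _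
        rw [Complex.re_ofReal_mul, re_symm]
        rfl
      · rw [norm_smul, Complex.norm_real, mul_pow, Real.norm_eq_abs, sq_abs]
    have e2 : ε * ‖x‖ ≤ ‖P x‖ := by
      rcases eq_or_ne x 0 with rfl | hx
      · simp
      · have h4 : ε * ‖x‖ ^ 2 ≤ ‖P x‖ * ‖x‖ := by
          refine (hPε x).trans ?_
          exact (Complex.re_le_norm _).trans (norm_inner_le_norm _ _)
        have hx' : 0 < ‖x‖ := norm_pos_iff.mpr hx
        nlinarith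
    have e3 : (ε * ‖x‖) ^ 2 ≤ ‖P x‖ ^ 2 := by
      gcongr
    rw [e1]
    nlinarith [hPε x, mul_le_mul_of_nonneg_left (hPε x) ht0.le,
      mul_le_mul_of_nonneg_left e3 (sq_nonneg t)]
  have step : ∀ g : ℝ, 0 ≤ g → (∀ x, -g * ‖x‖ ^ 2 ≤ qf G x) → ∀ x, -(θ * g) * ‖x‖ ^ 2 ≤ qf G x := by
    intro g hg hb y
    obtain ⟨x, rfl⟩ := hsurj y
    have e1 : qf G (x + (t : ℂ) • P x) =
        qf G x + 2 * (t * (⟪G (P x), x⟫_ℂ).re) + t ^ 2 * qf G (P x) := by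
      have e2 : (⟪G x, P x⟫_ℂ).re = (⟪G (P x), x⟫_ℂ).re := by
        have : ⟪G x, P x⟫_ℂ = ⟪x, G (P x)⟫_ℂ := by
          have := ContinuousLinearMap.adjoint_inner_right G x (P x)
          rw [← ContinuousLinearMap.star_eq_adjoint, hG.star_eq] at this
          exact this.symm
        rw [this, re_symm]
      simp only [qf, map_add, map_smul, inner_add_left, inner_add_right, inner_smul_left,
        inner_smul_right, Complex.add_re, Complex.conj_ofReal, Complex.re_ofReal_mul, e2]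
      ring
    have e2 := hb x
    have e3 := hb (P x)
    have e4 : ‖P x‖ ^ 2 ≤ ‖P‖ ^ 2 * ‖x‖ ^ 2 := by
      rw [← mul_pow]; gcongr; exact P.le_opNorm x
    have e5 : -(g * (1 + t ^ 2 * ‖P‖ ^ 2)) * ‖x‖ ^ 2 ≤ qf G (x + (t : ℂ) • P x) := by
      rw [e1]
      have := h x
      nlinarith [mul_le_mul_of_nonneg_left e4 (mul_nonneg (sq_nonneg t) hg),
        mul_le_mul_of_nonneg_left e3 (sq_nonneg t), mul_nonneg ht0.le this]
    refine le_trans ?_ e5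
    have e6 := hnorm x
    have e7 : θ * g * ((1 + t * ε) ^ 2 * ‖x‖ ^ 2) ≤ θ * g * ‖x + (t : ℂ) • P x‖ ^ 2 :=
      mul_le_mul_of_nonneg_left e6 (by positivity)
    have e8 : θ * (1 + t * ε) ^ 2 = 1 + t ^ 2 * ‖P‖ ^ 2 := by
      rw [hθ]; field_simp
    have e9 : θ * g * ((1 + t * ε) ^ 2 * ‖x‖ ^ 2) = g * (1 + t ^ 2 * ‖P‖ ^ 2) * ‖x‖ ^ 2 := by
      rw [← e8]; ring
    rw [e9] at e7
    linarith [e7]
  have iter : ∀ n : ℕ, ∀ x, -(θ ^ n * ‖G‖) * ‖x‖ ^ 2 ≤ qf G x := by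
    intro n
    induction n with
    | zero =>
      intro x
      have := (abs_le.mp (qf_le_norm G x)).1
      simpa using this
    | succ n ih =>
      intro x
      have := step (θ ^ n * ‖G‖) (by positivity) ih x
      rw [pow_succ']
      calc _ = -(θ * (θ ^ n * ‖G‖)) * ‖x‖ ^ 2 := by ring
        _ ≤ _ := this
  intro x
  have lim : Tendsto (fun n : ℕ => -(θ ^ n * ‖G‖) * ‖x‖ ^ 2) atTop (𝓝 0) := by
    have := tendsto_pow_atTop_nhds_zero_of_lt_one hθ0 hθ1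
    have := ((this.mul_const ‖G‖).neg).mul_const (‖x‖ ^ 2)
    simpa using this
  exact le_of_tendsto lim (Eventually.of_forall fun n => iter n x)

theorem qf_zero_of_sq {D : H →L[ℂ] H} (hD : IsSelfAdjoint D) (hpos : ∀ x, 0 ≤ qf D x) {x : H}
    (hx : qf D x = 0) : D x = 0 := by
  have h0 : 0 ≤ D := by
    rw [ContinuousLinearMap.nonneg_iff_isPositive,
      ContinuousLinearMap.isPositive_def']
    exact ⟨hD, hpos⟩
  obtain ⟨b, hb⟩ := CStarAlgebra.nonneg_iff_eq_star_mul_self.mp h0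
  have h1 : ‖b x‖ ^ 2 = 0 := by
    rw [← hx, qf, hb]
    have : ⟪(star b * b) x, x⟫_ℂ = ⟪b x, b x⟫_ℂ := by
      rw [ContinuousLinearMap.star_eq_adjoint]
      exact ContinuousLinearMap.adjoint_inner_left b x (b x)
    rw [this, inner_self_eq_norm_sq_to_K]
    norm_cast
  have h2 : b x = 0 := by simpa using h1
  rw [hb]
  change (star b) (b x) = 0
  rw [h2, map_zero]

theorem eq_of_qf {A B : H →L[ℂ] H} (hA : IsSelfAdjoint A) (hB : IsSelfAdjoint B)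
    (h : ∀ x, qf A x = qf B x) : A = B := by
  have : ∀ x, (A - B) x = 0 := fun x =>
    qf_zero_of_sq (hA.sub hB) (fun y => by rw [qf_sub, h y, sub_self])
      (by rw [qf_sub, h x, sub_self])
  ext x
  have := this x
  simpa [sub_eq_zero] using this

theorem sa_inner {A : H →L[ℂ] H} (hA : IsSelfAdjoint A) (x y : H) :
    ⟪A x, y⟫_ℂ = ⟪x, A y⟫_ℂ := by
  have := ContinuousLinearMap.adjoint_inner_left A y x
  rw [← ContinuousLinearMap.star_eq_adjoint, hA.star_eq] at this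
  exact this

theorem qf_pow_conj {P : H →L[ℂ] H} (hP : IsSelfAdjoint P) (k : ℕ) (y : H) :
    qf (P ^ k) (P y) = qf (P ^ (k + 2)) y := by
  unfold qf
  rw [← sa_inner hP]
  congr 2
  rw [show k + 2 = (k + 1) + 1 from rfl, pow_succ' P (k + 1), pow_succ P k]
  rfl

theorem qf_pow_half {P : H →L[ℂ] H} (k : ℕ) (y : H) :
    (⟪(P ^ (k + 1)) (P y), y⟫_ℂ).re = qf (P ^ (k + 2)) y := by
  unfold qf
  rw [show k + 2 = (k + 1) + 1 from rfl, pow_succ P (k + 1)]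
  rfl

/-- operator log-convexity -/
def LogConvex (A : ℕ → H →L[ℂ] H) : Prop :=
  ∀ k u v, 2 * (⟪A (k + 1) u, v⟫_ℂ).re ≤ qf (A k) u + qf (A (k + 2)) v

theorem max_step {A : ℕ → H →L[ℂ] H} (hA : ∀ k, IsSelfAdjoint (A k)) (hlog : LogConvex A)
    {P : H →L[ℂ] H} (hP : IsSelfAdjoint P) {ε : ℝ} (hε : 0 < ε)
    (hPε : ∀ x, ε * ‖x‖ ^ 2 ≤ qf P x) {k : ℕ} {M0 M2 : ℝ}
    (h0 : ∀ x, qf (A k) x ≤ M0 * qf (P ^ k) x)
    (h2 : ∀ x, qf (A (k + 2)) x ≤ M2 * qf (P ^ (k + 2)) x) (x : H) :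
    qf (A (k + 1)) x ≤ (M0 + M2) / 2 * qf (P ^ (k + 1)) x := by
  set G : H →L[ℂ] H := ((M0 + M2) / 2) • P ^ (k + 1) - A (k + 1) with hG
  have hGs : IsSelfAdjoint G := by
    refine IsSelfAdjoint.sub ?_ (hA _)
    exact IsSelfAdjoint.smul (IsSelfAdjoint.all _) (hP.pow _)
  have key : ∀ y, 0 ≤ (⟪G (P y), y⟫_ℂ).re := by
    intro y
    have e1 : (⟪G (P y), y⟫_ℂ).re =
        (M0 + M2) / 2 * qf (P ^ (k + 2)) y - (⟪A (k + 1) (P y), y⟫_ℂ).re := by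
      rw [← qf_pow_half]
      rw [hG]
      change (⟪((M0 + M2) / 2) • (P ^ (k + 1)) (P y) - A (k + 1) (P y), y⟫_ℂ).re = _
      rw [inner_sub_left, ← Complex.coe_smul, inner_smul_left, Complex.sub_re,
        Complex.conj_ofReal, Complex.re_ofReal_mul]
    have e2 := hlog k (P y) y
    have e3 := h0 (P y)
    have e4 := h2 y
    rw [qf_pow_conj hP] at e3
    rw [e1]
    linarith
  have := lyapunov hGs hP hε hPε key x
  rw [hG, qf_sub, qf_smul] at this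
  linarith

theorem max_principle {A : ℕ → H →L[ℂ] H} (hA : ∀ k, IsSelfAdjoint (A k)) (hlog : LogConvex A)
    {P : H →L[ℂ] H} (hP : IsSelfAdjoint P) {ε : ℝ} (hε : 0 < ε)
    (hPε : ∀ k x, ε ^ k * ‖x‖ ^ 2 ≤ qf (P ^ k) x) {N : ℕ} (hN : 1 ≤ N)
    (h0 : ∀ x, qf (A 0) x ≤ ‖x‖ ^ 2) (h1 : ∀ x, qf (A N) x ≤ qf (P ^ N) x) {k : ℕ} (hk : k ≤ N)
    (x : H) : qf (A k) x ≤ qf (P ^ k) x := by
  have hPε1 : ∀ x, ε * ‖x‖ ^ 2 ≤ qf P x := fun x => by simpa using hPε 1 x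
  have hPnn : ∀ k x, 0 ≤ qf (P ^ k) x := fun k x => le_trans (by positivity) (hPε k x)
  set U : ℝ → Prop := fun c => ∀ j : ℕ, j ≤ N → ∀ x, qf (A j) x ≤
    (1 + c * ((j : ℝ) * ((N : ℝ) - j))) * qf (P ^ j) x with hU
  have hNpos : (0 : ℝ) < N := by exact_mod_cast hN
  have improve : ∀ c : ℝ, 0 ≤ c → U c → U ((1 - 1 / (N : ℝ) ^ 2) * c) := by
    intro c hc hUc j hj x
    rcases Nat.eq_zero_or_pos j with rfl | hjpos
    · simpa [qf_one] using h0 x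
    rcases eq_or_lt_of_le hj with rfl | hjlt
    · simpa using h1 x
    obtain ⟨m, rfl⟩ : ∃ m, j = m + 1 := ⟨j - 1, by omega⟩
    have e0 := hUc m (by omega)
    have e2 := hUc (m + 2) (by omega)
    have e3 := max_step hA hlog hP hε hPε1 e0 e2 x
    refine e3.trans ?_
    refine mul_le_mul_of_nonneg_right ?_ (hPnn _ _)
    push_cast
    have hm : ((m : ℝ) + 1) * ((N : ℝ) - (m + 1)) ≤ (N : ℝ) ^ 2 := by
      have : (m : ℝ) + 1 < N := by exact_mod_cast hjlt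
      have hm0 : (0 : ℝ) ≤ m := Nat.cast_nonneg m
      nlinarith
    have hm2 : 1 / (N : ℝ) ^ 2 * (((m : ℝ) + 1) * ((N : ℝ) - (m + 1))) ≤ 1 := by
      rw [div_mul_eq_mul_div, one_mul, div_le_one (by positivity)]
      exact hm
    nlinarith [mul_le_mul_of_nonneg_left hm2 hc]
  have init : ∃ c : ℝ, 0 ≤ c ∧ U c := by
    refine ⟨∑ j ∈ Finset.range (N + 1), ‖A j‖ / ε ^ j, Finset.sum_nonneg fun j _ => by positivity,
      ?_⟩
    intro j hj x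
    rcases Nat.eq_zero_or_pos j with rfl | hjpos
    · simpa [qf_one] using h0 x
    rcases eq_or_lt_of_le hj with rfl | hjlt
    · simpa using h1 x
    have e1 : ‖A j‖ / ε ^ j ≤ ∑ j ∈ Finset.range (N + 1), ‖A j‖ / ε ^ j :=
      Finset.single_le_sum (f := fun j => ‖A j‖ / ε ^ j) (fun j _ => by positivity)
        (Finset.mem_range.mpr (by omega))
    set c : ℝ := ∑ j ∈ Finset.range (N + 1), ‖A j‖ / ε ^ j with hc
    have e2 : (1 : ℝ) ≤ (j : ℝ) * ((N : ℝ) - j) := by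
      have a1 : (1 : ℝ) ≤ j := by exact_mod_cast hjpos
      have a2 : (j : ℝ) + 1 ≤ N := by exact_mod_cast hjlt
      nlinarith
    have hc0 : 0 ≤ c := Finset.sum_nonneg fun j _ => by positivity
    have e3 : qf (A j) x ≤ ‖A j‖ * ‖x‖ ^ 2 := (le_abs_self _).trans (qf_le_norm _ _)
    have e4 : ‖A j‖ * ‖x‖ ^ 2 = ‖A j‖ / ε ^ j * (ε ^ j * ‖x‖ ^ 2) := by
      field_simp
    have e5 : ‖A j‖ / ε ^ j * (ε ^ j * ‖x‖ ^ 2) ≤ c * qf (P ^ j) x := by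
      refine mul_le_mul e1 (hPε j x) (by positivity) hc0
    have e6 : c * qf (P ^ j) x ≤ (1 + c * ((j : ℝ) * ((N : ℝ) - j))) * qf (P ^ j) x := by
      refine mul_le_mul_of_nonneg_right ?_ (hPnn _ _)
      nlinarith
    linarith
  obtain ⟨c, hc0, hc⟩ := init
  have hr0 : 0 ≤ 1 - 1 / (N : ℝ) ^ 2 := by
    have : (1 : ℝ) ≤ (N : ℝ) := by exact_mod_cast hN
    have : 1 / (N : ℝ) ^ 2 ≤ 1 := by
      rw [div_le_one (by positivity)]; nlinarith
    linarith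
  have hr1 : 1 - 1 / (N : ℝ) ^ 2 < 1 := by
    have : 0 < 1 / (N : ℝ) ^ 2 := by positivity
    linarith
  have iter : ∀ i : ℕ, U ((1 - 1 / (N : ℝ) ^ 2) ^ i * c) := by
    intro i
    induction i with
    | zero => simpa using hc
    | succ i ih =>
      have := improve _ (by positivity) ih
      rwa [← mul_assoc, ← pow_succ'] at this
  have lim : Tendsto (fun i : ℕ => (1 + ((1 - 1 / (N : ℝ) ^ 2) ^ i * c) *
      ((k : ℝ) * ((N : ℝ) - k))) * qf (P ^ k) x) atTop (𝓝 ((1 + (0 * c) *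
      ((k : ℝ) * ((N : ℝ) - k))) * qf (P ^ k) x)) := by
    have := tendsto_pow_atTop_nhds_zero_of_lt_one hr0 hr1
    exact (((this.mul_const c).mul_const _).const_add 1).mul_const _
  have := ge_of_tendsto lim (Eventually.of_forall fun i => iter i k hk x)
  simpa using this

theorem cfc_shift {ρ : H →L[ℂ] H} (hρ : IsSelfAdjoint ρ) (ε : ℝ) (k : ℕ) :
    cfc (fun t : ℝ => (t + ε) ^ k) ρ = (ρ + ε • (1 : H →L[ℂ] H)) ^ k := by
  rw [cfc_pow (fun t : ℝ => t + ε) k ρ, cfc_add_const ε (fun t : ℝ => t) ρ, cfc_id' ℝ ρ,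
    Algebra.algebraMap_eq_smul_one]

theorem spec_nonneg {ρ : H →L[ℂ] H} (hρ : 0 ≤ ρ) {t : ℝ} (ht : t ∈ spectrum ℝ ρ) : 0 ≤ t :=
  spectrum_nonneg_of_nonneg hρ ht

theorem qf_mono {A B : H →L[ℂ] H} (h : A ≤ B) (x : H) : qf A x ≤ qf B x := by
  rw [ContinuousLinearMap.le_def] at h
  have := h.re_inner_nonneg_left x
  have h2 : 0 ≤ qf (B - A) x := this
  rw [qf_sub] at h2
  linarith

theorem shift_ge {ρ : H →L[ℂ] H} (hρ : 0 ≤ ρ) {ε : ℝ} (hε : 0 ≤ ε) (k : ℕ) :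
    ρ ^ k ≤ (ρ + ε • (1 : H →L[ℂ] H)) ^ k := by
  have hs : IsSelfAdjoint ρ := IsSelfAdjoint.of_nonneg hρ
  rw [← cfc_shift hs ε k]
  have h0 : ρ ^ k = cfc (fun t : ℝ => t ^ k) ρ := by
    rw [cfc_pow (fun t : ℝ => t) k ρ, cfc_id' ℝ ρ]
  rw [h0]
  refine cfc_mono fun t ht => ?_
  have := spec_nonneg hρ ht
  gcongr
  linarith

theorem shift_ge' {ρ : H →L[ℂ] H} (hρ : 0 ≤ ρ) {ε : ℝ} (hε : 0 ≤ ε) (k : ℕ) :
    (ε ^ k) • (1 : H →L[ℂ] H) ≤ (ρ + ε • (1 : H →L[ℂ] H)) ^ k := by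
  have hs : IsSelfAdjoint ρ := IsSelfAdjoint.of_nonneg hρ
  rw [← cfc_shift hs ε k]
  have h0 : (ε ^ k) • (1 : H →L[ℂ] H) = cfc (fun _ : ℝ => ε ^ k) ρ := by
    rw [cfc_const (ε ^ k) ρ, Algebra.algebraMap_eq_smul_one]
  rw [h0]
  refine cfc_mono fun t ht => ?_
  have := spec_nonneg hρ ht
  gcongr
  linarith

theorem seq_le {A : ℕ → H →L[ℂ] H} (hA : ∀ k, IsSelfAdjoint (A k)) (hlog : LogConvex A)
    {ρ : H →L[ℂ] H} (hρ : 0 ≤ ρ) {N : ℕ} (hN : 1 ≤ N) (h0 : A 0 = 1) (h1 : A N = ρ ^ N) {k : ℕ}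
    (hk : k ≤ N) (x : H) : qf (A k) x ≤ qf (ρ ^ k) x := by
  have hs : IsSelfAdjoint ρ := IsSelfAdjoint.of_nonneg hρ
  have e1 : ∀ ε : ℝ, 0 < ε → qf (A k) x ≤ qf ((ρ + ε • (1 : H →L[ℂ] H)) ^ k) x := by
    intro ε hε
    have hP : IsSelfAdjoint (ρ + ε • (1 : H →L[ℂ] H)) :=
      hs.add (IsSelfAdjoint.smul (IsSelfAdjoint.all _) (IsSelfAdjoint.one _))
    refine max_principle hA hlog hP hε (fun k x => ?_) hN (fun x => ?_) (fun x => ?_) hk x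
    · have := qf_mono (shift_ge' hρ hε.le k) x
      rwa [qf_smul, qf_one] at this
    · rw [h0, qf_one]
    · rw [h1]
      exact qf_mono (shift_ge hρ hε.le N) x
  have hcont : Continuous fun ε : ℝ => qf ((ρ + ε • (1 : H →L[ℂ] H)) ^ k) x := by
    unfold qf
    have c1 : Continuous fun ε : ℝ => (ρ + ε • (1 : H →L[ℂ] H)) ^ k := by fun_prop
    have c2 : Continuous fun ε : ℝ => ((ρ + ε • (1 : H →L[ℂ] H)) ^ k) x :=
      c1.clm_apply continuous_const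
    exact Complex.continuous_re.comp (c2.inner continuous_const)
  have lim : Tendsto (fun ε : ℝ => qf ((ρ + ε • (1 : H →L[ℂ] H)) ^ k) x) (𝓝[>] 0)
      (𝓝 (qf (ρ ^ k) x)) := by
    have := hcont.tendsto 0
    simp only [zero_smul, add_zero] at this
    exact this.mono_left nhdsWithin_le_nhds
  refine ge_of_tendsto lim ?_
  filter_upwards [self_mem_nhdsWithin] with ε hε using e1 ε hε

theorem seq_down {A : ℕ → H →L[ℂ] H} (hA : ∀ k, IsSelfAdjoint (A k)) (hlog : LogConvex A)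
    {ρ : H →L[ℂ] H} (hρ : 0 ≤ ρ) {N : ℕ} (hApos : ∀ k x, 0 ≤ qf (A k) x)
    (hle : ∀ k ≤ N, ∀ x, qf (A k) x ≤ qf (ρ ^ k) x) {k : ℕ} (hk : k + 2 ≤ N)
    (h1 : A (k + 1) = ρ ^ (k + 1)) :
    A (k + 2) = ρ ^ (k + 2) ∧ (1 ≤ k → A k = ρ ^ k) := by
  have hs : IsSelfAdjoint ρ := IsSelfAdjoint.of_nonneg hρ
  have key : ∀ y, qf (A k) (ρ y) = qf (ρ ^ k) (ρ y) ∧ qf (A (k + 2)) y = qf (ρ ^ (k + 2)) y := by
    intro y
    have e1 := hlog k (ρ y) y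
    rw [h1, qf_pow_half] at e1
    have e2 := hle k (by omega) (ρ y)
    have e3 := hle (k + 2) hk y
    have e4 := qf_pow_conj hs k y
    constructor <;> linarith
  refine ⟨eq_of_qf (hA _) (hs.pow _) fun x => (key x).2, fun hk1 => ?_⟩
  set D : H →L[ℂ] H := ρ ^ k - A k with hD
  have hDs : IsSelfAdjoint D := (hs.pow _).sub (hA _)
  have hDpos : ∀ x, 0 ≤ qf D x := fun x => by
    rw [hD, qf_sub]; linarith [hle k (by omega) x]
  have hDρ : ∀ y, D (ρ y) = 0 := fun y =>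
    qf_zero_of_sq hDs hDpos (by rw [hD, qf_sub, (key y).1, sub_self])
  have hker : ∀ x, ρ x = 0 → D x = 0 := by
    intro x hx
    refine qf_zero_of_sq hDs hDpos (le_antisymm ?_ (hDpos x))
    rw [hD, qf_sub]
    obtain ⟨m, rfl⟩ : ∃ m, k = m + 1 := ⟨k - 1, by omega⟩
    have e1 : qf (ρ ^ (m + 1)) x = 0 := by
      unfold qf
      rw [pow_succ]
      change (⟪(ρ ^ m) (ρ x), x⟫_ℂ).re = 0
      rw [hx]; simp
    rw [e1]
    linarith [hApos (m + 1) x]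
  have hρD : ∀ x, ρ (D x) = 0 := by
    intro x
    have h2 : ⟪ρ (D x), ρ (D x)⟫_ℂ = ⟪x, D (ρ (ρ (D x)))⟫_ℂ := by
      rw [sa_inner hs, sa_inner hDs]
    rw [hDρ, inner_zero_right] at h2
    exact inner_self_eq_zero.mp h2
  have hDD : ∀ x, D x = 0 := by
    intro x
    have h2 : ⟪D x, D x⟫_ℂ = ⟪x, D (D x)⟫_ℂ := by rw [sa_inner hDs]
    rw [hker _ (hρD x), inner_zero_right] at h2
    exact inner_self_eq_zero.mp h2
  ext x
  have := hDD x
  rw [hD] at this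
  have h3 : (ρ ^ k) x - A k x = 0 := this
  exact (sub_eq_zero.mp h3).symm

theorem seq_eq {A : ℕ → H →L[ℂ] H} (hA : ∀ k, IsSelfAdjoint (A k)) (hlog : LogConvex A)
    {ρ : H →L[ℂ] H} (hρ : 0 ≤ ρ) (hApos : ∀ k x, 0 ≤ qf (A k) x) {n : ℕ} (hn : 1 ≤ n)
    (h0 : A 0 = 1) (h1 : A n = ρ ^ n) (h2 : A (2 * n) = ρ ^ (2 * n)) :
    A 1 = ρ ∧ A 2 = ρ ^ 2 := by
  have hle : ∀ k ≤ 2 * n, ∀ x, qf (A k) x ≤ qf (ρ ^ k) x := fun k hk x =>
    seq_le hA hlog hρ (by omega) h0 h2 hk x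
  have down : ∀ j, j < n → A (n - j) = ρ ^ (n - j) ∧ A (n - j + 1) = ρ ^ (n - j + 1) := by
    intro j
    induction j with
    | zero =>
      intro _
      refine ⟨by simpa using h1, ?_⟩
      obtain ⟨m, rfl⟩ : ∃ m, n = m + 1 := ⟨n - 1, by omega⟩
      exact (seq_down hA hlog hρ hApos hle (k := m) (by omega) h1).1
    | succ j ih =>
      intro hj
      obtain ⟨ih1, ih2⟩ := ih (by omega)
      obtain ⟨m, hm⟩ : ∃ m, n - j = m + 1 := ⟨n - j - 1, by omega⟩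
      have hm' : n - (j + 1) = m := by omega
      rw [hm] at ih1
      rw [hm']
      exact ⟨(seq_down hA hlog hρ hApos hle (k := m) (by omega) ih1).2 (by omega), ih1⟩
  obtain ⟨d1, d2⟩ := down (n - 1) (by omega)
  have : n - (n - 1) = 1 := by omega
  rw [this] at d1 d2
  exact ⟨by simpa using d1, d2⟩

end Pool.Agent.Q192.SphA
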