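import Mathlib
import Pool.Agent.Helper414.CuspStmt
import Pool.Agent.Helper414.CuspBasic

/-!
# A Toeplitz operator with rational unimodular symbol whose spectrum is not a spectral set
-/

set_option autoImplicit false

open MeasureTheory Set Polynomial
open scoped ENNReal InnerProductSpace ComplexConjugate InnerProduct

namespace Pool.Agent.Q192.Toep

/-- The closed set `X` is a spectral set for the operator `T`: it contains the spectrum of `T` and
`‖r(T)‖ ≤ sup_X |r|` for every rational function `r = p / q` without poles in `X` (every upper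
bound `M` of `|r|` on `X` is an upper bound of `‖r(T)‖`). -/
structure IsSpectralSet {H : Type*} [NormedAddCommGroup H] [InnerProductSpace ℂ H]
    (X : Set ℂ) (T : H →L[ℂ] H) : Prop where
  closed : IsClosed X
  subset : spectrum ℂ T ⊆ X
  bound : ∀ p q : ℂ[X], (∀ z ∈ X, q.eval z ≠ 0) → ∀ M : ℝ,
    (∀ z ∈ X, ‖p.eval z / q.eval z‖ ≤ M) → ‖aeval T p * Ring.inverse (aeval T q)‖ ≤ M

section Abstract

variable {H : Type*} [NormedAddCommGroup H] [InnerProductSpace ℂ H] [CompleteSpace H]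

/-- `1/2` -/
noncomputable abbrev hf : ℂ := 1 / 2

theorem unit_sub (R : H →L[ℂ] H) (hR : ‖R‖ < 1) : IsUnit (1 - R) := by
  have := (Units.oneSub R hR).isUnit
  simpa using this

theorem not_spectral (S S' T : H →L[ℂ] H) (hadj : ∀ x y, ⟪S x, y⟫_ℂ = ⟪x, S' y⟫_ℂ)
    (hS : ∀ x, S' (S x) = x) (e : H) (he : e ≠ 0) (hSe : S' e = 0)
    (hT : ∀ x, T (x - hf • S x) = x - hf • S' x) :
    ¬ IsSpectralSet (spectrum ℂ T) T := by
  have hiso : ∀ x, ‖S x‖ = ‖x‖ := by
    intro x
    have h1 : ⟪S x, S x⟫_ℂ = ⟪x, x⟫_ℂ := by rw [hadj, hS]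
    rw [inner_self_eq_norm_sq_to_K, inner_self_eq_norm_sq_to_K] at h1
    have h2 : ‖S x‖ ^ 2 = ‖x‖ ^ 2 := by exact_mod_cast h1
    nlinarith [norm_nonneg (S x), norm_nonneg x, sq_nonneg (‖S x‖ - ‖x‖), sq_nonneg (‖S x‖ + ‖x‖)]
  have hcon : ∀ x, ‖S' x‖ ≤ ‖x‖ := by
    intro x
    have h1 : ⟪S (S' x), x⟫_ℂ = ⟪S' x, S' x⟫_ℂ := hadj _ _
    have h2 : ‖⟪S (S' x), x⟫_ℂ‖ ≤ ‖S (S' x)‖ * ‖x‖ := norm_inner_le_norm _ _
    rw [h1, hiso, inner_self_eq_norm_sq_to_K] at h2
    have h3 : ‖S' x‖ ^ 2 ≤ ‖S' x‖ * ‖x‖ := by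
      have : ‖((‖S' x‖ : ℂ)) ^ 2‖ = ‖S' x‖ ^ 2 := by simp
      rw [← this]
      exact h2
    by_contra hlt
    rw [not_le] at hlt
    have h4 : 0 < ‖S' x‖ := lt_of_le_of_lt (norm_nonneg _) hlt
    nlinarith
  have hSn : ‖S‖ ≤ 1 := S.opNorm_le_bound zero_le_one (fun x => by rw [hiso, one_mul])
  have hS'n : ‖S'‖ ≤ 1 := S'.opNorm_le_bound zero_le_one (fun x => by rw [one_mul]; exact hcon x)
  have hhf : ‖hf‖ = 1 / 2 := by simp [hf]
  have hP : IsUnit (1 - hf • S) := unit_sub _ (by rw [norm_smul, hhf]; linarith)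
  have hQ : IsUnit (1 - hf • S') := unit_sub _ (by rw [norm_smul, hhf]; linarith)
  obtain ⟨P, hP'⟩ := hP
  obtain ⟨Q, hQ'⟩ := hQ
  have hPx : ∀ x, (P : H →L[ℂ] H) x = x - hf • S x := fun x => by rw [hP']; rfl
  have hQx : ∀ x, (Q : H →L[ℂ] H) x = x - hf • S' x := fun x => by rw [hQ']; rfl
  have hTP : T * P = Q := by
    ext x
    change T ((P : H →L[ℂ] H) x) = _
    rw [hPx, hT, hQx]
  have hTe : T = Q * ↑P⁻¹ := by rw [← hTP, mul_assoc, Units.mul_inv, mul_one]
  have hTu : IsUnit T := by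
    rw [hTe]
    exact (Q * P⁻¹).isUnit
  -- norm comparison
  have hre : ∀ x, RCLike.re ⟪x, S x⟫_ℂ = RCLike.re ⟪x, S' x⟫_ℂ := by
    intro x
    rw [← hadj, ← inner_conj_symm, RCLike.conj_re]
  have hnP : ∀ x, ‖(P : H →L[ℂ] H) x‖ ^ 2 =
      ‖x‖ ^ 2 - RCLike.re ⟪x, S x⟫_ℂ + 1 / 4 * ‖S x‖ ^ 2 := by
    intro x
    rw [hPx, @norm_sub_sq ℂ, inner_smul_right, norm_smul, hhf]
    have : RCLike.re (hf * ⟪x, S x⟫_ℂ) = 1 / 2 * RCLike.re ⟪x, S x⟫_ℂ := by
      simp [hf]
    rw [this]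
    ring
  have hnQ : ∀ x, ‖(Q : H →L[ℂ] H) x‖ ^ 2 =
      ‖x‖ ^ 2 - RCLike.re ⟪x, S' x⟫_ℂ + 1 / 4 * ‖S' x‖ ^ 2 := by
    intro x
    rw [hQx, @norm_sub_sq ℂ, inner_smul_right, norm_smul, hhf]
    have : RCLike.re (hf * ⟪x, S' x⟫_ℂ) = 1 / 2 * RCLike.re ⟪x, S' x⟫_ℂ := by
      simp [hf]
    rw [this]
    ring
  have hQP : ∀ x, ‖(Q : H →L[ℂ] H) x‖ ≤ ‖(P : H →L[ℂ] H) x‖ := by
    intro x
    have h1 := hnP x
    have h2 := hnQ x
    have h3 := hre x
    have h4 := hcon x
    have h5 := hiso x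
    have h6 : ‖S' x‖ ^ 2 ≤ ‖x‖ ^ 2 := pow_le_pow_left₀ (norm_nonneg _) h4 2
    have h7 : ‖(Q : H →L[ℂ] H) x‖ ^ 2 ≤ ‖(P : H →L[ℂ] H) x‖ ^ 2 := by
      rw [h1, h2, h3, h5]
      linarith
    exact (pow_le_pow_iff_left₀ (norm_nonneg _) (norm_nonneg _) two_ne_zero).1 h7
  have hTn : ‖T‖ ≤ 1 := by
    refine T.opNorm_le_bound zero_le_one (fun x => ?_)
    have h1 : x = (P : H →L[ℂ] H) ((↑P⁻¹ : H →L[ℂ] H) x) := by
      change x = ((P : H →L[ℂ] H) * ↑P⁻¹) x
      rw [Units.mul_inv]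
      rfl
    rw [one_mul]
    conv_lhs => rw [h1]
    conv_rhs => rw [h1]
    have h2 : T ((P : H →L[ℂ] H) ((↑P⁻¹ : H →L[ℂ] H) x)) =
        (Q : H →L[ℂ] H) ((↑P⁻¹ : H →L[ℂ] H) x) := by
      rw [← hTP]
      rfl
    rw [h2]
    exact hQP _
  have hS'e : S' = ContinuousLinearMap.adjoint S := by
    rw [ContinuousLinearMap.eq_adjoint_iff]
    intro x y
    rw [← inner_conj_symm, ← hadj, inner_conj_symm]
  have hPadj : star (P : H →L[ℂ] H) = Q := by
    rw [hP', hQ', star_sub, star_one, star_smul, hS'e, ContinuousLinearMap.star_eq_adjoint]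
    congr 2
    simp [hf]
  have hQadj : star (Q : H →L[ℂ] H) = P := by rw [← hPadj, star_star]
  have hTs : (Q : H →L[ℂ] H) * star T = P := by
    have := congrArg star hTP
    rw [star_mul, hPadj, hQadj] at this
    exact this
  have hspec : ∀ z ∈ spectrum ℂ T, 1 ≤ ‖z‖ := by
    intro z hz
    by_contra hlt
    rw [not_le] at hlt
    apply hz
    have hu : IsUnit (1 - z • star T) := by
      refine unit_sub _ ?_
      rw [norm_smul, norm_star]
      calc ‖z‖ * ‖T‖ ≤ ‖z‖ * 1 := by gcongr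
        _ < 1 := by rwa [mul_one]
    have h1 : (Q : H →L[ℂ] H) * (1 - z • star T) * ↑P⁻¹ = T - z • 1 := by
      rw [mul_sub, mul_one, mul_smul_comm, hTs, sub_mul, ← hTe, smul_mul_assoc, Units.mul_inv]
    have h2 : IsUnit (T - z • 1) := by
      rw [← h1]
      exact (Q.isUnit.mul hu).mul (P⁻¹).isUnit
    have h3 : algebraMap ℂ (H →L[ℂ] H) z - T = -(T - z • 1) := by
      rw [Algebra.algebraMap_eq_smul_one]
      abel
    change IsUnit (algebraMap ℂ (H →L[ℂ] H) z - T)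
    rw [h3]
    exact h2.neg
  rintro ⟨-, -, hb⟩
  have h1 := hb 1 X (fun z hz => by
    rw [eval_X]
    intro h0
    have := hspec z hz
    rw [h0, norm_zero] at this
    linarith) 1 (fun z hz => by
    rw [eval_one, eval_X, norm_div, norm_one]
    have := hspec z hz
    exact div_le_one_of_le₀ this (norm_nonneg _))
  rw [aeval_X, map_one, one_mul] at h1
  have h2 : Ring.inverse T e = (P : H →L[ℂ] H) e := by
    have h3 : T ((P : H →L[ℂ] H) e) = e := by
      change (T * (P : H →L[ℂ] H)) e = e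
      rw [hTP, hQx, hSe, smul_zero, sub_zero]
    have h4 : Ring.inverse T (T ((P : H →L[ℂ] H) e)) = (P : H →L[ℂ] H) e := by
      change (Ring.inverse T * T) ((P : H →L[ℂ] H) e) = _
      rw [Ring.inverse_mul_cancel _ hTu]
      rfl
    rw [← h4, h3]
  have h5 : ‖Ring.inverse T e‖ ≤ 1 * ‖e‖ := (Ring.inverse T).le_of_opNorm_le h1 e
  rw [h2, one_mul] at h5
  have h6 := hnP e
  have h7 : RCLike.re ⟪e, S e⟫_ℂ = 0 := by
    rw [hre, hSe, inner_zero_right, map_zero]
  rw [h7, hiso] at h6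
  have h8 : 0 < ‖e‖ := norm_pos_iff.2 he
  have h9 : ‖(P : H →L[ℂ] H) e‖ ^ 2 ≤ ‖e‖ ^ 2 := pow_le_pow_left₀ (norm_nonneg _) h5 2
  nlinarith

end Abstract

/-! ## Multiplication operators on `L²` of the circle -/

open Pool.Agent.Helper414.Cusp in
section

open Pool.Agent.Helper414.Cusp

theorem mulOp_mul (g h : C(UnitAddCircle, ℂ)) (f : Lp ℂ 2 mT) :
    mulOp mT (g * h) f = mulOp mT g (mulOp mT h f) := by
  apply Lp.ext
  filter_upwards [mulOp_ae mT (g * h) f, mulOp_ae mT g (mulOp mT h f), mulOp_ae mT h f] with x h1 h2 h3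
  rw [h1, h2, h3, ContinuousMap.mul_apply, mul_assoc]

theorem mulOp_one (f : Lp ℂ 2 mT) : mulOp mT 1 f = f := by
  apply Lp.ext
  filter_upwards [mulOp_ae mT 1 f] with x h1
  rw [h1, ContinuousMap.one_apply, one_mul]

theorem mulOp_sub_smul' (g h : C(UnitAddCircle, ℂ)) (c : ℂ) (f : Lp ℂ 2 mT) :
    mulOp mT (g - c • h) f = mulOp mT g f - c • mulOp mT h f := by
  apply Lp.ext
  filter_upwards [mulOp_ae mT (g - c • h) f, mulOp_ae mT g f, mulOp_ae mT h f,
    Lp.coeFn_sub (mulOp mT g f) (c • mulOp mT h f), Lp.coeFn_smul c (mulOp mT h f)]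
    with x h1 h2 h3 h4 h5
  rw [h1, h4, Pi.sub_apply, h5, Pi.smul_apply, h2, h3, ContinuousMap.sub_apply,
    ContinuousMap.smul_apply, smul_eq_mul, smul_eq_mul]
  ring

theorem mulOp_adj (g : C(UnitAddCircle, ℂ)) (f h : Lp ℂ 2 mT) :
    ⟪mulOp mT g f, h⟫_ℂ = ⟪f, mulOp mT (star g) h⟫_ℂ := by
  rw [MeasureTheory.L2.inner_def, MeasureTheory.L2.inner_def]
  refine integral_congr_ae ?_
  filter_upwards [mulOp_ae mT g f, mulOp_ae mT (star g) h] with x h1 h2
  rw [h1, h2, ContinuousMap.star_apply]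
  simp only [RCLike.inner_apply, map_mul, RCLike.star_def]
  ring

/-- the coordinate `z` -/
noncomputable def zc : C(UnitAddCircle, ℂ) := fourier 1

theorem zc_star_mul : star zc * zc = 1 := by
  ext t
  rw [ContinuousMap.mul_apply, ContinuousMap.star_apply, ContinuousMap.one_apply, zc]
  rw [RCLike.star_def, ← Complex.normSq_eq_conj_mul_self, Complex.normSq_eq_norm_sq,
    norm_fourier_one]
  simp

theorem zc_hardy {f : Lp ℂ 2 mT} (hf : f ∈ hardy) : mulOp mT zc f ∈ hardy := by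
  intro n hn
  have h1 : fourierCoeff (mulOp mT zc f : UnitAddCircle → ℂ) n =
      fourierCoeff (f : UnitAddCircle → ℂ) (n - 1) := by
    unfold fourierCoeff
    refine integral_congr_ae ?_
    filter_upwards [mulOp_ae mT zc f] with x h1
    rw [h1, zc, smul_eq_mul, smul_eq_mul, ← mul_assoc, ← fourier_add]
    congr 3
    ring
  rw [h1]
  exact hf (n - 1) (by omega)

/-- the projection -/
noncomputable abbrev pr : Lp ℂ 2 mT →L[ℂ] hardy := hardy.orthogonalProjectionOnto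

theorem toep_apply (g : C(UnitAddCircle, ℂ)) (x : hardy) :
    toeplitz g x = pr (mulOp mT g (x : Lp ℂ 2 mT)) := rfl

theorem inner_pr (f : Lp ℂ 2 mT) (y : hardy) : ⟪pr f, y⟫_ℂ = ⟪f, (y : Lp ℂ 2 mT)⟫_ℂ := by
  have := Submodule.inner_orthogonalProjectionOnto_eq_of_mem_right y f
  rw [← this]

theorem toep_adj (g : C(UnitAddCircle, ℂ)) (x y : hardy) :
    ⟪toeplitz g x, y⟫_ℂ = ⟪x, toeplitz (star g) y⟫_ℂ := by
  rw [toep_apply, inner_pr, mulOp_adj, toep_apply, ← inner_conj_symm x, inner_pr, inner_conj_symm]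

theorem pr_coe (x : hardy) : pr (x : Lp ℂ 2 mT) = x :=
  Submodule.orthogonalProjectionOnto_mem_subspace_eq_self x

theorem coe_toep_zc (x : hardy) : ((toeplitz zc x : hardy) : Lp ℂ 2 mT) = mulOp mT zc x := by
  have h : toeplitz zc x = ⟨mulOp mT zc x, zc_hardy x.2⟩ := by
    rw [toep_apply]
    exact pr_coe ⟨mulOp mT zc x, zc_hardy x.2⟩
  rw [h]

theorem toep_star_zc (x : hardy) : toeplitz (star zc) (toeplitz zc x) = x := by
  rw [toep_apply, coe_toep_zc, ← mulOp_mul, zc_star_mul, mulOp_one, pr_coe]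

/-- the denominator `1 - z/2` -/
noncomputable def hh : C(UnitAddCircle, ℂ) := 1 - hf • zc

theorem hh_ne (t : UnitAddCircle) : hh t ≠ 0 := by
  intro h
  have h1 : (1 : ℂ) = hf * zc t := by
    have : (1 : ℂ) - hf * zc t = 0 := h
    linear_combination this
  have h2 := congrArg norm h1
  rw [norm_mul, norm_one] at h2
  have h3 : ‖zc t‖ = 1 := norm_fourier_one t
  have h4 : ‖hf‖ = 1 / 2 := by simp [hf]
  rw [h3, h4] at h2
  norm_num at h2

/-- the symbol `(1 - z̄/2) / (1 - z/2)` -/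
noncomputable def FF : C(UnitAddCircle, ℂ) where
  toFun t := star hh t / hh t
  continuous_toFun := (star hh).continuous.div hh.continuous hh_ne

theorem FF_mul : FF * hh = 1 - hf • star zc := by
  ext t
  rw [ContinuousMap.mul_apply]
  change star hh t / hh t * hh t = _
  rw [div_mul_cancel₀ _ (hh_ne t), ContinuousMap.star_apply, ContinuousMap.sub_apply,
    ContinuousMap.smul_apply, ContinuousMap.star_apply, hh, ContinuousMap.sub_apply,
    ContinuousMap.smul_apply, star_sub, star_smul]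
  simp [hf]

theorem toep_key (x : hardy) :
    toeplitz FF (x - hf • toeplitz zc x) = x - hf • toeplitz (star zc) x := by
  have h1 : ((x - hf • toeplitz zc x : hardy) : Lp ℂ 2 mT) = mulOp mT hh x := by
    rw [hh, mulOp_sub_smul', mulOp_one, Submodule.coe_sub, Submodule.coe_smul, coe_toep_zc]
  rw [toep_apply, h1, ← mulOp_mul, FF_mul, mulOp_sub_smul', mulOp_one, map_sub, map_smul, pr_coe]
  rfl

/-- the constant function 1 in the Hardy space -/
noncomputable def e0 : hardy := ⟨vec 1, vec_mem_hardy (fun n hn => by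
  have h1 : (1 : C(UnitAddCircle, ℂ)) = fourier 0 := by
    ext t
    simp
  rw [h1, fourierCoeff_fourier]
  exact Pi.single_eq_of_ne (by omega) _)⟩

theorem e0_ne : e0 ≠ 0 := by
  intro h
  have h1 : vec 1 = 0 := congrArg Subtype.val h
  have h2 := norm_vec_sq 1
  rw [h1] at h2
  simp at h2

theorem toep_star_e0 : toeplitz (star zc) e0 = 0 := by
  rw [toep_apply]
  have h1 : mulOp mT (star zc) (e0 : Lp ℂ 2 mT) = vec (star zc) := by
    change mulOp mT (star zc) (vec 1) = _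
    rw [mulOp_vec, mul_one]
  rw [h1]
  refine Submodule.orthogonalProjectionOnto_eq_zero_iff.2 ?_
  refine vec_mem_perp (fun n hn => ?_)
  have h2 : star zc = fourier (-1) := by
    ext t
    rw [ContinuousMap.star_apply, zc]
    exact conj_fourier_one t
  rw [h2, fourierCoeff_fourier]
  exact Pi.single_eq_of_ne (by omega) _

theorem norm_FF (t : UnitAddCircle) : ‖FF t‖ = 1 := by
  change ‖star hh t / hh t‖ = 1
  rw [norm_div, ContinuousMap.star_apply, norm_star, div_self]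
  exact norm_ne_zero_iff.2 (hh_ne t)

theorem rational_FF : RationalSymbol FF := by
  refine ⟨Polynomial.X - C (1 / 2), Polynomial.X * (1 - C (1 / 2) * Polynomial.X), ?_, ?_⟩
  · intro z hz h
    rw [eval_mul, eval_X, eval_sub, eval_one, eval_mul, eval_C, eval_X, mul_eq_zero] at h
    rcases h with h | h
    · rw [h, norm_zero] at hz
      exact zero_ne_one hz
    · have h1 : (1 : ℂ) = 1 / 2 * z := by linear_combination h
      have h2 := congrArg norm h1
      rw [norm_mul, norm_one, hz] at h2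
      norm_num at h2
  · intro t
    have hz : ‖(fourier 1 t : ℂ)‖ = 1 := norm_fourier_one t
    have hz0 : (fourier 1 t : ℂ) ≠ 0 := by
      intro h
      rw [h, norm_zero] at hz
      exact zero_ne_one hz
    have hc : conj (fourier 1 t : ℂ) = (fourier 1 t : ℂ)⁻¹ := by
      rw [Complex.inv_def, Complex.normSq_eq_norm_sq, hz]
      simp
    have h1 : hh t = 1 - 1 / 2 * (fourier 1 t : ℂ) := rfl
    have h2 : FF t = conj (hh t) / hh t := rfl
    have h3 := hh_ne t
    rw [h1] at h3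
    rw [h2, h1, map_sub, map_one, map_mul, hc]
    simp only [eval_mul, eval_X, eval_sub, eval_one, eval_C]
    have h4 : conj (1 / 2 : ℂ) = 1 / 2 := by rw [map_div₀, map_one, map_ofNat]
    rw [h4]
    field_simp

/-- the Toeplitz operator with symbol `FF` has a spectrum which is not a spectral set -/
theorem main_cusp : ¬ IsSpectralSet (spectrum ℂ (toeplitz FF)) (toeplitz FF) :=
  not_spectral (toeplitz zc) (toeplitz (star zc)) (toeplitz FF) (toep_adj zc) toep_star_zc e0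
    e0_ne toep_star_e0 toep_key

end

open Pool.Agent.Helper414 in
theorem toep_eq (g : C(UnitAddCircle, ℂ)) (v : CuspStmt.H2) :
    CuspStmt.toeplitz g v = Cusp.toeplitz g (show Cusp.hardy from v) := by
  have e2 : CuspStmt.mul CuspStmt.mT g (show CuspStmt.L2 CuspStmt.mT from
      ((show Cusp.hardy from v : Cusp.hardy) : Lp ℂ 2 Cusp.mT)) =
      Cusp.mulOp Cusp.mT g ((show Cusp.hardy from v : Cusp.hardy) : Lp ℂ 2 Cusp.mT) :=
    CuspStmt.mul_eq CuspStmt.mT g _
  have e3 : CuspStmt.toeplitz g v = (show CuspStmt.H2 from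
      Cusp.hardy.orthogonalProjectionOnto
        (CuspStmt.mul CuspStmt.mT g (show CuspStmt.L2 CuspStmt.mT from
          ((show Cusp.hardy from v : Cusp.hardy) : Lp ℂ 2 Cusp.mT)))) := rfl
  rw [e3, e2]
  rfl

open Pool.Agent.Helper414 in
instance : CompleteSpace CuspStmt.H2 := (inferInstance : CompleteSpace CuspStmt.hardy)

open Pool.Agent.Helper414 in
theorem main_stmt : ¬ IsSpectralSet (spectrum ℂ (CuspStmt.toeplitz FF)) (CuspStmt.toeplitz FF) := by
  refine not_spectral (CuspStmt.toeplitz zc) (CuspStmt.toeplitz (star zc)) (CuspStmt.toeplitz FF)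
    ?_ ?_ (show CuspStmt.H2 from e0) e0_ne ?_ ?_
  · intro x y
    rw [toep_eq, toep_eq]
    exact toep_adj zc _ _
  · intro x
    rw [toep_eq, toep_eq]
    exact toep_star_zc _
  · rw [toep_eq]
    exact toep_star_e0
  · intro x
    rw [toep_eq, toep_eq, toep_eq]
    exact toep_key _

open Pool.Agent.Helper414 in
theorem curve_FF : ∃ Γ : Set ℂ, Cusp.SimpleClosedCurve Γ ∧ ∀ t, FF t ∈ Γ :=
  ⟨Metric.sphere 0 1, ⟨fun z => (z : ℂ), continuous_subtype_val, Subtype.val_injective, by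
    ext z
    constructor
    · rintro ⟨w, rfl⟩
      exact w.2
    · intro hz
      exact ⟨⟨z, hz⟩, rfl⟩⟩, fun t => by
    rw [mem_sphere_zero_iff_norm]
    exact norm_FF t⟩

end Pool.Agent.Q192.Toep
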